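import Mathlib

/-!
# Schemes over a field, and varieties
-/

namespace Pool.Agent.Lib.MP_4ca46c_ag.Sign

open CategoryTheory Limits AlgebraicGeometry TensorProduct

/-- Schemes over the field `k₀`. -/
abbrev Sch (k₀ : Type) [Field k₀] : Type 1 := Over (Spec (CommRingCat.of k₀))

section pt

variable (k₀ : Type) [Field k₀]

/-- The scheme `Spec F` over `k₀`. -/
noncomputable def pt (F : Type) [Field F] [Algebra k₀ F] : Sch k₀ :=
  Over.mk (Spec.map (CommRingCat.ofHom (algebraMap k₀ F)))

/-- The morphism `Spec F' ⟶ Spec F` given by a homomorphism of fields over `k₀`. -/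
noncomputable def ptMap {F F' : Type} [Field F] [Algebra k₀ F] [Field F'] [Algebra k₀ F']
    (φ : F →ₐ[k₀] F') : pt k₀ F' ⟶ pt k₀ F :=
  Over.homMk (Spec.map (CommRingCat.ofHom φ.toRingHom)) (by
    simp only [pt, Over.mk_hom, Over.mk_left]
    rw [← Spec.map_comp, ← CommRingCat.ofHom_comp]
    congr 2
    exact φ.comp_algebraMap)

end pt

variable {k₀ : Type} [Field k₀]

/-- `x : X ⟶ Spec F` is smooth, separated and quasi-compact. -/
structure IsSm {F : Type} [Field F] [Algebra k₀ F] {X : Sch k₀} (x : X ⟶ pt k₀ F) : Prop where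
  smooth : Smooth x.left
  separated : IsSeparated x.left
  quasiCompact : QuasiCompact x.left

/-- `X` is a smooth separated quasi-compact scheme over some field extension of `k₀`. -/
def Sm (X : Sch k₀) : Prop :=
  ∃ (F : Type) (_ : Field F) (_ : Algebra k₀ F) (x : X ⟶ pt k₀ F), IsSm x

/-- `x : X ⟶ Spec F` is smooth of pure dimension `n`, proper and geometrically connected. -/
structure IsVar {F : Type} [Field F] [Algebra k₀ F] {X : Sch k₀} (x : X ⟶ pt k₀ F) (n : ℕ) :
    Prop where
  smooth : SmoothOfRelativeDimension n x.left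
  proper : IsProper x.left
  connected : GeometricallyConnected x.left

/-- `f : E ⟶ U` is an affine bundle: locally on `U` it is isomorphic to the projection
`𝔸^m × U ⟶ U`. -/
def IsAffineBundle {E U : Scheme.{0}} (f : E ⟶ U) : Prop :=
  ∀ x : U, ∃ (V : U.Opens) (m : ℕ) (e : (f ⁻¹ᵁ V).toScheme ≅ 𝔸(Fin m; V.toScheme)),
    x ∈ V ∧ e.hom ≫ (𝔸(Fin m; V.toScheme) ↘ V.toScheme) = f ∣_ V

/-- The open immersion `j : U ⟶ X` is the complement of the closed immersion `i : T ⟶ X`. -/
structure IsComplement {T U X : Sch k₀} (i : T ⟶ X) (j : U ⟶ X) : Prop where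
  closed : IsClosedImmersion i.left
  isOpen : IsOpenImmersion j.left
  compl : Set.range j.left = (Set.range i.left)ᶜ

/-- `X` is a smooth proper connected variety over some algebraically closed field. -/
def IsWeil {k₀ : Type} [Field k₀] (X : Sch k₀) : Prop :=
  ∃ (k : Type) (_ : Field k) (_ : Algebra k₀ k) (_ : IsAlgClosed k) (x : X ⟶ pt k₀ k) (n : ℕ),
    IsVar x n

end Pool.Agent.Lib.MP_4ca46c_ag.Sign
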