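import Mathlib
import Pool.Agent.Lib.MP_4ca46c_ag.Sign.Base

/-!
# Chow groups and Weil cohomology of schemes

The axioms are the usual properties of Chow groups of smooth schemes over fields (Fulton) and of
a Weil cohomology theory (Kleiman), for schemes over a fixed algebraically closed field `k₀`.
-/

namespace Pool.Agent.Lib.MP_4ca46c_ag.Sign

open CategoryTheory Limits AlgebraicGeometry TensorProduct

/-- `C` is the tensor product of `A` and `B`, where `μ a b` corresponds to `a ⊗ b`. -/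
def IsTensor (K : Type) [Field K] {A B C : Type} [Ring A] [Algebra K A] [Ring B] [Algebra K B]
    [Ring C] [Algebra K C] (μ : A → B → C) : Prop :=
  ∃ e : A ⊗[K] B ≃ₗ[K] C, ∀ a b, e (a ⊗ₜ b) = μ a b

/-- Chow rings `CH(X)` with rational coefficients and cohomology rings `H(X)` with coefficients in
the field `K`, for schemes `X` over `k₀`, with pull-backs, push-forward of cycles, traces and
cycle classes. The axioms are in `CohData.IsTheory`. -/
structure CohData (k₀ K : Type) [Field k₀] [Field K] where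
  /-- The Chow ring with rational coefficients. -/
  CH : Sch k₀ → Type
  [ring : ∀ X, CommRing (CH X)]
  [algebra : ∀ X, Algebra ℚ (CH X)]
  /-- The subspace `CH^p(X)` of cycles of codimension `p`. -/
  codim : ∀ X, ℕ → Submodule ℚ (CH X)
  /-- Pull-back of cycles. -/
  pull : ∀ {X Y : Sch k₀}, (X ⟶ Y) → CH Y →ₐ[ℚ] CH X
  /-- Push-forward of cycles. -/
  push : ∀ {X Y : Sch k₀}, (X ⟶ Y) → CH X →ₗ[ℚ] CH Y
  /-- The cohomology ring. -/
  H : Sch k₀ → Type
  [ringH : ∀ X, Ring (H X)]
  [algebraH : ∀ X, Algebra K (H X)]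
  /-- The subspace `H^i(X)`. -/
  deg : ∀ X, ℕ → Submodule K (H X)
  /-- Pull-back in cohomology. -/
  pullH : ∀ {X Y : Sch k₀}, (X ⟶ Y) → H Y →ₐ[K] H X
  /-- The trace (orientation) map, zero outside the top degree. -/
  tr : ∀ X, H X →ₗ[K] K
  /-- The cycle class map. -/
  cl : ∀ X, CH X →+* H X

namespace CohData

attribute [instance] ring algebra ringH algebraH

variable {k₀ K : Type} [Field k₀] [Field K] (D : CohData k₀ K)

section shorthand

variable {X Y : Sch k₀}

/-- The cycle `a` has codimension `p`. -/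
def Codim (p : ℕ) (a : D.CH X) : Prop := a ∈ D.codim X p

/-- The class `u` is in `H^i(X)`. -/
def Deg (i : ℕ) (u : D.H X) : Prop := u ∈ D.deg X i

/-- The intersection product. -/
def mul (a b : D.CH X) : D.CH X := a * b

/-- The pull-back `f^* a` of a cycle. -/
def pb (f : X ⟶ Y) (a : D.CH Y) : D.CH X := D.pull f a

/-- The push-forward `f_* a` of a cycle. -/
def pf (f : X ⟶ Y) (a : D.CH X) : D.CH Y := D.push f a

/-- The fundamental class. -/
def fund (X : Sch k₀) : D.CH X := 1

/-- The cup product. -/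
def cup (u v : D.H X) : D.H X := u * v

/-- The pull-back `f^* u` in cohomology. -/
def pbH (f : X ⟶ Y) (u : D.H Y) : D.H X := D.pullH f u

/-- The trace. -/
def trace (u : D.H X) : K := D.tr X u

/-- The cohomology class of a cycle. -/
def cls (a : D.CH X) : D.H X := D.cl X a

/-- The unit of the cohomology ring. -/
def oneH (X : Sch k₀) : D.H X := 1

end shorthand

section Chow

/-- `CH^0(X)` contains the fundamental class, and the product respects the codimension. -/
def CodimMul : Prop := (∀ X, D.Codim 0 (D.fund X)) ∧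
  ∀ X p q (a b : D.CH X), D.Codim p a → D.Codim q b → D.Codim (p + q) (D.mul a b)

/-- Pull-back respects the codimension. -/
def CodimPull : Prop := ∀ (X Y : Sch k₀) (f : X ⟶ Y), Sm X → Sm Y →
  ∀ p (a : D.CH Y), D.Codim p a → D.Codim p (D.pb f a)

/-- Pull-back of cycles is functorial. -/
def PullFunctor : Prop := (∀ X, Sm X → ∀ a : D.CH X, D.pb (𝟙 X) a = a) ∧
  ∀ (X Y Z : Sch k₀) (f : X ⟶ Y) (g : Y ⟶ Z), Sm X → Sm Y → Sm Z →
    ∀ a, D.pb (f ≫ g) a = D.pb f (D.pb g a)

/-- The push-forward along a proper morphism of smooth schemes of dimensions `m` and `n` over a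
field shifts the codimension by `n - m`. -/
def CodimPush : Prop := ∀ (F : Type) [Field F] [Algebra k₀ F] (X Y : Sch k₀) (x : X ⟶ pt k₀ F)
  (y : Y ⟶ pt k₀ F) (f : X ⟶ Y), f ≫ y = x → IsSm x → IsSm y → IsProper f.left →
  ∀ m n, SmoothOfRelativeDimension m x.left → SmoothOfRelativeDimension n y.left →
  ∀ p q, p + n = q + m → ∀ a, D.Codim p a → D.Codim q (D.pf f a)

/-- Push-forward commutes with flat base change. -/
def FlatBaseChange : Prop := ∀ (X Y X' Y' : Sch k₀) (f : X ⟶ Y) (f' : X' ⟶ Y') (g' : X' ⟶ X)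
  (g : Y' ⟶ Y), IsPullback g' f' f g → Sm X → Sm Y → Sm X' → Sm Y' → IsProper f.left →
  Flat g.left → ∀ a, D.pb g (D.pf f a) = D.pf f' (D.pb g' a)

/-- Restriction to open subschemes and to generic fibres (flat monomorphisms) is surjective. -/
def Restriction : Prop := ∀ (X Y : Sch k₀) (f : X ⟶ Y), Sm X → Sm Y → Flat f.left →
  Mono f.left → QuasiCompact f.left → ∀ p a, D.Codim p a → ∃ b, D.Codim p b ∧ D.pb f b = a

/-- Homotopy invariance: pull-back along an affine bundle is surjective. -/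
def Homotopy : Prop := ∀ (X Y : Sch k₀) (f : X ⟶ Y), Sm X → Sm Y →
  IsAffineBundle f.left → ∀ p a, D.Codim p a → ∃ b, D.Codim p b ∧ D.pb f b = a

/-- The localization sequence for a smooth closed subscheme `T` of codimension `c`. -/
def Localization : Prop := ∀ (F : Type) [Field F] [Algebra k₀ F] (T U X : Sch k₀)
  (t : T ⟶ pt k₀ F) (x : X ⟶ pt k₀ F) (i : T ⟶ X) (j : U ⟶ X), i ≫ x = t → IsSm t → IsSm x →
  IsComplement i j → ∀ m c, SmoothOfRelativeDimension m t.left →
  SmoothOfRelativeDimension (m + c) x.left → ∀ p a, D.Codim (p + c) a → D.pb j a = 0 →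
  ∃ b, D.Codim p b ∧ D.pf i b = a

/-- Cycles of codimension `0` on a connected scheme are multiples of the fundamental class. -/
def CodimZero : Prop := ∀ X, Sm X → ConnectedSpace X.left → ∀ a : D.CH X, D.Codim 0 a →
  ∃ q : ℚ, a = q • D.fund X

/-- `s : X' ⟶ X'` is a conjugation: it covers the identity of `X` and the automorphism `σ`
of `F'` over `F`. -/
def IsConj {F F' : Type} [Field F] [Algebra k₀ F] [Field F'] [Algebra k₀ F'] [Algebra F F']
    [IsScalarTower k₀ F F'] {X X' : Sch k₀} (x' : X' ⟶ pt k₀ F') (g : X' ⟶ X)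
    (σ : F' →ₐ[F] F') (s : X' ⟶ X') : Prop :=
  s ≫ g = g ∧ s ≫ x' = x' ≫ ptMap k₀ (σ.restrictScalars k₀)

/-- Base change to the algebraic closure `F'` of `F`: for every cycle over `F'` some sum of
conjugates comes from a cycle over `F`. -/
def Norm : Prop := ∀ (F F' : Type) [Field F] [Algebra k₀ F] [Field F'] [Algebra k₀ F']
  [Algebra F F'] [IsScalarTower k₀ F F'] [IsAlgClosure F F'] (X X' : Sch k₀)
  (x : X ⟶ pt k₀ F) (x' : X' ⟶ pt k₀ F') (g : X' ⟶ X), IsSm x →
  IsPullback g x' x (ptMap k₀ (IsScalarTower.toAlgHom k₀ F F')) →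
  ∀ p a, D.Codim p a → ∃ (N : ℕ) (σ : Fin N → F' →ₐ[F] F') (s : Fin N → (X' ⟶ X')),
    0 < N ∧ (∀ i, IsConj x' g (σ i) (s i)) ∧
    ∃ b, D.Codim p b ∧ D.pb g b = ∑ i, D.pb (s i) a

/-- The axioms for Chow groups. -/
structure IsChow : Prop where
  codimMul : D.CodimMul
  codimPull : D.CodimPull
  pullFunctor : D.PullFunctor
  codimPush : D.CodimPush
  flatBaseChange : D.FlatBaseChange
  restriction : D.Restriction
  homotopy : D.Homotopy
  localization : D.Localization
  codimZero : D.CodimZero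
  norm : D.Norm

end Chow

section Weil

/-- The cohomology is finite dimensional, and the direct sum of the `H^i(X)`. -/
def Graded : Prop := ∀ X : Sch k₀, IsWeil X →
  FiniteDimensional K (D.H X) ∧ DirectSum.IsInternal (D.deg X)

/-- The cohomology ring is a graded ring. -/
def DegMul : Prop := ∀ X : Sch k₀, IsWeil X → D.Deg 0 (D.oneH X) ∧
  ∀ i j (u v : D.H X), D.Deg i u → D.Deg j v → D.Deg (i + j) (D.cup u v)

/-- The cohomology ring is graded commutative. -/
def GradedComm : Prop := ∀ X : Sch k₀, IsWeil X → ∀ i j (u v : D.H X), D.Deg i u → D.Deg j v →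
  D.cup u v = (-1) ^ (i * j) * D.cup v u

/-- Pull-back in cohomology respects the degree. -/
def DegPull : Prop := ∀ (X Y : Sch k₀) (f : X ⟶ Y), IsWeil X → IsWeil Y →
  ∀ i (u : D.H Y), D.Deg i u → D.Deg i (D.pbH f u)

/-- Pull-back in cohomology is functorial. -/
def PullHFunctor : Prop := (∀ X, IsWeil X → ∀ u : D.H X, D.pbH (𝟙 X) u = u) ∧
  ∀ (X Y Z : Sch k₀) (f : X ⟶ Y) (g : Y ⟶ Z), IsWeil X → IsWeil Y → IsWeil Z →
    ∀ u, D.pbH (f ≫ g) u = D.pbH f (D.pbH g u)

/-- The trace is zero outside the top degree. -/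
def TraceDeg : Prop := ∀ (k : Type) [Field k] [Algebra k₀ k] [IsAlgClosed k] (X : Sch k₀)
  (x : X ⟶ pt k₀ k) (n : ℕ), IsVar x n → ∀ i, i ≠ 2 * n → ∀ u : D.H X, D.Deg i u →
  D.trace u = 0

/-- The trace is invariant under isomorphisms. -/
def TraceIso : Prop := ∀ (X Y : Sch k₀) (f : X ⟶ Y), IsIso f → IsWeil X → IsWeil Y →
  ∀ u, D.trace (D.pbH f u) = D.trace u

/-- Poincaré duality. -/
def Poincare : Prop := ∀ X : Sch k₀, IsWeil X → ∀ u : D.H X,
  (∀ v, D.trace (D.cup u v) = 0) → u = 0

/-- The Künneth formula `H(X × Y) = H(X) ⊗ H(Y)`, for the product `P` of `X` and `Y`. -/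
def KunnethFormula : Prop := ∀ (k : Type) [Field k] [Algebra k₀ k] [IsAlgClosed k]
  (X Y P : Sch k₀) (x : X ⟶ pt k₀ k) (y : Y ⟶ pt k₀ k) (p : P ⟶ X) (q : P ⟶ Y) (m n : ℕ),
  IsVar x m → IsVar y n → IsPullback p q x y →
  IsTensor K fun (u : D.H X) (v : D.H Y) => D.cup (D.pbH p u) (D.pbH q v)

/-- The trace of a product. -/
def TraceKunneth : Prop := ∀ (k : Type) [Field k] [Algebra k₀ k] [IsAlgClosed k]
  (X Y P : Sch k₀) (x : X ⟶ pt k₀ k) (y : Y ⟶ pt k₀ k) (p : P ⟶ X) (q : P ⟶ Y) (m n : ℕ),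
  IsVar x m → IsVar y n → IsPullback p q x y →
  ∀ u v, D.trace (D.cup (D.pbH p u) (D.pbH q v)) = D.trace u * D.trace v

/-- The trace of the unit of a point is `1`. -/
def TracePt : Prop := ∀ (k : Type) [Field k] [Algebra k₀ k] [IsAlgClosed k],
  D.trace (D.oneH (pt k₀ k)) = 1

/-- `H^0` of a connected variety. -/
def DegZero : Prop := ∀ X : Sch k₀, IsWeil X → ∀ u : D.H X, D.Deg 0 u → ∃ c : K,
  u = c • D.oneH X

/-- The class of a cycle of codimension `p` has degree `2p`. -/
def DegCl : Prop := ∀ X : Sch k₀, IsWeil X → ∀ p (a : D.CH X), D.Codim p a →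
  D.Deg (2 * p) (D.cls a)

/-- Cycle classes are compatible with pull-back. -/
def ClPull : Prop := ∀ (X Y : Sch k₀) (f : X ⟶ Y), IsWeil X → IsWeil Y → ∀ a,
  D.cls (D.pb f a) = D.pbH f (D.cls a)

/-- Cycle classes are compatible with push-forward. -/
def ClPush : Prop := ∀ (k : Type) [Field k] [Algebra k₀ k] [IsAlgClosed k] (X Y : Sch k₀)
  (x : X ⟶ pt k₀ k) (y : Y ⟶ pt k₀ k) (f : X ⟶ Y), f ≫ y = x → ∀ m n, IsVar x m →
  IsVar y n → ∀ a v, D.trace (D.cup (D.cls (D.pf f a)) v) = D.trace (D.cup (D.cls a) (D.pbH f v))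

/-- The degree of a cycle is a rational number. -/
def TraceCl : Prop := ∀ X : Sch k₀, IsWeil X → ∀ a : D.CH X, ∃ q : ℚ, D.trace (D.cls a) = q

/-- The axioms for a Weil cohomology theory with coefficients in `K`, for smooth proper connected
varieties over algebraically closed fields containing `k₀`, with cycle classes. -/
structure IsWeilCohomology : Prop where
  graded : D.Graded
  degMul : D.DegMul
  gradedComm : D.GradedComm
  degPull : D.DegPull
  pullHFunctor : D.PullHFunctor
  traceDeg : D.TraceDeg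
  traceIso : D.TraceIso
  poincare : D.Poincare
  kunnethFormula : D.KunnethFormula
  traceKunneth : D.TraceKunneth
  tracePt : D.TracePt
  degZero : D.DegZero
  degCl : D.DegCl
  clPull : D.ClPull
  clPush : D.ClPush
  traceCl : D.TraceCl

/-- The axioms for Chow groups and for a Weil cohomology theory. -/
structure IsTheory : Prop where
  chow : D.IsChow
  weil : D.IsWeilCohomology

end Weil

end CohData

end Pool.Agent.Lib.MP_4ca46c_ag.Sign
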