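import Mathlib
import Pool.Agent.Lib.MP_4ca46c_ag.Sign.Base

/-!
# Chow groups and Weil cohomology of schemes

The axioms are the usual properties of Chow groups of smooth schemes over fields (Fulton) and of
a Weil cohomology theory (Kleiman), for schemes over a fixed algebraically closed field `k₀`.
-/

namespace Pool.Agent.Lib.MP_4ca46c_ag.Sign

open CategoryTheory Limits AlgebraicGeometry TensorProduct

variable (k₀ : Type) [Field k₀]

/-- Chow groups with rational coefficients of smooth schemes over fields containing `k₀`. -/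
structure ChowTheory where
  /-- The Chow ring with rational coefficients. -/
  CH : Sch k₀ → Type
  [ring : ∀ X, CommRing (CH X)]
  [algebra : ∀ X, Algebra ℚ (CH X)]
  /-- The subspace `CH^p(X)` of cycles of codimension `p`. -/
  codim : ∀ X, ℕ → Submodule ℚ (CH X)
  one_mem : ∀ X, (1 : CH X) ∈ codim X 0
  mul_mem : ∀ X p q, ∀ a ∈ codim X p, ∀ b ∈ codim X q, a * b ∈ codim X (p + q)
  /-- Pull-back of cycles. -/
  pull : ∀ {X Y : Sch k₀}, (X ⟶ Y) → CH Y →ₐ[ℚ] CH X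
  pull_mem : ∀ {X Y : Sch k₀} (f : X ⟶ Y), Sm X → Sm Y → ∀ p, ∀ a ∈ codim Y p,
    pull f a ∈ codim X p
  pull_id : ∀ {X : Sch k₀}, Sm X → ∀ a, pull (𝟙 X) a = a
  pull_comp : ∀ {X Y Z : Sch k₀} (f : X ⟶ Y) (g : Y ⟶ Z), Sm X → Sm Y → Sm Z →
    ∀ a, pull (f ≫ g) a = pull f (pull g a)
  /-- Push-forward of cycles. -/
  push : ∀ {X Y : Sch k₀}, (X ⟶ Y) → CH X →ₗ[ℚ] CH Y
  /-- The push-forward along a proper morphism of smooth schemes of dimensions `m` and `n` over a
  field shifts the codimension by `n - m`. -/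
  push_mem : ∀ {F : Type} [Field F] [Algebra k₀ F] {X Y : Sch k₀} (x : X ⟶ pt k₀ F)
    (y : Y ⟶ pt k₀ F) (f : X ⟶ Y), f ≫ y = x → IsSm x → IsSm y → IsProper f.left →
    ∀ m n, SmoothOfRelativeDimension m x.left → SmoothOfRelativeDimension n y.left →
    ∀ p q, p + n = q + m → ∀ a ∈ codim X p, push f a ∈ codim Y q
  /-- Push-forward commutes with flat base change. -/
  push_baseChange : ∀ {X Y X' Y' : Sch k₀} (f : X ⟶ Y) (f' : X' ⟶ Y') (g' : X' ⟶ X)
    (g : Y' ⟶ Y), IsPullback g' f' f g → Sm X → Sm Y → Sm X' → Sm Y' → IsProper f.left →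
    Flat g.left → ∀ a, pull g (push f a) = push f' (pull g' a)
  /-- Restriction to open subschemes and to generic fibres (flat monomorphisms) is surjective. -/
  pull_surjective_of_mono : ∀ {X Y : Sch k₀} (f : X ⟶ Y), Sm X → Sm Y → Flat f.left →
    Mono f.left → QuasiCompact f.left → ∀ p, ∀ a ∈ codim X p, ∃ b ∈ codim Y p, pull f b = a
  /-- Homotopy invariance: pull-back along an affine bundle is surjective. -/
  pull_surjective_of_affineBundle : ∀ {X Y : Sch k₀} (f : X ⟶ Y), Sm X → Sm Y →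
    IsAffineBundle f.left → ∀ p, ∀ a ∈ codim X p, ∃ b ∈ codim Y p, pull f b = a
  /-- The localization sequence for a smooth closed subscheme `T` of codimension `c`. -/
  localization : ∀ {F : Type} [Field F] [Algebra k₀ F] {T U X : Sch k₀} (t : T ⟶ pt k₀ F)
    (x : X ⟶ pt k₀ F) (i : T ⟶ X) (j : U ⟶ X), i ≫ x = t → IsSm t → IsSm x →
    IsComplement i j → ∀ m c, SmoothOfRelativeDimension m t.left →
    SmoothOfRelativeDimension (m + c) x.left → ∀ p, ∀ a ∈ codim X (p + c), pull j a = 0 →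
    ∃ b ∈ codim T p, push i b = a
  /-- Cycles of codimension `0` on a connected scheme are multiples of the fundamental class. -/
  codim_zero : ∀ X, Sm X → ConnectedSpace X.left → ∀ a ∈ codim X 0, ∃ q : ℚ, a = q • 1
  /-- Base change to the algebraic closure `F'` of `F`: for every cycle over `F'` some sum of
  conjugates comes from a cycle over `F`. -/
  norm : ∀ {F F' : Type} [Field F] [Algebra k₀ F] [Field F'] [Algebra k₀ F'] [Algebra F F']
    [IsScalarTower k₀ F F'] [IsAlgClosure F F'] {X X' : Sch k₀} (x : X ⟶ pt k₀ F)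
    (x' : X' ⟶ pt k₀ F') (g : X' ⟶ X), IsSm x →
    IsPullback g x' x (ptMap k₀ (IsScalarTower.toAlgHom k₀ F F')) →
    ∀ p, ∀ a ∈ codim X' p, ∃ (N : ℕ) (σ : Fin N → F' →ₐ[F] F') (s : Fin N → (X' ⟶ X')),
      0 < N ∧ (∀ i, s i ≫ g = g ∧ s i ≫ x' = x' ≫ ptMap k₀ ((σ i).restrictScalars k₀)) ∧
      ∃ b ∈ codim X p, pull g b = ∑ i, pull (s i) a

attribute [instance] ChowTheory.ring ChowTheory.algebra

/-- A Weil cohomology theory with coefficients in the field `K`, for smooth proper connected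
varieties over algebraically closed fields containing `k₀`, with cycle classes. -/
structure WeilTheory (K : Type) [Field K] extends ChowTheory k₀ where
  /-- The cohomology ring. -/
  H : Sch k₀ → Type
  [ringH : ∀ X, Ring (H X)]
  [algebraH : ∀ X, Algebra K (H X)]
  /-- The subspace `H^i(X)`. -/
  deg : ∀ X, ℕ → Submodule K (H X)
  finite : ∀ X, IsWeil X → FiniteDimensional K (H X)
  internal : ∀ X, IsWeil X → DirectSum.IsInternal (deg X)
  oneH_mem : ∀ X, IsWeil X → (1 : H X) ∈ deg X 0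
  mulH_mem : ∀ X, IsWeil X → ∀ i j, ∀ u ∈ deg X i, ∀ v ∈ deg X j, u * v ∈ deg X (i + j)
  /-- The cohomology ring is graded commutative. -/
  comm : ∀ X, IsWeil X → ∀ i j, ∀ u ∈ deg X i, ∀ v ∈ deg X j, u * v = (-1) ^ (i * j) * (v * u)
  /-- Pull-back in cohomology. -/
  pullH : ∀ {X Y : Sch k₀}, (X ⟶ Y) → H Y →ₐ[K] H X
  pullH_mem : ∀ {X Y : Sch k₀} (f : X ⟶ Y), IsWeil X → IsWeil Y → ∀ i, ∀ u ∈ deg Y i,
    pullH f u ∈ deg X i
  pullH_id : ∀ {X : Sch k₀}, IsWeil X → ∀ u, pullH (𝟙 X) u = u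
  pullH_comp : ∀ {X Y Z : Sch k₀} (f : X ⟶ Y) (g : Y ⟶ Z), IsWeil X → IsWeil Y → IsWeil Z →
    ∀ u, pullH (f ≫ g) u = pullH f (pullH g u)
  /-- The trace (orientation) map, zero outside the top degree. -/
  tr : ∀ X, H X →ₗ[K] K
  tr_eq_zero : ∀ {k : Type} [Field k] [Algebra k₀ k] [IsAlgClosed k] {X : Sch k₀}
    (x : X ⟶ pt k₀ k) (n : ℕ), IsVar x n → ∀ i, i ≠ 2 * n → ∀ u ∈ deg X i, tr X u = 0
  tr_iso : ∀ {X Y : Sch k₀} (f : X ⟶ Y), IsIso f → IsWeil X → IsWeil Y →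
    ∀ u, tr X (pullH f u) = tr Y u
  /-- Poincaré duality. -/
  poincare : ∀ X, IsWeil X → ∀ u, (∀ v, tr X (u * v) = 0) → u = 0
  /-- The Künneth formula: `u ⊗ v ↦ p^* u ∪ q^* v` is bijective. -/
  kunneth : ∀ {k : Type} [Field k] [Algebra k₀ k] [IsAlgClosed k] {X Y P : Sch k₀}
    (x : X ⟶ pt k₀ k) (y : Y ⟶ pt k₀ k) (p : P ⟶ X) (q : P ⟶ Y) (m n : ℕ), IsVar x m →
    IsVar y n → IsPullback p q x y → Function.Bijective (TensorProduct.lift
      ((LinearMap.mul K (H P)).compl₁₂ (pullH p).toLinearMap (pullH q).toLinearMap))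
  tr_kunneth : ∀ {k : Type} [Field k] [Algebra k₀ k] [IsAlgClosed k] {X Y P : Sch k₀}
    (x : X ⟶ pt k₀ k) (y : Y ⟶ pt k₀ k) (p : P ⟶ X) (q : P ⟶ Y) (m n : ℕ), IsVar x m →
    IsVar y n → IsPullback p q x y → ∀ u v, tr P (pullH p u * pullH q v) = tr X u * tr Y v
  /-- The cohomology of a point: `tr 1 = 1`. -/
  tr_pt : ∀ {k : Type} [Field k] [Algebra k₀ k] [IsAlgClosed k], tr (pt k₀ k) 1 = 1
  /-- `H^0` of a connected variety. -/
  deg_zero : ∀ X, IsWeil X → ∀ u ∈ deg X 0, ∃ c : K, u = c • 1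
  /-- The cycle class map. -/
  cl : ∀ X, CH X →+* H X
  cl_mem : ∀ X, IsWeil X → ∀ p, ∀ a ∈ codim X p, cl X a ∈ deg X (2 * p)
  cl_pull : ∀ {X Y : Sch k₀} (f : X ⟶ Y), IsWeil X → IsWeil Y → ∀ a,
    cl X (pull f a) = pullH f (cl Y a)
  /-- Cycle classes are compatible with push-forward. -/
  cl_push : ∀ {k : Type} [Field k] [Algebra k₀ k] [IsAlgClosed k] {X Y : Sch k₀}
    (x : X ⟶ pt k₀ k) (y : Y ⟶ pt k₀ k) (f : X ⟶ Y), f ≫ y = x → ∀ m n, IsVar x m →
    IsVar y n → ∀ a v, tr Y (cl Y (push f a) * v) = tr X (cl X a * pullH f v)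
  /-- The degree of a cycle is a rational number. -/
  tr_cl : ∀ X, IsWeil X → ∀ a, ∃ q : ℚ, tr X (cl X a) = q

attribute [instance] WeilTheory.ringH WeilTheory.algebraH

end Pool.Agent.Lib.MP_4ca46c_ag.Sign
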