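import Pool.Agent.Lib.MP_4ca46c_ag.Sign.SpecC

/-! # SmS: smoothness of the schemes which occur -/

namespace Pool.Agent.Lib.MP_4ca46c_ag.Sign

open CategoryTheory Limits AlgebraicGeometry TensorProduct

section General

set_option backward.isDefEq.respectTransparency.types false in
theorem sms_affine {n : Type} [Finite n] (S : Scheme.{0}) : Smooth (𝔸(n; S) ↘ S) :=
  MorphismProperty.pullback_fst _ _ <| by
  have := isIso_of_isTerminal specULiftZIsTerminal.{0} terminalIsTerminal (terminal.from _)
  rw [← terminal.comp_from (Spec.map (CommRingCat.ofHom MvPolynomial.C)),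
    MorphismProperty.cancel_right_of_respectsIso (P := @Smooth),
    HasRingHomProperty.Spec_iff (P := @Smooth), RingHom.Smooth]
  have h : Algebra.Smooth (ULift.{0} ℤ) (MvPolynomial n (ULift.{0} ℤ)) :=
    ⟨inferInstance, inferInstance⟩
  convert! h
  exact Algebra.algebra_ext _ _ fun _ ↦ rfl

/-- affine bundles have all the properties which are local on the target and which the
projections of affine spaces have -/
theorem sms_bundle (P : MorphismProperty Scheme.{0}) [IsZariskiLocalAtTarget P]
    (hP : ∀ (m : ℕ) (S : Scheme.{0}), P (𝔸(Fin m; S) ↘ S)) {E U : Scheme.{0}} (f : E ⟶ U)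
    (hf : IsAffineBundle f) : P f := by
  choose V m e hV he using hf
  refine IsZariskiLocalAtTarget.of_iSup_eq_top V (top_le_iff.mp fun x _ => ?_) fun x => ?_
  · exact TopologicalSpace.Opens.mem_iSup.2 ⟨x, hV x⟩
  · rw [← he x, MorphismProperty.cancel_left_of_respectsIso P]
    exact hP _ _

theorem sms_bundle_smooth {E U : Scheme.{0}} (f : E ⟶ U) (hf : IsAffineBundle f) : Smooth f :=
  sms_bundle @Smooth (fun _ _ => sms_affine _) f hf

theorem sms_bundle_affine {E U : Scheme.{0}} (f : E ⟶ U) (hf : IsAffineBundle f) :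
    IsAffineHom f :=
  sms_bundle @IsAffineHom (fun _ _ => inferInstance) f hf

variable {k₀ : Type} [Field k₀]

theorem sms_isSm {F : Type} [Field F] [Algebra k₀ F] {X : Sch k₀}
    {x : X ⟶ pt k₀ F} {n : ℕ} (h : IsVar x n) : IsSm x := by
  have h1 := h.smooth
  have h2 := h.proper
  exact ⟨h1.smooth, inferInstance, inferInstance⟩

theorem sms_sm {F : Type} [Field F] [Algebra k₀ F] {X : Sch k₀}
    {x : X ⟶ pt k₀ F} {n : ℕ} (h : IsVar x n) : Sm X := ⟨F, _, _, x, sms_isSm h⟩

theorem sms_prod {F : Type} [Field F] [Algebra k₀ F] {X : Sch k₀} {x : X ⟶ pt k₀ F} {n : ℕ}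
    (h1 : SmoothOfRelativeDimension n x.left) (h3 : IsProper x.left) :
    IsSm x ∧ IsSm (pullback.fst x x ≫ x) ∧
      SmoothOfRelativeDimension (n + n) (pullback.fst x x ≫ x).left := by
  have hP : IsPullback (pullback.fst x x).left (pullback.snd x x).left x.left x.left :=
    (IsPullback.of_hasPullback x x).map (Over.forget _)
  have := smoothOfRelativeDimension_isStableUnderBaseChange n
  have h5 : SmoothOfRelativeDimension n (pullback.fst x x).left :=
    MorphismProperty.of_isPullback (P := @SmoothOfRelativeDimension n) hP.flip h1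
  have h6 : IsProper (pullback.fst x x).left :=
    MorphismProperty.of_isPullback (P := @IsProper) hP.flip h3
  have h7 : SmoothOfRelativeDimension (n + n) (pullback.fst x x ≫ x).left := by
    rw [Over.comp_left]
    infer_instance
  have h8 : IsProper (pullback.fst x x ≫ x).left := by
    rw [Over.comp_left]
    infer_instance
  exact ⟨⟨h1.smooth, inferInstance, inferInstance⟩, ⟨h7.smooth, inferInstance, inferInstance⟩, h7⟩

theorem sms_noetherian {F : Type} [Field F] [Algebra k₀ F] {X : Sch k₀}
    {x : X ⟶ pt k₀ F} (h : IsSm x) : IsLocallyNoetherian X.left := by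
  have h1 := h.smooth
  have h2 : IsLocallyNoetherian (pt k₀ F).left := by
    change IsLocallyNoetherian (Spec (CommRingCat.of F))
    infer_instance
  exact LocallyOfFiniteType.isLocallyNoetherian x.left

/-- open subschemes -/
theorem sms_open {F : Type} [Field F] [Algebra k₀ F] {X U : Sch k₀}
    {x : X ⟶ pt k₀ F} (h : IsSm x) (j : U ⟶ X) (hj : IsOpenImmersion j.left) :
    IsSm (j ≫ x) ∧ QuasiCompact j.left := by
  have h0 := sms_noetherian h
  have h1 := h.smooth
  have h2 := h.separated
  have h3 := h.quasiCompact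
  have h4 : QuasiCompact j.left := inferInstance
  refine ⟨⟨?_, ?_, ?_⟩, h4⟩
  · rw [Over.comp_left]; infer_instance
  · rw [Over.comp_left]; infer_instance
  · rw [Over.comp_left]; infer_instance

theorem sms_surj {F F' : Type} [Field F] [Algebra k₀ F] [Field F'] [Algebra k₀ F']
    (φ : F →ₐ[k₀] F') : Surjective (ptMap k₀ φ).left := by
  refine ⟨fun x => ?_⟩
  have x0 : (Spec (CommRingCat.of F') : Scheme.{0}) := (⊥ : PrimeSpectrum F')
  have hs : Subsingleton (PrimeSpectrum F) := inferInstance
  refine ⟨x0, ?_⟩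
  exact hs.elim _ _

end General

section Main

variable (k₀ K : Type) [Field k₀] [Field K]

theorem tSmS : StSm k₀ K := by
  intro T V W G
  have hZ : IsVar V.sqStr (V.n + V.n) := Var.isVar_prod V.isVar V.isVar
  have hY2 : IsVar W.sqStr (W.n + W.n) := Var.isVar_prod W.isVar W.isVar
  have hZ2 : IsVar (pullback.fst V.sqStr V.sqStr ≫ V.sqStr) (V.n + V.n + (V.n + V.n)) :=
    Var.isVar_prod hZ hZ
  let _ := G.field
  let _ := G.algebra₀
  obtain ⟨hY₀, hY₀2, hY₀3⟩ := sms_prod G.smooth G.proper
  have hincl := G.complement.isOpen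
  obtain ⟨hU, hqc⟩ := sms_open (sms_isSm hZ2) G.incl hincl
  -- the bundle
  have hW₀ : Sm G.W₀ := by
    have h1 : Smooth (pullback.snd G.q G.incl).left := sms_bundle_smooth _ G.bundle
    have h2 : IsAffineHom (pullback.snd G.q G.incl).left := sms_bundle_affine _ G.bundle
    refine ⟨_, _, _, pullback.snd G.q G.incl ≫ G.incl ≫ pullback.fst V.sqStr V.sqStr ≫ V.sqStr,
      ?_, ?_, ?_⟩
    · have h3 := hU.smooth
      rw [Over.comp_left]
      exact smooth_comp _ _
    · have h3 := hU.separated
      rw [Over.comp_left]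
      infer_instance
    · have h3 := hU.quasiCompact
      rw [Over.comp_left]
      infer_instance
  -- the open subscheme
  have hQ : IsPullback (pullback.fst G.rho G.incl).left (pullback.snd G.rho G.incl).left
      G.rho.left G.incl.left :=
    (IsPullback.of_hasPullback G.rho G.incl).map (Over.forget _)
  have hQo : IsOpenImmersion (pullback.fst G.rho G.incl).left :=
    MorphismProperty.of_isPullback (P := @IsOpenImmersion) hQ.flip hincl
  obtain ⟨hQ₀, _⟩ := sms_open hY₀2 (pullback.fst G.rho G.incl) hQo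
  -- connectedness
  have hconn : ConnectedSpace G.Y₀.left := by
    have h1 : IsPullback G.toY₀.left W.str.left G.y₀.left
      (ptMap k₀ (IsScalarTower.toAlgHom k₀ G.F W.k)).left :=
      G.isBaseChange.map (Over.forget _)
    have h2 : Surjective (ptMap k₀ (IsScalarTower.toAlgHom k₀ G.F W.k)).left :=
      sms_surj (IsScalarTower.toAlgHom k₀ G.F W.k)
    have h3 : Surjective G.toY₀.left :=
      MorphismProperty.of_isPullback (P := @Surjective) h1.flip h2
    have h4 := W.isVar.connectedSpace
    exact h3.surj.connectedSpace G.toY₀.left.continuous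
  exact ⟨sms_sm hZ, sms_sm hZ2, ⟨_, _, _, _, hU⟩, hW₀, ⟨_, _, _, _, hY₀2⟩, ⟨_, _, _, _, hQ₀⟩,
    ⟨_, _, _, _, hY₀⟩, sms_sm hY2, hZ, hY2, hZ2, hY₀2, hY₀3, hY₀, hconn, hqc⟩

end Main

end Pool.Agent.Lib.MP_4ca46c_ag.Sign
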