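import Mathlib
import Pool.Agent.Lib.MP_4ca46c_ag.Sign.Theory

/-!
# The standard conjectures, and generic sections
-/

namespace Pool.Agent.Lib.MP_4ca46c_ag.Sign

open CategoryTheory Limits AlgebraicGeometry TensorProduct

variable {k₀ : Type} [Field k₀] {K : Type} [Field K] (T : WeilTheory k₀ K)

/-- Cycles of codimension `p : ℤ` (none if `p < 0`). -/
def ChowTheory.codimZ (T : ChowTheory k₀) (X : Sch k₀) (p : ℤ) : Submodule ℚ (T.CH X) :=
  if 0 ≤ p then T.codim X p.toNat else ⊥

/-- A smooth proper connected variety `X` of dimension `n` over an algebraically closed field `k`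
containing `k₀`, with a divisor class `h` for which hard Lefschetz holds (for instance a smooth
projective variety with an ample class). -/
structure PVar where
  k : Type
  [field : Field k]
  [algebra : Algebra k₀ k]
  [closed : IsAlgClosed k]
  X : Sch k₀
  str : X ⟶ pt k₀ k
  n : ℕ
  isVar : IsVar str n
  h : T.CH X
  h_mem : h ∈ T.codim X 1
  lefschetz_injective : ∀ j ≤ n, ∀ u ∈ T.deg X (n - j), T.cl X h ^ j * u = 0 → u = 0
  lefschetz_surjective : ∀ j ≤ n, ∀ v ∈ T.deg X (n + j), ∃ u ∈ T.deg X (n - j),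
    T.cl X h ^ j * u = v

attribute [instance] PVar.field PVar.algebra PVar.closed

namespace PVar

variable {T} (V : PVar T)

/-- The product `X × X`. -/
noncomputable abbrev sq : Sch k₀ := pullback V.str V.str

/-- The first projection. -/
noncomputable def p₁ : V.sq ⟶ V.X := pullback.fst V.str V.str

/-- The second projection. -/
noncomputable def p₂ : V.sq ⟶ V.X := pullback.snd V.str V.str

/-- The structure morphism of `X × X`. -/
noncomputable def sqStr : V.sq ⟶ pt k₀ V.k := V.p₁ ≫ V.str

/-- The diagonal. -/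
noncomputable def diag : V.X ⟶ V.sq := pullback.lift (𝟙 V.X) (𝟙 V.X) rfl

/-- The Künneth summand `H^i(X) ⊗ H^j(X)` of `H^(i+j)(X × X)`. -/
noncomputable def box (i j : ℕ) : Submodule K (T.H V.sq) :=
  Submodule.span K {z | ∃ x ∈ T.deg V.X i, ∃ y ∈ T.deg V.X j,
    z = T.pullH V.p₁ x * T.pullH V.p₂ y}

/-- The standard conjecture of Künneth type: the Künneth components `π_i` of the class of the
diagonal, in `H^i(X) ⊗ H^(2n-i)(X)`, are classes of cycles `a_i` with rational coefficients. -/
def KunnethConj : Prop :=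
  ∃ a : ℕ → T.CH V.sq, (∀ i ≤ 2 * V.n, a i ∈ T.codim V.sq V.n ∧
    T.cl V.sq (a i) ∈ V.box i (2 * V.n - i)) ∧
    ∑ i ∈ Finset.range (2 * V.n + 1), T.cl V.sq (a i) = T.cl V.sq (T.push V.diag 1)

/-- The sign conjecture: the sum of the Künneth components `π_i` of the class of the diagonal
with `i` even is the class of a cycle `a` with rational coefficients. -/
def SignConj : Prop :=
  ∃ a ∈ T.codim V.sq V.n,
    T.cl V.sq a ∈ ⨆ (i : ℕ) (_ : i ≤ 2 * V.n ∧ Even i), V.box i (2 * V.n - i) ∧
    T.cl V.sq (T.push V.diag 1) - T.cl V.sq a ∈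
      ⨆ (i : ℕ) (_ : i ≤ 2 * V.n ∧ Odd i), V.box i (2 * V.n - i)

/-- The operator `φ` on `H(X)` is given by a correspondence of degree `r`, that is, there is a
cycle `a` of codimension `n + r` on `X × X` with `φ v = p₁_* (cl a ∪ p₂^* v)`. The last equation
is expressed by Poincaré duality. -/
def Algebraic (r : ℤ) (φ : T.H V.X →ₗ[K] T.H V.X) : Prop :=
  ∃ a ∈ T.codimZ V.sq (V.n + r), ∀ v w,
    T.tr V.X (φ v * w) = T.tr V.sq (T.cl V.sq a * T.pullH V.p₂ v * T.pullH V.p₁ w)

/-- `Λ` is the adjoint Lefschetz operator: `Λ (h^j x) = h^(j-1) x` for primitive `x`. -/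
def IsLambda (Λ : T.H V.X →ₗ[K] T.H V.X) : Prop :=
  ∀ i ≤ V.n, ∀ x ∈ T.deg V.X i, T.cl V.X V.h ^ (V.n - i + 1) * x = 0 → ∀ j ≤ V.n - i,
    Λ (T.cl V.X V.h ^ j * x) = if j = 0 then 0 else T.cl V.X V.h ^ (j - 1) * x

/-- The standard conjecture of Lefschetz type: the operator `Λ` is algebraic. -/
def LefschetzConj : Prop := ∃ Λ, V.IsLambda Λ ∧ V.Algebraic (-1) Λ

end PVar

/-- `Y` (the variety underlying `W`) is a generic member of a family of closed subschemes of
`Z = X × X` (where `X` underlies `V`) which is complete for pairs of points, for instance a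
generic hyperplane section of `Z`.

The family is `I ⊆ Z × B` over a base `B`, with generic point `Spec F ⟶ B`; the variety `Y` is
the base change of the generic fibre `Y₀ = I × Spec F` to the algebraic closure of `F`. The pairs
of points of the members of the family form an affine bundle over the space `U` of pairs of
different points of `Z`. The class of `Y` in `Z` is a multiple of
`h ⊗ 1 + 1 ⊗ h`, and `Y` has a nonzero vanishing cohomology class `y` of odd degree. -/
structure GenericSection {T : WeilTheory k₀ K} (V W : PVar T) where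
  /-- the function field of the base -/
  F : Type
  [field : Field F]
  [algebra₀ : Algebra k₀ F]
  [algebra : Algebra V.k F]
  [tower : IsScalarTower k₀ V.k F]
  [algebraW : Algebra F W.k]
  [towerW : IsScalarTower k₀ F W.k]
  [closure : IsAlgClosure F W.k]
  /-- the base of the family -/
  B : Sch k₀
  b : B ⟶ pt k₀ V.k
  generic : pt k₀ F ⟶ B
  generic_over : generic ≫ b = ptMap k₀ (IsScalarTower.toAlgHom k₀ V.k F)
  generic_flat : Flat generic.left
  generic_mono : Mono generic.left
  generic_quasiCompact : QuasiCompact generic.left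
  /-- the family, a subscheme of `Z × B` -/
  I : Sch k₀
  toZ : I ⟶ V.sq
  toB : I ⟶ B
  comm : toZ ≫ V.sqStr = toB ≫ b
  mono : Mono (pullback.lift toZ toB comm)
  /-- the space of pairs of different points of `Z` -/
  U : Sch k₀
  incl : U ⟶ pullback V.sqStr V.sqStr
  complement : IsComplement (pullback.diagonal V.sqStr) incl
  /-- two different points impose independent conditions -/
  bundle : IsAffineBundle (pullback.snd (pullback.lift (f := V.sqStr) (g := V.sqStr)
    (pullback.fst toB toB ≫ toZ) (pullback.snd toB toB ≫ toZ)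
    (by rw [Category.assoc, Category.assoc, comm, ← Category.assoc, ← Category.assoc,
      pullback.condition])) incl).left
  /-- the generic fibre -/
  Y₀ : Sch k₀
  y₀ : Y₀ ⟶ pt k₀ F
  toI : Y₀ ⟶ I
  fibre : IsPullback toI y₀ toB generic
  smooth : SmoothOfRelativeDimension W.n y₀.left
  proper : IsProper y₀.left
  /-- `Y` is the geometric generic fibre -/
  toY₀ : W.X ⟶ Y₀
  isBaseChange : IsPullback toY₀ W.str y₀ (ptMap k₀ (IsScalarTower.toAlgHom k₀ F W.k))
  dim : W.n + 1 = 2 * V.n
  /-- the class of `Y` is `m (h ⊗ 1 + 1 ⊗ h)` -/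
  m : ℕ
  m_pos : 0 < m
  cls : ∀ z, T.tr W.X (T.pullH (toY₀ ≫ toI ≫ toZ) z) =
    m * T.tr V.sq ((T.pullH V.p₁ (T.cl V.X V.h) + T.pullH V.p₂ (T.cl V.X V.h)) * z)
  /-- a vanishing class -/
  i : ℕ
  odd : Odd i
  y : T.H W.X
  y_mem : y ∈ T.deg W.X i
  y_ne : y ≠ 0
  vanishing : ∀ z, T.tr W.X (y * T.pullH (toY₀ ≫ toI ≫ toZ) z) = 0

end Pool.Agent.Lib.MP_4ca46c_ag.Sign
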