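import Pool.Agent.Lib.MP_4ca46c_ag.Sign.SpecC

/-!
# The complement of the diagonal of `Y₀` is the preimage of `U`
-/

namespace Pool.Agent.Lib.MP_4ca46c_ag.Sign

open CategoryTheory Limits AlgebraicGeometry TensorProduct

section Range

theorem compl_range {P X Y Z : Scheme.{0}} {fst : P ⟶ X} {snd : P ⟶ Y} {f : X ⟶ Z} {g : Y ⟶ Z}
    (h : IsPullback fst snd f g) : Set.range fst = f ⁻¹' Set.range g := by
  rw [← h.isoPullback_hom_fst, ← Scheme.Pullback.range_fst f g]
  ext x
  constructor
  · rintro ⟨a, rfl⟩
    exact ⟨h.isoPullback.hom a, by rw [Scheme.Hom.comp_apply]⟩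
  · rintro ⟨a, rfl⟩
    refine ⟨h.isoPullback.inv a, ?_⟩
    rw [← Scheme.Hom.comp_apply, Iso.inv_hom_id_assoc]

end Range

variable {k₀ : Type} [Field k₀] {K : Type} [Field K]

section

variable {T : WeilTheory k₀ K} {V W : PVar T} (G : GenericSection V W)

/-- Two points of `Y₀` over the same point of `Spec F` with the same image in `Z` are equal. -/
theorem compl_mono {S : Sch k₀} (y y' : S ⟶ G.Y₀) (h1 : y ≫ G.y₀ = y' ≫ G.y₀)
    (h2 : y ≫ G.r₀ = y' ≫ G.r₀) : y = y' := by
  have h3 : y ≫ G.toI ≫ G.toB = y' ≫ G.toI ≫ G.toB := by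
    rw [G.fibre.w, ← Category.assoc, h1, Category.assoc]
  have h4 : y ≫ G.toI ≫ G.toZ = y' ≫ G.toI ≫ G.toZ := h2
  have hm := G.mono
  have h5 : y ≫ G.toI = y' ≫ G.toI := by
    rw [← cancel_mono (pullback.lift G.toZ G.toB G.comm)]
    apply pullback.hom_ext
    · rw [Category.assoc, Category.assoc, Category.assoc, Category.assoc, pullback.lift_fst]
      exact h4
    · rw [Category.assoc, Category.assoc, Category.assoc, Category.assoc, pullback.lift_snd]
      exact h3
  exact G.fibre.hom_ext h5 h1

theorem compl_isPullback : IsPullback (pullback.diagonal G.y₀) G.r₀ G.rho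
    (pullback.diagonal V.sqStr) := by
  refine ⟨⟨?_⟩, ⟨PullbackCone.IsLimit.mk _ (fun s => s.fst ≫ pullback.fst G.y₀ G.y₀) ?_ ?_ ?_⟩⟩
  · apply pullback.hom_ext
    · rw [Category.assoc, Category.assoc, G.rho_fst, pullback.diagonal_fst, Category.comp_id,
        ← Category.assoc, pullback.diagonal_fst, Category.id_comp]
    · rw [Category.assoc, Category.assoc, G.rho_snd, pullback.diagonal_snd, Category.comp_id,
        ← Category.assoc, pullback.diagonal_snd, Category.id_comp]
  · intro s
    have e1 : s.fst ≫ pullback.fst G.y₀ G.y₀ ≫ G.r₀ = s.snd := by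
      rw [← G.rho_fst, ← Category.assoc, s.condition, Category.assoc, pullback.diagonal_fst,
        Category.comp_id]
    have e2 : s.fst ≫ pullback.snd G.y₀ G.y₀ ≫ G.r₀ = s.snd := by
      rw [← G.rho_snd, ← Category.assoc, s.condition, Category.assoc, pullback.diagonal_snd,
        Category.comp_id]
    have e3 : s.fst ≫ pullback.fst G.y₀ G.y₀ = s.fst ≫ pullback.snd G.y₀ G.y₀ := by
      apply compl_mono G
      · rw [Category.assoc, Category.assoc, pullback.condition]
      · rw [Category.assoc, Category.assoc, e1, e2]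
    apply pullback.hom_ext
    · rw [Category.assoc, Category.assoc, pullback.diagonal_fst, Category.comp_id]
    · rw [Category.assoc, Category.assoc, pullback.diagonal_snd, Category.comp_id, e3]
  · intro s
    rw [Category.assoc, ← G.rho_fst, ← Category.assoc, s.condition, Category.assoc,
      pullback.diagonal_fst, Category.comp_id]
  · intro s m h1 _
    rw [← h1, Category.assoc, pullback.diagonal_fst, Category.comp_id]

end

theorem tCompl (k₀ K : Type) [Field k₀] [Field K] : StCompl k₀ K := by
  intro T V W G
  have hD : IsPullback (pullback.diagonal G.y₀).left G.r₀.left G.rho.left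
      (pullback.diagonal V.sqStr).left :=
    (compl_isPullback G).map (Over.forget _)
  have hQ : IsPullback (pullback.fst G.rho G.incl).left (pullback.snd G.rho G.incl).left
      G.rho.left G.incl.left :=
    (IsPullback.of_hasPullback G.rho G.incl).map (Over.forget _)
  refine ⟨?_, ?_, ?_⟩
  · exact MorphismProperty.of_isPullback (P := @IsClosedImmersion) hD.flip G.complement.closed
  · exact MorphismProperty.of_isPullback (P := @IsOpenImmersion) hQ.flip G.complement.isOpen
  · rw [compl_range hD, compl_range hQ, G.complement.compl, Set.preimage_compl]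

end Pool.Agent.Lib.MP_4ca46c_ag.Sign
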