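import Mathlib
import Pool.Agent.Lib.MP_4ca46c_ag.Sign.Theory

/-!
# The category of smooth proper schemes over an algebraically closed field
-/

namespace Pool.Agent.Lib.MP_4ca46c_ag.Sign

open CategoryTheory Limits AlgebraicGeometry TensorProduct MonoidalCategory
  CartesianMonoidalCategory

/-- Smooth proper geometrically connected schemes over `k`. -/
structure Var (k₀ k : Type) [Field k₀] [Field k] [Algebra k₀ k] where
  X : Sch k₀
  str : X ⟶ pt k₀ k
  dim : ℕ
  isVar : IsVar str dim

namespace Var

variable {k₀ k : Type} [Field k₀] [Field k] [Algebra k₀ k]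

/-- Morphisms over `k`. -/
@[ext]
structure Hom (X Y : Var k₀ k) where
  hom : X.X ⟶ Y.X
  comm : hom ≫ Y.str = X.str

noncomputable instance : Category (Var k₀ k) where
  Hom := Hom
  id X := ⟨𝟙 _, Category.id_comp _⟩
  comp f g := ⟨f.hom ≫ g.hom, by rw [Category.assoc, g.comm, f.comm]⟩

@[simp] theorem id_hom (X : Var k₀ k) : (𝟙 X : X ⟶ X).hom = 𝟙 X.X := rfl

@[simp] theorem comp_hom {X Y Z : Var k₀ k} (f : X ⟶ Y) (g : Y ⟶ Z) :
    (f ≫ g).hom = f.hom ≫ g.hom := rfl

@[ext] theorem hom_ext' {X Y : Var k₀ k} {f g : X ⟶ Y} (h : f.hom = g.hom) : f = g := Hom.ext h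

theorem isVar_prod {X Y : Sch k₀} {x : X ⟶ pt k₀ k} {y : Y ⟶ pt k₀ k} {m n : ℕ}
    (hx : IsVar x m) (hy : IsVar y n) : IsVar (pullback.fst x y ≫ x) (m + n) := by
  have hP : IsPullback (pullback.fst x y).left (pullback.snd x y).left x.left y.left :=
    (IsPullback.of_hasPullback x y).map (Over.forget _)
  have h1 := hx.smooth
  have h2 := hy.smooth
  have h3 := hx.proper
  have h4 := hy.proper
  have := smoothOfRelativeDimension_isStableUnderBaseChange n
  have h5 : SmoothOfRelativeDimension n (pullback.fst x y).left :=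
    MorphismProperty.of_isPullback (P := @SmoothOfRelativeDimension n) hP.flip h2
  have h6 : IsProper (pullback.fst x y).left :=
    MorphismProperty.of_isPullback (P := @IsProper) hP.flip h4
  have h7 := hx.connected
  have h8 := hy.connected
  have h9 : GeometricallyConnected (pullback.fst x y).left :=
    MorphismProperty.of_isPullback (P := @GeometricallyConnected) hP.flip h8
  have h10 := h1.smooth
  have h11 := h5.smooth
  refine ⟨?_, ?_, ?_⟩
  · rw [Over.comp_left, add_comm]
    infer_instance
  · rw [Over.comp_left]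
    infer_instance
  · rw [Over.comp_left]
    exact GeometricallyConnected.comp _ _

theorem isVar_pt : IsVar (𝟙 (pt k₀ k)) 0 := by
  refine ⟨?_, ?_, ?_⟩
  · rw [Over.id_left]; infer_instance
  · rw [Over.id_left]; infer_instance
  · rw [Over.id_left]
    refine ⟨geometrically_iff_of_isClosedUnderIsomorphisms.mpr fun K _ x ↦ ?_⟩
    rw [(asIso (pullback.snd (𝟙 _) x)).hom.homeomorph.connectedSpace_iff]
    infer_instance

/-- The product. -/
noncomputable def prod (X Y : Var k₀ k) : Var k₀ k where
  X := pullback X.str Y.str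
  str := pullback.fst X.str Y.str ≫ X.str
  dim := X.dim + Y.dim
  isVar := isVar_prod X.isVar Y.isVar

/-- The point. -/
noncomputable def unit : Var k₀ k where
  X := pt k₀ k
  str := 𝟙 _
  dim := 0
  isVar := isVar_pt

/-- First projection. -/
noncomputable def fst' (X Y : Var k₀ k) : prod X Y ⟶ X := ⟨pullback.fst X.str Y.str, rfl⟩

/-- Second projection. -/
noncomputable def snd' (X Y : Var k₀ k) : prod X Y ⟶ Y :=
  ⟨pullback.snd X.str Y.str, pullback.condition.symm⟩

/-- The product is a product. -/
noncomputable def prodLimit (X Y : Var k₀ k) : LimitCone (pair X Y) where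
  cone := BinaryFan.mk (fst' X Y) (snd' X Y)
  isLimit := BinaryFan.IsLimit.mk _
    (fun {T} f g => ⟨pullback.lift f.hom g.hom (f.comm.trans g.comm.symm), by
      change pullback.lift f.hom g.hom _ ≫ pullback.fst X.str Y.str ≫ X.str = T.str
      rw [pullback.lift_fst_assoc, f.comm]⟩)
    (fun f g => by
      apply hom_ext'
      exact pullback.lift_fst _ _ _)
    (fun f g => by
      apply hom_ext'
      exact pullback.lift_snd _ _ _)
    (fun f g m hf hg => by
      apply hom_ext'
      apply pullback.hom_ext
      · have := congrArg Hom.hom hf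
        exact this.trans (pullback.lift_fst _ _ _).symm
      · have := congrArg Hom.hom hg
        exact this.trans (pullback.lift_snd _ _ _).symm)

/-- The point is terminal. -/
noncomputable def unitLimit : LimitCone (Functor.empty.{0} (Var k₀ k)) where
  cone := asEmptyCone unit
  isLimit := IsTerminal.ofUniqueHom (fun X => ⟨X.str, Category.comp_id _⟩) fun X f => by
    apply hom_ext'
    have := f.comm
    exact (Category.comp_id _).symm.trans this

noncomputable instance : CartesianMonoidalCategory (Var k₀ k) :=
  .ofChosenFiniteProducts unitLimit prodLimit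

theorem tensor_X (X Y : Var k₀ k) : (X ⊗ Y).X = pullback X.str Y.str := rfl

theorem tensor_dim (X Y : Var k₀ k) : (X ⊗ Y).dim = X.dim + Y.dim := rfl

theorem fst_hom (X Y : Var k₀ k) : (fst X Y).hom = pullback.fst X.str Y.str := rfl

theorem snd_hom (X Y : Var k₀ k) : (snd X Y).hom = pullback.snd X.str Y.str := rfl

end Var

end Pool.Agent.Lib.MP_4ca46c_ag.Sign
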