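import Pool.Agent.Lib.MP_4ca46c_ag.Sign.SpecC
import Pool.Agent.Lib.MP_4ca46c_ag.Geo.Hard

/-!
# `OpData` for a polarised variety
-/

namespace Pool.Agent.Lib.MP_4ca46c_ag.Sign

open CategoryTheory Limits AlgebraicGeometry TensorProduct MonoidalCategory
  CartesianMonoidalCategory

section Abstract

universe u v

variable {K : Type} [Field K] [CharZero K] {𝒱 : Type u} [Category.{v} 𝒱]
  [CartesianMonoidalCategory 𝒱] (W : Geo.WeilCohomology K 𝒱) {X : 𝒱}

/-- the projectors with integral indices -/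
noncomputable def opv_pr (X : 𝒱) (i : ℤ) : Module.End K (W.H X) :=
  if 0 ≤ i then W.pi X i.toNat else 0

theorem opv_apply (k : ℤ) {l : ℕ} {x : W.H X} (hx : x ∈ W.gr X l) :
    opv_pr W X k x = if k = l then x else 0 := by
  rw [opv_pr]
  split_ifs with h1 h2 h2
  · subst h2
    rw [Int.toNat_natCast, W.pi_same hx]
  · exact W.pi_ne hx (by omega)
  · omega
  · rfl

theorem opv_nat (i : ℕ) : opv_pr W X (i : ℤ) = W.pi X i := by
  rw [opv_pr, if_pos (Int.natCast_nonneg i), Int.toNat_natCast]

theorem opv_fix {i : ℕ} {x : W.H X} : opv_pr W X (i : ℤ) x = x ↔ x ∈ W.gr X i := by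
  rw [opv_nat]
  exact ⟨fun h => h ▸ W.pi_mem i x, W.pi_same⟩

theorem opv_mul (i j : ℤ) : opv_pr W X i * opv_pr W X j = if i = j then opv_pr W X i else 0 := by
  refine W.hom_ext fun l x hx => ?_
  rw [Module.End.mul_apply, opv_apply W j hx]
  by_cases h : j = l
  · rw [if_pos h]
    split_ifs with h1
    · rfl
    · rw [opv_apply W i hx, if_neg (by rw [← h]; exact h1)]
      rfl
  · rw [if_neg h, map_zero]
    split_ifs with h1
    · rw [opv_apply W i hx, if_neg (by rw [h1]; exact h)]
    · rfl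

theorem opv_out (i : ℤ) (h : i < 0 ∨ 2 * (W.dim X : ℤ) < i) : opv_pr W X i = 0 := by
  refine W.hom_ext fun l x hx => ?_
  rw [opv_apply W i hx]
  split_ifs with h1
  · rw [W.gr_top hx (by omega)]
    rfl
  · rfl

theorem opv_sum : ∑ i ∈ Finset.Icc (0 : ℤ) (2 * (W.dim X : ℤ)), opv_pr W X i = 1 := by
  refine W.hom_ext fun l x hx => ?_
  rw [LinearMap.sum_apply, Module.End.one_apply]
  by_cases hi : 2 * W.dim X < l
  · rw [W.gr_top hx hi]
    simp
  · rw [Finset.sum_eq_single (l : ℤ)]
    · rw [opv_apply W _ hx, if_pos rfl]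
    · intro k _ hk
      rw [opv_apply W _ hx, if_neg hk]
    · intro h
      exact absurd (Finset.mem_Icc.2 ⟨by omega, by omega⟩) h

/-- correspondences of degree `r` shift the degree by `2 r` -/
theorem opv_comm (r : ℤ) (f : Module.End K (W.H X)) (hf : f ∈ W.Cor X X r) (k : ℤ) :
    f * opv_pr W X k = opv_pr W X (k + 2 * r) * f := by
  refine W.hom_ext fun l x hx => ?_
  rw [Module.End.mul_apply, Module.End.mul_apply, opv_apply W k hx]
  by_cases h1 : (l : ℤ) + 2 * r < 0
  · rw [W.cor_gr_zero hf hx h1, map_zero]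
    split_ifs
    · exact W.cor_gr_zero hf hx h1
    · exact map_zero _
  · have h2 : f x ∈ W.gr X ((l : ℤ) + 2 * r).toNat := W.cor_gr hf hx (by omega)
    rw [opv_apply W _ h2]
    by_cases h : k = l
    · rw [if_pos h, if_pos (by omega)]
    · rw [if_neg h, if_neg (by omega), map_zero]

theorem opv_pow (h : W.H X) (j : ℕ) (x : W.H X) : ((LinearMap.mulLeft K h) ^ j) x = h ^ j * x := by
  rw [LinearMap.pow_mulLeft]
  rfl

theorem opv_lef {h : W.H X} (hh : h ∈ W.Alg X 1)
    (hi : ∀ j ≤ W.dim X, ∀ u ∈ W.gr X (W.dim X - j), h ^ j * u = 0 → u = 0)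
    (hs : ∀ j ≤ W.dim X, ∀ v ∈ W.gr X (W.dim X + j), ∃ u ∈ W.gr X (W.dim X - j), h ^ j * u = v) :
    LefMod (W.dim X) (opv_pr W X) (LinearMap.mulLeft K h) where
  pr_mul := opv_mul W
  out := opv_out W
  sum := opv_sum W
  comm k := by
    have h1 := opv_comm W 1 _ (W.cor_mul hh) k
    rwa [mul_one] at h1
  inj j hj x hx h0 := by
    rw [opv_pow] at h0
    rw [← Nat.cast_sub hj, opv_fix] at hx
    exact hi j hj x hx h0
  surj j hj y hy := by
    rw [← Nat.cast_add, opv_fix] at hy
    obtain ⟨u, hu, h1⟩ := hs j hj y hy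
    refine ⟨u, ?_, ?_⟩
    · rw [← Nat.cast_sub hj, opv_fix]
      exact hu
    · rw [opv_pow]
      exact h1

/-- the Künneth isomorphism and the projectors -/
theorem opv_prT (c : ℤ) : (W.kun X X).conj (prT (W.dim X) (opv_pr W X) c) =
    opv_pr W (X ⊗ X) c := by
  refine W.hom_ext_tm fun a b => ?_
  refine W.ind (P := fun a => (W.kun X X).conj (prT (W.dim X) (opv_pr W X) c) (W.tm a b) =
    opv_pr W (X ⊗ X) c (W.tm a b)) a (by rw [W.tm_zero_left, map_zero, map_zero])
    (fun i a ha => ?_) (fun r s hr hs => by rw [W.tm_add_left, map_add, map_add, hr, hs])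
  refine W.ind (P := fun b => (W.kun X X).conj (prT (W.dim X) (opv_pr W X) c) (W.tm a b) =
    opv_pr W (X ⊗ X) c (W.tm a b)) b (by rw [W.tm_zero_right, map_zero, map_zero])
    (fun j b hb => ?_) (fun r s hr hs => by rw [W.tm_add_right, map_add, map_add, hr, hs])
  rw [LinearEquiv.conj_apply_apply, W.kun_symm_tm, opv_apply W c (W.tm_gr ha hb), prT,
    LinearMap.sum_apply]
  by_cases hi : 2 * W.dim X < i
  · rw [W.gr_top ha hi]
    simp [W.tm_zero_left]
  · rw [Finset.sum_eq_single (i : ℤ)]
    · rw [TensorProduct.map_tmul, opv_apply W _ ha, opv_apply W _ hb, if_pos rfl, W.kun_tmul]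
      push_cast
      by_cases h : c = i + j
      · rw [if_pos h, if_pos (by omega)]
      · rw [if_neg h, if_neg (by omega), W.tm_zero_right]
    · intro k _ hk
      rw [TensorProduct.map_tmul, opv_apply W _ ha, if_neg hk, TensorProduct.zero_tmul]
    · intro h
      exact absurd (Finset.mem_Icc.2 ⟨by omega, by omega⟩) h

theorem opv_conj_mul (f g : Module.End K (W.H X ⊗[K] W.H X)) :
    (W.kun X X).conj (f * g) = (W.kun X X).conj f * (W.kun X X).conj g := by
  rw [Module.End.mul_eq_comp, LinearEquiv.conj_comp]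
  rfl

theorem opv_conj_map (f g : Module.End K (W.H X)) :
    (W.kun X X).conj (TensorProduct.map f g) = W.tens f g := rfl

/-- the sign operator -/
theorem opv_sgn : sgn (W.dim X) (opv_pr W X) = W.eps X := by
  refine W.hom_ext fun i x hx => ?_
  rw [sgn, LinearMap.sum_apply, W.eps_gr hx]
  by_cases hi : 2 * W.dim X < i
  · rw [W.gr_top hx hi]
    simp
  · rw [Finset.sum_eq_single (i : ℤ)]
    · rw [LinearMap.smul_apply, opv_apply W _ hx, if_pos rfl]
      congr 1
      rcases Nat.even_or_odd i with h | h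
      · rw [h.neg_one_pow, if_pos ((Int.even_coe_nat i).mpr h)]
      · rw [h.neg_one_pow, if_neg (by
          rw [Int.even_coe_nat, Nat.not_even_iff_odd]
          exact h)]
    · intro k _ hk
      rw [LinearMap.smul_apply, opv_apply W _ hx, if_neg hk, smul_zero]
    · intro h
      exact absurd (Finset.mem_Icc.2 ⟨by omega, by omega⟩) h

/-- the swap -/
theorem opv_swap : (W.kun X X).conj (gswap (W.dim X) (opv_pr W X)) =
    (W.pull (lift (snd X X) (fst X X))).toLinearMap := by
  refine W.hom_ext_tm fun a b => ?_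
  refine W.ind (P := fun a => (W.kun X X).conj (gswap (W.dim X) (opv_pr W X)) (W.tm a b) =
    (W.pull (lift (snd X X) (fst X X))).toLinearMap (W.tm a b)) a
    (by rw [W.tm_zero_left, map_zero, map_zero])
    (fun i a ha => ?_) (fun r s hr hs => by rw [W.tm_add_left, map_add, map_add, hr, hs])
  refine W.ind (P := fun b => (W.kun X X).conj (gswap (W.dim X) (opv_pr W X)) (W.tm a b) =
    (W.pull (lift (snd X X) (fst X X))).toLinearMap (W.tm a b)) b
    (by rw [W.tm_zero_right, map_zero, map_zero])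
    (fun j b hb => ?_) (fun r s hr hs => by rw [W.tm_add_right, map_add, map_add, hr, hs])
  rw [LinearEquiv.conj_apply_apply, W.kun_symm_tm, AlgHom.toLinearMap_apply, W.pull_tm,
    W.comm_smul (W.pull_gr _ ha) (W.pull_gr _ hb), gswap]
  by_cases hi : 2 * W.dim X < i
  · rw [W.gr_top ha hi]
    simp
  by_cases hj : 2 * W.dim X < j
  · rw [W.gr_top hb hj]
    simp
  rw [LinearMap.sum_apply, Finset.sum_eq_single (i : ℤ), LinearMap.sum_apply,
    Finset.sum_eq_single (j : ℤ)]
  · rw [LinearMap.smul_apply, LinearMap.comp_apply, TensorProduct.map_tmul, opv_apply W _ ha,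
      opv_apply W _ hb, if_pos rfl, if_pos rfl]
    change (W.kun X X) ((if Even ((i : ℤ) * j) then (1 : K) else -1) • (b ⊗ₜ[K] a)) = _
    rw [map_smul, W.kun_tmul]
    change _ = ((-1 : K) ^ (i * j)) • W.tm b a
    congr 1
    rcases Nat.even_or_odd (i * j) with h | h
    · rw [h.neg_one_pow, if_pos (by exact_mod_cast h)]
    · rw [h.neg_one_pow, if_neg (by
        rw [← Nat.cast_mul, Int.even_coe_nat, Nat.not_even_iff_odd]
        exact h)]
  · intro k _ hk
    rw [LinearMap.smul_apply, LinearMap.comp_apply, TensorProduct.map_tmul, opv_apply W _ hb,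
      if_neg hk, TensorProduct.tmul_zero, map_zero, smul_zero]
  · intro h
    exact absurd (Finset.mem_Icc.2 ⟨by omega, by omega⟩) h
  · intro k _ hk
    rw [LinearMap.sum_apply]
    refine Finset.sum_eq_zero fun m _ => ?_
    rw [LinearMap.smul_apply, LinearMap.comp_apply, TensorProduct.map_tmul, opv_apply W _ ha,
      if_neg hk, TensorProduct.zero_tmul, map_zero, smul_zero]
  · intro h
    exact absurd (Finset.mem_Icc.2 ⟨by omega, by omega⟩) h

omit [CharZero K] in
/-- the trace form is nondegenerate -/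
theorem opv_trace_ext {V : Type} [AddCommGroup V] [Module K V] [FiniteDimensional K V]
    {f g : Module.End K V}
    (h : ∀ a : Module.End K V, LinearMap.trace K V (f * a) = LinearMap.trace K V (g * a)) :
    f = g := by
  ext v
  rw [← sub_eq_zero, ← Module.forall_dual_apply_eq_zero_iff K]
  intro φ
  have h1 := h (φ.smulRight v)
  have h2 : ∀ f : Module.End K V, f * φ.smulRight v = φ.smulRight (f v) := by
    intro f
    ext x
    simp [Module.End.mul_apply]
  rw [h2, h2, LinearMap.trace_smulRight, LinearMap.trace_smulRight] at h1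
  rw [map_sub, h1, sub_self]

theorem opv_ptr (r : ℤ) (u : Module.End K (W.H X ⊗[K] W.H X))
    (hu : (W.kun X X).conj u ∈ W.Cor (X ⊗ X) (X ⊗ X) r) :
    ptrR (u * TensorProduct.map 1 (sgn (W.dim X) (opv_pr W X))) ∈ W.Cor X X r := by
  obtain ⟨p, hp, h⟩ := W.cor_ptr hu
  have h1 : ptrR (u * TensorProduct.map 1 (sgn (W.dim X) (opv_pr W X))) = p := by
    refine opv_trace_ext fun a => ?_
    rw [← trace_mul_map_one, mul_assoc, ← TensorProduct.map_mul, one_mul, mul_one, opv_sgn,
      ← LinearMap.trace_conj' _ (W.kun X X), opv_conj_mul, opv_conj_map]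
    exact h a
  rw [h1]
  exact hp

theorem opv_top_eq {x p : W.H X} (hp : p ∈ W.Alg X (W.dim X)) (hp1 : W.tr X p = 1)
    (hx : x ∈ W.gr X (2 * W.dim X)) : W.tr X x • p = x := by
  rw [← sub_eq_zero]
  refine W.duality _ fun y => ?_
  refine W.ind (P := fun y => W.tr X ((W.tr X x • p - x) * y) = 0) y (by simp)
    (fun j y hy => ?_) (fun r s hr hs => by simp only [mul_add, map_add, hr, hs, add_zero])
  by_cases hj : j = 0
  · subst hj
    obtain ⟨a, rfl⟩ := W.connected hy
    rw [sub_mul, map_sub, smul_mul_assoc, map_smul, ← Algebra.commutes, ← Algebra.smul_def,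
      ← Algebra.commutes, ← Algebra.smul_def, map_smul, map_smul, hp1]
    simp only [smul_eq_mul]
    ring
  · have h1 : W.tr X x • p - x ∈ W.gr X (2 * W.dim X) :=
      Submodule.sub_mem _ (Submodule.smul_mem _ _ (W.alg_gr hp)) hx
    exact W.tr_gr (SetLike.mul_mem_graded h1 hy) (by omega)

theorem opv_data {h : W.H X} (hh : h ∈ W.Alg X 1)
    (hi : ∀ j ≤ W.dim X, ∀ u ∈ W.gr X (W.dim X - j), h ^ j * u = 0 → u = 0)
    (hs : ∀ j ≤ W.dim X, ∀ v ∈ W.gr X (W.dim X + j), ∃ u ∈ W.gr X (W.dim X - j), h ^ j * u = v) :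
    OpData (W.dim X) (opv_pr W X) (LinearMap.mulLeft K h) (fun r => W.Cor X X r)
      (fun r => (W.Cor (X ⊗ X) (X ⊗ X) r).comap
        ((W.kun X X).conj.toLinearMap.toAddMonoidHom)) where
  lef := opv_lef W hh hi hs
  ratA :=
    { smul := fun r q f hf => W.cor_rat hf q
      one := W.cor_id X
      mul := fun r s f hf g hg => W.cor_comp hf hg
      comm := fun r f hf k => opv_comm W r f hf k }
  ratB :=
    { smul := fun r q f hf => by
        change (W.kun X X).conj ((q : K) • f) ∈ W.Cor (X ⊗ X) (X ⊗ X) r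
        rw [map_smul]
        exact W.cor_rat hf q
      one := by
        change (W.kun X X).conj (LinearMap.id) ∈ W.Cor (X ⊗ X) (X ⊗ X) 0
        rw [LinearEquiv.conj_id]
        exact W.cor_id _
      mul := fun r s f hf g hg => by
        change (W.kun X X).conj (f * g) ∈ W.Cor (X ⊗ X) (X ⊗ X) (r + s)
        rw [opv_conj_mul]
        exact W.cor_comp hf hg
      comm := fun r f hf k => by
        apply (W.kun X X).conj.injective
        rw [opv_conj_mul, opv_conj_mul, opv_prT, opv_prT]
        exact opv_comm W r _ hf k }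
  pr_zero_ne := by
    obtain ⟨p, _, hp⟩ := W.exists_pt X
    intro h0
    have h1 : opv_pr W X (0 : ℤ) (1 : W.H X) = 1 := by
      rw [opv_apply W 0 (SetLike.one_mem_graded (W.gr X)), if_pos Nat.cast_zero.symm]
    rw [h0, LinearMap.zero_apply] at h1
    rw [← one_mul p, ← h1, zero_mul, map_zero] at hp
    exact zero_ne_one hp
  pr_zero := by
    obtain ⟨p, hpA, hp⟩ := W.exists_pt X
    have h1 : opv_pr W X 0 = W.op (W.tm 1 p) := by
      refine W.hom_ext fun i x hx => ?_
      rw [opv_apply W 0 hx, W.op_tm]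
      split_ifs with h2
      · have h3 : i = 0 := by exact_mod_cast h2.symm
        subst h3
        obtain ⟨a, rfl⟩ := W.connected hx
        rw [← Algebra.commutes, ← Algebra.smul_def, map_smul, hp, smul_eq_mul, mul_one,
          Algebra.algebraMap_eq_smul_one]
      · have h3 : i ≠ 0 := by
          rintro rfl
          exact h2 rfl
        rw [W.tr_gr (SetLike.mul_mem_graded (W.alg_gr hpA) hx) (by omega), zero_smul]
    rw [h1]
    exact W.mem_cor.2 (Or.inr ⟨0 + W.dim X, _, by push_cast; ring, W.tm_alg (W.alg_one X) hpA, rfl⟩)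
  pr_top := by
    obtain ⟨p, hpA, hp⟩ := W.exists_pt X
    have h1 : opv_pr W X (2 * (W.dim X : ℤ)) = W.op (W.tm p 1) := by
      refine W.hom_ext fun i x hx => ?_
      rw [opv_apply W _ hx, W.op_tm, one_mul]
      split_ifs with h2
      · have h3 : i = 2 * W.dim X := by exact_mod_cast h2.symm
        subst h3
        exact (opv_top_eq W hpA hp hx).symm
      · rw [W.tr_gr hx (by omega), zero_smul]
    rw [h1]
    exact W.mem_cor.2 (Or.inr ⟨W.dim X + 0, _, by push_cast; ring, W.tm_alg hpA (W.alg_one X), rfl⟩)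
  L_mem := W.cor_mul hh
  trace f hf := by
    rw [opv_sgn]
    exact W.trace_eps_rat hf
  tensor r s f hf g hg := by
    change (W.kun X X).conj (TensorProduct.map f g) ∈ W.Cor (X ⊗ X) (X ⊗ X) (r + s)
    rw [opv_conj_map]
    exact W.cor_tens hf hg
  swap := by
    change (W.kun X X).conj (gswap (W.dim X) (opv_pr W X)) ∈ W.Cor (X ⊗ X) (X ⊗ X) 0
    rw [opv_swap]
    exact W.cor_pull _
  ptr r u hu := opv_ptr W r u hu

end Abstract

variable (k₀ K : Type) [Field k₀] [Field K] [CharZero K]

theorem tOpV : StOpV k₀ K := by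
  intro T V
  exact opv_data (weil T V.k) (X := V.var) ⟨V.h, V.h_mem, rfl⟩ V.lefschetz_injective
    V.lefschetz_surjective

end Pool.Agent.Lib.MP_4ca46c_ag.Sign
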