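import Pool.Agent.Lib.MP_4ca46c_ag.Sign.SpecC
import Pool.Agent.Lib.MP_4ca46c_ag.Geo.Hard

/-!
# The relation on `V ⊗ V`
-/

namespace Pool.Agent.Lib.MP_4ca46c_ag.Sign

open CategoryTheory Limits AlgebraicGeometry TensorProduct MonoidalCategory
  CartesianMonoidalCategory

section Abstract

variable {K : Type} [Field K] [CharZero K] {𝒱 : Type 1} [Category.{0} 𝒱]
  [CartesianMonoidalCategory 𝒱] (W : Geo.WeilCohomology K 𝒱) {X : 𝒱}

/-- classes of degree `2` are central -/
theorem rel_central {h : W.H X} (hh : h ∈ W.gr X 2) (y : W.H X) : h * y = y * h := by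
  refine W.ind (P := fun y => h * y = y * h) y (by simp) (fun i y hy => ?_)
    (fun r s hr hs => by simp only [mul_add, add_mul, hr, hs])
  rw [W.comm hh hy, Even.neg_one_pow ⟨i, by ring⟩, one_mul]

/-- the class `h ⊗ 1 + 1 ⊗ h` -/
noncomputable def relH (h : W.H X) : W.H (X ⊗ X) :=
  W.pull (fst X X) h + W.pull (snd X X) h

theorem relH_gr {h : W.H X} (hh : h ∈ W.gr X 2) : relH W h ∈ W.gr (X ⊗ X) 2 :=
  Submodule.add_mem _ (W.pull_gr _ hh) (W.pull_gr _ hh)

/-- `LL` is multiplication by `h ⊗ 1 + 1 ⊗ h` -/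
theorem rel_LL {h : W.H X} (hh : h ∈ W.gr X 2) (t : W.H X ⊗[K] W.H X) :
    W.kun X X (LL (LinearMap.mulLeft K h) t) = relH W h * W.kun X X t := by
  induction t using TensorProduct.induction_on with
  | zero => simp
  | add x y hx hy => rw [map_add, map_add, map_add, mul_add, hx, hy]
  | tmul a b =>
    rw [LL, LinearMap.add_apply, TensorProduct.map_tmul, TensorProduct.map_tmul, map_add,
      W.kun_tmul, W.kun_tmul, W.kun_tmul]
    change W.pull (fst X X) (h * a) * W.pull (snd X X) b +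
      W.pull (fst X X) a * W.pull (snd X X) (h * b) =
      (W.pull (fst X X) h + W.pull (snd X X) h) * (W.pull (fst X X) a * W.pull (snd X X) b)
    rw [map_mul, map_mul, add_mul]
    congr 1
    · rw [mul_assoc]
    · rw [← mul_assoc, ← mul_assoc, rel_central W (W.pull_gr (snd X X) hh)]

/-- the projectors -/
theorem rel_prT {pr : ℤ → Module.End K (W.H X)}
    (hpr : ∀ i : ℤ, pr i = if 0 ≤ i then W.pi X i.toNat else 0) {i j : ℕ} {a b : W.H X}
    (ha : a ∈ W.gr X i) (hb : b ∈ W.gr X j) (c : ℤ) :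
    prT (W.dim X) pr c (a ⊗ₜ b) = if (i : ℤ) + j = c then a ⊗ₜ b else 0 := by
  have key : ∀ (k : ℤ) (l : ℕ) (x : W.H X), x ∈ W.gr X l → pr k x = if k = l then x else 0 := by
    intro k l x hx
    rw [hpr]
    split_ifs with h1 h2 h2
    · subst h2
      rw [Int.toNat_natCast, W.pi_same hx]
    · exact W.pi_ne hx (by omega)
    · omega
    · rfl
  by_cases hi : 2 * W.dim X < i
  · rw [W.gr_top ha hi]
    simp
  · rw [prT, LinearMap.sum_apply, Finset.sum_eq_single (i : ℤ)]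
    · rw [TensorProduct.map_tmul, key _ i a ha, key _ j b hb, if_pos rfl]
      by_cases h : (i : ℤ) + j = c
      · rw [if_pos h, if_pos (by omega)]
      · rw [if_neg h, if_neg (by omega), TensorProduct.tmul_zero]
    · intro k _ hk
      rw [TensorProduct.map_tmul, key _ i a ha, if_neg hk, TensorProduct.zero_tmul]
    · intro h
      exact absurd (Finset.mem_Icc.2 ⟨by omega, by omega⟩) h

/-- operators on `H(X) ⊗ H(X)` agree if they agree on homogeneous tensors -/
theorem rel_ext {f g : Module.End K (W.H X ⊗[K] W.H X)}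
    (h : ∀ (i j : ℕ) (a b : W.H X), a ∈ W.gr X i → b ∈ W.gr X j → f (a ⊗ₜ b) = g (a ⊗ₜ b)) :
    f = g := by
  refine TensorProduct.ext' fun a b => ?_
  refine W.ind (P := fun a => f (a ⊗ₜ b) = g (a ⊗ₜ b)) a (by simp) (fun i a ha => ?_)
    (fun r s hr hs => by simp only [TensorProduct.add_tmul, map_add, hr, hs])
  exact W.ind (P := fun b => f (a ⊗ₜ b) = g (a ⊗ₜ b)) b (by simp) (fun j b hb => h i j a b ha hb)
    (fun r s hr hs => by simp only [TensorProduct.tmul_add, map_add, hr, hs])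

/-- the relation for a class `u` on `Z × Z` -/
theorem rel_main {h : W.H X} (hh : h ∈ W.gr X 2) (u : W.H ((X ⊗ X) ⊗ (X ⊗ X)))
    (hu : ∀ i, ∀ z ∈ W.gr (X ⊗ X) i, ∀ z', W.tr ((X ⊗ X) ⊗ (X ⊗ X))
      (u * W.pull (snd (X ⊗ X) (X ⊗ X)) (relH W h * z) *
        W.pull (fst (X ⊗ X) (X ⊗ X)) (relH W h * z')) =
      if Even i then W.tr (X ⊗ X) (relH W h * z * z') else 0)
    {i : ℕ} {z : W.H (X ⊗ X)} (hz : z ∈ W.gr (X ⊗ X) i) :
    relH W h * W.op u (relH W h * z) = if Even i then relH W h * z else 0 := by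
  refine W.ext_tr fun z' => ?_
  have h1 := hu i z hz z'
  rw [← W.op_spec] at h1
  rw [rel_central W (relH_gr W hh), mul_assoc, h1]
  split_ifs
  · rfl
  · rw [zero_mul, map_zero]

theorem rel_op {pr : ℤ → Module.End K (W.H X)}
    (hpr : ∀ i : ℤ, pr i = if 0 ≤ i then W.pi X i.toNat else 0)
    {h : W.H X} (hh : h ∈ W.gr X 2) (u : W.H ((X ⊗ X) ⊗ (X ⊗ X)))
    (hu : ∀ i, ∀ z ∈ W.gr (X ⊗ X) i, ∀ z', W.tr ((X ⊗ X) ⊗ (X ⊗ X))
      (u * W.pull (snd (X ⊗ X) (X ⊗ X)) (relH W h * z) *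
        W.pull (fst (X ⊗ X) (X ⊗ X)) (relH W h * z')) =
      if Even i then W.tr (X ⊗ X) (relH W h * z * z') else 0) (c : ℤ) :
    LL (LinearMap.mulLeft K h) * (W.kun X X).symm.conj (W.op u) * LL (LinearMap.mulLeft K h) *
      prT (W.dim X) pr c =
    if Even c then LL (LinearMap.mulLeft K h) * prT (W.dim X) pr c else 0 := by
  refine rel_ext W fun i j a b ha hb => ?_
  rw [Module.End.mul_apply, rel_prT W hpr ha hb c]
  by_cases hc : (i : ℤ) + j = c
  · have h2 : W.tm a b ∈ W.gr (X ⊗ X) (i + j) := W.tm_gr ha hb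
    have h3 := rel_main W hh u hu h2
    have h4 : Even c ↔ Even (i + j) := by
      rw [← hc, ← Nat.cast_add, Int.even_coe_nat]
    rw [if_pos hc, Module.End.mul_apply, Module.End.mul_apply]
    apply (W.kun X X).injective
    rw [rel_LL W hh]
    have h5 : (W.kun X X) (((W.kun X X).symm.conj (W.op u)) ((LL (LinearMap.mulLeft K h))
        (a ⊗ₜ b))) = W.op u (W.kun X X (LL (LinearMap.mulLeft K h) (a ⊗ₜ b))) := by
      rw [LinearEquiv.conj_apply]
      simp
    rw [h5, rel_LL W hh, W.kun_tmul, h3]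
    by_cases h6 : Even c
    · rw [if_pos h6, if_pos (h4.1 h6), Module.End.mul_apply, rel_prT W hpr ha hb c, if_pos hc,
        rel_LL W hh, W.kun_tmul]
    · rw [if_neg h6, if_neg (fun h7 => h6 (h4.2 h7)), LinearMap.zero_apply, map_zero]
  · rw [if_neg hc, map_zero]
    split_ifs
    · rw [Module.End.mul_apply, rel_prT W hpr ha hb c, if_neg hc, map_zero]
    · rfl

theorem rel_conj {M N : Type} [AddCommGroup M] [Module K M] [AddCommGroup N] [Module K N]
    (e : M ≃ₗ[K] N) (f : Module.End K N) : e.conj (e.symm.conj f) = f := by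
  ext x
  simp [LinearEquiv.conj_apply]

end Abstract

variable (k₀ K : Type) [Field k₀] [Field K] [CharZero K]

theorem tRel (h1 : StKey k₀ K) : StRel k₀ K := by
  intro T V W G hW
  obtain ⟨w, hw, h2⟩ := h1 T V W G hW
  have hh : T.cl V.X V.h ∈ (weil T V.k).gr V.var 2 :=
    T.cl_mem V.X V.isVar.isWeil 1 V.h V.h_mem
  have h3 := rel_op (weil T V.k) (X := V.var) (pr := V.proj) (fun i => rfl) hh
    (T.cl (pullback V.sqStr V.sqStr) w) h2
  refine ⟨((weil T V.k).kun V.var V.var).symm.conj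
    ((weil T V.k).op (X := V.var ⊗ V.var) (Y := V.var ⊗ V.var)
      (T.cl (pullback V.sqStr V.sqStr) w)), ?_, fun c hc => ?_, fun c hc => ?_⟩
  · change ((weil T V.k).kun V.var V.var).conj
      (((weil T V.k).kun V.var V.var).symm.conj _) ∈
        (weil T V.k).Cor (V.var ⊗ V.var) (V.var ⊗ V.var) (-1)
    rw [rel_conj]
    refine (weil T V.k).mem_cor.2 (Or.inr ⟨W.n, _, ?_, ⟨w, hw, rfl⟩, rfl⟩)
    have h4 := G.dim
    change (W.n : ℤ) = ((V.n + V.n : ℕ) : ℤ) + -1
    push_cast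
    omega
  · have h4 := h3 c
    rw [if_pos hc] at h4
    exact h4
  · have h4 := h3 c
    rw [if_neg (Int.not_even_iff_odd.2 hc)] at h4
    exact h4

end Pool.Agent.Lib.MP_4ca46c_ag.Sign
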