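import Mathlib
import Pool.Agent.Lib.MP_4ca46c_ag.Split

/-!
# Graded algebras of operators and their trace radical
-/

namespace Pool.Agent.Lib.MP_4ca46c_ag.Sign

open Module

universe u

/-- A graded algebra of operators on a graded vector space. -/
structure GrAlg (K : Type u) (V : Type u) [Field K] [AddCommGroup V] [Module K V] where
  /-- projectors -/
  pr : ℤ → Module.End K V
  pr_mul : ∀ i j, pr i * pr j = if i = j then pr i else 0
  /-- operators of degree `r` -/
  R : ℤ → Submodule K (Module.End K V)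
  one_mem : (1 : Module.End K V) ∈ R 0
  mul_mem : ∀ r s f g, f ∈ R r → g ∈ R s → f * g ∈ R (r + s)
  comm : ∀ r f, f ∈ R r → ∀ k, f * pr k = pr (k + 2 * r) * f

namespace GrAlg

variable {K V : Type u} [Field K] [AddCommGroup V] [Module K V] (G : GrAlg K V)

theorem mul_mem' {r s t : ℤ} {f g : Module.End K V} (hf : f ∈ G.R r) (hg : g ∈ G.R s)
    (h : r + s = t) : f * g ∈ G.R t := h ▸ G.mul_mem r s f g hf hg

theorem pr_idem (i : ℤ) : G.pr i * G.pr i = G.pr i := by rw [G.pr_mul, if_pos rfl]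

theorem pr_ne {i j : ℤ} (h : i ≠ j) : G.pr i * G.pr j = 0 := by rw [G.pr_mul, if_neg h]

theorem comm0 {f : Module.End K V} (hf : f ∈ G.R 0) (k : ℤ) : f * G.pr k = G.pr k * f := by
  have := G.comm 0 f hf k
  simpa using this

theorem pow_mem {f : Module.End K V} (hf : f ∈ G.R 0) (m : ℕ) : f ^ m ∈ G.R 0 := by
  induction m with
  | zero => simpa using G.one_mem
  | succ m ih => rw [pow_succ]; exact G.mul_mem' ih hf (by ring)

theorem pow_mem' {r : ℤ} {f : Module.End K V} (hf : f ∈ G.R r) (m : ℕ) :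
    f ^ m ∈ G.R (m * r) := by
  induction m with
  | zero => simpa using G.one_mem
  | succ m ih => rw [pow_succ]; exact G.mul_mem' ih hf (by push_cast; ring)

/-- The trace radical in degree `r`. -/
def N (r : ℤ) : Submodule K (Module.End K V) where
  carrier := {f | f ∈ G.R r ∧ ∀ g ∈ G.R (-r), LinearMap.trace K V (g * f) = 0}
  add_mem' := by
    rintro a b ⟨ha, ha'⟩ ⟨hb, hb'⟩
    refine ⟨(G.R r).add_mem ha hb, fun g hg => ?_⟩
    rw [mul_add, map_add, ha' g hg, hb' g hg, add_zero]
  zero_mem' := ⟨(G.R r).zero_mem, fun g _ => by rw [mul_zero, map_zero]⟩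
  smul_mem' := by
    rintro c a ⟨ha, ha'⟩
    refine ⟨(G.R r).smul_mem c ha, fun g hg => ?_⟩
    rw [mul_smul_comm, map_smul, ha' g hg, smul_zero]

variable {G}

theorem mem_N {r : ℤ} {f : Module.End K V} :
    f ∈ G.N r ↔ f ∈ G.R r ∧ ∀ g ∈ G.R (-r), LinearMap.trace K V (g * f) = 0 := Iff.rfl

theorem N_le {r : ℤ} {f : Module.End K V} (h : f ∈ G.N r) : f ∈ G.R r := h.1

theorem N_left {r s t : ℤ} {f g : Module.End K V} (hf : f ∈ G.N r) (hg : g ∈ G.R s)
    (h : s + r = t) : g * f ∈ G.N t := by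
  subst h
  refine ⟨G.mul_mem _ _ _ _ hg hf.1, fun a ha => ?_⟩
  rw [← mul_assoc]
  exact hf.2 _ (G.mul_mem' ha hg (by ring))

theorem N_right {r s t : ℤ} {f g : Module.End K V} (hf : f ∈ G.N r) (hg : g ∈ G.R s)
    (h : r + s = t) : f * g ∈ G.N t := by
  subst h
  refine ⟨G.mul_mem _ _ _ _ hf.1 hg, fun a ha => ?_⟩
  rw [← mul_assoc, LinearMap.trace_mul_comm, ← mul_assoc]
  exact hf.2 _ (G.mul_mem' hg ha (by ring))

theorem N_trace {r s : ℤ} {f g : Module.End K V} (hf : f ∈ G.N r) (hg : g ∈ G.R s)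
    (h : s + r = 0) : LinearMap.trace K V (g * f) = 0 := by
  obtain rfl : s = -r := by omega
  exact hf.2 g hg

theorem N_trace_self {f : Module.End K V} (hf : f ∈ G.N 0) : LinearMap.trace K V f = 0 := by
  have := N_trace hf G.one_mem (by ring)
  rwa [one_mul] at this

variable [CharZero K] [FiniteDimensional K V]

theorem N_nilpotent {f : Module.End K V} (hf : f ∈ G.N 0) : IsNilpotent f := by
  refine isNilpotent_of_trace_pow f fun m hm => ?_
  obtain ⟨m, rfl⟩ := Nat.exists_eq_succ_of_ne_zero hm.ne'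
  rw [pow_succ]
  exact N_trace hf (G.pow_mem hf.1 m) (by ring)

/-- A degree zero operator that is nilpotent has trace zero on each graded piece. -/
theorem trace_pr_of_nilpotent {f : Module.End K V} (hf : f ∈ G.R 0) (hn : IsNilpotent f) (k : ℤ) :
    LinearMap.trace K V (G.pr k * f) = 0 := by
  have hc : Commute (G.pr k) f := (G.comm0 hf k).symm
  have : IsNilpotent (G.pr k * f) := hc.isNilpotent_mul_left hn
  exact (LinearMap.isNilpotent_trace_of_isNilpotent this).eq_zero

theorem N_trace_pr {f : Module.End K V} (hf : f ∈ G.N 0) (k : ℤ) :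
    LinearMap.trace K V (G.pr k * f) = 0 := trace_pr_of_nilpotent hf.1 (N_nilpotent hf) k

omit [CharZero K] [FiniteDimensional K V] in
/-- operators of nonzero degree have trace zero on graded pieces -/
theorem trace_pr_of_ne {r : ℤ} {f : Module.End K V} (hf : f ∈ G.R r) (hr : r ≠ 0) (k : ℤ) :
    LinearMap.trace K V (f * G.pr k) = 0 := by
  have h1 : f * G.pr k = (f * G.pr k) * G.pr k := by rw [mul_assoc, G.pr_idem]
  rw [h1, LinearMap.trace_mul_comm, G.comm r f hf, ← mul_assoc, G.pr_ne (by omega), zero_mul,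
    map_zero]

end GrAlg

/-- Duality for a symmetric bilinear form: a subspace containing the radical is cut out by
its orthogonal. -/
theorem exists_orthogonal {K E : Type u} [Field K] [AddCommGroup E] [Module K E]
    [FiniteDimensional K E] (B : E →ₗ[K] E →ₗ[K] K) (hB : ∀ x y, B x y = B y x)
    (S : Submodule K E) (hS : ∀ x, (∀ y, B x y = 0) → x ∈ S) {x : E} (hx : x ∉ S) :
    ∃ e, (∀ l ∈ S, B l e = 0) ∧ B x e ≠ 0 := by
  obtain ⟨φ, hφ, hφS⟩ := Submodule.exists_le_ker_of_notMem hx
  let b := Module.finBasis K E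
  have h1 : φ ∈ Submodule.span K (Set.range fun i => B (b i)) := by
    refine mem_span_of_iInf_ker_le_ker fun z hz => ?_
    refine hφS (hS z fun y => ?_)
    have h2 : ∀ i, B (b i) z = 0 := fun i => (Submodule.mem_iInf _).1 hz i
    have h3 : B.flip z = 0 := b.ext fun i => by simpa using h2 i
    rw [hB z y]
    exact LinearMap.congr_fun h3 y
  obtain ⟨c, hc⟩ := (Submodule.mem_span_range_iff_exists_fun K).1 h1
  refine ⟨∑ i, c i • b i, fun l hl => ?_, ?_⟩
  · have h4 : φ l = 0 := hφS hl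
    rw [← hc] at h4
    rw [map_sum]
    simpa [hB] using h4
  · rw [map_sum]
    intro h5
    apply hφ
    rw [← hc]
    simpa [hB] using h5

end Pool.Agent.Lib.MP_4ca46c_ag.Sign
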