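import Mathlib
import Pool.Agent.Lib.MP_4ca46c_ag.Sign.Graded

/-!
# Specification A: linear algebra

All statements needed for the operator part of the proof. `V` is the total cohomology of `X`
(dimension `n`), `V ⊗ V` that of `X × X`, `L` the Lefschetz operator. Every statement has its
complete proof in its docstring.
-/

namespace Pool.Agent.Lib.MP_4ca46c_ag.Sign

open Module TensorProduct LinearMap

section Defs

variable {K V W : Type} [Field K] [AddCommGroup V] [Module K V] [AddCommGroup W] [Module K W]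
  [FiniteDimensional K V] [FiniteDimensional K W]

/-- The partial trace over the second factor: `f ⊗ g ↦ tr(g) f`. -/
noncomputable def ptrR : Module.End K (V ⊗[K] W) →ₗ[K] Module.End K V :=
  (TensorProduct.rid K (Module.End K V)).toLinearMap ∘ₗ
    LinearMap.lTensor (Module.End K V) (LinearMap.trace K W) ∘ₗ
      (homTensorHomEquiv K V W V W).symm.toLinearMap

/-- The partial trace over the first factor: `f ⊗ g ↦ tr(f) g`. -/
noncomputable def ptrL : Module.End K (V ⊗[K] W) →ₗ[K] Module.End K W :=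
  (TensorProduct.lid K (Module.End K W)).toLinearMap ∘ₗ
    LinearMap.rTensor (Module.End K W) (LinearMap.trace K V) ∘ₗ
      (homTensorHomEquiv K V W V W).symm.toLinearMap

theorem ptrR_map (f : Module.End K V) (g : Module.End K W) :
    ptrR (TensorProduct.map f g) = LinearMap.trace K W g • f := by
  have : (homTensorHomEquiv K V W V W).symm (TensorProduct.map f g) = f ⊗ₜ g := by
    rw [LinearEquiv.symm_apply_eq, homTensorHomEquiv_apply, homTensorHomMap_apply]
  simp [ptrR, this]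

theorem ptrL_map (f : Module.End K V) (g : Module.End K W) :
    ptrL (TensorProduct.map f g) = LinearMap.trace K V f • g := by
  have : (homTensorHomEquiv K V W V W).symm (TensorProduct.map f g) = f ⊗ₜ g := by
    rw [LinearEquiv.symm_apply_eq, homTensorHomEquiv_apply, homTensorHomMap_apply]
  simp [ptrL, this]

/-- Induction principle: a linear property of operators on `V ⊗ W` needs to be checked for
`f ⊗ g` only. -/
theorem end_tensor_induction {P : Module.End K (V ⊗[K] W) → Prop} (h0 : P 0)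
    (hadd : ∀ u v, P u → P v → P (u + v)) (hmap : ∀ f g, P (TensorProduct.map f g))
    (u : Module.End K (V ⊗[K] W)) : P u := by
  obtain ⟨t, rfl⟩ := (homTensorHomEquiv K V W V W).surjective u
  induction t using TensorProduct.induction_on with
  | zero => simpa using h0
  | tmul f g =>
    rw [homTensorHomEquiv_apply, homTensorHomMap_apply]
    exact hmap f g
  | add x y hx hy => rw [map_add]; exact hadd _ _ hx hy

theorem trace_mul_map_one (u : Module.End K (V ⊗[K] W)) (f : Module.End K V) :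
    LinearMap.trace K _ (u * TensorProduct.map f 1) = LinearMap.trace K _ (ptrR u * f) := by
  induction u using end_tensor_induction with
  | h0 => simp
  | hadd u v hu hv => simp only [add_mul, map_add, hu, hv]
  | hmap a b =>
    rw [ptrR_map, ← TensorProduct.map_mul, mul_one, LinearMap.trace_tensorProduct', smul_mul_assoc,
      map_smul, smul_eq_mul, mul_comm]

theorem trace_mul_one_map (u : Module.End K (V ⊗[K] W)) (g : Module.End K W) :
    LinearMap.trace K _ (u * TensorProduct.map 1 g) = LinearMap.trace K _ (ptrL u * g) := by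
  induction u using end_tensor_induction with
  | h0 => simp
  | hadd u v hu hv => simp only [add_mul, map_add, hu, hv]
  | hmap a b =>
    rw [ptrL_map, ← TensorProduct.map_mul, mul_one, LinearMap.trace_tensorProduct', smul_mul_assoc,
      map_smul, smul_eq_mul]

/-- The Lefschetz operator `L ⊗ 1 + 1 ⊗ L` of `X × X`. -/
noncomputable def LL (L : Module.End K V) : Module.End K (V ⊗[K] V) :=
  TensorProduct.map L 1 + TensorProduct.map 1 L

/-- The projector onto the part of degree `c` of `V ⊗ V`. -/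
noncomputable def prT (n : ℕ) (pr : ℤ → Module.End K V) (c : ℤ) : Module.End K (V ⊗[K] V) :=
  ∑ i ∈ Finset.Icc (0 : ℤ) (2 * n), TensorProduct.map (pr i) (pr (c - i))

/-- The sign operator `∑ (-1)^i pr_i`. -/
noncomputable def sgn (n : ℕ) (pr : ℤ → Module.End K V) : Module.End K V :=
  ∑ i ∈ Finset.Icc (0 : ℤ) (2 * n), (if Even i then (1 : K) else -1) • pr i

/-- The graded swap `x ⊗ y ↦ (-1)^(|x||y|) y ⊗ x`. -/
noncomputable def gswap (n : ℕ) (pr : ℤ → Module.End K V) : Module.End K (V ⊗[K] V) :=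
  ∑ i ∈ Finset.Icc (0 : ℤ) (2 * n), ∑ j ∈ Finset.Icc (0 : ℤ) (2 * n),
    (if Even (i * j) then (1 : K) else -1) •
      ((TensorProduct.comm K V V).toLinearMap ∘ₗ TensorProduct.map (pr i) (pr j))

end Defs

section Structures

variable {K V : Type} [Field K] [AddCommGroup V] [Module K V]

/-- A graded vector space of dimension `n` (degrees `0` to `2n`) with a Lefschetz operator. -/
structure LefMod (n : ℕ) (pr : ℤ → Module.End K V) (L : Module.End K V) : Prop where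
  pr_mul : ∀ i j, pr i * pr j = if i = j then pr i else 0
  out : ∀ i, i < 0 ∨ 2 * (n : ℤ) < i → pr i = 0
  sum : ∑ i ∈ Finset.Icc (0 : ℤ) (2 * n), pr i = 1
  comm : ∀ k, L * pr k = pr (k + 2) * L
  /-- hard Lefschetz -/
  inj : ∀ j : ℕ, j ≤ n → ∀ x, pr ((n : ℤ) - j) x = x → (L ^ j) x = 0 → x = 0
  surj : ∀ j : ℕ, j ≤ n → ∀ y, pr ((n : ℤ) + j) y = y →
    ∃ x, pr ((n : ℤ) - j) x = x ∧ (L ^ j) x = y

/-- `Λ` is the adjoint Lefschetz operator: `Λ (L^j x) = L^(j-1) x` for primitive `x`. -/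
def IsLam (n : ℕ) (pr : ℤ → Module.End K V) (L Lam : Module.End K V) : Prop :=
  ∀ i : ℕ, i ≤ n → ∀ x, pr i x = x → (L ^ (n - i + 1)) x = 0 → ∀ j : ℕ, j ≤ n - i →
    Lam ((L ^ j) x) = if j = 0 then 0 else (L ^ (j - 1)) x

/-- Groups of operators of degree `r`, stable under products and rational multiples. -/
structure RatAlg (pr : ℤ → Module.End K V) (A : ℤ → AddSubgroup (Module.End K V)) : Prop where
  smul : ∀ r (q : ℚ), ∀ f ∈ A r, (q : K) • f ∈ A r
  one : (1 : Module.End K V) ∈ A 0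
  mul : ∀ r s, ∀ f ∈ A r, ∀ g ∈ A s, f * g ∈ A (r + s)
  comm : ∀ r, ∀ f ∈ A r, ∀ k, f * pr k = pr (k + 2 * r) * f

/-- Algebraic operators on `V = H(X)` (the groups `A`) and on `V ⊗ V = H(X × X)` (the groups
`B`), where `X` is a connected variety of dimension `n`. -/
structure OpData [FiniteDimensional K V] (n : ℕ) (pr : ℤ → Module.End K V) (L : Module.End K V)
    (A : ℤ → AddSubgroup (Module.End K V)) (B : ℤ → AddSubgroup (Module.End K (V ⊗[K] V))) :
    Prop where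
  lef : LefMod n pr L
  ratA : RatAlg pr A
  ratB : RatAlg (prT n pr) B
  pr_zero_ne : pr 0 ≠ 0
  pr_zero : pr 0 ∈ A 0
  pr_top : pr (2 * n) ∈ A 0
  L_mem : L ∈ A 1
  /-- Lefschetz trace formula -/
  trace : ∀ f ∈ A 0, ∃ q : ℚ, LinearMap.trace K V (f * sgn n pr) = q
  tensor : ∀ r s, ∀ f ∈ A r, ∀ g ∈ A s, TensorProduct.map f g ∈ B (r + s)
  swap : gswap n pr ∈ B 0
  /-- partial supertrace -/
  ptr : ∀ r, ∀ u ∈ B r, ptrR (u * TensorProduct.map 1 (sgn n pr)) ∈ A r

/-- Operators with coefficients in `K`, with ordinary partial traces. -/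
structure Square [FiniteDimensional K V] (G : GrAlg K V) (Z : GrAlg K (V ⊗[K] V)) (n : ℕ)
    (L : Module.End K V) : Prop where
  lef : LefMod n G.pr L
  prZ : ∀ c, Z.pr c = prT n G.pr c
  L_mem : L ∈ G.R 1
  tensor : ∀ r s, ∀ f ∈ G.R r, ∀ g ∈ G.R s, TensorProduct.map f g ∈ Z.R (r + s)
  ptrR : ∀ r, ∀ u ∈ Z.R r, ptrR u ∈ G.R r
  ptrL : ∀ r, ∀ u ∈ Z.R r, ptrL u ∈ G.R r

/-- An operator `w` of degree `-1` on `V ⊗ V` with `H w H = H` in even degrees, where
`H = L ⊗ 1 + 1 ⊗ L`. -/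
structure QInv [FiniteDimensional K V] (Z : GrAlg K (V ⊗[K] V)) (L : Module.End K V)
    (w : Module.End K (V ⊗[K] V)) : Prop where
  mem : w ∈ Z.R (-1)
  even : ∀ c, Even c → LL L * w * LL L * Z.pr c = LL L * Z.pr c

end Structures

section Statements

/-- The operator `L ⊗ 1 + 1 ⊗ L` is injective below the middle degree `2n` of `V ⊗ V`.

PROOF. Let `z` have degree `c < 2n` and `LL z = 0`; put `z_i = (pr i ⊗ pr (c-i)) z`, so
`z = ∑ z_i` (sum over `0 ≤ i ≤ 2n`) and `z_i = 0` for `i` outside `[0, 2n]`. Taking the component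
in `V^(i+2) ⊗ V^(c-i)` gives (1) `(L ⊗ 1) z_i = - (1 ⊗ L) z_(i+2)` for all `i`. Hence by
induction (2) `(L^a ⊗ 1) z_i = (-1)^a (1 ⊗ L^a) z_(i+2a)`. Show `z_i = 0` by strong induction on
`i`: assume `z_(i-2) = 0` (true for `i < 2`). By (2) for `i - 2` and `a + 1`:
`(1 ⊗ L^(a+1)) z_(i+2a) = 0` for every `a ≥ 0`. Let `a₀ = max 0 (c - i - n + 1)`. The vector
`z_(i+2a₀)` lies in `V^(i+2a₀) ⊗ V^(c-i-2a₀)` and `L^(a₀+1)` is injective on `V^(c-i-2a₀)`, because
`(c-i-2a₀) + (a₀+1) ≤ n` (hard Lefschetz: `L^m` is injective on `V^b` if `b + m ≤ n`, since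
`L^(n-b)` is injective there; tensoring over a field keeps injectivity). So `z_(i+2a₀) = 0`. By
(2) with `a₀`: `(L^a₀ ⊗ 1) z_i = 0`. If `a₀ = 0` done; otherwise `i + a₀ = c - n + 1 ≤ n`, so
`L^a₀` is injective on `V^i` and `z_i = 0`. -/
def StInj : Prop := ∀ (K V : Type) [Field K] [AddCommGroup V] [Module K V]
  [FiniteDimensional K V] (n : ℕ) (pr : ℤ → Module.End K V) (L : Module.End K V),
  LefMod n pr L → ∀ c : ℤ, c < 2 * n → ∀ z, prT n pr c z = z → LL L z = 0 → z = 0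

/-- The operator `L ⊗ 1 + 1 ⊗ L` is surjective above the middle degree.

PROOF. Call `z ≡ z'` if `z - z'` is in the range of `LL L` (as a map from all of `V ⊗ V`; at the
end apply `prT (c-2)`: if `z` has degree `c` and `z = LL y` then `z = LL (prT (c-2) y)`, because
`LL * prT (c-2) = prT c * LL`). It suffices to show `x ⊗ y ≡ 0` for `x` of degree `a`, `y` of
degree `b`, `a + b = c ≥ 2n + 1`. Since `L x ⊗ y = LL (x ⊗ y) - x ⊗ L y` we have
`L^s x ⊗ y ≡ (-1)^s x ⊗ L^s y`. By `primitive` decomposition (`StPrim`) we may assume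
`x = L^s p` with `p` primitive of degree `a' = a - 2s ≤ n`, i.e. `L^(n-a'+1) p = 0` (for `a > n`
write first `x = L^(a-n) x'` with `x'` of degree `2n - a`). Then `x ⊗ y ≡ ± p ⊗ L^s y` and
`L^s y` has degree `b + 2s = (a+b) - a' ≥ n + 1`. Let `m = b + 2s - n ≥ 1`. If `m > n` then
`L^s y = 0` (degree `> 2n`). Otherwise by hard Lefschetz `L^s y = L^m y'`, and
`p ⊗ L^m y' ≡ ± L^m p ⊗ y'`, which is `0` as `m ≥ n - a' + 1`, because
`a' + m = a - 2s + b + 2s - n = c - n ≥ n + 1`. -/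
def StSurj : Prop := ∀ (K V : Type) [Field K] [AddCommGroup V] [Module K V]
  [FiniteDimensional K V] (n : ℕ) (pr : ℤ → Module.End K V) (L : Module.End K V),
  LefMod n pr L → ∀ c : ℤ, 2 * n < c → ∀ z, prT n pr c z = z →
    ∃ y, prT n pr (c - 2) y = y ∧ LL L y = z

/-- Primitive decomposition, one step: every `x` of degree `i ≤ n` is `p + L y` with `p` primitive
of degree `i` and `y` of degree `i - 2`.

PROOF. If `i < 2` then `V^(2n-i+2) = 0`, so `x` is primitive itself: take `y = 0`. Otherwise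
`L^(n-i+1) x` has degree `2n-i+2 = n + (n-i+2)`, so by `surj` it is `L^(n-i+2) y` with `y` of
degree `i - 2`; put `p = x - L y`. -/
def StPrim : Prop := ∀ (K V : Type) [Field K] [AddCommGroup V] [Module K V]
  (n : ℕ) (pr : ℤ → Module.End K V) (L : Module.End K V), LefMod n pr L →
  ∀ i : ℤ, i ≤ n → 0 ≤ i → ∀ x, pr i x = x → ∃ p y, x = p + L y ∧ pr i p = p ∧
    pr (i - 2) y = y ∧ (L ^ ((n : ℤ) - i + 1).toNat) p = 0

/-- PROOF. (A) Let `f` be in the trace radical and `g` algebraic. For `u` in `Z.R (-(r+s))`: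
`tr (u (f ⊗ g)) = tr (u (1 ⊗ g) (f ⊗ 1)) = tr (ptrR (u (1 ⊗ g)) f) = 0` by `trace_mul_map_one`, as
`ptrR (u (1 ⊗ g))` is in `G.R (-r)`. Similarly for `g ⊗ f` with `ptrL`. (B) If `f` and `g` are
both not in the radical there are `a`, `b` with `tr (a f) ≠ 0`, `tr (b g) ≠ 0`, and then
`tr ((a ⊗ b)(f ⊗ g)) ≠ 0`. -/
def StAB : Prop := ∀ (K V : Type) [Field K] [CharZero K] [AddCommGroup V] [Module K V]
  [FiniteDimensional K V] (G : GrAlg K V) (Z : GrAlg K (V ⊗[K] V)) (n : ℕ)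
  (L : Module.End K V), Square G Z n L → ∀ r s : ℤ, ∀ f ∈ G.R r, ∀ g ∈ G.R s,
    (f ∈ G.N r → TensorProduct.map f g ∈ Z.N (r + s)) ∧
    (g ∈ G.N s → TensorProduct.map f g ∈ Z.N (r + s)) ∧
    (TensorProduct.map f g ∈ Z.N (r + s) → f ∈ G.N r ∨ g ∈ G.N s)

/-- **Lemma Q.**

PROOF. `t i = tr (g L^r f | V^i)`. Put `Om = ∑_(a=0..r) (-1)^a L^a f ⊗ L^(r-a) f` and
`W = ∑_(a=0..r) (-1)^a g L^a ⊗ g L^(r-a)`, `H = LL L`. Telescoping (with
`c_a = L^a f ⊗ L^(r+1-a) f`):
`H Om = ∑ (-1)^a (c_(a+1) + c_a) = f ⊗ L^(r+1) f + (-1)^r L^(r+1) f ⊗ f`, which is in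
`Z.N (r+1)` by `StAB`; similarly `W H` is in `Z.N (-r+1)`. For every `c`
(*) `tr (W Om | degree c) = (-1)^r (r+1) ∑_(i+j=c) t i * t j`: the term with indices `a, a'` is
`(-1)^(a+a') (g L^(a+a') f) ⊗ (g L^(2r-a-a') f)`, its first factor has degree `a+a'-r`, so it has
trace zero on `V^i ⊗ V^j` unless `a + a' = r`.
Suppose `t i ≠ 0` for some `i ≠ n - r`. If some such `i` is `< n - r` let `i₀` be the least
index with `t i₀ ≠ 0` (indices with `t ≠ 0` lie in `[0, 2n]`), so `i₀ < n - r`; otherwise let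
`i₀` be the greatest one, so `i₀ > n - r`. Take `c = 2 i₀`: the sum in (*) is `t i₀ ^ 2`, hence
`tr (W Om | c) ≠ 0` (characteristic zero). But if `c + 2r < 2n`:
for `z` of degree `c` the vector `Om z - w H Om z` has even degree `c + 2r` and is killed by `H`
(`H w H = H` there), so it is `0` by `StInj`; so `W Om = (W w) (H Om)` on degree `c`, an element of
`Z.N 0`, whose trace on degree `c` is `0` (`GrAlg.N_trace_pr`). And if `c + 2r > 2n`: by `StSurj`
every `z` of degree `c + 2r` is `H y` with `y` of even degree `c + 2r - 2`, so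
`H w z = H w H y = H y = z`; so `W Om = (W H) (w Om)` on degree `c`, again in `Z.N 0`. Both
cases contradict `tr ≠ 0`. -/
def StQ : Prop := ∀ (K V : Type) [Field K] [CharZero K] [AddCommGroup V] [Module K V]
  [FiniteDimensional K V] (G : GrAlg K V) (Z : GrAlg K (V ⊗[K] V)) (n : ℕ)
  (L : Module.End K V) (w : Module.End K (V ⊗[K] V)), Square G Z n L → QInv Z L w →
  ∀ (r : ℕ), ∀ f ∈ G.R 0, ∀ g ∈ G.R (-r), L ^ (r + 1) * f ∈ G.N (r + 1) →
    g * L ^ (r + 1) ∈ G.N 1 → ∀ j : ℤ, j ≠ (n : ℤ) - r →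
    LinearMap.trace K V (g * L ^ r * f * G.pr j) = 0

/-- **Conjecture C over `K`, the ideals.** Only Lemma Q is used (as a hypothesis).

PROOF. Let `p i` be the set of `x` in `G.R 0` with `tr (x a | V^j) = 0` for all `a` in `G.R 0`
and all `j ≠ i`: a two-sided ideal of `G.R 0` containing `G.N 0`. Let `S` be the sum of the `p i`
(over `0 ≤ i ≤ 2n`). CLAIM: `S = G.R 0`. If not, apply `exists_orthogonal` to the space `G.R 0`,
the form `(x, y) ↦ tr (x y)` and the subspace `S` (it contains the radical `G.N 0`): there is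
`e` in `G.R 0` with `tr (l e) = 0` for all `l` in `S`, and `tr (x₀ e) ≠ 0` for some `x₀`, so
`e ∉ G.N 0`, while `l e ∈ G.N 0` for `l` in `S` (since `a l ∈ S` for `a` in `G.R 0`). Let `r` be
maximal such that there are `s : ℤ` and `x'` in `G.R s` with `L^r x' e ∉ G.N (r+s)`; it exists,
since `r = 0`, `s = 0`, `x' = 1` is possible and `L^(2n+1) = 0`. Fix such `s, x'` and put
`x = x' e`. By maximality `L^(r+1) x'' e` is in the radical for all `s'` and `x''` in `G.R s'`.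
There is `c` in `G.R (-(r+s))` with `tr (c L^r x) ≠ 0`. Put `y = c L^r x` (degree `0`), it is not
nilpotent (trace of a nilpotent operator is `0`), so `y^3` is not nilpotent, so
`y^3 ∉ G.N 0` (`N_nilpotent`). Put `b = c L^r`, `g = x c` (degree `-r`), `f = x c L^r` (degree
`0`), `l = b g L^r f x'` (degree `0`). Then `y^3 = l e`. And
* `L^(r+1) f = (L^(r+1) x' e) c L^r` is in the radical;
* `g L^(r+1) = x c L^(r+1)` is in the radical: for `y'` of degree `-1`,
  `tr (y' x c L^(r+1)) = tr ((L^(r+1) (y' x') e) c) = 0`;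
* for `a` in `G.R 0`, `tr (l a | V^j) = tr (b g L^r f x' a pr_j)
  = tr (g L^r (f x' a b) pr_(j+2s))` (`x' a b` has degree `0`; `f' = f x' a b` is in `G.R 0` and
  `L^(r+1) f'` is in the radical), which is `0` by Lemma Q unless `j + 2s = n - r`.
So `l ∈ p (n-r-2s)` (if `n-r-2s` is outside `[0, 2n]` then `l` is in every `p i`), so
`y^3 = l e ∈ G.N 0`, a contradiction. Hence `1 = ∑ x i` with `x i ∈ p i`. -/
def StK1 : Prop := ∀ (K V : Type) [Field K] [CharZero K] [AddCommGroup V] [Module K V]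
  [FiniteDimensional K V] (G : GrAlg K V) (n : ℕ) (L : Module.End K V), LefMod n G.pr L →
  L ∈ G.R 1 →
  (∀ (r : ℕ), ∀ f ∈ G.R 0, ∀ g ∈ G.R (-r), L ^ (r + 1) * f ∈ G.N (r + 1) →
    g * L ^ (r + 1) ∈ G.N 1 → ∀ j : ℤ, j ≠ (n : ℤ) - r →
    LinearMap.trace K V (g * L ^ r * f * G.pr j) = 0) →
  ∃ x : ℤ → Module.End K V, (∀ i, x i ∈ G.R 0) ∧
    (∀ i j, j ≠ i → ∀ a ∈ G.R 0, LinearMap.trace K V (x i * a * G.pr j) = 0) ∧
    ∑ i ∈ Finset.Icc (0 : ℤ) (2 * n), x i = 1

/-- **Conjecture C over `K`, the projectors.**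

PROOF. `1 = ∑ x i` with `tr (x i a | V^j) = 0` for all `a` in `G.R 0` and `j ≠ i`.
For `j ≠ i` all powers of `x i` have trace `0` on `V^j`, so `x i` is nilpotent on `V^j`
(`isNilpotent_of_trace_pow` for `x i * pr j`). On `V^i`: `1 - x i = ∑_(k ≠ i) x k` has
`tr ((1 - x i) a | V^i) = 0` for all `a` in `G.R 0`, so it is nilpotent on `V^i`. Choose `M ≥ 1`
with `(x i)^M = 0` on `V^j` for `j ≠ i` and `(1 - x i)^M = 0` on `V^i`. Then
`1 - (1 - (x i)^M)^M` is `pr i`: on `V^j` it is `1 - 1`, on `V^i` the operator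
`1 - (x i)^M` is a multiple of `1 - x i`, so its `M`-th power vanishes. It lies in `G.R 0`.
(For `i` outside `[0, 2n]`, `pr i = 0`.) -/
def StK2 : Prop := ∀ (K V : Type) [Field K] [CharZero K] [AddCommGroup V] [Module K V]
  [FiniteDimensional K V] (G : GrAlg K V) (n : ℕ) (L : Module.End K V), LefMod n G.pr L →
  ∀ x : ℤ → Module.End K V, (∀ i, x i ∈ G.R 0) →
    (∀ i j, j ≠ i → ∀ a ∈ G.R 0, LinearMap.trace K V (x i * a * G.pr j) = 0) →
    ∑ i ∈ Finset.Icc (0 : ℤ) (2 * n), x i = 1 → ∀ i, G.pr i ∈ G.R 0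

/-- PROOF. `f = pr_d f pr_d`, `r + d + 1 ≤ n`, `L^(r+1) f` in the radical. With `Om` as in `StQ`
(`Om = ∑_(a=0..r) (-1)^a L^a f ⊗ L^(r-a) f`), `H Om` is in `Z.N (r+1)`. `Om` vanishes on degrees
`≠ 2d` and maps degree `2d` to degree `2d + 2r < 2n`, so `Om = w H Om` by `StInj` and
`H w H = H` in even degrees (compare on `V⊗V = ⊕` degrees, `∑_c prT c = 1` for
`0 ≤ c ≤ 4n`), hence `Om ∈ Z.N r`. Multiply on the left by `pr_(d+2r) ⊗ pr_d`, which is in
`Z.R 0`: only the term `a = r` survives (for `r = 0` it is the only term), so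
`L^r f ⊗ f ∈ Z.N r`. By `StAB` `L^r f` or `f` is in the radical. -/
def StE : Prop := ∀ (K V : Type) [Field K] [CharZero K] [AddCommGroup V] [Module K V]
  [FiniteDimensional K V] (G : GrAlg K V) (Z : GrAlg K (V ⊗[K] V)) (n : ℕ)
  (L : Module.End K V) (w : Module.End K (V ⊗[K] V)), Square G Z n L → QInv Z L w →
  (∀ i, G.pr i ∈ G.R 0) → ∀ (d r : ℕ), r + d + 1 ≤ n → ∀ f ∈ G.R 0,
    G.pr d * f * G.pr d = f → L ^ (r + 1) * f ∈ G.N (r + 1) → L ^ r * f ∈ G.N r

/-- **Conjecture B over `K`.**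

PROOF. Let `d < n`, `j = n - d`, `E = pr_d G.R 0 pr_d` (a subspace of `End V`, contained in
`G.R 0`). Let `S ⊆ E` be the space of all `pr_d g L^j pr_d + ν` with `g ∈ G.R (-j)` and
`ν ∈ E ∩ G.N 0`. If `pr_d ∉ S` then by `exists_orthogonal` (space `E`, form `tr (x y)`; the
radical of this form is `E ∩ G.N 0`, because `tr (f a) = tr (f (pr_d a pr_d))` for `f ∈ E`) there
is `f ∈ E`, not in the radical, with `tr (s f) = 0` for `s ∈ S`; so
`tr (g L^j f) = tr (pr_d g L^j pr_d f) = 0` for all `g ∈ G.R (-j)`, i.e. `L^j f ∈ G.N j`. By `hE`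
applied for `r = j-1, ..., 0` we get `f ∈ G.N 0`, a contradiction. So
`pr_d = pr_d g L^j pr_d + ν`, `ν` nilpotent (`N_nilpotent`), `ν = pr_d ν pr_d`. Then
`g' = (∑_(k<M) ν^k) pr_d g` satisfies `g' L^j pr_d = (∑ ν^k)(pr_d - ν) = pr_d` (as
`ν^M = 0`; note `(∑ ν^k) (pr_d - ν) = pr_d (1 - ν^M)` since `ν = pr_d ν`). -/
def StI : Prop := ∀ (K V : Type) [Field K] [CharZero K] [AddCommGroup V] [Module K V]
  [FiniteDimensional K V] (G : GrAlg K V) (n : ℕ) (L : Module.End K V), LefMod n G.pr L →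
  L ∈ G.R 1 → (∀ i, G.pr i ∈ G.R 0) →
  (∀ (d r : ℕ), r + d + 1 ≤ n → ∀ f ∈ G.R 0,
    G.pr d * f * G.pr d = f → L ^ (r + 1) * f ∈ G.N (r + 1) → L ^ r * f ∈ G.N r) →
  ∀ d : ℕ, d < n → ∃ g ∈ G.R (-((n - d : ℕ) : ℤ)), g * L ^ (n - d) * G.pr d = G.pr d

/-- **The sign conjecture for `X`.**

PROOF. `e = ptrR (w H (1 ⊗ pr_0))` is in `A 0`, since `w H (1 ⊗ pr_0)` is in `B 0`
and `(1 ⊗ pr_0) (1 ⊗ sgn) = 1 ⊗ pr_0` (as `pr_0 * sgn = pr_0`). For `i < 2n` and `z` in
`V^i ⊗ V^0` (degree `i < 2n`): if `i` is even then `H (w H z - z) = 0` so `w H z = z` by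
injectivity (`StInj`; `w H z - z` has degree `i`); if `i` is odd then `H w H z = 0`, so
`w H z = 0`. Hence
`w H (pr_i ⊗ pr_0) = pr_i ⊗ pr_0` or `0` and `e pr_i = tr (pr_0) pr_i` or `0`
(`ptrR (u (f ⊗ 1)) = ptrR u * f`, and `ptrR (pr_i ⊗ pr_0) = tr (pr_0) pr_i`); here
`tr (pr_0) = dim V^0` is a positive integer. So
`pr_+ = (1 / tr pr_0) e (1 - pr_(2n)) + pr_(2n)` is in `A 0` and `sgn = 2 pr_+ - 1`. (`pr_+` is
the sum of `pr_i` over even `i`; check the formula on each `V^i`; for `i = 2n` it is `1`.) -/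
def StSgn : Prop := ∀ (K V : Type) [Field K] [CharZero K] [AddCommGroup V] [Module K V]
  [FiniteDimensional K V] (n : ℕ) (pr : ℤ → Module.End K V) (L : Module.End K V)
  (A : ℤ → AddSubgroup (Module.End K V)) (B : ℤ → AddSubgroup (Module.End K (V ⊗[K] V)))
  (w : Module.End K (V ⊗[K] V)), OpData n pr L A B → w ∈ B (-1) →
  (∀ c, Even c → LL L * w * LL L * prT n pr c = LL L * prT n pr c) →
  (∀ c, Odd c → LL L * w * LL L * prT n pr c = 0) → sgn n pr ∈ A 0

/-- Passing to coefficients in `K`.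

PROOF. Put `G.R r = span K (A r)`, `Z.R r = span K (B r)`, `G.pr = pr`, `Z.pr = prT n pr`. The
unsigned swap `τ = comm` is `gswap * s` with
`s = (1 + ε⊗1 + 1⊗ε - ε⊗ε)/2`, `ε = sgn`, so `τ ∈ B 0`. `ptrR u = ptrR ((u (1⊗ε)) (1⊗ε))` is in
`A r` for `u ∈ B r` since `ε ε = 1` and `u (1 ⊗ ε) ∈ B r`. `ptrL u = ptrR (τ u τ)`. -/
def StSpan : Prop := ∀ (K V : Type) [Field K] [CharZero K] [AddCommGroup V] [Module K V]
  [FiniteDimensional K V] (n : ℕ) (pr : ℤ → Module.End K V) (L : Module.End K V)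
  (A : ℤ → AddSubgroup (Module.End K V)) (B : ℤ → AddSubgroup (Module.End K (V ⊗[K] V))),
  OpData n pr L A B → sgn n pr ∈ A 0 →
  ∃ (G : GrAlg K V) (Z : GrAlg K (V ⊗[K] V)), G.pr = pr ∧
    (∀ r, G.R r = Submodule.span K (A r)) ∧ (∀ r, Z.R r = Submodule.span K (B r)) ∧
    Square G Z n L

/-- If the inverse of `L^(n-i)` is algebraic for all `i < n` then the projectors are algebraic.

PROOF. By strong induction on `i < n`: `pr_i` and `pr_(2n-i)` are in `A 0`. Put `j = n - i`,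
`P = 1 - ∑_(l<i) pr_l`, `Q = 1 - ∑_(l>2n-i) pr_l`, both in `A 0`. Then
`θ Q L^j P = pr_i`: it kills `V^l` for `l < i` (by `P`) and for `l > i` (`L^j` maps `V^l` to
`V^(l+2j)`, `l + 2j > 2n - i`, killed by `Q`), and on `V^i` it is `θ L^j = 1`. So
`pr_i ∈ A 0`. On `V^(2n-i)`: `L^j θ = 1`, since `L^j : V^i → V^(2n-i)` is bijective with left
inverse `θ`; so `pr_(2n-i) = L^j pr_i θ` (`pr_i θ = θ pr_(2n-i)`). Finally
`pr_n = 1 - ∑_(l≠n) pr_l`. -/
def StInd : Prop := ∀ (K V : Type) [Field K] [CharZero K] [AddCommGroup V] [Module K V]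
  [FiniteDimensional K V] (n : ℕ) (pr : ℤ → Module.End K V) (L : Module.End K V)
  (A : ℤ → AddSubgroup (Module.End K V)), LefMod n pr L → RatAlg pr A → L ∈ A 1 →
  (∀ i : ℕ, i < n → ∃ θ ∈ A (-((n - i : ℕ) : ℤ)), θ * L ^ (n - i) * pr i = pr i) →
  ∀ i, pr i ∈ A 0

/-- **Rational coefficients.**

PROOF. `g0 = ∑ c_m g_m` with `g_m ∈ A (-j)`, `j = n - i`, `c_m ∈ K` is given, by hypothesis, with
`g0 L^j pr_i = pr_i`. We show by strong induction on `i < n` that there is `θ ∈ A (-j)` with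
`θ L^j pr_i = pr_i` and `pr_i, pr_(2n-i) ∈ A 0` (as in `StInd`, whose proof gives the
second from the first). Let `P`, `Q` be as in `StInd` (in `A 0` by induction). For `g ∈ R (-j)`
put `u_g = g Q L^j P = pr_i u_g pr_i`, linear in `g`, with `u_(g0) = pr_i`, and `u_g ∈ A 0` for
`g ∈ A (-j)`. For `y ∈ A 0` with `y = pr_i y`: `tr y = (-1)^i tr (y * sgn)` is rational. There
is a `ℚ`-linear map `φ : K → ℚ` with `φ 1 = 1` (so `φ q = q` for rational `q`). Put
`g' = ∑ φ(c_m) g_m ∈ A (-j)`, `u' = u_(g')`. For `y ∈ A 0` with `y = pr_i y`: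
`tr y = tr (u_(g0) y) = ∑ c_m tr (u_(g_m) y)` and all the traces are rational; applying
`φ`: `tr y = ∑ φ(c_m) tr (u_(g_m) y) = tr (u' y)`. Likewise
`tr pr_i = ∑ c_m tr (u_(g_m))`, where `tr pr_i = dim` is rational, gives
`tr pr_i = tr u'`. So `D = pr_i - u'` satisfies `tr (D u'^m) = 0` for `m ≥ 1` and
`tr (D pr_i) = 0`, hence `tr (D^k) = 0` for `k ≥ 1` (`D^(k-1)` is a combination of `pr_i` and the
`u'^m`, `m ≥ 1`), so `D` is nilpotent, `D^M = 0` with `M ≥ 1`. Let
`S = ∑_(k<M) (1 - u')^k ∈ A 0`. Then `S u' = 1 - (1 - u')^M = pr_i` (on `V^l`, `l ≠ i`,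
`u' = 0`; on `V^i` `(1-u')^M = D^M = 0`). `θ = S g' Q`: `θ L^j pr_i = S u' pr_i = pr_i`
(`L^j P pr_i = L^j pr_i`). -/
def StRat : Prop := ∀ (K V : Type) [Field K] [CharZero K] [AddCommGroup V] [Module K V]
  [FiniteDimensional K V] (n : ℕ) (pr : ℤ → Module.End K V) (L : Module.End K V)
  (A : ℤ → AddSubgroup (Module.End K V)), LefMod n pr L → RatAlg pr A → L ∈ A 1 →
  (∀ f ∈ A 0, ∃ q : ℚ, LinearMap.trace K V (f * sgn n pr) = q) →
  (∀ i : ℕ, i < n → ∃ g ∈ Submodule.span K (A (-((n - i : ℕ) : ℤ)) : Set (Module.End K V)),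
    g * L ^ (n - i) * pr i = pr i) →
  ∀ i : ℕ, i < n → ∃ θ ∈ A (-((n - i : ℕ) : ℤ)), θ * L ^ (n - i) * pr i = pr i

/-- **The operator `Λ`.**

PROOF. Replace `θ_i` by `pr_i θ_i`. Put
`Λ = ∑_(i=2..n) θ_(i-2) L^(n-i+1) pr_i + ∑_(i<n) L^(n-i-1) θ_i pr_(2n-i)`, an element of
`A (-1)`. Let `x` be primitive of degree `a ≤ n` and `j ≤ n - a`, and consider `L^j x`, of degree
`a + 2j`. If `a + 2j ≤ n` put `i = a + 2j`: only the first sum acts,
`Λ L^j x = θ_(i-2) L^(n-i+1+j) x` (zero if `i < 2`, and then `j = 0`). For `j = 0` this is `0`, as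
`L^(n-a+1) x = 0`. For `j ≥ 1` it is `θ_(i-2) L^(n-(i-2)) (L^(j-1) x) = L^(j-1) x`. If
`a + 2j > n` put `i = 2n - a - 2j < n` (and `i ≥ 0`): `j ≥ 1`,
`L^j x = L^(n-i) (L^(j-(n-i)) x)` where `j - (n - i) = n - a - j ≥ 0` and
`L^(n-a-j) x` has degree `i`; so `θ_i L^j x = L^(n-a-j) x` and
`Λ L^j x = L^(n-i-1) L^(n-a-j) x = L^(j-1) x`. -/
def StLam : Prop := ∀ (K V : Type) [Field K] [CharZero K] [AddCommGroup V] [Module K V]
  [FiniteDimensional K V] (n : ℕ) (pr : ℤ → Module.End K V) (L : Module.End K V)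
  (A : ℤ → AddSubgroup (Module.End K V)), LefMod n pr L → RatAlg pr A → L ∈ A 1 →
  (∀ i, pr i ∈ A 0) →
  (∀ i : ℕ, i < n → ∃ θ ∈ A (-((n - i : ℕ) : ℤ)), θ * L ^ (n - i) * pr i = pr i) →
  ∃ Lam ∈ A (-1), IsLam n pr L Lam

/-- **B implies C.**

PROOF. By strong induction on `i ≤ n` we show (S) `Λ (L^m x) = L^(m-1) x` for `x` of degree `i`
and `1 ≤ m ≤ n - i`: write `x = p + L y` by `StPrim`; `Λ (L^m p) = L^(m-1) p` as `p` is
primitive, and `Λ (L^(m+1) y) = L^m y` by (S) for `i - 2` (`m + 1 ≤ n - (i-2)`). So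
`Λ^j L^j x = x` for `x` of degree `i = n - j`, and `θ = Λ^(n-i)` satisfies the hypothesis
of `StInd`. -/
def StBC : Prop := ∀ (K V : Type) [Field K] [CharZero K] [AddCommGroup V] [Module K V]
  [FiniteDimensional K V] (n : ℕ) (pr : ℤ → Module.End K V) (L Lam : Module.End K V)
  (A : ℤ → AddSubgroup (Module.End K V)), LefMod n pr L → RatAlg pr A → L ∈ A 1 →
  Lam ∈ A (-1) → IsLam n pr L Lam → ∀ i, pr i ∈ A 0

/-- **Main theorem on operators.** Assembly of the previous statements. -/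
def StMain : Prop := ∀ (K V : Type) [Field K] [CharZero K] [AddCommGroup V] [Module K V]
  [FiniteDimensional K V] (n : ℕ) (pr : ℤ → Module.End K V) (L : Module.End K V)
  (A : ℤ → AddSubgroup (Module.End K V)) (B : ℤ → AddSubgroup (Module.End K (V ⊗[K] V)))
  (w : Module.End K (V ⊗[K] V)), OpData n pr L A B → w ∈ B (-1) →
  (∀ c, Even c → LL L * w * LL L * prT n pr c = LL L * prT n pr c) →
  (∀ c, Odd c → LL L * w * LL L * prT n pr c = 0) →
  (∀ i, pr i ∈ A 0) ∧ ∃ Lam ∈ A (-1), IsLam n pr L Lam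

end Statements

end Pool.Agent.Lib.MP_4ca46c_ag.Sign
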