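import Mathlib
import Pool.Agent.Lib.MP_4ca46c_ag.Sign.VarCat
import Pool.Agent.Lib.MP_4ca46c_ag.Geo.Weil

/-!
# The Weil cohomology theory on the category of varieties over `k`
-/

namespace Pool.Agent.Lib.MP_4ca46c_ag.Sign

open CategoryTheory Limits AlgebraicGeometry TensorProduct MonoidalCategory
  CartesianMonoidalCategory

variable {k₀ : Type} [Field k₀] {K : Type} [Field K] [CharZero K] (T : WeilTheory k₀ K)

theorem IsVar.isWeil {k : Type} [Field k] [Algebra k₀ k] [IsAlgClosed k] {X : Sch k₀}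
    {x : X ⟶ pt k₀ k} {n : ℕ} (h : IsVar x n) : IsWeil X := ⟨k, _, _, ‹_›, x, n, h⟩

theorem IsVar.isSm {F : Type} [Field F] [Algebra k₀ F] {X : Sch k₀}
    {x : X ⟶ pt k₀ F} {n : ℕ} (h : IsVar x n) : IsSm x := by
  have h1 := h.smooth
  have h2 := h.proper
  exact ⟨h1.smooth, inferInstance, inferInstance⟩

theorem IsVar.sm {F : Type} [Field F] [Algebra k₀ F] {X : Sch k₀}
    {x : X ⟶ pt k₀ F} {n : ℕ} (h : IsVar x n) : Sm X := ⟨F, _, _, x, h.isSm⟩

instance {F : Type} [Field F] [Algebra k₀ F] : ConnectedSpace (pt k₀ F).left :=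
  inferInstanceAs (ConnectedSpace (Spec (CommRingCat.of F)))

instance {F : Type} [Field F] [Algebra k₀ F] : Subsingleton (pt k₀ F).left :=
  inferInstanceAs (Subsingleton (Spec (CommRingCat.of F)))

theorem IsVar.connectedSpace {F : Type} [Field F] [Algebra k₀ F] {X : Sch k₀}
    {x : X ⟶ pt k₀ F} {n : ℕ} (h : IsVar x n) : ConnectedSpace X.left := by
  have h1 := h.connected
  exact GeometricallyConnected.connectedSpace_of_subsingleton x.left

/-- A variety over an algebraically closed field has a rational point. -/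
theorem IsVar.exists_point {k : Type} [Field k] [Algebra k₀ k] [IsAlgClosed k] {X : Sch k₀}
    {x : X ⟶ pt k₀ k} {n : ℕ} (h : IsVar x n) : ∃ p : pt k₀ k ⟶ X, p ≫ x = 𝟙 _ := by
  have h1 := h.connectedSpace
  have h2 := h.proper
  have h3 : CompactSpace X.left := by
    have : CompactSpace (pt k₀ k).left :=
      inferInstanceAs (CompactSpace (Spec (CommRingCat.of k)))
    exact QuasiCompact.compactSpace_of_compactSpace x.left
  obtain ⟨z, hz⟩ : ∃ z : X.left, IsClosed ({z} : Set X.left) := by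
    obtain ⟨z, _, hz⟩ := IsClosed.exists_closed_singleton (X := X.left) isClosed_univ
      Set.univ_nonempty
    exact ⟨z, hz⟩
  let f : X.left ⟶ Spec (CommRingCat.of k) := x.left
  have hf : LocallyOfFiniteType f := inferInstanceAs (LocallyOfFiniteType x.left)
  have hp : pointOfClosedPoint f z hz ≫ f = 𝟙 _ := pointOfClosedPoint_comp f z hz
  have hw : x.left ≫ (pt k₀ k).hom = X.hom := Over.w x
  refine ⟨Over.homMk (pointOfClosedPoint f z hz) ?_, ?_⟩
  · change pointOfClosedPoint f z hz ≫ X.hom = (pt k₀ k).hom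
    rw [← hw, ← Category.assoc]
    erw [hp]
    exact Category.id_comp _
  · ext1
    exact hp

variable {k : Type} [Field k] [Algebra k₀ k]

theorem Var.isProper {X Y : Var k₀ k} (f : X ⟶ Y) : IsProper f.hom.left := by
  have h1 : IsProper (f.hom ≫ Y.str).left := by rw [f.comm]; exact X.isVar.proper
  have h2 := Y.isVar.proper
  rw [Over.comp_left] at h1
  exact IsProper.of_comp f.hom.left Y.str.left

theorem cl_smul (X : Sch k₀) (q : ℚ) (a : T.CH X) : T.cl X (q • a) = (q : K) • T.cl X a := by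
  have h1 : ((T.cl X).comp (algebraMap ℚ (T.CH X))) =
    (algebraMap K (T.H X)).comp (algebraMap ℚ K) := Subsingleton.elim _ _
  have h2 := RingHom.congr_fun h1 q
  simp only [RingHom.comp_apply, eq_ratCast] at h2
  rw [Algebra.smul_def, map_mul, Algebra.smul_def, h2]

variable [IsAlgClosed k] (k)

/-- The Weil cohomology theory on the category of varieties over `k`. -/
noncomputable def weil : Geo.WeilCohomology K (Var k₀ k) where
  dim X := X.dim
  dim_tensor _ _ := rfl
  H X := T.H X.X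
  ring X := T.ringH X.X
  algebra X := T.algebraH X.X
  finite X := T.finite _ X.isVar.isWeil
  gr X := T.deg X.X
  graded X :=
    letI : SetLike.GradedMonoid (T.deg X.X) :=
      { one_mem := T.oneH_mem _ X.isVar.isWeil
        mul_mem := fun {i j u v} hu hv => T.mulH_mem _ X.isVar.isWeil i j u hu v hv }
    letI : DirectSum.Decomposition (T.deg X.X) :=
      (T.internal _ X.isVar.isWeil).chooseDecomposition
    { }
  comm {X i j x y} hx hy := T.comm _ X.isVar.isWeil i j x hx y hy
  pull f := T.pullH f.hom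
  pull_id {X} := T.pullH_id X.isVar.isWeil
  pull_comp {X Y Z} f g := T.pullH_comp f.hom g.hom X.isVar.isWeil Y.isVar.isWeil Z.isVar.isWeil
  pull_gr {X Y} f {i y} hy := T.pullH_mem f.hom X.isVar.isWeil Y.isVar.isWeil i y hy
  tr X := T.tr X.X
  tr_gr {X i x} hx hi := T.tr_eq_zero X.str X.dim X.isVar i hi x hx
  duality {X} := T.poincare _ X.isVar.isWeil
  connected {X x} hx := by
    obtain ⟨c, hc⟩ := T.deg_zero _ X.isVar.isWeil x hx
    exact ⟨c, by rw [hc, Algebra.smul_def, mul_one]⟩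
  kunneth X Y := T.kunneth X.str Y.str _ _ X.dim Y.dim X.isVar Y.isVar
    (IsPullback.of_hasPullback X.str Y.str)
  tr_tensor {X Y} x y := T.tr_kunneth X.str Y.str _ _ X.dim Y.dim X.isVar Y.isVar
    (IsPullback.of_hasPullback X.str Y.str) x y
  tr_unit := T.tr_pt
  point X := by
    obtain ⟨p, hp⟩ := X.isVar.exists_point
    exact ⟨⟨p, hp⟩⟩
  Alg X p := (T.codim X.X p).toAddSubgroup.map (T.cl X.X).toAddMonoidHom
  alg_gr {X c x} := by
    rintro ⟨a, ha, rfl⟩
    exact T.cl_mem _ X.isVar.isWeil c a ha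
  alg_rat {X c x} q := by
    rintro ⟨a, ha, rfl⟩
    exact ⟨q • a, (T.codim X.X c).smul_mem q ha, cl_smul T X.X q a⟩
  alg_one X := ⟨1, T.one_mem _, map_one (T.cl X.X)⟩
  alg_mul {X c d x y} := by
    rintro ⟨a, ha, rfl⟩ ⟨b, hb, rfl⟩
    exact ⟨a * b, T.mul_mem _ _ _ _ ha _ hb, map_mul (T.cl X.X) _ _⟩
  alg_pull {X Y} f {c y} := by
    rintro ⟨a, ha, rfl⟩
    exact ⟨T.pull f.hom a, T.pull_mem f.hom X.isVar.sm Y.isVar.sm c a ha,
      T.cl_pull f.hom X.isVar.isWeil Y.isVar.isWeil a⟩
  alg_push {X Y} f {c e x z} := by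
    rintro ⟨a, ha, rfl⟩ h hz
    refine ⟨T.push f.hom a, T.push_mem X.str Y.str f.hom f.comm X.isVar.isSm Y.isVar.isSm
      (Var.isProper f) X.dim Y.dim X.isVar.smooth Y.isVar.smooth c e h a ha, ?_⟩
    have h1 := T.cl_push X.str Y.str f.hom f.comm X.dim Y.dim X.isVar Y.isVar a
    change T.cl Y.X (T.push f.hom a) = z
    rw [← sub_eq_zero]
    refine T.poincare _ Y.isVar.isWeil _ fun v => ?_
    rw [sub_mul, map_sub, h1, sub_eq_zero]
    exact (hz v).symm
  alg_tr {X x} := by
    rintro ⟨a, ha, rfl⟩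
    exact T.tr_cl _ X.isVar.isWeil a

end Pool.Agent.Lib.MP_4ca46c_ag.Sign
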