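import Mathlib
import Pool.Agent.Lib.MP_4ca46c_ag.Sign.Conj
import Pool.Agent.Lib.MP_4ca46c_ag.Sign.ToWeil
import Pool.Agent.Lib.MP_4ca46c_ag.Sign.SpecA
import Pool.Agent.Lib.MP_4ca46c_ag.Geo.Hard

/-!
# Specification C: geometry

Cycles on `Y × Y` for the generic member `Y` of a family which is complete for pairs of points,
and the assembly of the theorem.
-/

namespace Pool.Agent.Lib.MP_4ca46c_ag.Sign

open CategoryTheory Limits AlgebraicGeometry TensorProduct MonoidalCategory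
  CartesianMonoidalCategory

variable {k₀ : Type} [Field k₀] {K : Type} [Field K]

namespace GenericSection

attribute [instance] field algebra₀ algebra tower algebraW towerW closure

variable {T : WeilTheory k₀ K} {V W : PVar T} (G : GenericSection V W)

/-- The map `I ×_B I ⟶ Z × Z`. -/
noncomputable def q : pullback G.toB G.toB ⟶ pullback V.sqStr V.sqStr :=
  pullback.lift (pullback.fst G.toB G.toB ≫ G.toZ) (pullback.snd G.toB G.toB ≫ G.toZ)
    (by rw [Category.assoc, Category.assoc, G.comm, ← Category.assoc, ← Category.assoc,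
      pullback.condition])

/-- Pairs of different points on members of the family. -/
noncomputable abbrev W₀ : Sch k₀ := pullback G.q G.incl

/-- The map `Y₀ ⟶ Z`. -/
noncomputable def r₀ : G.Y₀ ⟶ V.sq := G.toI ≫ G.toZ

theorem r₀_comp : G.r₀ ≫ V.sqStr =
    G.y₀ ≫ ptMap k₀ (IsScalarTower.toAlgHom k₀ V.k G.F) := by
  rw [r₀, Category.assoc, G.comm, ← Category.assoc, G.fibre.w, Category.assoc, G.generic_over]

/-- The map `ρ : Y₀ × Y₀ ⟶ Z × Z`. -/
noncomputable def rho : pullback G.y₀ G.y₀ ⟶ pullback V.sqStr V.sqStr :=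
  pullback.lift (pullback.fst G.y₀ G.y₀ ≫ G.r₀) (pullback.snd G.y₀ G.y₀ ≫ G.r₀)
    (by rw [Category.assoc, Category.assoc, r₀_comp, ← Category.assoc, ← Category.assoc,
      pullback.condition])

/-- The complement of the diagonal of `Y₀`. -/
noncomputable abbrev Q₀ : Sch k₀ := pullback G.rho G.incl

/-- The map `Y₀ × Y₀ ⟶ I ×_B I`. -/
noncomputable def toI2 : pullback G.y₀ G.y₀ ⟶ pullback G.toB G.toB :=
  pullback.lift (pullback.fst G.y₀ G.y₀ ≫ G.toI) (pullback.snd G.y₀ G.y₀ ≫ G.toI)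
    (by rw [Category.assoc, Category.assoc, G.fibre.w, ← Category.assoc, ← Category.assoc,
      pullback.condition])

theorem q_fst : G.q ≫ pullback.fst V.sqStr V.sqStr = pullback.fst G.toB G.toB ≫ G.toZ :=
  pullback.lift_fst _ _ _

theorem q_snd : G.q ≫ pullback.snd V.sqStr V.sqStr = pullback.snd G.toB G.toB ≫ G.toZ :=
  pullback.lift_snd _ _ _

theorem rho_fst : G.rho ≫ pullback.fst V.sqStr V.sqStr = pullback.fst G.y₀ G.y₀ ≫ G.r₀ :=
  pullback.lift_fst _ _ _

theorem rho_snd : G.rho ≫ pullback.snd V.sqStr V.sqStr = pullback.snd G.y₀ G.y₀ ≫ G.r₀ :=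
  pullback.lift_snd _ _ _

theorem toI2_fst : G.toI2 ≫ pullback.fst G.toB G.toB = pullback.fst G.y₀ G.y₀ ≫ G.toI :=
  pullback.lift_fst _ _ _

theorem toI2_snd : G.toI2 ≫ pullback.snd G.toB G.toB = pullback.snd G.y₀ G.y₀ ≫ G.toI :=
  pullback.lift_snd _ _ _

theorem toI2_q : G.toI2 ≫ G.q = G.rho := by
  apply pullback.hom_ext
  · rw [Category.assoc, q_fst, rho_fst, ← Category.assoc, toI2_fst, Category.assoc]; rfl
  · rw [Category.assoc, q_snd, rho_snd, ← Category.assoc, toI2_snd, Category.assoc]; rfl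

/-- The map `Q₀ ⟶ W₀`. -/
noncomputable def Q₀W₀ : G.Q₀ ⟶ G.W₀ :=
  pullback.lift (pullback.fst G.rho G.incl ≫ G.toI2) (pullback.snd G.rho G.incl)
    (by rw [Category.assoc, toI2_q, pullback.condition])

/-- The base change map `Y × Y ⟶ Y₀ × Y₀`. -/
noncomputable def e2 : W.sq ⟶ pullback G.y₀ G.y₀ :=
  pullback.lift (W.p₁ ≫ G.toY₀) (W.p₂ ≫ G.toY₀)
    (by
      have h : W.p₁ ≫ W.str = W.p₂ ≫ W.str := pullback.condition
      rw [Category.assoc, Category.assoc, G.isBaseChange.w, ← Category.assoc, h,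
        Category.assoc])

theorem e2_fst : G.e2 ≫ pullback.fst G.y₀ G.y₀ = W.p₁ ≫ G.toY₀ := pullback.lift_fst _ _ _

theorem e2_snd : G.e2 ≫ pullback.snd G.y₀ G.y₀ = W.p₂ ≫ G.toY₀ := pullback.lift_snd _ _ _

theorem Q₀W₀_fst : G.Q₀W₀ ≫ pullback.fst G.q G.incl = pullback.fst G.rho G.incl ≫ G.toI2 :=
  pullback.lift_fst _ _ _

theorem Q₀W₀_snd : G.Q₀W₀ ≫ pullback.snd G.q G.incl = pullback.snd G.rho G.incl :=
  pullback.lift_snd _ _ _

/-- The map `Y ⟶ Z`. -/
noncomputable def r : W.X ⟶ V.sq := G.toY₀ ≫ G.toI ≫ G.toZ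

end GenericSection

section Statements

variable (k₀ K)

/-- Smoothness of the schemes which occur.

PROOF. `V.sq`: `Var.isVar_prod` (`V.sqStr` is `pullback.fst _ _ ≫ V.str` by definition);
`Z × Z` likewise. `U`: an open subscheme (open immersion followed
by the structure map of `Z × Z`; separated and quasi-compact because `Z × Z` is Noetherian:
any open immersion into a locally Noetherian scheme is quasi-compact). `W₀ ⟶ U` is an affine
bundle, hence smooth and affine (both are local on the target, and `𝔸^m × V ⟶ V` is smooth and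
affine), so `W₀ ⟶ U ⟶ Spec k` is smooth, separated and quasi-compact. `Y₀ × Y₀ ⟶ Spec F` from
`smooth`, `proper` (copy the proof of `Var.isVar_prod`). `Q₀` is an open subscheme of
`Y₀ × Y₀`. `Y × Y`: `Var.isVar_prod`. `Y₀` is connected because `Y` is connected
(`IsVar.connectedSpace`) and `Y ⟶ Y₀` is surjective (a base change of
`Spec W.k ⟶ Spec F`). -/
def StSm : Prop := ∀ (T : WeilTheory k₀ K) (V W : PVar T) (G : GenericSection V W),
  Sm V.sq ∧ Sm (pullback V.sqStr V.sqStr) ∧ Sm G.U ∧ Sm G.W₀ ∧ Sm (pullback G.y₀ G.y₀) ∧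
  Sm G.Q₀ ∧ Sm G.Y₀ ∧ Sm W.sq ∧ IsVar V.sqStr (V.n + V.n) ∧ IsVar W.sqStr (W.n + W.n) ∧
  IsVar (pullback.fst V.sqStr V.sqStr ≫ V.sqStr) (V.n + V.n + (V.n + V.n)) ∧
  IsSm (pullback.fst G.y₀ G.y₀ ≫ G.y₀) ∧
  SmoothOfRelativeDimension (W.n + W.n) (pullback.fst G.y₀ G.y₀ ≫ G.y₀).left ∧ IsSm G.y₀ ∧
  ConnectedSpace G.Y₀.left ∧ QuasiCompact G.incl.left

/-- The complement of the diagonal of `Y₀` is the preimage of `U`.

PROOF. The square with `pullback.diagonal y₀ : Y₀ ⟶ Y₀ × Y₀`, `r₀ : Y₀ ⟶ Z`, `ρ` and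
`pullback.diagonal sqStr` is cartesian: a pair of points `(y, y')` of `Y₀` over the same point of
`Spec F` with the same image in `Z` satisfies `y = y'`, because `Y₀ ⟶ Z × Spec F` is a
monomorphism (it is the base change of the monomorphism `I ⟶ Z × B` along
`Z × Spec F ⟶ Z × B`; directly: `y, y' : S ⟶ Y₀` with `y ≫ y₀ = y' ≫ y₀` and
`y ≫ toI ≫ toZ = y' ≫ toI ≫ toZ` gives `y ≫ toI ≫ toB = y' ≫ toI ≫ toB`, so
`y ≫ toI = y' ≫ toI` by `mono`, so `y = y'` by `fibre`). Apply the functor `left` (it preserves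
pull-backs). The diagonal is a closed immersion since `Y₀ ⟶ Spec F` is separated; `Q₀ ⟶ Y₀ × Y₀`
is a base change of the open immersion `incl`, with range the preimage of the range of `incl`
(`IsPullback.range_fst` or `Scheme.Pullback.range_fst`), and the range of the diagonal of `Y₀` is
the preimage of the range of the diagonal of `Z`. -/
def StCompl : Prop := ∀ (T : WeilTheory k₀ K) (V W : PVar T) (G : GenericSection V W),
  IsComplement (pullback.diagonal G.y₀) (pullback.fst G.rho G.incl)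

/-- The map `Q₀ ⟶ W₀` is a base change of `generic : Spec F ⟶ B`.

PROOF. `Y₀ × Y₀ = (I ×_B I) ×_B Spec F` by pasting pull-backs, so `toI2` is a base change of
`generic`, and `Q₀ = (Y₀ × Y₀) ×_(I ×_B I) W₀`, so `Q₀ ⟶ W₀` is a base change of `toI2`. Flatness,
monomorphisms and quasi-compactness are stable under base change. -/
def StGeneric : Prop := ∀ (T : WeilTheory k₀ K) (V W : PVar T) (G : GenericSection V W),
  Flat G.Q₀W₀.left ∧ Mono G.Q₀W₀.left ∧ QuasiCompact G.Q₀W₀.left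

/-- **Cycles on `Y₀ × Y₀`.**

PROOF. Let `a ∈ CH^N(Y₀ × Y₀)`, `N = W.n`. Its restriction to `Q₀` is `pull Q₀W₀ a'` with
`a' ∈ CH^N(W₀)` (`pull_surjective_of_mono`), `a' = pull (W₀ ⟶ U) a''`
(`pull_surjective_of_affineBundle`, `G.bundle`), `a'' = pull incl w`
(`pull_surjective_of_mono`, an open immersion is a flat monomorphism), `w ∈ CH^N(Z × Z)`. By
functoriality the restriction of `a - pull ρ w` to `Q₀` is `0`. By `localization` for
`pullback.diagonal y₀` (`StCompl`; `m = c = N`, `p = 0`): `a - pull ρ w = push diagonal b` with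
`b ∈ CH^0(Y₀) = ℚ` (`codim_zero`). -/
def StStep0 : Prop := ∀ (T : WeilTheory k₀ K) (V W : PVar T) (G : GenericSection V W),
  ∀ a ∈ T.codim (pullback G.y₀ G.y₀) W.n, ∃ (κ : ℚ),
    ∃ w ∈ T.codim (pullback V.sqStr V.sqStr) W.n,
      a = κ • T.push (pullback.diagonal G.y₀) 1 + T.pull G.rho w

/-- The sign conjecture in terms of the action on cohomology: `φ = p₁_* (cl a ∪ p₂^* ·)` is the
identity on even cohomology and zero on odd cohomology. -/
def PVar.SignOp {T : WeilTheory k₀ K} (V : PVar T) : Prop :=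
  ∃ a ∈ T.codim V.sq V.n, ∀ i, ∀ v ∈ T.deg V.X i, ∀ w,
    T.tr V.sq (T.cl V.sq a * T.pullH V.p₂ v * T.pullH V.p₁ w) =
      if Even i then T.tr V.X (v * w) else 0

/-- **Averaging.**

PROOF. Let `a ∈ CH^n(Y × Y)` be the cycle of `W.SignOp`. Apply `norm` to
`x = pullback.fst y₀ y₀ ≫ y₀`, `x' = W.sqStr`, `g = e2` (the square is cartesian by pasting):
`pull e2 b = ∑ pull (s i) a` with `N₀ > 0` terms. Fix `i`, `σ = σ i`, `s = s i`. `σ` is bijective
(an `F`-endomorphism of an algebraic extension). Let `t : Y ⟶ Y` be the base change of `ptMap σ`: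
`t ≫ toY₀ = toY₀`, `t ≫ str = str ≫ ptMap σ` (exists since `ptMap σ ≫ ptMap (F → W.k) =
ptMap (F → W.k)`). It is an isomorphism (inverse from `σ⁻¹`), `s` too, and `s ≫ p₁ = p₁ ≫ t`,
`s ≫ p₂ = p₂ ≫ t` (check after composing with `toY₀` and `str`). For `y ∈ H^i(Y)` and `y'` put
`y₁ = pullH t⁻¹ y`, `y₁' = pullH t⁻¹ y'`; then `p₂^* y = pullH p₂ (pullH t y₁) =
pullH s (p₂^* y₁)`, so
`tr (cl (pull s a) * p₂^* y * p₁^* y') = tr (pullH s (cl a * p₂^* y₁ * p₁^* y₁'))
= tr (cl a * p₂^* y₁ * p₁^* y₁')` (`tr_iso`), which for even `i` is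
`tr (y₁ * y₁') = tr (pullH t (y₁ * y₁')) = tr (y * y')` and `0` for odd `i`. Sum over the
`N₀` terms. -/
def StAverage : Prop := ∀ (T : WeilTheory k₀ K) (V W : PVar T) (G : GenericSection V W),
  W.SignOp → ∃ N₀ : ℕ, 0 < N₀ ∧ ∃ b ∈ T.codim (pullback G.y₀ G.y₀) W.n,
    ∀ i, ∀ y ∈ T.deg W.X i, ∀ y', T.tr W.sq (T.cl W.sq (T.pull G.e2 b) * T.pullH W.p₂ y *
      T.pullH W.p₁ y') = if Even i then (N₀ : K) * T.tr W.X (y * y') else 0

/-- **The relation.** With `H = h ⊗ 1 + 1 ⊗ h` there is an algebraic `w` of degree `-1` on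
`Z = X × X` with `H w H = H` in even degrees and `0` in odd degrees.

PROOF. Let `b`, `N₀` be from `StAverage`, `b = κ • push diagonal 1 + pull ρ w₀` by `StStep0`.
`e2 ≫ ρ = r × r =: R : Y × Y ⟶ Z × Z`, and `pull e2 (push diagonal 1) = push (diagonal of Y) 1`
by `push_baseChange` (the square of the diagonals of `Y` and `Y₀` is cartesian; `e2` is flat, as
a base change of `Spec W.k ⟶ Spec F`). For all `y, y'`:
(1) `tr (cl (push diag 1) * p₂^* y * p₁^* y') = tr (y * y')` by `cl_push` and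
`diag ≫ p₁ = diag ≫ p₂ = 𝟙`.
First take `y` the vanishing class of `G` (degree `i` odd), `y'` arbitrary: the left side of
`StAverage` is `0`; (2) `tr (pullH R (cl w₀) * p₂^* y * p₁^* y') = 0`: write
`cl w₀ = ∑ P₁^* a * P₂^* c` by `kunneth` for `Z × Z` (we may assume that `a`, `c` are
homogeneous), so `pullH R (cl w₀) = ∑ p₁^* (r^* a) * p₂^* (r^* c)`; by graded commutativity
`p₁^* (r^* a) * p₂^* (r^* c) * p₂^* y * p₁^* y' = ± p₁^* (r^* a * y') * p₂^* (y * r^* c)`, with
trace `± tr (..) * tr (y * r^* c) = 0` by `tr_kunneth` and `vanishing`. So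
`κ tr (y * y') = 0` for all `y'`, and `κ = 0` by `poincare`, `y ≠ 0`.
Next (3) `tr (pullH R v) = m² tr (P₁^* H * P₂^* H * v)` for `v ∈ H(Z × Z)`: by `kunneth` we may
take `v = P₁^* a * P₂^* c`; `tr (p₁^* r^* a * p₂^* r^* c) = tr (r^* a) tr (r^* c)
= m² tr (H a) tr (H c)` by `cls`, and `P₁^* H * P₂^* H * P₁^* a * P₂^* c = P₁^* (H a) * P₂^* (H c)`
(`H` has degree `2`, so it is central). Now for `z ∈ H^i(Z)`, `z' ∈ H(Z)` take `y = r^* z`,
`y' = r^* z'`: `StAverage` gives (`H`, `cl w₀` are central)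
`N₀ [i even] tr (r^* (z z')) = tr (pullH R (cl w₀ * P₂^* z * P₁^* z'))
= m² tr (cl w₀ * P₂^* (H z) * P₁^* (H z'))`, and `tr (r^* (z z')) = m tr (H z z')`. So
`w = (m / N₀) w₀` satisfies the claim. (`cl (q • a) = (q : K) • cl a`: see `ToWeil.lean`.) -/
def StKey : Prop := ∀ (T : WeilTheory k₀ K) (V W : PVar T), GenericSection V W →
  W.SignOp → ∃ w ∈ T.codim (pullback V.sqStr V.sqStr) W.n,
    ∀ i, ∀ z ∈ T.deg V.sq i, ∀ z', T.tr (pullback V.sqStr V.sqStr)
      (T.cl _ w * T.pullH (pullback.snd V.sqStr V.sqStr)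
          ((T.pullH V.p₁ (T.cl V.X V.h) + T.pullH V.p₂ (T.cl V.X V.h)) * z) *
        T.pullH (pullback.fst V.sqStr V.sqStr)
          ((T.pullH V.p₁ (T.cl V.X V.h) + T.pullH V.p₂ (T.cl V.X V.h)) * z')) =
      if Even i then
        T.tr V.sq ((T.pullH V.p₁ (T.cl V.X V.h) + T.pullH V.p₂ (T.cl V.X V.h)) * z * z')
      else 0

end Statements

/-- The variety underlying a polarised variety as an object of the category `Var`. -/
noncomputable def PVar.var {T : WeilTheory k₀ K} (V : PVar T) : Var k₀ V.k :=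
  ⟨V.X, V.str, V.n, V.isVar⟩

section Operators

variable [CharZero K] {T : WeilTheory k₀ K} (V : PVar T)

/-- The cohomology `H(X)`. -/
abbrev PVar.HX : Type := (weil T V.k).H V.var

/-- The Lefschetz operator. -/
noncomputable def PVar.lef : Module.End K V.HX := LinearMap.mulLeft K (T.cl V.X V.h)

/-- The projections onto the `H^i(X)`. -/
noncomputable def PVar.proj (i : ℤ) : Module.End K V.HX :=
  if 0 ≤ i then (weil T V.k).pi V.var i.toNat else 0

/-- The algebraic operators of degree `r` on `H(X)`. -/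
noncomputable def PVar.opA (r : ℤ) : AddSubgroup (Module.End K V.HX) :=
  (weil T V.k).Cor V.var V.var r

/-- The algebraic operators of degree `r` on `H(X) ⊗ H(X) = H(X × X)`. -/
noncomputable def PVar.opB (r : ℤ) : AddSubgroup (Module.End K (V.HX ⊗[K] V.HX)) :=
  ((weil T V.k).Cor (V.var ⊗ V.var) (V.var ⊗ V.var) r).comap
    (((weil T V.k).kun V.var V.var).conj.toLinearMap.toAddMonoidHom)

end Operators

section Statements

variable (k₀ K) [CharZero K]

/-- Translation of the conjectures into statements on operators.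

PROOF. (1) `φ = op (cl a)` iff `tr (φ v * w) = tr (cl a * p₂^* v * p₁^* w)` for all `v`, `w`
(`op_spec`, `ext_tr`). `codimZ` corresponds to `AlgZ`. (2) `op (cl (push diag 1)) = id`
(`cl_push`). If `u ∈ box i (2n-i)` then `op u = pi i ∘ op u ∘ pi i` (check on
`p₁^* x * p₂^* y`, `op_tm`), so if `∑ cl (a i) = cl Δ` with `cl (a i)` in `box i (2n-i)` then
`op (cl (a i)) = pi i`. Conversely if `pi i = op (cl (a i))` then `cl (a i)` is in
`box i (2n-i)` by the Künneth formula: see `op_kcomp_diag`, `sum_kcomp_diag`, `kcomp` and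
`op_inj` in `Geo/Hard.lean`. (3) and (4) similarly; `SignOp` means that `op (cl a)` is the
projector onto the even part, `(1 + sgn) / 2`. (5): `IsLam` with `L = lef`,
`L^j = mulLeft ((cl h)^j)` (`LinearMap.pow_mulLeft`). An operator on `H(X)` is determined by its
restrictions to the `H^i(X)`, and `H^i(X) = 0` for `i > 2n` (`gr_top`). -/
def StTrans : Prop := ∀ (T : WeilTheory k₀ K) (V : PVar T),
  (∀ r φ, V.Algebraic r φ ↔ φ ∈ V.opA r) ∧
  (V.KunnethConj ↔ ∀ i, V.proj i ∈ V.opA 0) ∧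
  (V.SignConj ↔ sgn V.n V.proj ∈ V.opA 0) ∧
  (V.SignConj ↔ V.SignOp) ∧
  (V.LefschetzConj ↔ ∃ Lam ∈ V.opA (-1), IsLam V.n V.proj V.lef Lam)

/-- `OpData` for a polarised variety.

PROOF. Everything is in helper49's Geo layer, for the theory `weil T V.k`: `cor_id`,
`cor_comp`, `cor_rat`, `cor_gr`, `cor_mul`, `cor_tens`, `cor_ptr`, `trace_eps_rat`, the
projectors of degree `0` and `2n` (`exists_pt`). -/
def StOpV : Prop := ∀ (T : WeilTheory k₀ K) (V : PVar T),
  OpData V.n V.proj V.lef V.opA V.opB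

/-- The relation on `V ⊗ V`.

PROOF. Let `w` be from `StKey` and `u = op (cl w) ∈ Cor Z Z (-1)`, `Z = X ⊗ X` (codimension
`W.n = 2 V.n - 1 = dim Z - 1`), transported to `V ⊗ V` by `kun`. For `z ∈ H^c(Z)` and
all `z'`: `tr (H u (H z) * z') = tr (u (H z) * (H z'))` (`H` central)
`= tr (cl w * P₂^*(H z) * P₁^*(H z')) = [c even] tr (H z * z')` by `StKey`. So
`H u H z = [c even] H z`. Under `kun`, `LL lef` is multiplication by `H` and `prT n proj c` is
`pi c`. -/
def StRel : Prop := ∀ (T : WeilTheory k₀ K) (V W : PVar T),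
  GenericSection V W → W.SignOp →
  ∃ w ∈ V.opB (-1),
    (∀ c, Even c → LL V.lef * w * LL V.lef * prT V.n V.proj c =
      LL V.lef * prT V.n V.proj c) ∧
    (∀ c, Odd c → LL V.lef * w * LL V.lef * prT V.n V.proj c = 0)

/-- **The local theorem**: assembly of `StOpV`, `StRel`, `StMain`, `StTrans`. -/
def StLocal : Prop := ∀ (T : WeilTheory k₀ K) (V W : PVar T),
  GenericSection V W → W.SignConj → V.KunnethConj ∧ V.LefschetzConj

/-- Lefschetz implies Künneth implies sign: `StBC`, `StOpV`, `StTrans`. For `n = 0` the cohomology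
is `H^0(X)`, `proj 0 = 1` and `Λ = 0`. -/
def StEasy : Prop := ∀ (T : WeilTheory k₀ K) (V : PVar T),
  (V.LefschetzConj → V.KunnethConj) ∧ (V.KunnethConj → V.SignConj) ∧
    (V.n = 0 → V.KunnethConj ∧ V.LefschetzConj)

end Statements

end Pool.Agent.Lib.MP_4ca46c_ag.Sign
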