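import Pool.Agent.Lib.MP_4ca46c_ag.Sign.SpecC

/-!
# Averaging over Galois conjugates
-/

namespace Pool.Agent.Lib.MP_4ca46c_ag.Sign

open CategoryTheory Limits AlgebraicGeometry TensorProduct

section pt

variable (k₀ : Type) [Field k₀] {F F' F'' : Type} [Field F] [Algebra k₀ F] [Field F']
  [Algebra k₀ F'] [Field F''] [Algebra k₀ F'']

theorem average_ptMap_comp (φ : F →ₐ[k₀] F') (ψ : F' →ₐ[k₀] F'') :
    ptMap k₀ ψ ≫ ptMap k₀ φ = ptMap k₀ (ψ.comp φ) := by
  apply Over.OverMorphism.ext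
  change Spec.map _ ≫ Spec.map _ = Spec.map _
  rw [← Spec.map_comp]
  rfl

theorem average_ptMap_id : ptMap k₀ (AlgHom.id k₀ F) = 𝟙 (pt k₀ F) := by
  apply Over.OverMorphism.ext
  change Spec.map _ = 𝟙 _
  exact Spec.map_id _

end pt

section

variable {k₀ : Type} [Field k₀] {K : Type} [Field K]
variable {T : WeilTheory k₀ K} {V W : PVar T} (G : GenericSection V W)

theorem average_p2 : W.p₂ ≫ W.str = W.sqStr := pullback.condition.symm

theorem average_e2 : IsPullback G.e2 W.sqStr (pullback.fst G.y₀ G.y₀ ≫ G.y₀)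
    (ptMap k₀ (IsScalarTower.toAlgHom k₀ G.F W.k)) := by
  have h1 : IsPullback (W.p₂ ≫ G.toY₀) W.p₁ G.y₀
      (W.str ≫ ptMap k₀ (IsScalarTower.toAlgHom k₀ G.F W.k)) :=
    (IsPullback.of_hasPullback W.str W.str).flip.paste_horiz G.isBaseChange
  rw [← G.isBaseChange.w, ← G.e2_snd] at h1
  have h2 : IsPullback G.e2 W.p₁ (pullback.fst G.y₀ G.y₀) G.toY₀ :=
    IsPullback.of_right h1 G.e2_fst (IsPullback.of_hasPullback G.y₀ G.y₀).flip
  exact h2.paste_vert G.isBaseChange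

/-- the base change of an endomorphism of the algebraic closure -/
noncomputable def average_t (σ : W.k →ₐ[G.F] W.k) : W.X ⟶ W.X :=
  G.isBaseChange.lift G.toY₀ (W.str ≫ ptMap k₀ (σ.restrictScalars k₀)) (by
    rw [Category.assoc, average_ptMap_comp, G.isBaseChange.w]
    congr 2
    ext x
    exact (σ.commutes x).symm)

theorem average_t_Y (σ : W.k →ₐ[G.F] W.k) : average_t G σ ≫ G.toY₀ = G.toY₀ :=
  G.isBaseChange.lift_fst _ _ _

theorem average_t_str (σ : W.k →ₐ[G.F] W.k) :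
    average_t G σ ≫ W.str = W.str ≫ ptMap k₀ (σ.restrictScalars k₀) :=
  G.isBaseChange.lift_snd _ _ _

theorem average_t_comp (σ τ : W.k →ₐ[G.F] W.k) (h : σ.comp τ = AlgHom.id G.F W.k) :
    average_t G σ ≫ average_t G τ = 𝟙 W.X := by
  apply G.isBaseChange.hom_ext
  · rw [Category.assoc, average_t_Y, average_t_Y, Category.id_comp]
  · rw [Category.assoc, average_t_str, ← Category.assoc, average_t_str, Category.assoc,
      average_ptMap_comp, Category.id_comp]
    have h2 : (σ.restrictScalars k₀).comp (τ.restrictScalars k₀) = AlgHom.id k₀ W.k := by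
      ext x
      exact DFunLike.congr_fun h x
    rw [h2, average_ptMap_id, Category.comp_id]

variable {G}

theorem average_s₁ {σ : W.k →ₐ[G.F] W.k} {s : W.sq ⟶ W.sq} (h1 : s ≫ G.e2 = G.e2)
    (h2 : s ≫ W.sqStr = W.sqStr ≫ ptMap k₀ (σ.restrictScalars k₀)) :
    s ≫ W.p₁ = W.p₁ ≫ average_t G σ := by
  apply G.isBaseChange.hom_ext
  · rw [Category.assoc, Category.assoc, average_t_Y, ← G.e2_fst, ← Category.assoc, h1]
  · rw [Category.assoc, Category.assoc, average_t_str]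
    change s ≫ W.sqStr = _
    rw [h2]
    exact Category.assoc _ _ _

theorem average_s₂ {σ : W.k →ₐ[G.F] W.k} {s : W.sq ⟶ W.sq} (h1 : s ≫ G.e2 = G.e2)
    (h2 : s ≫ W.sqStr = W.sqStr ≫ ptMap k₀ (σ.restrictScalars k₀)) :
    s ≫ W.p₂ = W.p₂ ≫ average_t G σ := by
  apply G.isBaseChange.hom_ext
  · rw [Category.assoc, Category.assoc, average_t_Y, ← G.e2_snd, ← Category.assoc, h1]
  · rw [Category.assoc, Category.assoc, average_t_str, average_p2, h2, ← average_p2]
    exact Category.assoc _ _ _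

theorem average_iso {t t' : W.X ⟶ W.X} (h1 : t ≫ t' = 𝟙 _) (h2 : t' ≫ t = 𝟙 _)
    {p : pt k₀ W.k ⟶ pt k₀ W.k} (ht : t' ≫ W.str = W.str ≫ p)
    {s : W.sq ⟶ W.sq} (hs1 : s ≫ W.p₁ = W.p₁ ≫ t) (hs2 : s ≫ W.p₂ = W.p₂ ≫ t) : IsIso s := by
  obtain ⟨s', h3, h4⟩ : ∃ s' : W.sq ⟶ W.sq, s' ≫ W.p₁ = W.p₁ ≫ t' ∧ s' ≫ W.p₂ = W.p₂ ≫ t' := by
    refine ⟨pullback.lift (W.p₁ ≫ t') (W.p₂ ≫ t') ?_, pullback.lift_fst _ _ _,
      pullback.lift_snd _ _ _⟩
    rw [Category.assoc, Category.assoc, ht, ← Category.assoc, ← Category.assoc, average_p2]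
    rfl
  have hext : ∀ f g : W.sq ⟶ W.sq, f ≫ W.p₁ = g ≫ W.p₁ → f ≫ W.p₂ = g ≫ W.p₂ → f = g :=
    fun f g h h' => pullback.hom_ext h h'
  refine ⟨s', ?_, ?_⟩
  · apply hext
    · rw [Category.assoc, h3, ← Category.assoc, hs1, Category.assoc, h1, Category.comp_id,
        Category.id_comp]
    · rw [Category.assoc, h4, ← Category.assoc, hs2, Category.assoc, h1, Category.comp_id,
        Category.id_comp]
  · apply hext
    · rw [Category.assoc, hs1, ← Category.assoc, h3, Category.assoc, h2, Category.comp_id,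
        Category.id_comp]
    · rw [Category.assoc, hs2, ← Category.assoc, h4, Category.assoc, h2, Category.comp_id,
        Category.id_comp]

end

theorem tAverage (k₀ K : Type) [Field k₀] [Field K] (h1 : StSm k₀ K) : StAverage k₀ K := by
  intro T V W G hS
  obtain ⟨a, ha, hS⟩ := hS
  obtain ⟨-, -, -, -, -, -, -, -, -, hW2, -, hY2, -⟩ := h1 T V W G
  have hw : IsWeil W.X := ⟨W.k, _, _, W.closed, W.str, W.n, W.isVar⟩
  have hw2 : IsWeil W.sq := ⟨W.k, _, _, W.closed, W.sqStr, W.n + W.n, hW2⟩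
  obtain ⟨N₀, σ, s, hN₀, hs, b, hb, hbs⟩ := T.norm (pullback.fst G.y₀ G.y₀ ≫ G.y₀) W.sqStr G.e2
    hY2 (average_e2 G) W.n a ha
  refine ⟨N₀, hN₀, b, hb, ?_⟩
  intro i y hy y'
  have key : ∀ j : Fin N₀, T.tr W.sq (T.cl W.sq (T.pull (s j) a) * T.pullH W.p₂ y *
      T.pullH W.p₁ y') = if Even i then T.tr W.X (y * y') else 0 := by
    intro j
    have hbij : Function.Bijective (σ j) := by
      have : Algebra.IsAlgebraic G.F W.k := IsAlgClosure.isAlgebraic
      exact Algebra.IsAlgebraic.algHom_bijective (σ j)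
    let e : W.k ≃ₐ[G.F] W.k := AlgEquiv.ofBijective (σ j) hbij
    let τ : W.k →ₐ[G.F] W.k := e.symm.toAlgHom
    have hc1 : (σ j).comp τ = AlgHom.id G.F W.k := by
      ext x
      exact e.apply_symm_apply x
    have hc2 : τ.comp (σ j) = AlgHom.id G.F W.k := by
      ext x
      exact e.symm_apply_apply x
    have ht1 : average_t G (σ j) ≫ average_t G τ = 𝟙 _ := average_t_comp G _ _ hc1
    have ht2 : average_t G τ ≫ average_t G (σ j) = 𝟙 _ := average_t_comp G _ _ hc2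
    have hs1 := average_s₁ (hs j).1 (hs j).2
    have hs2 := average_s₂ (hs j).1 (hs j).2
    have hiso : IsIso (s j) := average_iso ht1 ht2 (average_t_str G τ) hs1 hs2
    have hisot : IsIso (average_t G (σ j)) := ⟨_, ht1, ht2⟩
    have hpb : ∀ z, T.pullH (average_t G (σ j)) (T.pullH (average_t G τ) z) = z := by
      intro z
      rw [← T.pullH_comp _ _ hw hw hw, ht1, T.pullH_id hw]
    have e1 : T.pullH W.p₁ y' = T.pullH (s j) (T.pullH W.p₁ (T.pullH (average_t G τ) y')) := by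
      rw [← T.pullH_comp _ _ hw2 hw2 hw, hs1, T.pullH_comp _ _ hw2 hw hw, hpb]
    have e2 : T.pullH W.p₂ y = T.pullH (s j) (T.pullH W.p₂ (T.pullH (average_t G τ) y)) := by
      rw [← T.pullH_comp _ _ hw2 hw2 hw, hs2, T.pullH_comp _ _ hw2 hw hw, hpb]
    rw [e1, e2, T.cl_pull _ hw2 hw2, ← map_mul, ← map_mul, T.tr_iso _ hiso hw2 hw2,
      hS i _ (T.pullH_mem _ hw hw i y hy), ← T.tr_iso _ hisot hw hw, map_mul, hpb, hpb]
  rw [hbs, map_sum, Finset.sum_mul, Finset.sum_mul, map_sum, Finset.sum_congr rfl fun j _ => key j,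
    Finset.sum_const, Finset.card_univ, Fintype.card_fin]
  by_cases h : Even i
  · rw [if_pos h, if_pos h, nsmul_eq_mul]
  · rw [if_neg h, if_neg h, smul_zero]

end Pool.Agent.Lib.MP_4ca46c_ag.Sign
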