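import Pool.Agent.Lib.MP_4ca46c_ag.Sign.SpecC

/-!
# The map `Q₀ ⟶ W₀` is a base change of the generic point of `B`
-/

namespace Pool.Agent.Lib.MP_4ca46c_ag.Sign

open CategoryTheory Limits AlgebraicGeometry TensorProduct

variable {k₀ : Type} [Field k₀] {K : Type} [Field K]

section

variable {T : WeilTheory k₀ K} {V W : PVar T} (G : GenericSection V W)

/-- `Y₀ × Y₀` is the fibre product of `Y₀` and `I ×_B I` over `I`. -/
theorem generic_toI2 : IsPullback G.toI2 (pullback.fst G.y₀ G.y₀) (pullback.fst G.toB G.toB)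
    G.toI := by
  have h1 : IsPullback (pullback.snd G.y₀ G.y₀ ≫ G.toI) (pullback.fst G.y₀ G.y₀) G.toB
      (G.y₀ ≫ G.generic) :=
    (IsPullback.of_hasPullback G.y₀ G.y₀).flip.paste_horiz G.fibre
  rw [← G.fibre.w, ← G.toI2_snd] at h1
  exact IsPullback.of_right h1 G.toI2_fst (IsPullback.of_hasPullback G.toB G.toB).flip

/-- `Q₀` is the fibre product of `Y₀ × Y₀` and `W₀` over `I ×_B I`. -/
theorem generic_Q₀W₀ : IsPullback G.Q₀W₀ (pullback.fst G.rho G.incl) (pullback.fst G.q G.incl)
    G.toI2 := by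
  have h1 : IsPullback (G.Q₀W₀ ≫ pullback.snd G.q G.incl) (pullback.fst G.rho G.incl) G.incl
      (G.toI2 ≫ G.q) := by
    have h2 : IsPullback (pullback.snd G.rho G.incl) (pullback.fst G.rho G.incl) G.incl G.rho :=
      (IsPullback.of_hasPullback G.rho G.incl).flip
    exact h2.of_iso (Iso.refl _) (Iso.refl _) (Iso.refl _) (Iso.refl _)
      (by simp [G.Q₀W₀_snd]) (by simp) (by simp) (by simp [G.toI2_q])
  exact IsPullback.of_right h1 G.Q₀W₀_fst (IsPullback.of_hasPullback G.q G.incl).flip

theorem generic_all : IsPullback G.Q₀W₀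
    (pullback.fst G.rho G.incl ≫ pullback.fst G.y₀ G.y₀ ≫ G.y₀)
    (pullback.fst G.q G.incl ≫ pullback.fst G.toB G.toB ≫ G.toB) G.generic :=
  (generic_Q₀W₀ G).paste_vert ((generic_toI2 G).paste_vert G.fibre)

theorem generic_left : IsPullback G.Q₀W₀.left
    (pullback.fst G.rho G.incl ≫ pullback.fst G.y₀ G.y₀ ≫ G.y₀).left
    (pullback.fst G.q G.incl ≫ pullback.fst G.toB G.toB ≫ G.toB).left G.generic.left :=
  (generic_all G).map (Over.forget _)

end

theorem tGeneric (k₀ K : Type) [Field k₀] [Field K] : StGeneric k₀ K := by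
  intro T V W G
  have h := (generic_left G).flip
  refine ⟨?_, ?_, ?_⟩
  · exact MorphismProperty.of_isPullback (P := @Flat) h G.generic_flat
  · exact MorphismProperty.of_isPullback (P := MorphismProperty.monomorphisms Scheme) h
      G.generic_mono
  · exact MorphismProperty.of_isPullback (P := @QuasiCompact) h G.generic_quasiCompact

end Pool.Agent.Lib.MP_4ca46c_ag.Sign
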