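import Mathlib
import Pool.Agent.Lib.MP_4ca46c_ag.Sign.SpecC

/-!
# The relation `H w H = H`
-/

namespace Pool.Agent.Lib.MP_4ca46c_ag.Sign

open CategoryTheory Limits AlgebraicGeometry TensorProduct

variable {k₀ : Type} [Field k₀] {K : Type} [Field K]

section geometry

variable {T : WeilTheory k₀ K} {V W : PVar T} (G : GenericSection V W)

theorem key_isWeil (V : PVar T) : IsWeil V.X := ⟨V.k, _, _, V.closed, V.str, V.n, V.isVar⟩

theorem key_proper_diag {F : Type} [Field F] [Algebra k₀ F] {X : Sch k₀} (x : X ⟶ pt k₀ F)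
    (hx : IsProper x.left) (hxx : IsSm (pullback.fst x x ≫ x)) :
    IsProper (pullback.diagonal x).left := by
  have h1 : IsProper (pullback.diagonal x ≫ (pullback.fst x x ≫ x)).left := by
    rw [← Category.assoc, pullback.diagonal_fst, Category.id_comp]
    exact hx
  have h2 := hxx.separated
  rw [Over.comp_left] at h1
  exact IsProper.of_comp (pullback.diagonal x).left (pullback.fst x x ≫ x).left

theorem key_square_base : IsPullback G.e2 (W.p₁ ≫ W.str) (pullback.fst G.y₀ G.y₀ ≫ G.y₀)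
    (ptMap k₀ (IsScalarTower.toAlgHom k₀ G.F W.k)) := by
  have hw : W.p₁ ≫ W.str = W.p₂ ≫ W.str := pullback.condition
  refine ⟨⟨?_⟩, ⟨PullbackCone.IsLimit.mk _ (fun s => ?_) ?_ ?_ ?_⟩⟩
  · rw [← Category.assoc, G.e2_fst, Category.assoc, G.isBaseChange.w, Category.assoc]
  · refine pullback.lift
      (G.isBaseChange.lift (s.fst ≫ pullback.fst G.y₀ G.y₀) s.snd ?_)
      (G.isBaseChange.lift (s.fst ≫ pullback.snd G.y₀ G.y₀) s.snd ?_) ?_
    · rw [Category.assoc]; exact s.condition
    · rw [Category.assoc, ← pullback.condition]; exact s.condition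
    · rw [G.isBaseChange.lift_snd, G.isBaseChange.lift_snd]
  · intro s
    apply pullback.hom_ext
    · rw [Category.assoc, G.e2_fst, ← Category.assoc, PVar.p₁, pullback.lift_fst,
        G.isBaseChange.lift_fst]
    · rw [Category.assoc, G.e2_snd, ← Category.assoc, PVar.p₂, pullback.lift_snd,
        G.isBaseChange.lift_fst]
  · intro s
    rw [← Category.assoc, PVar.p₁, pullback.lift_fst, G.isBaseChange.lift_snd]
  · intro s m hm1 hm2
    apply pullback.hom_ext
    · rw [pullback.lift_fst]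
      apply G.isBaseChange.hom_ext
      · rw [G.isBaseChange.lift_fst, Category.assoc, ← hm1, Category.assoc, G.e2_fst]
        rfl
      · rw [G.isBaseChange.lift_snd, ← hm2, Category.assoc]
        rfl
    · rw [pullback.lift_snd]
      apply G.isBaseChange.hom_ext
      · rw [G.isBaseChange.lift_fst, Category.assoc, ← hm1, Category.assoc, G.e2_snd]
        rfl
      · rw [G.isBaseChange.lift_snd, ← hm2, hw, Category.assoc]
        rfl

theorem key_flat : Flat G.e2.left := by
  have h1 := ((key_square_base G).map (Over.forget _)).flip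
  refine MorphismProperty.of_isPullback (P := @Flat) h1 ?_
  change Flat (Spec.map (CommRingCat.ofHom (algebraMap G.F W.k)))
  rw [Flat.SpecMap_iff]
  change RingHom.Flat (algebraMap G.F W.k)
  rw [RingHom.flat_algebraMap_iff]
  infer_instance

theorem key_square : IsPullback G.toY₀ (pullback.diagonal W.str) (pullback.diagonal G.y₀)
    G.e2 := by
  refine ⟨⟨?_⟩, ⟨PullbackCone.IsLimit.mk _ (fun s => s.snd ≫ W.p₁) ?_ ?_ ?_⟩⟩
  · apply pullback.hom_ext
    · rw [Category.assoc, pullback.diagonal_fst, Category.comp_id, Category.assoc, G.e2_fst,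
        ← Category.assoc, PVar.p₁, pullback.diagonal_fst, Category.id_comp]
    · rw [Category.assoc, pullback.diagonal_snd, Category.comp_id, Category.assoc, G.e2_snd,
        ← Category.assoc, PVar.p₂, pullback.diagonal_snd, Category.id_comp]
  · intro s
    have h1 := s.condition =≫ pullback.fst G.y₀ G.y₀
    rw [Category.assoc, pullback.diagonal_fst, Category.comp_id, Category.assoc, G.e2_fst] at h1
    rw [Category.assoc]
    exact h1.symm
  · intro s
    have h1 := s.condition =≫ pullback.fst G.y₀ G.y₀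
    rw [Category.assoc, pullback.diagonal_fst, Category.comp_id, Category.assoc, G.e2_fst] at h1
    have h2 := s.condition =≫ pullback.snd G.y₀ G.y₀
    rw [Category.assoc, pullback.diagonal_snd, Category.comp_id, Category.assoc, G.e2_snd] at h2
    have hw : W.p₁ ≫ W.str = W.p₂ ≫ W.str := pullback.condition
    have h3 : s.snd ≫ W.p₁ = s.snd ≫ W.p₂ := by
      apply G.isBaseChange.hom_ext
      · rw [Category.assoc, Category.assoc, ← h1, ← h2]
      · rw [Category.assoc, Category.assoc, hw]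
    apply pullback.hom_ext
    · rw [Category.assoc, pullback.diagonal_fst, Category.comp_id]
      rfl
    · rw [Category.assoc, pullback.diagonal_snd, Category.comp_id, h3]
      rfl
  · intro s m _ hm2
    rw [← hm2, Category.assoc, PVar.p₁, pullback.diagonal_fst, Category.comp_id]

theorem key_R_fst : (G.e2 ≫ G.rho) ≫ pullback.fst V.sqStr V.sqStr =
    W.p₁ ≫ (G.toY₀ ≫ G.toI ≫ G.toZ) := by
  rw [Category.assoc, G.rho_fst, ← Category.assoc, G.e2_fst, Category.assoc]
  rfl

theorem key_R_snd : (G.e2 ≫ G.rho) ≫ pullback.snd V.sqStr V.sqStr =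
    W.p₂ ≫ (G.toY₀ ≫ G.toI ≫ G.toZ) := by
  rw [Category.assoc, G.rho_snd, ← Category.assoc, G.e2_snd, Category.assoc]
  rfl

end geometry

section cohomology

variable (T : WeilTheory k₀ K)

/-- Linear properties of classes need to be checked for homogeneous classes only. -/
theorem key_hom {X : Sch k₀} (hX : IsWeil X) {C : T.H X → Prop} (h0 : C 0)
    (hadd : ∀ u v, C u → C v → C (u + v)) (hm : ∀ i, ∀ a ∈ T.deg X i, C a) (u : T.H X) :
    C u := by
  have h1 : u ∈ ⨆ i, T.deg X i := by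
    rw [(T.internal X hX).submodule_iSup_eq_top]; trivial
  exact Submodule.iSup_induction _ (motive := C) h1 hm h0 hadd

/-- Linear properties of classes on a product. -/
theorem key_ind {k : Type} [Field k] [Algebra k₀ k] [IsAlgClosed k] {X Y P : Sch k₀}
    (x : X ⟶ pt k₀ k) (y : Y ⟶ pt k₀ k) (p : P ⟶ X) (q : P ⟶ Y) (m n : ℕ) (hx : IsVar x m)
    (hy : IsVar y n) (hP : IsPullback p q x y) {C : T.H P → Prop} (h0 : C 0)
    (hadd : ∀ u v, C u → C v → C (u + v))
    (hm : ∀ i j, ∀ a ∈ T.deg X i, ∀ c ∈ T.deg Y j, C (T.pullH p a * T.pullH q c))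
    (u : T.H P) : C u := by
  obtain ⟨t, rfl⟩ := (T.kunneth x y p q m n hx hy hP).2 u
  induction t using TensorProduct.induction_on with
  | zero => rw [map_zero]; exact h0
  | add s t hs ht => rw [map_add]; exact hadd _ _ hs ht
  | tmul a c =>
    change C (T.pullH p a * T.pullH q c)
    refine key_hom T ⟨k, _, _, ‹_›, x, m, hx⟩ (C := fun a => C (T.pullH p a * T.pullH q c))
      ?_ ?_ ?_ a
    · change C (T.pullH p 0 * T.pullH q c)
      rw [map_zero, zero_mul]; exact h0
    · intro u v hu hv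
      change C (T.pullH p (u + v) * T.pullH q c)
      rw [map_add, add_mul]
      exact hadd _ _ hu hv
    · intro i a ha
      refine key_hom T ⟨k, _, _, ‹_›, y, n, hy⟩ (C := fun c => C (T.pullH p a * T.pullH q c))
        ?_ ?_ ?_ c
      · change C (T.pullH p a * T.pullH q 0)
        rw [map_zero, mul_zero]; exact h0
      · intro u v hu hv
        change C (T.pullH p a * T.pullH q (u + v))
        rw [map_add, mul_add]
        exact hadd _ _ hu hv
      · intro j c hc
        exact hm i j a ha c hc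

/-- classes of even degree are central -/
theorem key_central {X : Sch k₀} (hX : IsWeil X) {i : ℕ} {a : T.H X}
    (ha : a ∈ T.deg X (2 * i)) (v : T.H X) : a * v = v * a := by
  refine key_hom T hX (C := fun v => a * v = v * a) ?_ ?_ ?_ v
  · rw [mul_zero, zero_mul]
  · intro u v hu hv
    rw [mul_add, add_mul, hu, hv]
  · intro j v hv
    rw [T.comm X hX (2 * i) j a ha v hv, mul_assoc, pow_mul, neg_one_sq, one_pow, one_mul]

theorem key_alg {R : Type} [Ring R] {A B : R} (hA : ∀ v, A * v = v * A)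
    (hB : ∀ v, B * v = v * B) (c x y : R) :
    A * (B * (c * x * y)) = c * (A * x) * (B * y) := by
  calc A * (B * (c * x * y)) = A * (B * (c * x) * y) := by rw [← mul_assoc B]
    _ = A * (c * x * B * y) := by rw [hB (c * x)]
    _ = (A * c) * (x * (B * y)) := by simp only [mul_assoc]
    _ = (c * A) * (x * (B * y)) := by rw [hA c]
    _ = c * (A * x) * (B * y) := by simp only [mul_assoc]

theorem key_charZero {X : Sch k₀} {y : T.H X} (hy : y ≠ 0) : CharZero K := by
  have hnt : Nontrivial (T.H X) := ⟨y, 0, hy⟩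
  have h1 : Function.Injective ((T.cl X).comp (algebraMap ℚ (T.CH X))) :=
    RingHom.injective _
  refine charZero_of_inj_zero fun n hn => ?_
  have h2 : ((n : K)) • (1 : T.H X) = 0 := by rw [hn, zero_smul]
  have h3 : (n : T.H X) = 0 := by
    rw [← h2, ← map_natCast (algebraMap K (T.H X)) n, Algebra.algebraMap_eq_smul_one]
  have h4 : ((T.cl X).comp (algebraMap ℚ (T.CH X))) (n : ℚ) = 0 := by
    rw [map_natCast]; exact h3
  have h5 := h1 (h4.trans (map_zero _).symm)
  exact_mod_cast h5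

theorem key_cl_smul [CharZero K] {X : Sch k₀} (q : ℚ) (a : T.CH X) :
    T.cl X (q • a) = (q : K) • T.cl X a := by
  have h1 : ((T.cl X).comp (algebraMap ℚ (T.CH X))) =
    (algebraMap K (T.H X)).comp (algebraMap ℚ K) := Subsingleton.elim _ _
  have h2 := RingHom.congr_fun h1 q
  simp only [RingHom.comp_apply, eq_ratCast] at h2
  rw [Algebra.smul_def, map_mul, Algebra.smul_def, h2]

end cohomology

theorem tKey (h1 : StSm k₀ K) (h2 : StStep0 k₀ K) (h3 : StAverage k₀ K) : StKey k₀ K := by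
  intro T V W G hsign
  obtain ⟨sZ, sZZ, -, -, sYY₀, -, sY₀, sYY, vZ, vYY, vZZ, vYY₀, -, -, -, -⟩ := h1 T V W G
  obtain ⟨N₀, hN₀, b, hb, hav⟩ := h3 T V W G hsign
  obtain ⟨κ, w₀, hw₀, hbw⟩ := h2 T V W G b hb
  have hchar : CharZero K := key_charZero T G.y_ne
  have wY : IsWeil W.X := key_isWeil W
  have wYY : IsWeil W.sq := ⟨W.k, _, _, W.closed, _, _, vYY⟩
  have wZ : IsWeil V.sq := ⟨V.k, _, _, V.closed, _, _, vZ⟩
  have wZZ : IsWeil (pullback V.sqStr V.sqStr) := ⟨V.k, _, _, V.closed, _, _, vZZ⟩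
  have sY : Sm W.X := ⟨W.k, _, _, W.str, by
    have h1 := W.isVar.smooth
    have h2 := W.isVar.proper
    exact ⟨h1.smooth, inferInstance, inferInstance⟩⟩
  set r : W.X ⟶ V.sq := G.toY₀ ≫ G.toI ≫ G.toZ with hr
  set R : W.sq ⟶ pullback V.sqStr V.sqStr := G.e2 ≫ G.rho with hR
  set P₁ := pullback.fst V.sqStr V.sqStr with hP₁
  set P₂ := pullback.snd V.sqStr V.sqStr with hP₂
  have hpW : IsPullback W.p₁ W.p₂ W.str W.str := IsPullback.of_hasPullback W.str W.str
  have hpZ : IsPullback P₁ P₂ V.sqStr V.sqStr := IsPullback.of_hasPullback V.sqStr V.sqStr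
  -- pull-back along `R`
  have hR1 : ∀ a, T.pullH R (T.pullH P₁ a) = T.pullH W.p₁ (T.pullH r a) := by
    intro a
    rw [← T.pullH_comp R P₁ wYY wZZ wZ, ← T.pullH_comp W.p₁ r wYY wY wZ, hR, hP₁, key_R_fst]
  have hR2 : ∀ a, T.pullH R (T.pullH P₂ a) = T.pullH W.p₂ (T.pullH r a) := by
    intro a
    rw [← T.pullH_comp R P₂ wYY wZZ wZ, ← T.pullH_comp W.p₂ r wYY wY wZ, hR, hP₂, key_R_snd]
  -- the class of `b`
  have hcl : T.cl W.sq (T.pull G.e2 b) =
      (κ : K) • T.cl W.sq (T.push (pullback.diagonal W.str) 1) + T.pullH R (T.cl _ w₀) := by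
    rw [hbw, map_add, map_add, map_smul, key_cl_smul,
      T.push_baseChange (pullback.diagonal G.y₀) (pullback.diagonal W.str) G.toY₀ G.e2
        (key_square G) sY₀ sYY₀ sY sYY (key_proper_diag G.y₀ G.proper vYY₀) (key_flat G),
      map_one, ← T.pull_comp G.e2 G.rho sYY sYY₀ sZZ, ← T.cl_pull R wYY wZZ]
  have hdiag : ∀ y y', T.tr W.sq (T.cl W.sq (T.push (pullback.diagonal W.str) 1) *
      T.pullH W.p₂ y * T.pullH W.p₁ y') = T.tr W.X (y * y') := by
    intro y y'
    rw [mul_assoc, T.cl_push W.str W.sqStr (pullback.diagonal W.str)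
      (by rw [PVar.sqStr, ← Category.assoc, PVar.p₁, pullback.diagonal_fst, Category.id_comp])
      _ _ W.isVar vYY, map_one, one_mul, map_mul, ← T.pullH_comp _ _ wY wYY wY,
      ← T.pullH_comp _ _ wY wYY wY, PVar.p₁, PVar.p₂, pullback.diagonal_fst,
      pullback.diagonal_snd, T.pullH_id wY, T.pullH_id wY]
  -- the vanishing class is killed by cycles from `Z × Z`
  have hs : ∀ (s : ℕ) (u v : T.H W.sq), u * ((-1) ^ s * v) = (-1) ^ s * (u * v) := by
    intro s u v
    rcases neg_one_pow_eq_or (T.H W.sq) s with h | h <;> rw [h] <;> simp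
  have hs0 : ∀ {X : Sch k₀} (s : ℕ) (u : T.H X), T.tr X u = 0 → T.tr X ((-1) ^ s * u) = 0 := by
    intro X s u hu
    rcases neg_one_pow_eq_or (T.H X) s with h | h <;> rw [h]
    · rw [one_mul, hu]
    · rw [neg_one_mul, map_neg, hu, neg_zero]
  have hvan : ∀ (y' : T.H W.X) (u : T.H (pullback V.sqStr V.sqStr)),
      T.tr W.sq (T.pullH R u * T.pullH W.p₂ G.y * T.pullH W.p₁ y') = 0 := by
    intro y' u
    refine key_ind T V.sqStr V.sqStr P₁ P₂ _ _ vZ vZ hpZ
      (C := fun u => T.tr W.sq (T.pullH R u * T.pullH W.p₂ G.y * T.pullH W.p₁ y') = 0)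
      ?_ ?_ ?_ u
    · rw [map_zero, zero_mul, zero_mul, map_zero]
    · intro u v hu hv
      rw [map_add, add_mul, add_mul, map_add, hu, hv, add_zero]
    · intro i j a ha c hc
      refine key_hom T wY (C := fun y' => T.tr W.sq (T.pullH R (T.pullH P₁ a * T.pullH P₂ c) *
        T.pullH W.p₂ G.y * T.pullH W.p₁ y') = 0) ?_ ?_ ?_ y'
      · rw [map_zero, mul_zero, map_zero]
      · intro u v hu hv
        rw [map_add, mul_add, map_add, hu, hv, add_zero]
      · intro l y' hy'
        rw [map_mul (T.pullH R), hR1, hR2]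
        have hc' := T.pullH_mem r wY wZ j c hc
        have hcy := T.mulH_mem _ wY _ _ _ hc' _ G.y_mem
        have e1 : T.pullH W.p₂ (T.pullH r c * G.y) * T.pullH W.p₁ y' =
            (-1) ^ ((j + G.i) * l) * (T.pullH W.p₁ y' * T.pullH W.p₂ (T.pullH r c * G.y)) :=
          T.comm _ wYY _ _ _ (T.pullH_mem W.p₂ wYY wY _ _ hcy) _
            (T.pullH_mem W.p₁ wYY wY _ _ hy')
        have e2 : T.pullH r c * G.y = (-1) ^ (j * G.i) * (G.y * T.pullH r c) :=
          T.comm _ wY _ _ _ hc' _ G.y_mem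
        have e3 : T.pullH W.p₁ (T.pullH r a) * T.pullH W.p₂ (T.pullH r c) * T.pullH W.p₂ G.y *
            T.pullH W.p₁ y' = (-1) ^ ((j + G.i) * l) *
              (T.pullH W.p₁ (T.pullH r a * y') * T.pullH W.p₂ (T.pullH r c * G.y)) := by
          rw [mul_assoc (T.pullH W.p₁ (T.pullH r a)), ← map_mul (T.pullH W.p₂), mul_assoc, e1, hs,
            map_mul (T.pullH W.p₁) (T.pullH r a) y']
          simp only [mul_assoc]
        have e4 : T.tr W.X (T.pullH r c * G.y) = 0 := by
          rw [e2]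
          exact hs0 _ _ (G.vanishing c)
        have e5 : T.tr W.sq (T.pullH W.p₁ (T.pullH r a * y') *
            T.pullH W.p₂ (T.pullH r c * G.y)) = 0 := by
          rw [T.tr_kunneth W.str W.str W.p₁ W.p₂ _ _ W.isVar W.isVar hpW, e4, mul_zero]
        rw [e3]
        exact hs0 _ _ e5
  -- the coefficient of the diagonal is zero
  have hκ : (κ : K) = 0 := by
    by_contra hne
    refine G.y_ne (T.poincare W.X wY G.y fun y' => ?_)
    have h4 := hav G.i G.y G.y_mem y'
    rw [if_neg (Nat.not_even_iff_odd.2 G.odd), hcl, add_mul, add_mul, map_add, hvan, add_zero,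
      smul_mul_assoc, smul_mul_assoc, map_smul, hdiag, smul_eq_mul] at h4
    exact (mul_eq_zero.1 h4).resolve_left hne
  rw [hκ, zero_smul, zero_add] at hcl
  -- the Lefschetz class
  set H := T.pullH V.p₁ (T.cl V.X V.h) + T.pullH V.p₂ (T.cl V.X V.h) with hH
  have hVW : IsWeil V.X := key_isWeil V
  have hHdeg : H ∈ T.deg V.sq (2 * 1) :=
    (T.deg _ _).add_mem (T.pullH_mem V.p₁ wZ hVW _ _ (T.cl_mem _ hVW 1 _ V.h_mem))
      (T.pullH_mem V.p₂ wZ hVW _ _ (T.cl_mem _ hVW 1 _ V.h_mem))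
  have hH1 : ∀ v, T.pullH P₁ H * v = v * T.pullH P₁ H :=
    key_central T wZZ (T.pullH_mem P₁ wZZ wZ _ _ hHdeg)
  have hH2 : ∀ v, T.pullH P₂ H * v = v * T.pullH P₂ H :=
    key_central T wZZ (T.pullH_mem P₂ wZZ wZ _ _ hHdeg)
  have hcls : ∀ z, T.tr W.X (T.pullH r z) = G.m * T.tr V.sq (H * z) := G.cls
  clear_value H
  have htrR : ∀ u, T.tr W.sq (T.pullH R u) =
      (G.m : K) ^ 2 * T.tr _ (T.pullH P₁ H * (T.pullH P₂ H * u)) := by
    intro u
    refine key_ind T V.sqStr V.sqStr P₁ P₂ _ _ vZ vZ hpZ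
      (C := fun u => T.tr W.sq (T.pullH R u) =
        (G.m : K) ^ 2 * T.tr _ (T.pullH P₁ H * (T.pullH P₂ H * u))) ?_ ?_ ?_ u
    · rw [map_zero, map_zero, mul_zero, mul_zero, map_zero, mul_zero]
    · intro u v hu hv
      rw [map_add, map_add, hu, hv, mul_add, mul_add, map_add, mul_add]
    · intro i j a _ c _
      have e1 : T.pullH P₁ H * (T.pullH P₂ H * (T.pullH P₁ a * T.pullH P₂ c)) =
          T.pullH P₁ (H * a) * T.pullH P₂ (H * c) := by
        rw [map_mul (T.pullH P₁), map_mul (T.pullH P₂)]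
        have := key_alg hH1 hH2 1 (T.pullH P₁ a) (T.pullH P₂ c)
        rwa [one_mul, one_mul] at this
      rw [map_mul (T.pullH R), hR1, hR2, T.tr_kunneth W.str W.str W.p₁ W.p₂ _ _ W.isVar W.isVar hpW, hcls,
        hcls, e1, T.tr_kunneth V.sqStr V.sqStr P₁ P₂ _ _ vZ vZ hpZ]
      ring
  have hm : (G.m : K) ≠ 0 := by
    exact_mod_cast G.m_pos.ne'
  have hN : (N₀ : K) ≠ 0 := by
    exact_mod_cast hN₀.ne'
  refine ⟨((G.m : ℚ) / N₀) • w₀, Submodule.smul_mem _ _ hw₀, fun i z hz z' => ?_⟩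
  have h4 := hav i (T.pullH r z) (T.pullH_mem r wY wZ _ _ hz) (T.pullH r z')
  rw [hcl, ← map_mul (T.pullH r) z z', hcls, ← hR1, ← hR2, ← map_mul, ← map_mul, htrR] at h4
  have e1 : T.pullH P₁ H * (T.pullH P₂ H * (T.cl (pullback V.sqStr V.sqStr) w₀ *
      T.pullH P₂ z * T.pullH P₁ z')) = T.cl (pullback V.sqStr V.sqStr) w₀ *
        T.pullH P₂ (H * z) * T.pullH P₁ (H * z') := by
    rw [map_mul (T.pullH P₁), map_mul (T.pullH P₂), ← mul_assoc, hH1, mul_assoc]
    exact key_alg hH2 hH1 _ _ _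
  rw [e1] at h4
  rw [key_cl_smul, smul_mul_assoc, smul_mul_assoc, map_smul, smul_eq_mul, mul_assoc H]
  have h5 : ((((G.m : ℚ) / N₀ : ℚ)) : K) = (G.m : K) / N₀ := by push_cast; ring
  rw [h5]
  split_ifs at h4 ⊢ with hi
  · have h6 : (G.m : K) ^ 2 * T.tr (pullback V.sqStr V.sqStr)
        (T.cl (pullback V.sqStr V.sqStr) w₀ * T.pullH P₂ (H * z) * T.pullH P₁ (H * z')) =
        (G.m : K) ^ 2 * ((N₀ : K) / G.m * T.tr V.sq (H * (z * z'))) := by
      rw [h4]
      field_simp
    rw [mul_left_cancel₀ (pow_ne_zero 2 hm) h6]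
    field_simp
  · rw [(mul_eq_zero.1 h4).resolve_left (pow_ne_zero 2 hm), mul_zero]

end Pool.Agent.Lib.MP_4ca46c_ag.Sign
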