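import Mathlib
import Pool.Agent.Lib.MP_4ca46c_ag.Sign.SpecC

/-!
# Cycles on `Y₀ × Y₀`
-/

set_option autoImplicit false

namespace Pool.Agent.Lib.MP_4ca46c_ag.Sign

open CategoryTheory Limits AlgebraicGeometry TensorProduct

variable (k₀ K : Type) [Field k₀] [Field K]

theorem tStep0 (h1 : StSm k₀ K) (h2 : StCompl k₀ K) (h3 : StGeneric k₀ K) : StStep0 k₀ K := by
  intro T V W G a ha
  obtain ⟨-, s2, s3, s4, s5, s6, -, -, -, -, -, v4, v4', v5, hcon, hqc⟩ := h1 T V W G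
  obtain ⟨g1, g2, g3⟩ := h3 T V W G
  -- the open immersion `U → Z × Z` is a flat monomorphism
  have ho : IsOpenImmersion G.incl.left := G.complement.isOpen
  have hfl : Flat G.incl.left := inferInstance
  have hmo : Mono G.incl.left := inferInstance
  let j : G.Q₀ ⟶ pullback G.y₀ G.y₀ := pullback.fst G.rho G.incl
  obtain ⟨a', ha', e1⟩ := T.pull_surjective_of_mono G.Q₀W₀ s6 s4 g1 g2 g3 W.n (T.pull j a)
    (T.pull_mem j s6 s5 _ a ha)
  obtain ⟨a'', ha'', e2⟩ := T.pull_surjective_of_affineBundle (pullback.snd G.q G.incl) s4 s3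
    G.bundle W.n a' ha'
  obtain ⟨w, hw, e3⟩ := T.pull_surjective_of_mono G.incl s3 s2 hfl hmo hqc W.n a'' ha''
  have hj : T.pull j (T.pull G.rho w) = T.pull j a := by
    rw [← T.pull_comp j G.rho s6 s5 s2, ← e1, ← e2, ← e3,
      ← T.pull_comp (pullback.snd G.q G.incl) G.incl s4 s3 s2,
      ← T.pull_comp G.Q₀W₀ _ s6 s4 s2]
    congr 2
    rw [← Category.assoc, G.Q₀W₀_snd]
    exact pullback.condition
  have hdiag : pullback.diagonal G.y₀ ≫ (pullback.fst G.y₀ G.y₀ ≫ G.y₀) = G.y₀ := by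
    rw [← Category.assoc, pullback.diagonal_fst, Category.id_comp]
  have hsm : SmoothOfRelativeDimension (W.n + W.n) (pullback.fst G.y₀ G.y₀ ≫ G.y₀).left :=
    v4'
  obtain ⟨c, hc, e4⟩ := T.localization G.y₀ (pullback.fst G.y₀ G.y₀ ≫ G.y₀)
    (pullback.diagonal G.y₀) j hdiag v5 v4 (h2 T V W G) W.n W.n G.smooth hsm 0
    (a - T.pull G.rho w) (by
      rw [zero_add]
      exact Submodule.sub_mem _ ha (T.pull_mem G.rho s5 s2 _ w hw)) (by
      rw [map_sub, hj, sub_self])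
  obtain ⟨κ, rfl⟩ := T.codim_zero _ ⟨_, _, _, G.y₀, v5⟩ hcon c hc
  refine ⟨κ, w, hw, ?_⟩
  rw [map_smul] at e4
  rw [e4]
  abel

end Pool.Agent.Lib.MP_4ca46c_ag.Sign
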