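import Pool.Agent.Lib.MP_4ca46c_ag.Sign.SpecC
import Pool.Agent.Lib.MP_4ca46c_ag.Geo.Hard

/-!
# Translation of the standard conjectures into statements on operators
-/

namespace Pool.Agent.Lib.MP_4ca46c_ag.Sign

open CategoryTheory Limits AlgebraicGeometry TensorProduct MonoidalCategory
  CartesianMonoidalCategory

section Abstract

universe u v

open Geo Geo.WeilCohomology

attribute [local instance] Geo.WeilCohomology.ring Geo.WeilCohomology.algebra
  Geo.WeilCohomology.finite Geo.WeilCohomology.graded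

variable {K : Type} [Field K] [CharZero K] {𝒱 : Type u} [Category.{v} 𝒱]
  [CartesianMonoidalCategory 𝒱] (W : WeilCohomology K 𝒱) {X : 𝒱}

/-- the Künneth summand -/
noncomputable def trans_box (X : 𝒱) (i j : ℕ) : Submodule K (W.H (X ⊗ X)) :=
  Submodule.span K {z | ∃ x ∈ W.gr X i, ∃ y ∈ W.gr X j, z = W.tm x y}

theorem trans_same {i j : ℕ} {u : W.H (X ⊗ X)} (hu : u ∈ trans_box W X i j) :
    W.tens (W.pi X i) (W.pi X j) u = u := by
  induction hu using Submodule.span_induction with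
  | mem z hz =>
    obtain ⟨x, hx, y, hy, rfl⟩ := hz
    rw [tens_tm, W.pi_same hx, W.pi_same hy]
  | zero => rw [map_zero]
  | add a b _ _ ha hb => rw [map_add, ha, hb]
  | smul c a _ ha => rw [map_smul, ha]

theorem trans_ne {i j k l : ℕ} {u : W.H (X ⊗ X)} (hu : u ∈ trans_box W X i j) (h : i ≠ k) :
    W.tens (W.pi X k) (W.pi X l) u = 0 := by
  induction hu using Submodule.span_induction with
  | mem z hz =>
    obtain ⟨x, hx, y, hy, rfl⟩ := hz
    rw [tens_tm, W.pi_ne hx h, tm_zero_left]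
  | zero => rw [map_zero]
  | add a b _ _ ha hb => rw [map_add, ha, hb, add_zero]
  | smul c a _ ha => rw [map_smul, ha, smul_zero]

theorem trans_mem (i j : ℕ) (u : W.H (X ⊗ X)) :
    W.tens (W.pi X i) (W.pi X j) u ∈ trans_box W X i j := by
  refine W.ind_tm (P := fun u => W.tens (W.pi X i) (W.pi X j) u ∈ trans_box W X i j) u ?_
    (fun a b => ?_) (fun u v hu hv => ?_)
  · rw [map_zero]
    exact Submodule.zero_mem _
  · rw [tens_tm]
    exact Submodule.subset_span ⟨_, W.pi_mem i a, _, W.pi_mem j b, rfl⟩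
  · rw [map_add]
    exact Submodule.add_mem _ hu hv

theorem trans_kunneth : W.Kunneth X ↔ ∃ u : ℕ → W.H (X ⊗ X),
    (∀ i ≤ 2 * W.dim X, u i ∈ W.Alg (X ⊗ X) (W.dim X) ∧
      u i ∈ trans_box W X i (2 * W.dim X - i)) ∧
    ∑ i ∈ Finset.range (2 * W.dim X + 1), u i = W.diag X := by
  constructor
  · intro h
    refine ⟨fun i => W.kcomp i (2 * W.dim X - i) (W.diag X), fun i hi => ⟨h i _ (by omega), ?_⟩,
      W.sum_kcomp_diag⟩
    exact trans_mem W _ _ _
  · rintro ⟨u, hu, hsum⟩ i j hij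
    have hj : j = 2 * W.dim X - i := by omega
    subst hj
    rw [kcomp_eq, ← hsum, map_sum, Finset.sum_eq_single i]
    · rw [trans_same W (hu i (by omega)).2]
      exact (hu i (by omega)).1
    · intro k hk hki
      rw [Finset.mem_range] at hk
      exact trans_ne W (hu k (by omega)).2 hki
    · intro h
      exact absurd (Finset.mem_range.mpr (by omega)) h

/-- the sum of the even components -/
noncomputable def trans_E (X : 𝒱) : W.H (X ⊗ X) →ₗ[K] W.H (X ⊗ X) :=
  ∑ i ∈ (Finset.range (2 * W.dim X + 1)).filter Even,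
    W.tens (W.pi X i) (W.pi X (2 * W.dim X - i))

theorem trans_E_even {u : W.H (X ⊗ X)}
    (hu : u ∈ ⨆ (i : ℕ) (_ : i ≤ 2 * W.dim X ∧ Even i), trans_box W X i (2 * W.dim X - i)) :
    trans_E W X u = u := by
  have h : (⨆ (i : ℕ) (_ : i ≤ 2 * W.dim X ∧ Even i), trans_box W X i (2 * W.dim X - i)) ≤
      LinearMap.eqLocus (trans_E W X) LinearMap.id := by
    refine iSup₂_le fun i hi v hv => ?_
    rw [LinearMap.mem_eqLocus, LinearMap.id_apply, trans_E, LinearMap.sum_apply,
      Finset.sum_eq_single i]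
    · exact trans_same W hv
    · intro k _ hk
      exact trans_ne W hv (Ne.symm hk)
    · intro h
      exact absurd (Finset.mem_filter.mpr ⟨Finset.mem_range.mpr (by omega), hi.2⟩) h
  exact h hu

theorem trans_E_odd {u : W.H (X ⊗ X)}
    (hu : u ∈ ⨆ (i : ℕ) (_ : i ≤ 2 * W.dim X ∧ Odd i), trans_box W X i (2 * W.dim X - i)) :
    trans_E W X u = 0 := by
  have h : (⨆ (i : ℕ) (_ : i ≤ 2 * W.dim X ∧ Odd i), trans_box W X i (2 * W.dim X - i)) ≤
      LinearMap.ker (trans_E W X) := by
    refine iSup₂_le fun i hi v hv => ?_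
    rw [LinearMap.mem_ker, trans_E, LinearMap.sum_apply]
    refine Finset.sum_eq_zero fun k hk => trans_ne W hv ?_
    rintro rfl
    exact (Nat.not_even_iff_odd.2 hi.2) (Finset.mem_filter.1 hk).2
  exact h hu

theorem trans_sum_kcomp : ∑ i ∈ (Finset.range (2 * W.dim X + 1)).filter Even,
    W.kcomp i (2 * W.dim X - i) (W.diag X) = trans_E W X (W.diag X) := by
  rw [trans_E, LinearMap.sum_apply]
  rfl

theorem trans_sign : W.Sign X ↔ ∃ u ∈ W.Alg (X ⊗ X) (W.dim X),
    u ∈ ⨆ (i : ℕ) (_ : i ≤ 2 * W.dim X ∧ Even i), trans_box W X i (2 * W.dim X - i) ∧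
    W.diag X - u ∈ ⨆ (i : ℕ) (_ : i ≤ 2 * W.dim X ∧ Odd i),
      trans_box W X i (2 * W.dim X - i) := by
  rw [Sign, trans_sum_kcomp]
  constructor
  · intro h
    refine ⟨_, h, ?_, ?_⟩
    · rw [trans_E, LinearMap.sum_apply]
      refine Submodule.sum_mem _ fun i hi => ?_
      rw [Finset.mem_filter, Finset.mem_range] at hi
      exact Submodule.mem_iSup_of_mem i (Submodule.mem_iSup_of_mem ⟨by omega, hi.2⟩
        (trans_mem W _ _ _))
    · have h1 : W.diag X - trans_E W X (W.diag X) =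
          ∑ i ∈ (Finset.range (2 * W.dim X + 1)).filter (fun i => ¬ Even i),
            W.tens (W.pi X i) (W.pi X (2 * W.dim X - i)) (W.diag X) := by
        rw [sub_eq_iff_eq_add, ← trans_sum_kcomp, add_comm]
        conv_lhs => rw [← W.sum_kcomp_diag]
        rw [← Finset.sum_filter_add_sum_filter_not _ Even]
        rfl
      rw [h1]
      refine Submodule.sum_mem _ fun i hi => ?_
      rw [Finset.mem_filter, Finset.mem_range, Nat.not_even_iff_odd] at hi
      exact Submodule.mem_iSup_of_mem i (Submodule.mem_iSup_of_mem ⟨by omega, hi.2⟩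
        (trans_mem W _ _ _))
  · rintro ⟨u, hu, h1, h2⟩
    have h3 : trans_E W X (W.diag X) = u := by
      have h4 := trans_E_odd W h2
      rw [map_sub, trans_E_even W h1, sub_eq_zero] at h4
      exact h4
    rwa [h3]

theorem trans_signop : W.Sign X ↔ ∃ u ∈ W.Alg (X ⊗ X) (W.dim X), ∀ i, ∀ v ∈ W.gr X i, ∀ w,
    W.tr (X ⊗ X) (u * W.pull (snd X X) v * W.pull (fst X X) w) =
      if Even i then W.tr X (v * w) else 0 := by
  rw [W.sign_iff, W.mem_cor_zero]
  constructor
  · rintro ⟨u, hu, h⟩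
    refine ⟨u, hu, fun i v hv w => ?_⟩
    rw [← op_spec, ← h]
    split_ifs with hi
    · rw [W.even_even hv hi]
    · rw [W.even_odd hv (Nat.not_even_iff_odd.1 hi), zero_mul, map_zero]
  · rintro ⟨u, hu, h⟩
    refine ⟨u, hu, W.hom_ext fun i v hv => W.ext_tr fun w => ?_⟩
    rw [op_spec, h i v hv w]
    split_ifs with hi
    · rw [W.even_even hv hi]
    · rw [W.even_odd hv (Nat.not_even_iff_odd.1 hi), zero_mul, map_zero]

theorem trans_cor {r : ℤ} {φ : W.H X →ₗ[K] W.H X} : φ ∈ W.Cor X X r ↔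
    ∃ u ∈ W.AlgZ (X ⊗ X) (W.dim X + r), ∀ v w, W.tr X (φ v * w) =
      W.tr (X ⊗ X) (u * W.pull (snd X X) v * W.pull (fst X X) w) := by
  constructor
  · rintro ⟨u, hu, rfl⟩
    exact ⟨u, hu, fun v w => W.op_spec u v w⟩
  · rintro ⟨u, hu, h⟩
    refine ⟨u, hu, LinearMap.ext fun v => W.ext_tr fun w => ?_⟩
    rw [op_spec, h]

theorem trans_pi_iff {i : ℕ} {x : W.H X} : W.pi X i x = x ↔ x ∈ W.gr X i :=
  ⟨fun h => h ▸ W.pi_mem i x, W.pi_same⟩

/-- the projectors with integral indices -/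
noncomputable def trans_proj (X : 𝒱) (i : ℤ) : Module.End K (W.H X) :=
  if 0 ≤ i then W.pi X i.toNat else 0

theorem trans_proj_nat (i : ℕ) : trans_proj W X (i : ℤ) = W.pi X i := by
  rw [trans_proj, if_pos (Int.natCast_nonneg i), Int.toNat_natCast]

theorem trans_sgn : W.Sign X ↔ (sgn (W.dim X) (trans_proj W X) : Module.End K (W.H X)) ∈
    W.Cor X X 0 := by
  have h1 : (sgn (W.dim X) (trans_proj W X) : Module.End K (W.H X)) =
      (2 : K) • W.even X - LinearMap.id := by
    refine W.hom_ext fun i x hx => ?_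
    rw [LinearMap.sub_apply, LinearMap.smul_apply, LinearMap.id_apply, sgn, LinearMap.sum_apply]
    by_cases hi : 2 * W.dim X < i
    · rw [W.gr_top hx hi]
      simp
    · rw [Finset.sum_eq_single (i : ℤ)]
      · rw [LinearMap.smul_apply, trans_proj_nat, W.pi_same hx]
        rcases Nat.even_or_odd i with h | h
        · rw [W.even_even hx h, if_pos ((Int.even_coe_nat i).mpr h), two_smul, one_smul]
          abel
        · rw [W.even_odd hx h, if_neg (by
            rw [Int.even_coe_nat, Nat.not_even_iff_odd]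
            exact h), smul_zero, neg_one_smul, zero_sub]
      · intro j hj hji
        rw [Finset.mem_Icc] at hj
        rw [LinearMap.smul_apply, trans_proj, if_pos hj.1, W.pi_ne hx (by omega), smul_zero]
      · intro h
        exact absurd (Finset.mem_Icc.mpr ⟨by omega, by omega⟩) h
  rw [h1, W.sign_iff]
  constructor
  · intro h
    have h2 := W.cor_rat h 2
    rw [Rat.cast_ofNat] at h2
    exact AddSubgroup.sub_mem _ h2 (W.cor_id X)
  · intro h
    have h2 := W.cor_rat (AddSubgroup.add_mem _ h (W.cor_id X)) (1 / 2)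
    rw [sub_add_cancel, smul_smul] at h2
    have h3 : (((1 / 2 : ℚ) : K) * 2) = 1 := by
      push_cast
      norm_num
    rwa [h3, one_smul] at h2

theorem trans_lam (n : ℕ) (h : W.H X) (Lam : Module.End K (W.H X)) :
    IsLam n (trans_proj W X) (LinearMap.mulLeft K h) Lam ↔
      ∀ i ≤ n, ∀ x ∈ W.gr X i, h ^ (n - i + 1) * x = 0 → ∀ j ≤ n - i,
        Lam (h ^ j * x) = if j = 0 then 0 else h ^ (j - 1) * x := by
  have hp : ∀ m (x : W.H X), ((LinearMap.mulLeft K h) ^ m) x = h ^ m * x := by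
    intro m x
    rw [LinearMap.pow_mulLeft]
    rfl
  simp only [IsLam, hp, trans_proj_nat, trans_pi_iff]

end Abstract

variable (k₀ : Type) [Field k₀] (K : Type) [Field K] [CharZero K]

theorem tTrans : StTrans k₀ K := by
  intro T V
  have hdiag : (weil T V.k).diag V.var = T.cl V.sq (T.push V.diag 1) := by
    refine (weil T V.k).push_eq _ _ _ fun y => ?_
    have h1 := T.cl_push V.str V.sqStr V.diag (by
      rw [PVar.sqStr, ← Category.assoc, PVar.diag, PVar.p₁, pullback.lift_fst, Category.id_comp])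
      V.n (V.n + V.n) V.isVar (Var.isVar_prod V.isVar V.isVar) 1 y
    rw [map_one (T.cl V.X)] at h1
    exact h1
  have hAlg : ∀ (p : ℕ) (P : T.H V.sq → Prop),
      (∃ a ∈ T.codim V.sq p, P (T.cl V.sq a)) ↔
        ∃ u ∈ (weil T V.k).Alg (V.var ⊗ V.var) p, P u := by
    intro p P
    constructor
    · rintro ⟨a, ha, h⟩
      exact ⟨_, ⟨a, ha, rfl⟩, h⟩
    · rintro ⟨u, ⟨a, ha, rfl⟩, h⟩
      exact ⟨a, ha, h⟩
  have hproj : V.proj = trans_proj (weil T V.k) V.var := rfl
  have hbox : ∀ i j, V.box i j = trans_box (weil T V.k) V.var i j := fun i j => rfl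
  have hS : V.SignConj ↔ (weil T V.k).Sign V.var := by
    rw [trans_sign, hdiag]
    exact hAlg V.n (fun u => u ∈ ⨆ (i : ℕ) (_ : i ≤ 2 * V.n ∧ Even i), V.box i (2 * V.n - i) ∧
      T.cl V.sq (T.push V.diag 1) - u ∈
      ⨆ (i : ℕ) (_ : i ≤ 2 * V.n ∧ Odd i), V.box i (2 * V.n - i))
  have hcor : ∀ r φ, V.Algebraic r φ ↔ φ ∈ V.opA r := by
    intro r φ
    refine Iff.trans ?_ (trans_cor (weil T V.k)).symm
    unfold PVar.Algebraic ChowTheory.codimZ Geo.WeilCohomology.AlgZ
    have hn : (weil T V.k).dim V.var = V.n := rfl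
    rw [hn]
    split_ifs with h
    · exact hAlg _ (fun u => ∀ v w, T.tr V.X (φ v * w) =
        T.tr V.sq (u * T.pullH V.p₂ v * T.pullH V.p₁ w))
    · constructor
      · rintro ⟨a, ha, h⟩
        rw [Submodule.mem_bot] at ha
        subst ha
        refine ⟨0, AddSubgroup.zero_mem _, ?_⟩
        rw [map_zero] at h
        exact h
      · rintro ⟨a, ha, h⟩
        rw [AddSubgroup.mem_bot] at ha
        subst ha
        refine ⟨0, Submodule.zero_mem _, ?_⟩
        rw [map_zero (T.cl V.sq)]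
        exact h
  refine ⟨hcor, ?_, ?_, ?_, ?_⟩
  · have h1 : V.KunnethConj ↔ (weil T V.k).Kunneth V.var := by
      rw [trans_kunneth, hdiag]
      constructor
      · rintro ⟨a, ha, hs⟩
        exact ⟨fun i => T.cl V.sq (a i), fun i hi => ⟨⟨a i, (ha i hi).1, rfl⟩, (ha i hi).2⟩, hs⟩
      · rintro ⟨u, hu, hs⟩
        have h2 : ∀ i, ∃ a, i ≤ 2 * V.n → a ∈ T.codim V.sq V.n ∧ T.cl V.sq a = u i := by
          intro i
          by_cases hi : i ≤ 2 * V.n
          · obtain ⟨a, ha, hau⟩ := (hu i hi).1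
            exact ⟨a, fun _ => ⟨ha, hau⟩⟩
          · exact ⟨0, fun h => absurd h hi⟩
        choose a ha using h2
        refine ⟨a, fun i hi => ⟨(ha i hi).1, ?_⟩, ?_⟩
        · rw [(ha i hi).2]
          exact (hu i hi).2
        · rw [← hs]
          refine Finset.sum_congr rfl fun i hi => ?_
          rw [Finset.mem_range] at hi
          exact (ha i (Nat.lt_succ_iff.mp hi)).2
    rw [h1, Geo.WeilCohomology.kunneth_iff]
    constructor
    · intro h i
      rw [hproj, trans_proj]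
      split_ifs with hi
      · exact h _
      · exact AddSubgroup.zero_mem _
    · intro h i
      have h2 := h (i : ℤ)
      rw [hproj, trans_proj_nat] at h2
      exact h2
  · rw [hS, trans_sgn]
    rfl
  · rw [hS, trans_signop]
    exact (hAlg V.n _).symm
  · constructor
    · rintro ⟨Λ, hΛ, hA⟩
      exact ⟨Λ, (hcor _ _).mp hA, (trans_lam (weil T V.k) V.n _ _).mpr hΛ⟩
    · rintro ⟨Lam, hL, h⟩
      exact ⟨Lam, (trans_lam (weil T V.k) V.n _ _).mp h, (hcor _ _).mpr hL⟩

end Pool.Agent.Lib.MP_4ca46c_ag.Sign
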