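import Pool.Agent.Lib.MP_4ca46c_ag.Geo.Box
import Pool.Agent.Lib.MP_4ca46c_ag.Sign.SmS
import Pool.Agent.Lib.MP_4ca46c_ag.Sign.Compl
import Pool.Agent.Lib.MP_4ca46c_ag.Sign.Generic
import Pool.Agent.Lib.MP_4ca46c_ag.Sign.Step0
import Pool.Agent.Lib.MP_4ca46c_ag.Sign.Average
import Pool.Agent.Lib.MP_4ca46c_ag.Sign.Key
import Pool.Agent.Lib.MP_4ca46c_ag.Sign.Trans

/-!
# The sign conjecture implies the conjectures of Künneth and Lefschetz type: assembly
-/

namespace Pool.Agent.Lib.MP_4ca46c_ag.Sign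

open CategoryTheory Limits AlgebraicGeometry TensorProduct MonoidalCategory
  CartesianMonoidalCategory

variable (k₀ K : Type) [Field k₀] [Field K] [CharZero K]

variable {k₀ K} in
/-- the class of `h` -/
def local_h {T : WeilTheory k₀ K} (V : PVar T) : (weil T V.k).H V.var := T.cl V.X V.h

variable {k₀ K} in
/-- hard Lefschetz for `V` in the category of varieties -/
theorem local_hard {T : WeilTheory k₀ K} (V : PVar T) (i j : ℕ) (hij : i + j = V.n) :
    Set.BijOn (fun x => local_h V ^ j * x)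
      ((weil T V.k).gr V.var i) ((weil T V.k).gr V.var (i + 2 * j)) := by
  obtain rfl : i = V.n - j := by omega
  have e : V.n - j + 2 * j = V.n + j := by omega
  have hh : ∀ k : ℕ, T.cl V.X V.h ^ k ∈ T.deg V.X (2 * k) := by
    intro k
    induction k with
    | zero => rw [pow_zero, mul_zero]; exact T.oneH_mem _ V.isVar.isWeil
    | succ k ih =>
      rw [pow_succ]
      exact T.mulH_mem _ V.isVar.isWeil _ _ _ ih _ (T.cl_mem _ V.isVar.isWeil 1 _ V.h_mem)
  refine ⟨fun x hx => ?_, fun x hx y hy hxy => ?_, fun y hy => ?_⟩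
  · have h1 := T.mulH_mem _ V.isVar.isWeil _ _ _ (hh j) _ hx
    have e2 : 2 * j + (V.n - j) = V.n - j + 2 * j := by omega
    rw [e2] at h1
    exact h1
  · have h0 : local_h V ^ j * (x - y) = 0 := by
      rw [mul_sub]
      exact sub_eq_zero.2 hxy
    have h1 := V.lefschetz_injective j (by omega) (x - y) (Submodule.sub_mem _ hx hy) h0
    exact sub_eq_zero.1 h1
  · rw [e] at hy
    obtain ⟨u, hu, huy⟩ := V.lefschetz_surjective j (by omega) y hy
    exact ⟨u, hu, huy⟩

variable {k₀ K} in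
theorem local_alg {T : WeilTheory k₀ K} (V : PVar T) :
    local_h V ∈ (weil T V.k).Alg V.var 1 := ⟨V.h, V.h_mem, rfl⟩

variable {k₀ K} in
/-- translation of the conclusions -/
theorem local_trans {T : WeilTheory k₀ K} (V : PVar T)
    (h : (weil T V.k).Kunneth V.var ∧
      (weil T V.k).Lefschetz V.var (local_h V)) :
    V.KunnethConj ∧ V.LefschetzConj := by
  obtain ⟨-, hK, -, -, hL⟩ := tTrans k₀ K T V
  refine ⟨hK.2 fun i => ?_, hL.2 ?_⟩
  · rw [PVar.proj, PVar.opA]
    split_ifs
    · exact (Geo.WeilCohomology.kunneth_iff _).1 h.1 _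
    · exact AddSubgroup.zero_mem _
  · exact Geo.exists_lambda (local_alg V) (local_hard V) h.1 h.2

/-- The local theorem. -/
theorem tLocal : StLocal k₀ K := by
  intro T V W G hW
  obtain ⟨-, -, -, hSW, -⟩ := tTrans k₀ K T W
  have hSm : StSm k₀ K := tSmS k₀ K
  have hKey : StKey k₀ K := tKey hSm (tStep0 k₀ K hSm (tCompl k₀ K) (tGeneric k₀ K))
    (tAverage k₀ K hSm)
  obtain ⟨w, hw, hrel⟩ := hKey T V W G (hSW.1 hW)
  refine local_trans V (Geo.conj_of_relation (W := weil T V.k) (X := V.var) (local_alg V)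
    (local_hard V) (H := T.pullH V.p₁ (T.cl V.X V.h) + T.pullH V.p₂ (T.cl V.X V.h)) ?_
    (N := W.n) ?_ (w := T.cl _ w) ⟨w, hw, rfl⟩ hrel)
  · have h1 : ∀ a b : (weil T V.k).H V.var, (weil T V.k).tm a b =
        T.pullH V.p₁ a * T.pullH V.p₂ b := fun a b => rfl
    rw [h1, h1]
    erw [map_one, map_one, mul_one, one_mul]
    rfl
  · have h := G.dim
    change W.n + 1 = V.n + V.n
    omega

/-- Lefschetz implies Künneth implies sign, and dimension zero. -/
theorem tEasy' : StEasy k₀ K := by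
  intro T V
  obtain ⟨-, hK, hS, -, hL⟩ := tTrans k₀ K T V
  refine ⟨fun h => ?_, fun h => ?_, fun hn => ?_⟩
  · obtain ⟨Lam, hLam, hIs⟩ := hL.1 h
    have h1 := Geo.kunneth_of_lambda (W := weil T V.k) (X := V.var) (local_alg V) (local_hard V)
      hLam hIs
    refine hK.2 fun i => ?_
    rw [PVar.proj, PVar.opA]
    split_ifs
    · exact (Geo.WeilCohomology.kunneth_iff _).1 h1 _
    · exact AddSubgroup.zero_mem _
  · have hp := hK.1 h
    refine hS.2 ?_
    rw [sgn]
    refine AddSubgroup.sum_mem _ fun i _ => ?_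
    split_ifs
    · rw [one_smul]
      exact hp i
    · rw [show (-1 : K) • V.proj i = -V.proj i from neg_one_smul K (V.proj i)]
      exact AddSubgroup.neg_mem _ (hp i)
  · exact local_trans V (Geo.kunneth_lefschetz_zero (W := weil T V.k) (X := V.var) hn _)

end Pool.Agent.Lib.MP_4ca46c_ag.Sign
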