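import Pool.Agent.Lib.MP_4ca46c_ag.Sign.SpecA

/-!
# Conjecture B over `K`: the inverse of `L^(n-d)`
-/

namespace Pool.Agent.Lib.MP_4ca46c_ag.Sign

open Module TensorProduct LinearMap

section

variable {K V : Type} [Field K] [AddCommGroup V] [Module K V]

/-- The space `pr_d (G.R 0) pr_d`. -/
def i_E (G : GrAlg K V) (d : ℤ) : Submodule K (Module.End K V) where
  carrier := {f | f ∈ G.R 0 ∧ G.pr d * f * G.pr d = f}
  add_mem' := by
    rintro a b ⟨ha, ha'⟩ ⟨hb, hb'⟩
    exact ⟨(G.R 0).add_mem ha hb, by rw [mul_add, add_mul, ha', hb']⟩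
  zero_mem' := ⟨(G.R 0).zero_mem, by rw [mul_zero, zero_mul]⟩
  smul_mem' := by
    rintro c a ⟨ha, ha'⟩
    exact ⟨(G.R 0).smul_mem c ha, by rw [mul_smul_comm, smul_mul_assoc, ha']⟩

/-- The space of the `pr_d g L^j pr_d + ν`. -/
def i_S (G : GrAlg K V) (d : ℤ) (L : Module.End K V) (j : ℕ) : Submodule K (i_E G d) where
  carrier := {s | ∃ g ∈ G.R (-(j : ℤ)), ∃ ν ∈ G.N 0,
    (s : Module.End K V) = G.pr d * g * L ^ j * G.pr d + ν}
  add_mem' := by
    rintro a b ⟨g, hg, ν, hν, h⟩ ⟨g', hg', ν', hν', h'⟩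
    refine ⟨g + g', (G.R _).add_mem hg hg', ν + ν', (G.N 0).add_mem hν hν', ?_⟩
    rw [Submodule.coe_add, h, h']
    noncomm_ring
  zero_mem' := ⟨0, (G.R _).zero_mem, 0, (G.N 0).zero_mem, by
    rw [Submodule.coe_zero, mul_zero, zero_mul, zero_mul, zero_add]⟩
  smul_mem' := by
    rintro c a ⟨g, hg, ν, hν, h⟩
    refine ⟨c • g, (G.R _).smul_mem c hg, c • ν, (G.N 0).smul_mem c hν, ?_⟩
    rw [Submodule.coe_smul, h, smul_add, mul_smul_comm, smul_mul_assoc, smul_mul_assoc]

/-- The trace form. -/
noncomputable def i_B (E : Submodule K (Module.End K V)) : E →ₗ[K] E →ₗ[K] K :=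
  ((LinearMap.mul K (Module.End K V)).compr₂ (LinearMap.trace K V)).domRestrict₁₂ E E

theorem i_B_apply (E : Submodule K (Module.End K V)) (x y : E) :
    i_B E x y = LinearMap.trace K V ((x : Module.End K V) * y) := rfl

end

theorem tI : StI := by
  intro K V _ _ _ _ _ G n L hlef hL hpr hE d hd
  set j := n - d with hj
  set P := G.pr (d : ℤ) with hP
  have hPP : P * P = P := G.pr_idem d
  have hLj : L ^ j ∈ G.R (j : ℤ) := by
    have := G.pow_mem' hL j
    rwa [mul_one] at this
  have hmemE : P ∈ i_E G d := ⟨hpr d, by rw [← hP, hPP, hPP]⟩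
  by_cases hS : (⟨P, hmemE⟩ : i_E G d) ∈ i_S G d L j
  · obtain ⟨g, hg, ν, hν, h⟩ := hS
    have h' : P = P * g * L ^ j * P + ν := h
    have hν1 : ν = P - P * g * L ^ j * P := by rw [eq_sub_iff_add_eq, add_comm]; exact h'.symm
    have hνP : ν * P = ν := by
      rw [hν1, sub_mul, hPP, mul_assoc, hPP]
    obtain ⟨M, hM⟩ := GrAlg.N_nilpotent hν
    refine ⟨(∑ k ∈ Finset.range M, ν ^ k) * (P * g), ?_, ?_⟩
    · refine G.mul_mem' (r := 0) ?_ (G.mul_mem' (r := 0) (hpr d) hg (zero_add _)) (zero_add _)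
      exact (G.R 0).sum_mem fun k _ => G.pow_mem hν.1 k
    · have e1 : (∑ k ∈ Finset.range M, ν ^ k) * (P * g) * L ^ j * P =
          (∑ k ∈ Finset.range M, ν ^ k) * (P * g * L ^ j * P) := by
        noncomm_ring
      have e2 : P * g * L ^ j * P = (1 - ν) * P := by
        rw [sub_mul, one_mul, hνP, hν1, sub_sub_cancel]
      rw [e1, e2, ← mul_assoc, geom_sum_mul_neg, hM, sub_zero, one_mul]
  · exfalso
    obtain ⟨e, he, he'⟩ := exists_orthogonal (i_B (i_E G d)) (fun x y => by
      rw [i_B_apply, i_B_apply, LinearMap.trace_mul_comm]) (i_S G d L j) (fun x hx => by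
      refine ⟨0, (G.R _).zero_mem, x, ⟨x.2.1, fun g hg => ?_⟩, by
        rw [mul_zero, zero_mul, zero_mul, zero_add]⟩
      rw [neg_zero] at hg
      have h1 : P * g * P ∈ i_E G d := by
        refine ⟨G.mul_mem' (r := 0) (G.mul_mem' (r := 0) (hpr d) hg (by ring)) (hpr d) (by ring), ?_⟩
        rw [← hP]
        calc P * (P * g * P) * P = (P * P) * g * (P * P) := by noncomm_ring
          _ = P * g * P := by rw [hPP]
      have h2 := hx ⟨_, h1⟩
      rw [i_B_apply, LinearMap.trace_mul_comm] at h2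
      have h3 : P * (x : Module.End K V) * P = x := x.2.2
      calc LinearMap.trace K V (g * (x : Module.End K V)) =
          LinearMap.trace K V (g * P * x * P) := by
            conv_lhs => rw [← h3]
            congr 1
        _ = LinearMap.trace K V (P * (g * P * x)) := LinearMap.trace_mul_comm K _ _
        _ = LinearMap.trace K V (P * g * P * x) := by
            congr 1
        _ = 0 := h2) hS
    -- the contradiction
    have h3 : P * (e : Module.End K V) * P = e := e.2.2
    have hej : L ^ j * (e : Module.End K V) ∈ G.N j := by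
      refine ⟨G.mul_mem' hLj e.2.1 (by ring), fun g hg => ?_⟩
      have h1 : P * g * L ^ j * P ∈ i_E G d := by
        refine ⟨G.mul_mem' (r := 0) (G.mul_mem' (G.mul_mem' (r := 0) (hpr d) hg rfl) hLj
          (by ring)) (hpr d) (by ring), ?_⟩
        rw [← hP]
        calc P * (P * g * L ^ j * P) * P = (P * P) * g * L ^ j * (P * P) := by noncomm_ring
          _ = P * g * L ^ j * P := by rw [hPP]
      have h2 := he ⟨_, h1⟩ ⟨g, hg, 0, (G.N 0).zero_mem, by rw [add_zero]⟩
      rw [i_B_apply] at h2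
      calc LinearMap.trace K V (g * (L ^ j * (e : Module.End K V))) =
          LinearMap.trace K V (g * L ^ j * P * e * P) := by
            conv_lhs => rw [← h3]
            congr 1
        _ = LinearMap.trace K V (P * (g * L ^ j * P * e)) := LinearMap.trace_mul_comm K _ _
        _ = LinearMap.trace K V (P * g * L ^ j * P * e) := by
            congr 1
        _ = 0 := h2
    have hdown : ∀ r : ℕ, r ≤ j → L ^ (j - r) * (e : Module.End K V) ∈ G.N ((j - r : ℕ) : ℤ) := by
      intro r
      induction r with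
      | zero => intro _; exact hej
      | succ r ih =>
        intro hr
        have h4 := ih (by omega)
        have h5 : j - r = (j - (r + 1)) + 1 := by omega
        rw [h5] at h4
        push_cast at h4
        exact hE d (j - (r + 1)) (by omega) e e.2.1 h3 h4
    have h6 := hdown j le_rfl
    rw [Nat.sub_self, pow_zero, one_mul, Nat.cast_zero] at h6
    apply he'
    rw [i_B_apply]
    exact GrAlg.N_trace h6 (hpr d) (by ring)

end Pool.Agent.Lib.MP_4ca46c_ag.Sign
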