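import Mathlib
import Pool.Agent.Lib.MP_4ca46c_ag.Sign.SpecA

/-!
# The projectors from inverses of the powers of the Lefschetz operator
-/

namespace Pool.Agent.Lib.MP_4ca46c_ag.Sign

open Module TensorProduct LinearMap

section ind

variable {K V : Type} [Field K] [AddCommGroup V] [Module K V] {n : ℕ} {pr : ℤ → Module.End K V}
  {L : Module.End K V} {A : ℤ → AddSubgroup (Module.End K V)}

theorem ind_pow_comm (h : LefMod n pr L) (j : ℕ) (k : ℤ) :
    L ^ j * pr k = pr (k + 2 * j) * L ^ j := by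
  induction j with
  | zero => simp
  | succ j ih =>
    rw [pow_succ', mul_assoc, ih, ← mul_assoc, h.comm, mul_assoc]
    congr 2
    push_cast
    ring

theorem ind_pow_mem (hA : RatAlg pr A) (hL : L ∈ A 1) (j : ℕ) : L ^ j ∈ A j := by
  induction j with
  | zero =>
    rw [pow_zero]
    exact hA.one
  | succ j ih =>
    rw [pow_succ]
    have := hA.mul _ _ _ ih _ hL
    push_cast
    exact this

/-- Multiplication by `1 - ∑ pr (f l)` from the left. -/
theorem ind_left (h : LefMod n pr L) (i : ℕ) (f : ℕ → ℤ) (hf : Function.Injective f) (k : ℤ) :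
    (1 - ∑ l ∈ Finset.range i, pr (f l)) * pr k = if ∃ l < i, f l = k then 0 else pr k := by
  rw [sub_mul, one_mul, Finset.sum_mul]
  split_ifs with hk
  · obtain ⟨l, hl, rfl⟩ := hk
    rw [Finset.sum_eq_single l]
    · rw [h.pr_mul, if_pos rfl, sub_self]
    · intro l' _ hl'
      rw [h.pr_mul, if_neg (fun e => hl' (hf e))]
    · intro hl'
      exact absurd (Finset.mem_range.2 hl) hl'
  · rw [Finset.sum_eq_zero, sub_zero]
    intro l hl
    rw [h.pr_mul, if_neg]
    exact fun e => hk ⟨l, Finset.mem_range.1 hl, e⟩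

theorem ind_decomp (h : LefMod n pr L) (f : Module.End K V) :
    f = ∑ i ∈ Finset.Icc (0 : ℤ) (2 * n), f * pr i := by
  rw [← Finset.mul_sum, h.sum, mul_one]

/-- The key identity `Q L^j P = L^j pr_i`. -/
theorem ind_QLP (h : LefMod n pr L) (i : ℕ) (hi : i < n) :
    (1 - ∑ l ∈ Finset.range i, pr (2 * (n : ℤ) - l)) * L ^ (n - i) *
      (1 - ∑ l ∈ Finset.range i, pr (l : ℤ)) = L ^ (n - i) * pr i := by
  have hinj1 : Function.Injective (fun l : ℕ => (l : ℤ)) := Nat.cast_injective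
  have hinj2 : Function.Injective (fun l : ℕ => 2 * (n : ℤ) - l) := by
    intro a b hab
    simp only at hab
    omega
  have hj : ((n - i : ℕ) : ℤ) = (n : ℤ) - i := by omega
  rw [ind_decomp h ((1 - ∑ l ∈ Finset.range i, pr (2 * (n : ℤ) - l)) * L ^ (n - i) *
      (1 - ∑ l ∈ Finset.range i, pr (l : ℤ))), Finset.sum_eq_single (i : ℤ)]
  · rw [mul_assoc, ind_left h i _ hinj1, if_neg (by rintro ⟨l, hl, e⟩; omega), mul_assoc,
      ind_pow_comm h, ← mul_assoc, ind_left h i _ hinj2, if_neg]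
    rintro ⟨l, hl, e⟩
    omega
  · intro l hl hli
    rw [Finset.mem_Icc] at hl
    rw [mul_assoc, ind_left h i _ hinj1]
    split_ifs with h1
    · rw [mul_zero]
    · rw [mul_assoc, ind_pow_comm h, ← mul_assoc, ind_left h i _ hinj2]
      split_ifs with h2
      · rw [zero_mul]
      · have h3 : (i : ℤ) < l := by
          by_contra hcon
          apply h1
          refine ⟨l.toNat, ?_, ?_⟩
          · omega
          · omega
        have h4 : 2 * (n : ℤ) < l + 2 * ((n - i : ℕ) : ℤ) := by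
          by_contra hcon
          apply h2
          refine ⟨(2 * (n : ℤ) - (l + 2 * ((n - i : ℕ) : ℤ))).toNat, ?_, ?_⟩
          · omega
          · omega
        rw [h.out _ (Or.inr h4), zero_mul]
  · intro hni
    exact absurd (Finset.mem_Icc.2 ⟨by omega, by omega⟩) hni

theorem ind_main (h : LefMod n pr L) (hA : RatAlg pr A) (hL : L ∈ A 1) (i : ℕ) (hi : i < n)
    (θ : Module.End K V) (hθ : θ ∈ A (-((n - i : ℕ) : ℤ))) (hθL : θ * L ^ (n - i) * pr i = pr i)
    (hprev : ∀ l < i, pr (l : ℤ) ∈ A 0 ∧ pr (2 * (n : ℤ) - l) ∈ A 0) :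
    pr (i : ℤ) ∈ A 0 ∧ pr (2 * (n : ℤ) - i) ∈ A 0 := by
  have hP : (1 - ∑ l ∈ Finset.range i, pr (l : ℤ)) ∈ A 0 :=
    (A 0).sub_mem hA.one ((A 0).sum_mem fun l hl => (hprev l (Finset.mem_range.1 hl)).1)
  have hQ : (1 - ∑ l ∈ Finset.range i, pr (2 * (n : ℤ) - l)) ∈ A 0 :=
    (A 0).sub_mem hA.one ((A 0).sum_mem fun l hl => (hprev l (Finset.mem_range.1 hl)).2)
  have hLj := ind_pow_mem hA hL (n - i)
  have h1 : pr (i : ℤ) ∈ A 0 := by
    have h2 := hA.mul _ _ _ hθ _ (hA.mul _ _ _ (hA.mul _ _ _ hQ _ hLj) _ hP)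
    rw [ind_QLP h i hi, ← mul_assoc, hθL] at h2
    have h3 : (-((n - i : ℕ) : ℤ)) + (0 + ((n - i : ℕ) : ℤ) + 0) = 0 := by ring
    rwa [h3] at h2
  refine ⟨h1, ?_⟩
  have h4 : pr (2 * (n : ℤ) - i) = L ^ (n - i) * pr i * θ := by
    have h5 : pr (i : ℤ) * θ = θ * pr (2 * (n : ℤ) - i) := by
      rw [hA.comm _ θ hθ]
      congr 2
      omega
    rw [mul_assoc, h5]
    ext v
    simp only [Module.End.mul_apply]
    have h6 : pr ((n : ℤ) + ((n - i : ℕ) : ℤ)) (pr (2 * (n : ℤ) - i) v) =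
        pr (2 * (n : ℤ) - i) v := by
      have h7 : (n : ℤ) + ((n - i : ℕ) : ℤ) = 2 * (n : ℤ) - i := by omega
      rw [h7, ← Module.End.mul_apply, h.pr_mul, if_pos rfl]
    obtain ⟨x, hx, hxy⟩ := h.surj (n - i) (Nat.sub_le _ _) _ h6
    have h8 : (n : ℤ) - ((n - i : ℕ) : ℤ) = i := by omega
    rw [h8] at hx
    have h9 : θ ((L ^ (n - i)) x) = x := by
      have := congrArg (fun f : Module.End K V => f x) hθL
      simp only [Module.End.mul_apply, hx] at this
      exact this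
    rw [← hxy, h9]
  rw [h4]
  have h10 := hA.mul _ _ _ (hA.mul _ _ _ hLj _ h1) _ hθ
  have h11 : ((n - i : ℕ) : ℤ) + 0 + (-((n - i : ℕ) : ℤ)) = 0 := by ring
  rwa [h11] at h10

end ind

/-- StInd -/
theorem tInd : StInd := by
  intro K V _ _ _ _ _ n pr L A h hA hL hθ
  have hlow : ∀ i : ℕ, i < n → pr (i : ℤ) ∈ A 0 ∧ pr (2 * (n : ℤ) - i) ∈ A 0 := by
    intro i
    induction i using Nat.strong_induction_on with
    | _ i ih =>
      intro hi
      obtain ⟨θ, h1, h2⟩ := hθ i hi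
      exact ind_main h hA hL i hi θ h1 h2 fun l hl => ih l hl (by omega)
  have hne : ∀ i : ℤ, i ≠ n → pr i ∈ A 0 := by
    intro i hi
    by_cases h1 : i < 0 ∨ 2 * (n : ℤ) < i
    · rw [h.out i h1]
      exact (A 0).zero_mem
    · rcases lt_or_gt_of_ne hi with h2 | h2
      · have h3 := (hlow i.toNat (by omega)).1
        have h4 : ((i.toNat : ℕ) : ℤ) = i := by omega
        rwa [h4] at h3
      · have h3 := (hlow (2 * (n : ℤ) - i).toNat (by omega)).2
        have h4 : 2 * (n : ℤ) - (((2 * (n : ℤ) - i).toNat : ℕ) : ℤ) = i := by omega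
        rwa [h4] at h3
  intro i
  by_cases hi : i = n
  · subst hi
    have h1 : pr (n : ℤ) = 1 - ∑ l ∈ (Finset.Icc (0 : ℤ) (2 * n)).erase n, pr l := by
      rw [← h.sum, ← Finset.add_sum_erase _ _ (Finset.mem_Icc.2
        ⟨by omega, by omega⟩ : (n : ℤ) ∈ Finset.Icc (0 : ℤ) (2 * n))]
      abel
    rw [h1]
    exact (A 0).sub_mem hA.one ((A 0).sum_mem fun l hl => hne l (Finset.ne_of_mem_erase hl))
  · exact hne i hi

end Pool.Agent.Lib.MP_4ca46c_ag.Sign
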