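import Mathlib
import Pool.Agent.Lib.MP_4ca46c_ag.Sign.SpecA

/-!
# Conjecture C over the coefficient field, the ideals
-/

namespace Pool.Agent.Lib.MP_4ca46c_ag.Sign

open Module TensorProduct LinearMap

section

variable {K V : Type} [Field K] [AddCommGroup V] [Module K V] (G : GrAlg K V)

/-- The ideal of the operators which have trace zero (together with their multiples) outside
degree `i`. -/
def k1_p (i : ℤ) : Submodule K (Module.End K V) where
  carrier := {x | x ∈ G.R 0 ∧ ∀ j, j ≠ i → ∀ a ∈ G.R 0,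
    LinearMap.trace K V (x * a * G.pr j) = 0}
  add_mem' := by
    rintro x y ⟨hx, hx'⟩ ⟨hy, hy'⟩
    refine ⟨(G.R 0).add_mem hx hy, fun j hj a ha => ?_⟩
    rw [add_mul, add_mul, map_add, hx' j hj a ha, hy' j hj a ha, add_zero]
  zero_mem' := ⟨(G.R 0).zero_mem, fun j hj a ha => by rw [zero_mul, zero_mul, map_zero]⟩
  smul_mem' := by
    rintro c x ⟨hx, hx'⟩
    refine ⟨(G.R 0).smul_mem c hx, fun j hj a ha => ?_⟩
    rw [smul_mul_assoc, smul_mul_assoc, map_smul, hx' j hj a ha, smul_zero]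

variable {G}

theorem k1_mem_p {i : ℤ} {x : Module.End K V} : x ∈ k1_p G i ↔ x ∈ G.R 0 ∧
    ∀ j, j ≠ i → ∀ a ∈ G.R 0, LinearMap.trace K V (x * a * G.pr j) = 0 := Iff.rfl

theorem k1_p_left {i : ℤ} {x a : Module.End K V} (hx : x ∈ k1_p G i) (ha : a ∈ G.R 0) :
    a * x ∈ k1_p G i := by
  refine ⟨G.mul_mem' ha hx.1 (by ring), fun j hj c hc => ?_⟩
  have h1 : a * x * c * G.pr j = a * (x * c * G.pr j) := by simp only [mul_assoc]
  rw [h1, LinearMap.trace_mul_comm]
  have h2 : x * c * G.pr j * a = x * (c * a) * G.pr j := by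
    rw [mul_assoc (x * c), ← G.comm0 ha]
    simp only [mul_assoc]
  rw [h2]
  exact hx.2 j hj _ (G.mul_mem' hc ha (by ring))

theorem k1_N_le [CharZero K] [FiniteDimensional K V] (i : ℤ) : G.N 0 ≤ k1_p G i := by
  intro x hx
  refine ⟨hx.1, fun j _ a ha => ?_⟩
  rw [LinearMap.trace_mul_comm]
  exact GrAlg.N_trace_pr (GrAlg.N_right hx ha (by ring)) j

theorem k1_pow {n : ℕ} {L : Module.End K V} (hL : LefMod n G.pr L) (h1 : L ∈ G.R 1) :
    L ^ (n + 1) = 0 := by
  have h2 : L ^ (n + 1) ∈ G.R ((n + 1 : ℕ) * 1) := G.pow_mem' h1 (n + 1)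
  have h3 : L ^ (n + 1) = ∑ i ∈ Finset.Icc (0 : ℤ) (2 * n), L ^ (n + 1) * G.pr i := by
    rw [← Finset.mul_sum, hL.sum, mul_one]
  rw [h3]
  refine Finset.sum_eq_zero fun i hi => ?_
  rw [G.comm _ _ h2, hL.out, zero_mul]
  right
  rw [Finset.mem_Icc] at hi
  push_cast
  omega

theorem k1_nilpotent [CharZero K] [FiniteDimensional K V] {y : Module.End K V}
    (h : IsNilpotent (y ^ 3)) : LinearMap.trace K V y = 0 := by
  have h1 : IsNilpotent y := by
    obtain ⟨m, hm⟩ := h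
    exact ⟨3 * m, by rw [pow_mul, hm]⟩
  exact (LinearMap.isNilpotent_trace_of_isNilpotent h1).eq_zero

end

theorem tK1 : StK1 := by
  intro K V _ _ _ _ _ G n L hL hL1 hQ
  classical
  set S : Submodule K (Module.End K V) := ⨆ i ∈ Finset.Icc (0 : ℤ) (2 * n), k1_p G i with hS
  have hpS : ∀ i ∈ Finset.Icc (0 : ℤ) (2 * n), k1_p G i ≤ S := by
    intro i hi
    exact le_iSup₂_of_le i hi le_rfl
  have h0 : (0 : ℤ) ∈ Finset.Icc (0 : ℤ) (2 * n) := by
    rw [Finset.mem_Icc]; constructor <;> omega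
  have hSR : S ≤ G.R 0 := iSup₂_le fun i _ x hx => hx.1
  have hNS : G.N 0 ≤ S := (k1_N_le 0).trans (hpS 0 h0)
  -- `S` is a left ideal
  have hleft : ∀ a ∈ G.R 0, ∀ l ∈ S, a * l ∈ S := by
    intro a ha l hl
    have h1 : S ≤ S.comap (LinearMap.mulLeft K a) := by
      refine iSup₂_le fun i hi x hx => ?_
      exact hpS i hi (k1_p_left hx ha)
    exact h1 hl
  suffices h1S : (1 : Module.End K V) ∈ S by
    rw [hS, Submodule.mem_iSup_finset_iff_exists_sum] at h1S
    obtain ⟨μ, hμ⟩ := h1S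
    exact ⟨fun i => (μ i : Module.End K V), fun i => (μ i).2.1,
      fun i j hj a ha => (μ i).2.2 j hj a ha, hμ⟩
  by_contra h1S
  -- the orthogonal element
  let B : G.R 0 →ₗ[K] G.R 0 →ₗ[K] K :=
    (((LinearMap.mul K (Module.End K V)).compr₂ (LinearMap.trace K V)).domRestrict₁₂
      (G.R 0) (G.R 0))
  have hB : ∀ x y : G.R 0, B x y = LinearMap.trace K V ((x : Module.End K V) * y) :=
    fun x y => rfl
  obtain ⟨e, he, he1⟩ := exists_orthogonal B (fun x y => by
      rw [hB, hB, LinearMap.trace_mul_comm]) (S.comap (G.R 0).subtype)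
    (by
      intro x hx
      refine hNS ⟨x.2, fun g hg => ?_⟩
      rw [neg_zero] at hg
      have := hx ⟨g, hg⟩
      rw [hB] at this
      rw [LinearMap.trace_mul_comm]
      exact this) (x := ⟨1, G.one_mem⟩) h1S
  obtain ⟨e, heR⟩ := e
  rw [hB] at he1
  change LinearMap.trace K V (1 * e) ≠ 0 at he1
  have he' : ∀ l ∈ S, LinearMap.trace K V (l * e) = 0 := fun l hl => he ⟨l, hSR hl⟩ hl
  have hN : ∀ l ∈ S, l * e ∈ G.N 0 := by
    intro l hl
    refine ⟨G.mul_mem' (hSR hl) heR (by ring), fun a ha => ?_⟩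
    rw [neg_zero] at ha
    rw [← mul_assoc]
    exact he' _ (hleft a ha l hl)
  -- the maximal `r`
  have hmax : ∃ r : ℕ, (∃ (s : ℤ) (x' : Module.End K V), x' ∈ G.R s ∧
      L ^ r * x' * e ∉ G.N (r + s)) ∧ ∀ (s : ℤ) (x' : Module.End K V), x' ∈ G.R s →
      L ^ (r + 1) * x' * e ∈ G.N ((r + 1 : ℕ) + s) := by
    by_contra hcon
    push Not at hcon
    have hall : ∀ r : ℕ, ∃ (s : ℤ) (x' : Module.End K V), x' ∈ G.R s ∧
      L ^ r * x' * e ∉ G.N (r + s) := by
      intro r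
      induction r with
      | zero =>
        refine ⟨0, 1, G.one_mem, fun h => he1 ?_⟩
        rw [pow_zero, one_mul, one_mul] at h
        rw [one_mul]
        refine GrAlg.N_trace_self (G := G) ?_
        convert h using 2
        simp
      | succ r ih =>
        obtain ⟨s, x', hx', h⟩ := hcon r ih
        exact ⟨s, x', hx', h⟩
    obtain ⟨s, x', hx', h⟩ := hall (n + 1)
    rw [k1_pow hL hL1, zero_mul, zero_mul] at h
    exact h (Submodule.zero_mem _)
  obtain ⟨r, ⟨s, x', hx', hr⟩, hr'⟩ := hmax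
  have hxR : x' * e ∈ G.R s := G.mul_mem' hx' heR (by ring)
  have hLr : L ^ r ∈ G.R r := by
    have := G.pow_mem' hL1 r
    rwa [mul_one] at this
  have hLr1 : L ^ (r + 1) ∈ G.R ((r : ℤ) + 1) := by
    have := G.pow_mem' hL1 (r + 1)
    rwa [mul_one, Nat.cast_add, Nat.cast_one] at this
  have hc : ∃ c ∈ G.R (-(r + s)), LinearMap.trace K V (c * (L ^ r * x' * e)) ≠ 0 := by
    by_contra hcon
    push Not at hcon
    refine hr ⟨?_, hcon⟩
    rw [mul_assoc]
    exact G.mul_mem' hLr hxR rfl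
  obtain ⟨c, hc, hc1⟩ := hc
  set y : Module.End K V := c * (L ^ r * x' * e) with hy
  have hb : c * L ^ r ∈ G.R (-s) := G.mul_mem' hc hLr (by ring)
  have hg : x' * e * c ∈ G.R (-r) := G.mul_mem' hxR hc (by ring)
  have hf : x' * e * c * L ^ r ∈ G.R 0 := G.mul_mem' hg hLr (by ring)
  have hfN : L ^ (r + 1) * (x' * e * c * L ^ r) ∈ G.N (r + 1) := by
    have h1 : L ^ (r + 1) * (x' * e * c * L ^ r) = L ^ (r + 1) * x' * e * (c * L ^ r) := by
      simp only [mul_assoc]
    rw [h1]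
    exact GrAlg.N_right (hr' s x' hx') hb (by push_cast; ring)
  have hgN : x' * e * c * L ^ (r + 1) ∈ G.N 1 := by
    refine ⟨G.mul_mem' hg hLr1 (by ring), fun y' hy' => ?_⟩
    have h1 : y' * (x' * e * c * L ^ (r + 1)) = (y' * x' * e * c) * L ^ (r + 1) := by
      simp only [mul_assoc]
    have h2 : L ^ (r + 1) * (y' * x' * e * c) = (L ^ (r + 1) * (y' * x') * e) * c := by
      simp only [mul_assoc]
    rw [h1, LinearMap.trace_mul_comm, h2, LinearMap.trace_mul_comm]
    exact GrAlg.N_trace (hr' (-1 + s) (y' * x') (G.mul_mem' hy' hx' rfl)) hc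
      (by push_cast; ring)
  set l : Module.End K V := c * L ^ r * (x' * e * c) * L ^ r * (x' * e * c * L ^ r) * x' with hl
  have hle : l * e = y ^ 3 := by
    rw [hl, hy, pow_succ, pow_succ, pow_one]
    simp only [mul_assoc]
  have hlR : l ∈ G.R 0 := by
    have h1 : c * L ^ r * (x' * e * c) ∈ G.R (-s + -r) := G.mul_mem' hb hg rfl
    have h2 : c * L ^ r * (x' * e * c) * L ^ r ∈ G.R (-s) := G.mul_mem' h1 hLr (by ring)
    have h3 : c * L ^ r * (x' * e * c) * L ^ r * (x' * e * c * L ^ r) ∈ G.R (-s) :=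
      G.mul_mem' h2 hf (by ring)
    exact G.mul_mem' h3 hx' (by ring)
  have hltr : ∀ a ∈ G.R 0, ∀ j : ℤ, j ≠ n - r - 2 * s →
      LinearMap.trace K V (l * a * G.pr j) = 0 := by
    intro a ha j hj
    have hxa : x' * a ∈ G.R s := G.mul_mem' hx' ha (by ring)
    have hxab : x' * a * (c * L ^ r) ∈ G.R 0 := G.mul_mem' hxa hb (by ring)
    have h1 : l * a * G.pr j = (c * L ^ r) * ((x' * e * c) * L ^ r * (x' * e * c * L ^ r) *
        (G.pr (j + 2 * s) * (x' * a))) := by
      rw [← G.comm s _ hxa, hl]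
      simp only [mul_assoc]
    have h2 : ((x' * e * c) * L ^ r * (x' * e * c * L ^ r) *
        (G.pr (j + 2 * s) * (x' * a))) * (c * L ^ r) =
        (x' * e * c) * L ^ r * ((x' * e * c * L ^ r) * (x' * a * (c * L ^ r))) *
          G.pr (j + 2 * s) := by
      rw [mul_assoc _ _ (c * L ^ r), mul_assoc (G.pr (j + 2 * s)) _ (c * L ^ r),
        ← G.comm0 hxab]
      simp only [mul_assoc]
    rw [h1, LinearMap.trace_mul_comm, h2]
    refine hQ r _ (G.mul_mem' hf hxab (by ring)) _ hg ?_ hgN _ ?_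
    · rw [← mul_assoc]
      exact GrAlg.N_right hfN hxab (by ring)
    · omega
  have hlS : l ∈ S := by
    by_cases hi : (n : ℤ) - r - 2 * s ∈ Finset.Icc (0 : ℤ) (2 * n)
    · exact hpS _ hi ⟨hlR, fun j hj a ha => hltr a ha j hj⟩
    · refine hpS 0 h0 ⟨hlR, fun j _ a ha => ?_⟩
      by_cases hj : j = n - r - 2 * s
      · have h1 : G.pr j = 0 := by
          refine hL.out j ?_
          rw [Finset.mem_Icc] at hi
          omega
        rw [h1, mul_zero, map_zero]
      · exact hltr a ha j hj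
  have h1 := GrAlg.N_nilpotent (hN l hlS)
  rw [hle] at h1
  exact hc1 (k1_nilpotent h1)

end Pool.Agent.Lib.MP_4ca46c_ag.Sign
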