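import Pool.Agent.Lib.MP_4ca46c_ag.Sign.SpecA

/-!
# Conjecture C over `K`: the projectors
-/

namespace Pool.Agent.Lib.MP_4ca46c_ag.Sign

open Module TensorProduct LinearMap

/-- Powers of a product with an idempotent. -/
theorem k2_pow {R : Type*} [Ring R] {x Q : R} (hQ : Q * Q = Q) (hx : Commute x Q) (m : ℕ) :
    (x * Q) ^ (m + 1) = x ^ (m + 1) * Q := by
  rw [hx.mul_pow]
  congr 1
  induction m with
  | zero => rw [zero_add, pow_one]
  | succ m ih => rw [pow_succ, ih, hQ]

/-- The formula for the projector. -/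
theorem k2_ring {R : Type*} [Ring R] {x P : R} {M : ℕ} (h1 : x ^ M * (1 - P) = 0)
    (h2 : (1 - x) ^ M * P = 0) : P = 1 - (1 - x ^ M) ^ M := by
  have hQ : ∀ m : ℕ, (1 - x ^ M) ^ m * (1 - P) = 1 - P := by
    intro m
    induction m with
    | zero => rw [pow_zero, one_mul]
    | succ m ih => rw [pow_succ', mul_assoc, ih, sub_mul, one_mul, h1, sub_zero]
  have hP : (1 - x ^ M) ^ M * P = 0 := by
    have hc : Commute (∑ i ∈ Finset.range M, x ^ i) (1 - x) := by
      refine Commute.sum_left _ _ _ fun i _ => ?_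
      exact (Commute.one_right _).sub_right ((Commute.refl x).pow_left i)
    rw [← geom_sum_mul_neg, hc.mul_pow, mul_assoc, h2, mul_zero]
  have h3 : (1 - x ^ M) ^ M = 1 - P := by
    have h4 := hQ M
    rw [mul_sub, mul_one, hP, sub_zero] at h4
    exact h4
  rw [h3, sub_sub_cancel]

theorem tK2 : StK2 := by
  intro K V _ _ _ _ _ G n L hlef x hx htr hsum i
  by_cases hi : i ∈ Finset.Icc (0 : ℤ) (2 * n)
  · have hPP := G.pr_idem i
    have hQQ : (1 - G.pr i) * (1 - G.pr i) = 1 - G.pr i := by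
      rw [mul_sub, mul_one, sub_mul, one_mul, hPP, sub_self, sub_zero]
    have hcP : Commute (x i) (G.pr i) := G.comm0 (hx i) i
    have hcQ : Commute (x i) (1 - G.pr i) := (Commute.one_right _).sub_right hcP
    have hcP' : Commute (1 - x i) (G.pr i) := (Commute.one_left _).sub_left hcP
    have h1x : 1 - x i ∈ G.R 0 := (G.R 0).sub_mem G.one_mem (hx i)
    -- nilpotency
    have n1 : IsNilpotent (x i * (1 - G.pr i)) := by
      refine isNilpotent_of_trace_pow _ fun m hm => ?_
      obtain ⟨m, rfl⟩ := Nat.exists_eq_succ_of_ne_zero hm.ne'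
      have e1 : 1 - G.pr i = ∑ j ∈ (Finset.Icc (0 : ℤ) (2 * n)).erase i, G.pr j := by
        rw [Finset.sum_erase_eq_sub hi, hlef.sum]
      rw [Nat.succ_eq_add_one, k2_pow hQQ hcQ, e1, Finset.mul_sum, map_sum]
      refine Finset.sum_eq_zero fun j hj => ?_
      rw [pow_succ']
      exact htr i j (Finset.ne_of_mem_erase hj) _ (G.pow_mem (hx i) m)
    have n2 : IsNilpotent ((1 - x i) * G.pr i) := by
      refine isNilpotent_of_trace_pow _ fun m hm => ?_
      obtain ⟨m, rfl⟩ := Nat.exists_eq_succ_of_ne_zero hm.ne'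
      have e1 : 1 - x i = ∑ j ∈ (Finset.Icc (0 : ℤ) (2 * n)).erase i, x j := by
        rw [Finset.sum_erase_eq_sub hi, hsum]
      rw [Nat.succ_eq_add_one, k2_pow hPP hcP', pow_succ']
      have e2 : (1 - x i) * (1 - x i) ^ m * G.pr i =
          ∑ j ∈ (Finset.Icc (0 : ℤ) (2 * n)).erase i, x j * (1 - x i) ^ m * G.pr i := by
        rw [← Finset.sum_mul, ← Finset.sum_mul, ← e1]
      rw [e2, map_sum]
      refine Finset.sum_eq_zero fun j hj => ?_
      exact htr j i (Finset.ne_of_mem_erase hj).symm _ (G.pow_mem h1x m)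
    obtain ⟨m1, hm1⟩ := n1
    obtain ⟨m2, hm2⟩ := n2
    have h1 : x i ^ (m1 + m2 + 1) * (1 - G.pr i) = 0 := by
      rw [← k2_pow hQQ hcQ]
      exact pow_eq_zero_of_le (by omega) hm1
    have h2 : (1 - x i) ^ (m1 + m2 + 1) * G.pr i = 0 := by
      rw [← k2_pow hPP hcP']
      exact pow_eq_zero_of_le (by omega) hm2
    rw [k2_ring h1 h2]
    exact (G.R 0).sub_mem G.one_mem
      (G.pow_mem ((G.R 0).sub_mem G.one_mem (G.pow_mem (hx i) _)) _)
  · rw [hlef.out i (by
      rw [Finset.mem_Icc, not_and_or, not_le, not_le] at hi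
      exact hi)]
    exact (G.R 0).zero_mem

end Pool.Agent.Lib.MP_4ca46c_ag.Sign
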