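import Pool.Agent.Lib.MP_4ca46c_ag.Sign.SpecA

/-!
# Rational coefficients
-/

namespace Pool.Agent.Lib.MP_4ca46c_ag.Sign

open Module TensorProduct LinearMap

/-- Powers of a product with an idempotent. -/
theorem rat_mulpow {R : Type*} [Ring R] {x Q : R} (hQ : Q * Q = Q) (hx : Commute x Q) (m : ℕ) :
    (x * Q) ^ (m + 1) = x ^ (m + 1) * Q := by
  rw [hx.mul_pow]
  congr 1
  induction m with
  | zero => rw [zero_add, pow_one]
  | succ m ih => rw [pow_succ, ih, hQ]

/-- A `ℚ`-linear retraction of `K` onto `ℚ`. -/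
theorem rat_phi (K : Type) [Field K] [CharZero K] : ∃ φ : K →ₗ[ℚ] ℚ, (∀ q : ℚ, φ (q : K) = q) ∧
    ∀ (c : K) (t : ℚ), φ (c * (t : K)) = φ c * t := by
  obtain ⟨φ, hφ⟩ := (Algebra.linearMap ℚ K).exists_leftInverse_of_injective
    (LinearMap.ker_eq_bot.2 (by
      intro a b h
      simpa using h))
  refine ⟨φ, fun q => ?_, fun c t => ?_⟩
  · have := LinearMap.congr_fun hφ q
    simpa using this
  · have e : c * (t : K) = t • c := by rw [Rat.smul_def, mul_comm]
    rw [e, map_smul, smul_eq_mul, mul_comm]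

section

variable {K V : Type} [Field K] [CharZero K] [AddCommGroup V] [Module K V]
  {n : ℕ} {pr : ℤ → Module.End K V} {L : Module.End K V}
  {A : ℤ → AddSubgroup (Module.End K V)}

omit [CharZero K] in
theorem rat_mul (hR : RatAlg pr A) {r s t : ℤ} {f g : Module.End K V} (hf : f ∈ A r)
    (hg : g ∈ A s) (h : r + s = t) : f * g ∈ A t := h ▸ hR.mul r s f hf g hg

omit [CharZero K] in
theorem rat_pow (hR : RatAlg pr A) {f : Module.End K V} (hf : f ∈ A 0) (m : ℕ) :
    f ^ m ∈ A 0 := by
  induction m with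
  | zero => rw [pow_zero]; exact hR.one
  | succ m ih => rw [pow_succ]; exact rat_mul hR ih hf (by ring)

omit [CharZero K] in
theorem rat_powL (hR : RatAlg pr A) (hL : L ∈ A 1) (m : ℕ) : L ^ m ∈ A m := by
  induction m with
  | zero => rw [pow_zero]; exact hR.one
  | succ m ih => rw [pow_succ]; exact rat_mul hR ih hL (by push_cast; ring)

omit [CharZero K] in
theorem rat_comm0 (hR : RatAlg pr A) {f : Module.End K V} (hf : f ∈ A 0) (k : ℤ) :
    f * pr k = pr k * f := by
  have := hR.comm 0 f hf k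
  simpa using this

variable [FiniteDimensional K V]

omit [CharZero K] in
/-- The trace of an idempotent is rational. -/
theorem rat_idem {p : Module.End K V} (hp : p * p = p) :
    ∃ q : ℚ, LinearMap.trace K V p = q := by
  have h1 : IsIdempotentElem p := hp
  exact ⟨finrank K (LinearMap.range p), by
    rw [LinearMap.IsProj.trace (LinearMap.IsIdempotentElem.isProj_range p h1)]; simp⟩

/-- The core of the argument. -/
theorem rat_core (hR : RatAlg pr A) {j : ℤ} {p T : Module.End K V} (hpp : p * p = p)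
    (hT : T ∈ A j) (hTp : T * p = T) (hcomm : ∀ f ∈ A 0, f * p = p * f)
    (htr : ∀ y ∈ A 0, y * p = y → ∃ q : ℚ, LinearMap.trace K V y = q)
    (hg : ∃ g ∈ Submodule.span K (A (-j) : Set (Module.End K V)), g * T = p) :
    ∃ θ ∈ A (-j), θ * T = p := by
  obtain ⟨φ, hφ1, hφ2⟩ := rat_phi K
  obtain ⟨g0, hg0, hg0T⟩ := hg
  obtain ⟨N, c, g, hsum⟩ := Submodule.mem_span_set'.1 hg0
  set g' : Module.End K V := ∑ i, ((φ (c i) : ℚ) : K) • (g i : Module.End K V) with hg'
  have hg'mem : g' ∈ A (-j) := (A (-j)).sum_mem fun i _ => hR.smul _ _ _ (g i).2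
  set u : Module.End K V := g' * T with hu
  have hu0 : u ∈ A 0 := rat_mul hR hg'mem hT (by ring)
  have hup : u * p = u := by rw [hu, mul_assoc, hTp]
  have hpu : p * u = u := by rw [← hcomm u hu0, hup]
  have key : ∀ y ∈ A 0, (∃ q : ℚ, LinearMap.trace K V (p * y) = q) →
      LinearMap.trace K V (p * y) = LinearMap.trace K V (u * y) := by
    intro y hy hq
    obtain ⟨q, hq⟩ := hq
    have ht : ∀ i, ∃ t : ℚ, LinearMap.trace K V ((g i : Module.End K V) * T * y) = t := by
      intro i
      refine htr _ (rat_mul hR (rat_mul hR (g i).2 hT rfl) hy (by ring)) ?_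
      rw [mul_assoc, mul_assoc, mul_assoc, hcomm y hy, ← mul_assoc T p y, hTp]
    choose t ht using ht
    have e1 : LinearMap.trace K V (p * y) = ∑ i, c i * (t i : K) := by
      rw [← hg0T, ← hsum, Finset.sum_mul, Finset.sum_mul, map_sum]
      refine Finset.sum_congr rfl fun i _ => ?_
      rw [smul_mul_assoc, smul_mul_assoc, map_smul, ht, smul_eq_mul]
    have e2 : LinearMap.trace K V (u * y) = ∑ i, ((φ (c i) : ℚ) : K) * (t i : K) := by
      rw [hu, hg', Finset.sum_mul, Finset.sum_mul, map_sum]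
      refine Finset.sum_congr rfl fun i _ => ?_
      rw [smul_mul_assoc, smul_mul_assoc, map_smul, ht, smul_eq_mul]
    have e3 : q = ∑ i, φ (c i) * t i := by
      have := congrArg φ (hq.symm.trans e1)
      rw [hφ1, map_sum] at this
      rw [this]
      exact Finset.sum_congr rfl fun i _ => hφ2 _ _
    rw [hq, e2, e3]
    push_cast
    rfl
  have key2 : ∀ m : ℕ, LinearMap.trace K V ((p - u) * u ^ m) = 0 := by
    intro m
    rw [sub_mul, map_sub, sub_eq_zero]
    refine key _ (rat_pow hR hu0 m) ?_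
    rcases Nat.eq_zero_or_pos m with rfl | hm
    · rw [pow_zero, mul_one]
      exact rat_idem hpp
    · obtain ⟨m, rfl⟩ := Nat.exists_eq_succ_of_ne_zero hm.ne'
      rw [Nat.succ_eq_add_one, pow_succ', ← mul_assoc, hpu, ← pow_succ']
      refine htr _ (rat_pow hR hu0 _) ?_
      rw [pow_succ, mul_assoc, hup]
  have key3 : ∀ k m : ℕ, LinearMap.trace K V ((p - u) * ((1 - u) ^ k * u ^ m)) = 0 := by
    intro k
    induction k with
    | zero => intro m; rw [pow_zero, one_mul]; exact key2 m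
    | succ k ih =>
      intro m
      have e : (1 - u) ^ (k + 1) * u ^ m = (1 - u) ^ k * u ^ m - (1 - u) ^ k * u ^ (m + 1) := by
        rw [pow_succ, mul_assoc, sub_mul, one_mul, ← pow_succ', mul_sub]
      rw [e, mul_sub, map_sub, ih, ih, sub_zero]
  have hc : Commute (1 - u) p := by
    refine (Commute.one_left _).sub_left ?_
    exact hcomm u hu0
  have hD : p - u = (1 - u) * p := by rw [sub_mul, one_mul, hup]
  have hnil : IsNilpotent ((1 - u) * p) := by
    refine isNilpotent_of_trace_pow _ fun m hm => ?_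
    obtain ⟨m, rfl⟩ := Nat.exists_eq_succ_of_ne_zero hm.ne'
    rw [Nat.succ_eq_add_one, rat_mulpow hpp hc]
    have e : (1 - u) ^ (m + 1) * p = (p - u) * ((1 - u) ^ m * u ^ 0) := by
      rw [pow_zero, mul_one, hD, mul_assoc, ← (hc.pow_left m).eq, ← mul_assoc, ← pow_succ']
    rw [e]
    exact key3 m 0
  obtain ⟨M, hM⟩ := hnil
  have hM2 : (1 - u) ^ (M + 1) * p = 0 := by
    rw [← rat_mulpow hpp hc]
    exact pow_eq_zero_of_le (by omega) hM
  set S : Module.End K V := ∑ k ∈ Finset.range (M + 1), (1 - u) ^ k with hS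
  have hS0 : S ∈ A 0 := by
    refine (A 0).sum_mem fun k _ => rat_pow hR ?_ k
    exact (A 0).sub_mem hR.one hu0
  have hSu : S * u = p := by
    have h1 : S * u = 1 - (1 - u) ^ (M + 1) := by
      have := geom_sum_mul_neg (1 - u) (M + 1)
      rwa [sub_sub_cancel] at this
    have h2 : S * u = S * u * p := by rw [mul_assoc, hup]
    rw [h2, h1, sub_mul, one_mul, hM2, sub_zero]
  exact ⟨S * g', rat_mul hR hS0 hg'mem (by ring), by rw [mul_assoc, ← hu, hSu]⟩

omit [CharZero K] [FiniteDimensional K V] in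
theorem rat_commL (hlef : LefMod n pr L) (m : ℕ) (k : ℤ) :
    L ^ m * pr k = pr (k + 2 * m) * L ^ m := by
  induction m generalizing k with
  | zero => simp
  | succ m ih =>
    rw [pow_succ, mul_assoc, hlef.comm, ← mul_assoc, ih, mul_assoc]
    congr 2
    push_cast
    ring

omit [CharZero K] [FiniteDimensional K V] in
/-- `Q L^j P = L^j pr_i`. -/
theorem rat_T (hlef : LefMod n pr L) {i : ℕ} (hi : i < n) :
    (1 - ∑ l ∈ Finset.range i, pr (2 * (n : ℤ) - l)) * (L ^ (n - i) *
      (1 - ∑ l ∈ Finset.range i, pr (l : ℤ))) = L ^ (n - i) * pr (i : ℤ) := by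
  set P : Module.End K V := 1 - ∑ l ∈ Finset.range i, pr (l : ℤ) with hP
  set Q : Module.End K V := 1 - ∑ l ∈ Finset.range i, pr (2 * (n : ℤ) - l) with hQ
  have hn : ((n - i : ℕ) : ℤ) = (n : ℤ) - i := by push_cast [hi.le]; ring
  have hP1 : ∀ k : ℤ, 0 ≤ k → k < i → P * pr k = 0 := by
    intro k hk0 hk
    rw [hP, sub_mul, one_mul, Finset.sum_mul, Finset.sum_eq_single k.toNat, hlef.pr_mul,
      if_pos (by omega)]
    · have : ((k.toNat : ℕ) : ℤ) = k := by omega
      rw [this, sub_self]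
    · intro l _ hl
      rw [hlef.pr_mul, if_neg (by omega)]
    · intro h
      exact absurd (Finset.mem_range.2 (by omega)) h
  have hP2 : ∀ k : ℤ, (i : ℤ) ≤ k → P * pr k = pr k := by
    intro k hk
    rw [hP, sub_mul, one_mul, Finset.sum_mul, Finset.sum_eq_zero, sub_zero]
    intro l hl
    have := Finset.mem_range.1 hl
    rw [hlef.pr_mul, if_neg (by omega)]
  have hQ1 : ∀ k : ℤ, 2 * (n : ℤ) - i < k → Q * pr k = 0 := by
    intro k hk
    by_cases hk2 : k ≤ 2 * n
    · rw [hQ, sub_mul, one_mul, Finset.sum_mul, Finset.sum_eq_single (2 * (n : ℤ) - k).toNat,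
        hlef.pr_mul, if_pos (by omega)]
      · have : 2 * (n : ℤ) - (((2 * (n : ℤ) - k).toNat : ℕ) : ℤ) = k := by omega
        rw [this, sub_self]
      · intro l _ hl
        rw [hlef.pr_mul, if_neg (by omega)]
      · intro h
        exact absurd (Finset.mem_range.2 (by omega)) h
    · rw [hlef.out k (by omega), mul_zero]
  have hQ2 : ∀ k : ℤ, k ≤ 2 * (n : ℤ) - i → Q * pr k = pr k := by
    intro k hk
    rw [hQ, sub_mul, one_mul, Finset.sum_mul, Finset.sum_eq_zero, sub_zero]
    intro l hl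
    have := Finset.mem_range.1 hl
    rw [hlef.pr_mul, if_neg (by omega)]
  have h1 : ∀ k ∈ Finset.Icc (0 : ℤ) (2 * n), Q * (L ^ (n - i) * P) * pr k =
      if k = (i : ℤ) then L ^ (n - i) * pr (i : ℤ) else 0 := by
    intro k hk
    have hk' := Finset.mem_Icc.1 hk
    rw [mul_assoc, mul_assoc]
    rcases lt_trichotomy k (i : ℤ) with h | h | h
    · rw [hP1 k hk'.1 h, mul_zero, mul_zero, if_neg (by omega)]
    · rw [if_pos h, hP2 k (by omega), h, rat_commL hlef, ← mul_assoc, hQ2 _ (by omega)]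
    · rw [if_neg (by omega), hP2 k (by omega), rat_commL hlef, ← mul_assoc, hQ1 _ (by omega),
        zero_mul]
  calc Q * (L ^ (n - i) * P) = Q * (L ^ (n - i) * P) * 1 := (mul_one _).symm
    _ = ∑ k ∈ Finset.Icc (0 : ℤ) (2 * n), Q * (L ^ (n - i) * P) * pr k := by
      rw [← hlef.sum, Finset.mul_sum]
    _ = ∑ k ∈ Finset.Icc (0 : ℤ) (2 * n),
        if k = (i : ℤ) then L ^ (n - i) * pr (i : ℤ) else 0 := Finset.sum_congr rfl h1
    _ = L ^ (n - i) * pr (i : ℤ) := by
      rw [Finset.sum_ite_eq', if_pos (Finset.mem_Icc.2 ⟨by omega, by omega⟩)]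

omit [CharZero K] [FiniteDimensional K V] in
/-- `pr_i * sgn = ± pr_i`. -/
theorem rat_sgn (hlef : LefMod n pr L) {i : ℤ} (h0 : 0 ≤ i) (hi : i ≤ 2 * n) :
    pr i * sgn n pr = (if Even i then (1 : K) else -1) • pr i := by
  rw [sgn, Finset.mul_sum, Finset.sum_eq_single i]
  · rw [mul_smul_comm, hlef.pr_mul, if_pos rfl]
  · intro j _ hj
    rw [mul_smul_comm, hlef.pr_mul, if_neg (Ne.symm hj), smul_zero]
  · intro h
    exact absurd (Finset.mem_Icc.2 ⟨h0, hi⟩) h

end

theorem tRat : StRat := by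
  intro K V _ _ _ _ _ n pr L A hlef hR hL htrace hgen
  have main : ∀ i : ℕ, i < n → (pr (i : ℤ) ∈ A 0 ∧ pr (2 * (n : ℤ) - i) ∈ A 0) ∧
      ∃ θ ∈ A (-((n - i : ℕ) : ℤ)), θ * L ^ (n - i) * pr (i : ℤ) = pr (i : ℤ) := by
    intro i
    induction i using Nat.strong_induction_on with
    | _ i ih =>
      intro hi
      have hn : ((n - i : ℕ) : ℤ) = (n : ℤ) - i := by push_cast [hi.le]; ring
      have hPm : (1 - ∑ l ∈ Finset.range i, pr (l : ℤ)) ∈ A 0 :=
        (A 0).sub_mem hR.one ((A 0).sum_mem fun l hl =>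
          (ih l (Finset.mem_range.1 hl) ((Finset.mem_range.1 hl).trans hi)).1.1)
      have hQm : (1 - ∑ l ∈ Finset.range i, pr (2 * (n : ℤ) - l)) ∈ A 0 :=
        (A 0).sub_mem hR.one ((A 0).sum_mem fun l hl =>
          (ih l (Finset.mem_range.1 hl) ((Finset.mem_range.1 hl).trans hi)).1.2)
      have hTm : L ^ (n - i) * pr (i : ℤ) ∈ A ((n - i : ℕ) : ℤ) := by
        rw [← rat_T hlef hi]
        exact rat_mul hR hQm (rat_mul hR (rat_powL hR hL _) hPm (add_zero _)) (zero_add _)
      have hpp : pr (i : ℤ) * pr (i : ℤ) = pr (i : ℤ) := by rw [hlef.pr_mul, if_pos rfl]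
      obtain ⟨θ, hθ, hθT⟩ := rat_core hR (p := pr (i : ℤ)) (T := L ^ (n - i) * pr (i : ℤ)) hpp
        hTm (by rw [mul_assoc, hpp]) (fun f hf => rat_comm0 hR hf _) (by
          intro y hy hyp
          obtain ⟨q, hq⟩ := htrace y hy
          have e : y * sgn n pr = (if Even (i : ℤ) then (1 : K) else -1) • y := by
            conv_lhs => rw [← hyp]
            rw [mul_assoc, rat_sgn hlef (by omega) (by omega), mul_smul_comm, hyp]
          rw [e, map_smul, smul_eq_mul] at hq
          by_cases hev : Even (i : ℤ)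
          · rw [if_pos hev, one_mul] at hq
            exact ⟨q, hq⟩
          · rw [if_neg hev] at hq
            refine ⟨-q, ?_⟩
            push_cast
            rw [← hq]
            ring) (by
          obtain ⟨g, hg, hgT⟩ := hgen i hi
          exact ⟨g, hg, by rw [← mul_assoc]; exact hgT⟩)
      have hp0 : pr (i : ℤ) ∈ A 0 := by
        rw [← hθT]
        exact rat_mul hR hθ hTm (by ring)
      refine ⟨⟨hp0, ?_⟩, θ, hθ, by rw [mul_assoc]; exact hθT⟩
      have e2 : pr (2 * (n : ℤ) - i) = L ^ (n - i) * pr (i : ℤ) * θ := by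
        have e3 : pr (i : ℤ) * θ = θ * pr (2 * (n : ℤ) - i) := by
          rw [hR.comm _ θ hθ]
          congr 2
          omega
        refine LinearMap.ext fun x => ?_
        obtain ⟨z, hz, hLz⟩ := hlef.surj (n - i) (by omega) (pr (2 * (n : ℤ) - i) x) (by
          have e4 : (n : ℤ) + ((n - i : ℕ) : ℤ) = 2 * (n : ℤ) - i := by omega
          rw [e4]
          have := LinearMap.congr_fun (hlef.pr_mul (2 * (n : ℤ) - i) (2 * (n : ℤ) - i)) x
          rw [if_pos rfl] at this
          exact this)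
        have e5 : (n : ℤ) - ((n - i : ℕ) : ℤ) = i := by omega
        rw [e5] at hz
        have e6 : θ ((L ^ (n - i)) z) = z := by
          have := LinearMap.congr_fun hθT z
          rw [Module.End.mul_apply, Module.End.mul_apply, hz] at this
          exact this
        rw [mul_assoc, e3, Module.End.mul_apply, Module.End.mul_apply, ← hLz, e6]
      rw [e2]
      exact rat_mul hR hTm hθ (by ring)
  exact fun i hi => (main i hi).2

end Pool.Agent.Lib.MP_4ca46c_ag.Sign
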