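import Pool.Agent.Lib.MP_4ca46c_ag.Sign.SpecA

/-!
# Passing to coefficients in `K`
-/

namespace Pool.Agent.Lib.MP_4ca46c_ag.Sign

open Module TensorProduct LinearMap

section

variable {K V : Type} [Field K] [AddCommGroup V] [Module K V]

/-- the signs -/
theorem span_pr_sgn {n : ℕ} {pr : ℤ → Module.End K V} {L : Module.End K V}
    (h : LefMod n pr L) (i : ℤ) (hi : i ∈ Finset.Icc (0 : ℤ) (2 * n)) :
    pr i * sgn n pr = (if Even i then (1 : K) else -1) • pr i := by
  classical
  rw [sgn, Finset.mul_sum, Finset.sum_eq_single i]
  · rw [mul_smul_comm, h.pr_mul, if_pos rfl]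
  · intro j _ hj
    rw [mul_smul_comm, h.pr_mul, if_neg hj.symm, smul_zero]
  · intro h'
    exact absurd hi h'

theorem span_sgn_sgn {n : ℕ} {pr : ℤ → Module.End K V} {L : Module.End K V}
    (h : LefMod n pr L) : sgn n pr * sgn n pr = 1 := by
  classical
  have h1 : sgn n pr * sgn n pr = (∑ i ∈ Finset.Icc (0 : ℤ) (2 * n),
      (if Even i then (1 : K) else -1) • pr i) * sgn n pr := rfl
  rw [h1, Finset.sum_mul, ← h.sum]
  refine Finset.sum_congr rfl fun i hi => ?_
  rw [smul_mul_assoc, span_pr_sgn h i hi, smul_smul]
  split_ifs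
  · rw [mul_one, one_smul]
  · rw [mul_neg, mul_one, neg_neg, one_smul]

theorem span_prT_mul {n : ℕ} {pr : ℤ → Module.End K V} {L : Module.End K V}
    (h : LefMod n pr L) (c d : ℤ) :
    prT n pr c * prT n pr d = if c = d then prT n pr c else 0 := by
  classical
  have h1 : prT n pr c * prT n pr d = ∑ i ∈ Finset.Icc (0 : ℤ) (2 * n),
      TensorProduct.map (pr i) (pr (c - i) * pr (d - i)) := by
    conv_lhs => rw [prT, prT]
    rw [Finset.sum_mul_sum]
    refine Finset.sum_congr rfl fun i hi => ?_
    rw [Finset.sum_eq_single i]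
    · rw [← TensorProduct.map_mul, h.pr_mul, if_pos rfl]
    · intro j _ hj
      rw [← TensorProduct.map_mul, h.pr_mul, if_neg hj.symm, TensorProduct.map_zero_left]
    · intro h'
      exact absurd hi h'
  rw [h1]
  split_ifs with hcd
  · subst hcd
    rw [prT]
    refine Finset.sum_congr rfl fun i _ => ?_
    rw [h.pr_mul, if_pos rfl]
  · refine Finset.sum_eq_zero fun i _ => ?_
    rw [h.pr_mul, if_neg (by omega), TensorProduct.map_zero_right]

/-- the graded algebra of the operators with coefficients in `K` -/
noncomputable def spanG (pr : ℤ → Module.End K V) (A : ℤ → AddSubgroup (Module.End K V))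
    (h : RatAlg pr A) (hpr : ∀ i j, pr i * pr j = if i = j then pr i else 0) : GrAlg K V where
  pr := pr
  pr_mul := hpr
  R r := Submodule.span K (A r)
  one_mem := Submodule.subset_span h.one
  mul_mem r s f g hf hg := by
    induction hf using Submodule.span_induction with
    | zero => rw [zero_mul]; exact Submodule.zero_mem _
    | add x y _ _ hx hy => rw [add_mul]; exact Submodule.add_mem _ hx hy
    | smul c x _ hx => rw [smul_mul_assoc]; exact Submodule.smul_mem _ _ hx
    | mem x hx =>
      induction hg using Submodule.span_induction with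
      | zero => rw [mul_zero]; exact Submodule.zero_mem _
      | add y z _ _ hy hz => rw [mul_add]; exact Submodule.add_mem _ hy hz
      | smul c y _ hy => rw [mul_smul_comm]; exact Submodule.smul_mem _ _ hy
      | mem y hy => exact Submodule.subset_span (h.mul r s x hx y hy)
  comm r f hf k := by
    induction hf using Submodule.span_induction with
    | zero => rw [zero_mul, mul_zero]
    | add x y _ _ hx hy => rw [add_mul, mul_add, hx, hy]
    | smul c x _ hx => rw [smul_mul_assoc, mul_smul_comm, hx]
    | mem x hx => exact h.comm r x hx k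

end

section

variable {K V : Type} [Field K] [CharZero K] [AddCommGroup V] [Module K V]
  [FiniteDimensional K V] {n : ℕ} {pr : ℤ → Module.End K V} {L : Module.End K V}
  {A : ℤ → AddSubgroup (Module.End K V)} {B : ℤ → AddSubgroup (Module.End K (V ⊗[K] V))}

/-- the ordinary swap is algebraic -/
theorem span_swap_mem (h : OpData n pr L A B) (hs : sgn n pr ∈ A 0) :
    ((TensorProduct.comm K V V).toLinearMap : Module.End K (V ⊗[K] V)) ∈ B 0 := by
  classical
  set ε := sgn n pr with hε
  set s : Module.End K (V ⊗[K] V) := ((1 / 2 : ℚ) : K) •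
    (1 + TensorProduct.map ε 1 + TensorProduct.map 1 ε - TensorProduct.map ε ε) with hsdef
  have hsB : s ∈ B 0 := by
    refine h.ratB.smul 0 _ _ (AddSubgroup.sub_mem _ (AddSubgroup.add_mem _
      (AddSubgroup.add_mem _ h.ratB.one ?_) ?_) ?_)
    · simpa using h.tensor 0 0 ε hs 1 h.ratA.one
    · simpa using h.tensor 0 0 1 h.ratA.one ε hs
    · simpa using h.tensor 0 0 ε hs ε hs
  have h1 : ((TensorProduct.comm K V V).toLinearMap : Module.End K (V ⊗[K] V)) =
      gswap n pr * s := by
    have h2 : ∀ i ∈ Finset.Icc (0 : ℤ) (2 * n), ∀ j ∈ Finset.Icc (0 : ℤ) (2 * n),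
        (TensorProduct.map (pr i) (pr j) : Module.End K (V ⊗[K] V)) * s =
          (if Even (i * j) then (1 : K) else -1) • TensorProduct.map (pr i) (pr j) := by
      intro i hi j hj
      rw [hsdef, mul_smul_comm, mul_sub, mul_add, mul_add, mul_one, ← TensorProduct.map_mul,
        ← TensorProduct.map_mul, ← TensorProduct.map_mul, span_pr_sgn h.lef i hi,
        span_pr_sgn h.lef j hj, mul_one, mul_one, TensorProduct.map_smul_left,
        TensorProduct.map_smul_right, TensorProduct.map_smul_left,
        TensorProduct.map_smul_right, smul_smul]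
      have h3 : ∀ (x : Module.End K (V ⊗[K] V)) (a b : K),
          ((1 / 2 : ℚ) : K) • (x + a • x + b • x - (a * b) • x) =
            (((1 / 2 : ℚ) : K) * (1 + a + b - a * b)) • x := fun x a b => by
        module
      rw [h3]
      congr 1
      have h4 : ((1 / 2 : ℚ) : K) = 1 / 2 := by push_cast; rfl
      rw [h4]
      have h7 : Even (i * j) ↔ Even i ∨ Even j := Int.even_mul
      by_cases hi' : Even i <;> by_cases hj' : Even j <;> simp [hi', hj', h7] <;> norm_num
    have h5 : gswap n pr * s = ∑ i ∈ Finset.Icc (0 : ℤ) (2 * n),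
        ∑ j ∈ Finset.Icc (0 : ℤ) (2 * n), ((TensorProduct.comm K V V).toLinearMap ∘ₗ
          TensorProduct.map (pr i) (pr j)) := by
      rw [gswap, Finset.sum_mul]
      refine Finset.sum_congr rfl fun i hi => ?_
      rw [Finset.sum_mul]
      refine Finset.sum_congr rfl fun j hj => ?_
      rw [smul_mul_assoc]
      have h6 : (((TensorProduct.comm K V V).toLinearMap ∘ₗ
          TensorProduct.map (pr i) (pr j)) : Module.End K (V ⊗[K] V)) * s =
          (TensorProduct.comm K V V).toLinearMap ∘ₗ
            ((TensorProduct.map (pr i) (pr j) : Module.End K (V ⊗[K] V)) * s) := rfl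
      rw [h6, h2 i hi j hj, LinearMap.comp_smul, smul_smul]
      split_ifs
      · rw [mul_one, one_smul]
      · rw [mul_neg, mul_one, neg_neg, one_smul]
    rw [h5]
    refine TensorProduct.ext' fun x y => ?_
    have hx : x = ∑ i ∈ Finset.Icc (0 : ℤ) (2 * n), pr i x := by
      have := LinearMap.congr_fun h.lef.sum x
      rw [LinearMap.sum_apply] at this
      exact this.symm
    have hy : y = ∑ i ∈ Finset.Icc (0 : ℤ) (2 * n), pr i y := by
      have := LinearMap.congr_fun h.lef.sum y
      rw [LinearMap.sum_apply] at this
      exact this.symm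
    conv_lhs => rw [hx, hy]
    rw [TensorProduct.sum_tmul]
    simp only [TensorProduct.tmul_sum, map_sum, LinearMap.sum_apply, LinearMap.comp_apply,
      TensorProduct.map_tmul]
  rw [h1]
  simpa using h.ratB.mul 0 0 _ h.swap _ hsB

omit [CharZero K] in
theorem span_ptrL_eq (u : Module.End K (V ⊗[K] V)) :
    ptrL u = ptrR (((TensorProduct.comm K V V).toLinearMap : Module.End K (V ⊗[K] V)) * u *
      ((TensorProduct.comm K V V).toLinearMap : Module.End K (V ⊗[K] V))) := by
  induction u using end_tensor_induction with
  | h0 => simp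
  | hadd u v hu hv => rw [map_add, hu, hv, mul_add, add_mul, map_add]
  | hmap f g =>
    have h1 : ((TensorProduct.comm K V V).toLinearMap : Module.End K (V ⊗[K] V)) *
        TensorProduct.map f g *
        ((TensorProduct.comm K V V).toLinearMap : Module.End K (V ⊗[K] V)) =
        TensorProduct.map g f := by
      refine TensorProduct.ext' fun x y => ?_
      simp
    rw [h1, ptrR_map, ptrL_map]

end

theorem tSpan : StSpan := by
  intro K V _ _ _ _ _ n pr L A B h hs
  classical
  let G : GrAlg K V := spanG pr A h.ratA h.lef.pr_mul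
  let Z : GrAlg K (V ⊗[K] V) := spanG (prT n pr) B h.ratB (span_prT_mul h.lef)
  -- partial traces of algebraic operators
  have hR : ∀ r, ∀ u ∈ B r, ptrR u ∈ A r := by
    intro r u hu
    have h1 : TensorProduct.map (1 : Module.End K V) (sgn n pr) ∈ B 0 := by
      simpa using h.tensor 0 0 1 h.ratA.one _ hs
    have h2 : u * TensorProduct.map 1 (sgn n pr) ∈ B r := by
      simpa using h.ratB.mul r 0 u hu _ h1
    have h3 := h.ptr r _ h2
    rwa [mul_assoc, ← TensorProduct.map_mul, mul_one, span_sgn_sgn h.lef,
      TensorProduct.map_one, mul_one] at h3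
  have hτ := span_swap_mem h hs
  have hL : ∀ r, ∀ u ∈ B r, ptrL u ∈ A r := by
    intro r u hu
    rw [span_ptrL_eq]
    refine hR r _ ?_
    have h1 := h.ratB.mul _ _ _ (h.ratB.mul _ _ _ hτ _ hu) _ hτ
    simpa using h1
  refine ⟨G, Z, rfl, fun _ => rfl, fun _ => rfl, ?_⟩
  refine ⟨h.lef, fun _ => rfl, Submodule.subset_span h.L_mem, ?_, ?_, ?_⟩
  · intro r s f hf g hg
    change f ∈ Submodule.span K (A r : Set (Module.End K V)) at hf
    change g ∈ Submodule.span K (A s : Set (Module.End K V)) at hg
    change TensorProduct.map f g ∈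
      Submodule.span K (B (r + s) : Set (Module.End K (V ⊗[K] V)))
    induction hf using Submodule.span_induction with
    | zero => rw [TensorProduct.map_zero_left]; exact Submodule.zero_mem _
    | add x y _ _ hx hy => rw [TensorProduct.map_add_left]; exact Submodule.add_mem _ hx hy
    | smul c x _ hx => rw [TensorProduct.map_smul_left]; exact Submodule.smul_mem _ _ hx
    | mem x hx =>
      induction hg using Submodule.span_induction with
      | zero => rw [TensorProduct.map_zero_right]; exact Submodule.zero_mem _
      | add y z _ _ hy hz => rw [TensorProduct.map_add_right]; exact Submodule.add_mem _ hy hz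
      | smul c y _ hy => rw [TensorProduct.map_smul_right]; exact Submodule.smul_mem _ _ hy
      | mem y hy => exact Submodule.subset_span (h.tensor r s x hx y hy)
  · intro r u hu
    change u ∈ Submodule.span K (B r : Set (Module.End K (V ⊗[K] V))) at hu
    change ptrR u ∈ Submodule.span K (A r : Set (Module.End K V))
    induction hu using Submodule.span_induction with
    | zero => rw [map_zero]; exact Submodule.zero_mem _
    | add x y _ _ hx hy => rw [map_add]; exact Submodule.add_mem _ hx hy
    | smul c x _ hx => rw [map_smul]; exact Submodule.smul_mem _ _ hx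
    | mem x hx => exact Submodule.subset_span (hR r x hx)
  · intro r u hu
    change u ∈ Submodule.span K (B r : Set (Module.End K (V ⊗[K] V))) at hu
    change ptrL u ∈ Submodule.span K (A r : Set (Module.End K V))
    induction hu using Submodule.span_induction with
    | zero => rw [map_zero]; exact Submodule.zero_mem _
    | add x y _ _ hx hy => rw [map_add]; exact Submodule.add_mem _ hx hy
    | smul c x _ hx => rw [map_smul]; exact Submodule.smul_mem _ _ hx
    | mem x hx => exact Submodule.subset_span (hL r x hx)

end Pool.Agent.Lib.MP_4ca46c_ag.Sign
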