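import Pool.Agent.Lib.MP_4ca46c_ag.Sign.SpecA

/-!
# The trace radical and tensor products
-/

namespace Pool.Agent.Lib.MP_4ca46c_ag.Sign

open Module TensorProduct LinearMap

theorem tAB : StAB := by
  intro K V _ _ _ _ _ G Z n L h r s f hf g hg
  have hfg : TensorProduct.map f g ∈ Z.R (r + s) := h.tensor r s f hf g hg
  refine ⟨fun hN => ⟨hfg, fun u hu => ?_⟩, fun hN => ⟨hfg, fun u hu => ?_⟩, fun hZ => ?_⟩
  · have e : TensorProduct.map f g = TensorProduct.map (1 : Module.End K V) g *
        TensorProduct.map f (1 : Module.End K V) := by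
      rw [← TensorProduct.map_mul, one_mul, mul_one]
    rw [e, ← mul_assoc, trace_mul_map_one]
    have h1 : TensorProduct.map (1 : Module.End K V) g ∈ Z.R (0 + s) :=
      h.tensor 0 s 1 G.one_mem g hg
    have h2 : u * TensorProduct.map (1 : Module.End K V) g ∈ Z.R (-r) :=
      Z.mul_mem' hu h1 (by ring)
    exact hN.2 _ (h.ptrR _ _ h2)
  · have e : TensorProduct.map f g = TensorProduct.map f (1 : Module.End K V) *
        TensorProduct.map (1 : Module.End K V) g := by
      rw [← TensorProduct.map_mul, one_mul, mul_one]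
    rw [e, ← mul_assoc, trace_mul_one_map]
    have h1 : TensorProduct.map f (1 : Module.End K V) ∈ Z.R (r + 0) :=
      h.tensor r 0 f hf 1 G.one_mem
    have h2 : u * TensorProduct.map f (1 : Module.End K V) ∈ Z.R (-s) :=
      Z.mul_mem' hu h1 (by ring)
    exact hN.2 _ (h.ptrL _ _ h2)
  · by_contra hcon
    rw [not_or] at hcon
    have ha : ∃ a ∈ G.R (-r), LinearMap.trace K V (a * f) ≠ 0 := by
      by_contra hn
      push Not at hn
      exact hcon.1 ⟨hf, hn⟩
    have hb : ∃ b ∈ G.R (-s), LinearMap.trace K V (b * g) ≠ 0 := by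
      by_contra hn
      push Not at hn
      exact hcon.2 ⟨hg, hn⟩
    obtain ⟨a, ha, ha'⟩ := ha
    obtain ⟨b, hb, hb'⟩ := hb
    have hab : TensorProduct.map a b ∈ Z.R (-(r + s)) := by
      have := h.tensor _ _ a ha b hb
      have e : -r + -s = -(r + s) := by ring
      rwa [e] at this
    have h1 := hZ.2 _ hab
    rw [← TensorProduct.map_mul, LinearMap.trace_tensorProduct'] at h1
    exact (mul_ne_zero ha' hb') h1

end Pool.Agent.Lib.MP_4ca46c_ag.Sign
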