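import Mathlib
import Pool.Agent.Lib.MP_4ca46c_ag.Sign.SpecA

/-!
# Descent of the radical along the Lefschetz operator
-/

namespace Pool.Agent.Lib.MP_4ca46c_ag.Sign

open Module TensorProduct LinearMap

section

variable {K V : Type} [Field K] [AddCommGroup V] [Module K V]

theorem e_telescope {M : Type} [AddCommGroup M] [Module K M] (c : ℕ → M) (m : ℕ) :
    ∑ a ∈ Finset.range m, (-1 : K) ^ a • (c (a + 1) + c a) = c 0 - (-1 : K) ^ m • c m := by
  induction m with
  | zero => simp
  | succ m ih =>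
    rw [Finset.sum_range_succ, ih, pow_succ, smul_add]
    simp only [mul_neg, mul_one, neg_smul]
    abel

theorem e_map_mul {f g : Module.End K V} {f' g' : Module.End K V} :
    TensorProduct.map f g * TensorProduct.map f' g' = TensorProduct.map (f * f') (g * g') :=
  (TensorProduct.map_mul f f' g g').symm

/-- The operator `Om`. -/
noncomputable def e_Om (L f : Module.End K V) (r : ℕ) : Module.End K (V ⊗[K] V) :=
  ∑ a ∈ Finset.range (r + 1), (-1 : K) ^ a •
    TensorProduct.map (L ^ a * f) (L ^ (r - a) * f)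

theorem e_LL_Om (L f : Module.End K V) (r : ℕ) : LL L * e_Om L f r =
    TensorProduct.map f (L ^ (r + 1) * f) +
      (-1 : K) ^ r • TensorProduct.map (L ^ (r + 1) * f) f := by
  have h1 : LL L * e_Om L f r = ∑ a ∈ Finset.range (r + 1), (-1 : K) ^ a •
      (TensorProduct.map (L ^ (a + 1) * f) (L ^ (r + 1 - (a + 1)) * f) +
        TensorProduct.map (L ^ a * f) (L ^ (r + 1 - a) * f)) := by
    rw [e_Om, Finset.mul_sum]
    refine Finset.sum_congr rfl fun a ha => ?_
    rw [Finset.mem_range] at ha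
    rw [mul_smul_comm, LL, add_mul, e_map_mul, e_map_mul, one_mul, one_mul, ← mul_assoc,
      ← pow_succ', ← mul_assoc, ← pow_succ']
    congr 3
    · rw [show r + 1 - (a + 1) = r - a by omega]
    · rw [show r - a + 1 = r + 1 - a by omega]
  rw [h1, e_telescope (K := K)
    (fun a => TensorProduct.map (L ^ a * f) (L ^ (r + 1 - a) * f)) (r + 1)]
  simp only [pow_zero, one_mul, Nat.sub_zero, Nat.sub_self]
  rw [pow_succ (-1 : K) r]
  simp only [mul_neg, mul_one, neg_smul, sub_neg_eq_add]

variable {G : GrAlg K V}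

theorem e_pow_pr {L : Module.End K V} (hL : L ∈ G.R 1) (a : ℕ) (k : ℤ) :
    L ^ a * G.pr k = G.pr (k + 2 * a) * L ^ a := by
  have h1 := G.pow_mem' hL a
  rw [mul_one] at h1
  exact G.comm _ _ h1 k

end

theorem tE (h1 : StInj) (h2 : StAB) : StE := by
  intro K V _ _ _ _ _ G Z n L w hS hw hpr d r hdr f hf hfd hN
  have hL := hS.L_mem
  have hLr : ∀ m : ℕ, L ^ m ∈ G.R m := by
    intro m
    have := G.pow_mem' hL m
    rwa [mul_one] at this
  have hfl : G.pr d * f = f := by
    calc G.pr d * f = G.pr d * (G.pr d * f * G.pr d) := by rw [hfd]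
      _ = G.pr d * G.pr d * f * G.pr d := by simp only [mul_assoc]
      _ = f := by rw [G.pr_idem, hfd]
  have hLf : ∀ a : ℕ, L ^ a * f = G.pr (d + 2 * a) * (L ^ a * f) := by
    intro a
    rw [← mul_assoc, ← e_pow_pr hL, mul_assoc, hfl]
  have hLfR : ∀ a : ℕ, L ^ a * f ∈ G.R a := fun a => G.mul_mem' (hLr a) hf (by ring)
  have hLL : LL L ∈ Z.R 1 := by
    refine (Z.R 1).add_mem ?_ ?_
    · have := hS.tensor 1 0 L hL 1 G.one_mem
      rwa [add_zero] at this
    · have := hS.tensor 0 1 1 G.one_mem L hL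
      rwa [zero_add] at this
  -- `Om` has degree `2 d + 2 r`
  have hOm : prT n G.pr (2 * d + 2 * r) * e_Om L f r = e_Om L f r := by
    rw [e_Om, Finset.mul_sum]
    refine Finset.sum_congr rfl fun a ha => ?_
    rw [Finset.mem_range] at ha
    rw [mul_smul_comm]
    congr 1
    rw [prT, Finset.sum_mul, Finset.sum_eq_single ((d : ℤ) + 2 * a)]
    · rw [e_map_mul, ← hLf a]
      congr 1
      rw [hLf (r - a), ← mul_assoc,
        show (2 * (d : ℤ) + 2 * r - (d + 2 * a)) = d + 2 * ((r - a : ℕ) : ℤ) by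
          push_cast [Nat.cast_sub (Nat.lt_succ_iff.1 ha)]; ring, G.pr_idem]
    · intro i _ hi
      rw [e_map_mul, hLf a, ← mul_assoc (G.pr i), G.pr_ne hi, zero_mul,
        TensorProduct.map_zero_left]
    · intro hi
      exfalso
      apply hi
      rw [Finset.mem_Icc]
      constructor <;> omega
  have hc : (2 * (d : ℤ) + 2 * r) < 2 * n := by omega
  have hev : Even (2 * (d : ℤ) + 2 * r) := ⟨d + r, by ring⟩
  have hwOm : w * LL L * e_Om L f r = e_Om L f r := by
    refine LinearMap.ext fun z => ?_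
    have hz : prT n G.pr (2 * d + 2 * r) (e_Om L f r z) = e_Om L f r z :=
      LinearMap.congr_fun hOm z
    set z' := e_Om L f r z with hz'
    change w (LL L z') = z'
    rw [← sub_eq_zero]
    refine h1 K V n G.pr L hS.lef _ hc _ ?_ ?_
    · rw [map_sub, hz]
      congr 1
      have h3 : w * LL L ∈ Z.R 0 := Z.mul_mem' hw.mem hLL (by ring)
      have h4 := LinearMap.congr_fun (Z.comm0 h3 (2 * d + 2 * r)) z'
      rw [hS.prZ] at h4
      change w (LL L (prT n G.pr (2 * d + 2 * r) z')) =
        prT n G.pr (2 * d + 2 * r) (w (LL L z')) at h4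
      rw [hz] at h4
      exact h4.symm
    · have h3 := LinearMap.congr_fun (hw.even _ hev) z'
      rw [hS.prZ] at h3
      change LL L (w (LL L (prT n G.pr (2 * d + 2 * r) z'))) =
        LL L (prT n G.pr (2 * d + 2 * r) z') at h3
      rw [hz] at h3
      rw [map_sub, h3, sub_self]
  have hHOm : LL L * e_Om L f r ∈ Z.N (r + 1) := by
    rw [e_LL_Om]
    have hR : L ^ (r + 1) * f ∈ G.R ((r : ℤ) + 1) := hN.1
    refine (Z.N _).add_mem ?_ ((Z.N _).smul_mem _ ?_)
    · have := (h2 K V G Z n L hS 0 (r + 1) f hf _ hR).2.1 hN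
      rwa [zero_add] at this
    · have := (h2 K V G Z n L hS (r + 1) 0 _ hR f hf).1 hN
      rwa [add_zero] at this
  have hOmN : e_Om L f r ∈ Z.N r := by
    rw [← hwOm, mul_assoc]
    exact GrAlg.N_left hHOm hw.mem (by ring)
  -- project
  have hP : TensorProduct.map (G.pr (d + 2 * r)) (G.pr d) ∈ Z.R 0 := by
    have := hS.tensor 0 0 _ (hpr (d + 2 * r)) _ (hpr d)
    rwa [add_zero] at this
  have hPOm : TensorProduct.map (G.pr (d + 2 * r)) (G.pr d) * e_Om L f r =
      (-1 : K) ^ r • TensorProduct.map (L ^ r * f) f := by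
    rw [e_Om, Finset.mul_sum, Finset.sum_eq_single r]
    · rw [mul_smul_comm, e_map_mul, ← hLf r, Nat.sub_self, pow_zero, one_mul, hfl]
    · intro a _ hne
      rw [mul_smul_comm, e_map_mul, hLf a, ← mul_assoc (G.pr (d + 2 * r)),
        G.pr_ne (by omega), zero_mul, TensorProduct.map_zero_left, smul_zero]
    · intro hr
      exact absurd (Finset.mem_range.2 (Nat.lt_succ_self r)) hr
  have hmain : TensorProduct.map (L ^ r * f) f ∈ Z.N (r + 0) := by
    have h3 := GrAlg.N_left hOmN hP (zero_add _)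
    rw [hPOm] at h3
    have h4 := (Z.N r).smul_mem ((-1 : K) ^ r) h3
    rw [smul_smul, ← mul_pow] at h4
    rw [add_zero]
    simpa using h4
  rcases (h2 K V G Z n L hS r 0 _ (hLfR r) f hf).2.2 hmain with h | h
  · exact h
  · exact GrAlg.N_left h (hLr r) (by ring)

end Pool.Agent.Lib.MP_4ca46c_ag.Sign
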