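import Pool.Agent.Lib.MP_4ca46c_ag.Sign.SpecA

/-!
# Lemma Q
-/

namespace Pool.Agent.Lib.MP_4ca46c_ag.Sign

open Module TensorProduct LinearMap

section

variable {K V : Type} [Field K] [AddCommGroup V] [Module K V]

/-- alternating telescoping sum -/
theorem q_tele {M : Type} [AddCommGroup M] [Module K M] (c : ℕ → M) (r : ℕ) :
    ∑ a ∈ Finset.range (r + 1), ((-1 : K) ^ a) • (c (a + 1) + c a) =
      c 0 + ((-1 : K) ^ r) • c (r + 1) := by
  have h : ∀ a, ((-1 : K) ^ a) • (c (a + 1) + c a) =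
      ((-1 : K) ^ a) • c a - ((-1 : K) ^ (a + 1)) • c (a + 1) := fun a => by
    rw [pow_succ, smul_add]
    simp only [mul_neg, mul_one, neg_smul, sub_neg_eq_add]
    abel
  rw [Finset.sum_congr rfl fun a _ => h a, Finset.sum_range_sub']
  rw [pow_zero, one_smul, pow_succ]
  simp only [mul_neg, mul_one, neg_smul, sub_neg_eq_add]

/-- `Om` -/
noncomputable def qOm (L f : Module.End K V) (r : ℕ) : Module.End K (V ⊗[K] V) :=
  ∑ a ∈ Finset.range (r + 1), ((-1 : K) ^ a) • TensorProduct.map (L ^ a * f) (L ^ (r - a) * f)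

/-- `W` -/
noncomputable def qW (L g : Module.End K V) (r : ℕ) : Module.End K (V ⊗[K] V) :=
  ∑ a ∈ Finset.range (r + 1), ((-1 : K) ^ a) • TensorProduct.map (g * L ^ a) (g * L ^ (r - a))

theorem q_LL_Om (L f : Module.End K V) (r : ℕ) :
    LL L * qOm L f r = TensorProduct.map f (L ^ (r + 1) * f) +
      ((-1 : K) ^ r) • TensorProduct.map (L ^ (r + 1) * f) f := by
  have h := q_tele (K := K) (fun a => TensorProduct.map (L ^ a * f) (L ^ (r + 1 - a) * f)) r
  have h2 : LL L * qOm L f r = ∑ a ∈ Finset.range (r + 1), ((-1 : K) ^ a) •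
      (TensorProduct.map (L ^ (a + 1) * f) (L ^ (r + 1 - (a + 1)) * f) +
        TensorProduct.map (L ^ a * f) (L ^ (r + 1 - a) * f)) := by
    rw [qOm, Finset.mul_sum]
    refine Finset.sum_congr rfl fun a ha => ?_
    have ha' : a ≤ r := Nat.lt_succ_iff.1 (Finset.mem_range.1 ha)
    rw [mul_smul_comm, LL, add_mul, ← TensorProduct.map_mul, ← TensorProduct.map_mul, one_mul,
      one_mul, ← mul_assoc, ← mul_assoc, ← pow_succ', ← pow_succ',
      show r + 1 - (a + 1) = r - a by omega, show r - a + 1 = r + 1 - a by omega]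
  rw [h2]
  rw [h]
  simp

theorem q_W_LL (L g : Module.End K V) (r : ℕ) :
    qW L g r * LL L = TensorProduct.map g (g * L ^ (r + 1)) +
      ((-1 : K) ^ r) • TensorProduct.map (g * L ^ (r + 1)) g := by
  have h := q_tele (K := K) (fun a => TensorProduct.map (g * L ^ a) (g * L ^ (r + 1 - a))) r
  have h2 : qW L g r * LL L = ∑ a ∈ Finset.range (r + 1), ((-1 : K) ^ a) •
      (TensorProduct.map (g * L ^ (a + 1)) (g * L ^ (r + 1 - (a + 1))) +
        TensorProduct.map (g * L ^ a) (g * L ^ (r + 1 - a))) := by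
    rw [qW, Finset.sum_mul]
    refine Finset.sum_congr rfl fun a ha => ?_
    have ha' : a ≤ r := Nat.lt_succ_iff.1 (Finset.mem_range.1 ha)
    rw [smul_mul_assoc, LL, mul_add, ← TensorProduct.map_mul, ← TensorProduct.map_mul, mul_one,
      mul_one, mul_assoc, mul_assoc, ← pow_succ, ← pow_succ,
      show r + 1 - (a + 1) = r - a by omega, show r - a + 1 = r + 1 - a by omega]
  rw [h2]
  rw [h]
  simp

end

section

variable {K V : Type} [Field K] [AddCommGroup V] [Module K V] [FiniteDimensional K V]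
  {G : GrAlg K V} {Z : GrAlg K (V ⊗[K] V)} {n : ℕ} {L : Module.End K V}

theorem q_pow_mem (hS : Square G Z n L) (a : ℕ) : L ^ a ∈ G.R a := by
  simpa using G.pow_mem' hS.L_mem a

theorem q_LL_mem (hS : Square G Z n L) : LL L ∈ Z.R 1 := by
  refine (Z.R 1).add_mem ?_ ?_
  · simpa using hS.tensor 1 0 L hS.L_mem 1 G.one_mem
  · simpa using hS.tensor 0 1 1 G.one_mem L hS.L_mem

theorem q_Om_mem (hS : Square G Z n L) {f : Module.End K V} (hf : f ∈ G.R 0) (r : ℕ) :
    qOm L f r ∈ Z.R r := by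
  refine Submodule.sum_mem _ fun a ha => Submodule.smul_mem _ _ ?_
  have ha' : a ≤ r := Nat.lt_succ_iff.1 (Finset.mem_range.1 ha)
  have h := hS.tensor _ _ _ (G.mul_mem' (q_pow_mem hS a) hf (add_zero _))
    _ (G.mul_mem' (q_pow_mem hS (r - a)) hf (add_zero _))
  have h2 : (a : ℤ) + ((r - a : ℕ) : ℤ) = r := by omega
  rwa [h2] at h

theorem q_W_mem (hS : Square G Z n L) (r : ℕ) {g : Module.End K V} (hg : g ∈ G.R (-r)) :
    qW L g r ∈ Z.R (-r) := by
  refine Submodule.sum_mem _ fun a ha => Submodule.smul_mem _ _ ?_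
  have ha' : a ≤ r := Nat.lt_succ_iff.1 (Finset.mem_range.1 ha)
  have h := hS.tensor _ _ _ (G.mul_mem' hg (q_pow_mem hS a) rfl)
    _ (G.mul_mem' hg (q_pow_mem hS (r - a)) rfl)
  have h2 : (-(r : ℤ) + (a : ℤ)) + (-(r : ℤ) + ((r - a : ℕ) : ℤ)) = -r := by omega
  rwa [h2] at h

/-- the trace formula (*) -/
theorem q_trace (hS : Square G Z n L) (r : ℕ) {f g : Module.End K V} (hf : f ∈ G.R 0)
    (hg : g ∈ G.R (-r)) (c : ℤ) :
    LinearMap.trace K _ (qW L g r * qOm L f r * Z.pr c) =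
      (-1 : K) ^ r * (r + 1) * ∑ i ∈ Finset.Icc (0 : ℤ) (2 * n),
        LinearMap.trace K V (g * L ^ r * f * G.pr i) *
          LinearMap.trace K V (g * L ^ r * f * G.pr (c - i)) := by
  classical
  -- the one factor traces
  have hT : ∀ a b : ℕ, ∀ i, LinearMap.trace K V (g * L ^ a * (L ^ b * f) * G.pr i) =
      if a + b = r then LinearMap.trace K V (g * L ^ r * f * G.pr i) else 0 := by
    intro a b i
    have h1 : g * L ^ a * (L ^ b * f) = g * L ^ (a + b) * f := by
      rw [pow_add]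
      simp only [mul_assoc]
    rw [h1]
    split_ifs with h
    · rw [h]
    · have h2 : g * L ^ (a + b) * f ∈ G.R (-(r : ℤ) + ((a + b : ℕ) : ℤ)) :=
        G.mul_mem' (G.mul_mem' hg (q_pow_mem hS (a + b)) rfl) hf (add_zero _)
      refine GrAlg.trace_pr_of_ne h2 ?_ i
      intro h3
      apply h
      omega
  have h1 : qW L g r * qOm L f r * Z.pr c =
      ∑ i ∈ Finset.Icc (0 : ℤ) (2 * n), ∑ a ∈ Finset.range (r + 1), ∑ b ∈ Finset.range (r + 1),
        ((-1 : K) ^ a * (-1 : K) ^ b) • TensorProduct.map (g * L ^ a * (L ^ b * f) * G.pr i)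
          (g * L ^ (r - a) * (L ^ (r - b) * f) * G.pr (c - i)) := by
    rw [hS.prZ, prT, Finset.mul_sum]
    refine Finset.sum_congr rfl fun i _ => ?_
    rw [qW, qOm, Finset.sum_mul_sum, Finset.sum_mul]
    refine Finset.sum_congr rfl fun a _ => ?_
    rw [Finset.sum_mul]
    refine Finset.sum_congr rfl fun b _ => ?_
    rw [smul_mul_assoc, mul_smul_comm, smul_mul_assoc, smul_mul_assoc, smul_smul,
      ← TensorProduct.map_mul, ← TensorProduct.map_mul]
  rw [h1, map_sum, Finset.mul_sum]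
  refine Finset.sum_congr rfl fun i _ => ?_
  rw [map_sum]
  have h2 : ∀ a ∈ Finset.range (r + 1), LinearMap.trace K (V ⊗[K] V)
      (∑ b ∈ Finset.range (r + 1), ((-1 : K) ^ a * (-1 : K) ^ b) •
        TensorProduct.map (g * L ^ a * (L ^ b * f) * G.pr i)
          (g * L ^ (r - a) * (L ^ (r - b) * f) * G.pr (c - i))) =
      (-1 : K) ^ r * (LinearMap.trace K V (g * L ^ r * f * G.pr i) *
          LinearMap.trace K V (g * L ^ r * f * G.pr (c - i))) := by
    intro a ha
    have ha' : a ≤ r := Nat.lt_succ_iff.1 (Finset.mem_range.1 ha)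
    rw [map_sum, Finset.sum_eq_single (r - a)]
    · rw [map_smul, LinearMap.trace_tensorProduct', hT, hT, if_pos (by omega),
        if_pos (by omega), ← pow_add, show a + (r - a) = r by omega, smul_eq_mul]
    · intro b hb hba
      have hb' : b ≤ r := Nat.lt_succ_iff.1 (Finset.mem_range.1 hb)
      rw [map_smul, LinearMap.trace_tensorProduct', hT, if_neg (by omega), zero_mul, smul_zero]
    · intro h
      exact absurd (Finset.mem_range.2 (by omega)) h
  rw [Finset.sum_congr rfl h2, Finset.sum_const, Finset.card_range, nsmul_eq_mul]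
  push_cast
  ring

/-- below the middle degree -/
theorem q_low (h1 : StInj) (hS : Square G Z n L) {w : Module.End K (V ⊗[K] V)}
    (hw : QInv Z L w) (r : ℤ) {Om : Module.End K (V ⊗[K] V)} (hOm : Om ∈ Z.R r) (c : ℤ)
    (hc : Even (c + 2 * r)) (hlt : c + 2 * r < 2 * n) :
    Om * Z.pr c = w * (LL L * Om) * Z.pr c := by
  have hX : Om - w * (LL L * Om) ∈ Z.R r :=
    (Z.R r).sub_mem hOm (Z.mul_mem' hw.mem (Z.mul_mem' (q_LL_mem hS) hOm rfl) (by ring))
  have hcX := Z.comm r _ hX c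
  have hcO := Z.comm r _ hOm c
  have hev := hw.even _ hc
  rw [← sub_eq_zero, ← sub_mul]
  refine LinearMap.ext fun z => ?_
  rw [LinearMap.zero_apply]
  refine h1 K V n G.pr L hS.lef (c + 2 * r) hlt _ ?_ ?_
  · rw [← hS.prZ]
    have h2 : Z.pr (c + 2 * r) * ((Om - w * (LL L * Om)) * Z.pr c) =
        (Om - w * (LL L * Om)) * Z.pr c := by
      rw [← mul_assoc, ← hcX, mul_assoc, Z.pr_idem]
    exact LinearMap.congr_fun h2 z
  · have h2 : LL L * ((Om - w * (LL L * Om)) * Z.pr c) = 0 := by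
      have h3 : LL L * ((Om - w * (LL L * Om)) * Z.pr c) =
          LL L * (Om * Z.pr c) - LL L * w * LL L * (Om * Z.pr c) := by
        simp only [sub_mul, mul_sub, mul_assoc]
      rw [h3, hcO, ← mul_assoc, ← mul_assoc, hev, sub_self]
    exact LinearMap.congr_fun h2 z

/-- above the middle degree -/
theorem q_high (h2 : StSurj) (hS : Square G Z n L) {w : Module.End K (V ⊗[K] V)}
    (hw : QInv Z L w) (c : ℤ) (hc : Even c) (hlt : 2 * n < c) :
    LL L * w * Z.pr c = Z.pr c := by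
  refine LinearMap.ext fun z => ?_
  obtain ⟨y, hy1, hy2⟩ := h2 K V n G.pr L hS.lef c hlt (Z.pr c z) (by
    rw [← hS.prZ]
    exact LinearMap.congr_fun (Z.pr_idem c) z)
  have hc2 : Even (c - 2) := hc.sub (by decide)
  have hev := LinearMap.congr_fun (hw.even _ hc2) y
  rw [← hS.prZ] at hy1
  have h3 : (LL L * w * LL L) y = LL L y := by
    have h4 : (LL L * w * LL L) (Z.pr (c - 2) y) = LL L (Z.pr (c - 2) y) := hev
    rwa [hy1] at h4
  have h5 : (LL L * w) (LL L y) = LL L y := h3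
  rw [hy2] at h5
  exact h5

end

/-- **Lemma Q.** -/
theorem tQ (h1 : StInj) (h2 : StSurj) (h3 : StAB) : StQ := by
  intro K V _ _ _ _ _ G Z n L w hS hw r f hf g hg hLf hgL j hj
  classical
  set t : ℤ → K := fun i => LinearMap.trace K V (g * L ^ r * f * G.pr i) with ht
  have htr : ∀ c, LinearMap.trace K _ (qW L g r * qOm L f r * Z.pr c) =
      (-1 : K) ^ r * (r + 1) * ∑ i ∈ Finset.Icc (0 : ℤ) (2 * n), t i * t (c - i) := fun c =>
    q_trace hS r hf hg c
  have hOm := q_Om_mem hS hf r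
  have hW := q_W_mem hS r hg
  -- `H Om` and `W H` are in the radical
  have hHO : LL L * qOm L f r ∈ Z.N (r + 1) := by
    rw [q_LL_Om]
    have hLf' : L ^ (r + 1) * f ∈ G.R ((r : ℤ) + 1) := hLf.1
    refine (Z.N _).add_mem ?_ (Submodule.smul_mem _ _ ?_)
    · have h := (h3 K V G Z n L hS 0 (r + 1) f hf _ hLf').2.1 hLf
      rwa [zero_add] at h
    · have h := (h3 K V G Z n L hS (r + 1) 0 _ hLf' f hf).1 hLf
      rwa [add_zero] at h
  have hWH : qW L g r * LL L ∈ Z.N (-r + 1) := by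
    rw [q_W_LL]
    refine (Z.N _).add_mem ?_ (Submodule.smul_mem _ _ ?_)
    · exact (h3 K V G Z n L hS (-r) 1 g hg _ hgL.1).2.1 hgL
    · have h := (h3 K V G Z n L hS 1 (-r) _ hgL.1 g hg).1 hgL
      rwa [add_comm] at h
  -- vanishing of the traces
  have hlow : ∀ i : ℤ, i < n - r →
      LinearMap.trace K _ (qW L g r * qOm L f r * Z.pr (2 * i)) = 0 := by
    intro i hi
    have h4 := q_low h1 hS hw r hOm (2 * i) ((even_two_mul i).add (even_two_mul _)) (by omega)
    have h5 : qW L g r * qOm L f r * Z.pr (2 * i) =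
        (qW L g r * w * (LL L * qOm L f r)) * Z.pr (2 * i) := by
      rw [mul_assoc, h4]
      simp only [mul_assoc]
    rw [h5, LinearMap.trace_mul_comm]
    refine GrAlg.N_trace_pr (GrAlg.N_left hHO (Z.mul_mem' hW hw.mem rfl) ?_) _
    ring
  have hhigh : ∀ i : ℤ, n - r < i →
      LinearMap.trace K _ (qW L g r * qOm L f r * Z.pr (2 * i)) = 0 := by
    intro i hi
    have h4 := q_high h2 hS hw (2 * i + 2 * r) ((even_two_mul i).add (even_two_mul _)) (by omega)
    have h5 : qW L g r * qOm L f r * Z.pr (2 * i) =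
        ((qW L g r * LL L) * (w * qOm L f r)) * Z.pr (2 * i) := by
      rw [mul_assoc, Z.comm r _ hOm, ← h4]
      simp only [mul_assoc]
      rw [← Z.comm r _ hOm]
    rw [h5, LinearMap.trace_mul_comm]
    refine GrAlg.N_trace_pr (GrAlg.N_right hWH (Z.mul_mem' hw.mem hOm rfl) ?_) _
    ring
  -- the extremal index
  by_contra hne
  have hne' : t j ≠ 0 := hne
  have hout : ∀ i, i < 0 ∨ 2 * (n : ℤ) < i → t i = 0 := fun i hi => by
    show LinearMap.trace K V (g * L ^ r * f * G.pr i) = 0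
    rw [hS.lef.out i hi, mul_zero, map_zero]
  have hin : ∀ i, t i ≠ 0 → 0 ≤ i ∧ i ≤ 2 * n := fun i hi => by
    constructor
    · by_contra h
      exact hi (hout i (Or.inl (by omega)))
    · by_contra h
      exact hi (hout i (Or.inr (by omega)))
  have hnz : ∀ i, t i ≠ 0 → (∀ k, k ≠ i → t k * t (2 * i - k) = 0) →
      LinearMap.trace K _ (qW L g r * qOm L f r * Z.pr (2 * i)) ≠ 0 := by
    intro i hi hk
    rw [htr, Finset.sum_eq_single i (fun k _ hki => hk k hki)
      (fun h => absurd (Finset.mem_Icc.2 (hin i hi)) h), show 2 * i - i = i by ring]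
    refine mul_ne_zero (mul_ne_zero (pow_ne_zero _ (neg_ne_zero.2 one_ne_zero)) ?_)
      (mul_ne_zero hi hi)
    exact Nat.cast_add_one_ne_zero r
  set S : Finset ℤ := (Finset.Icc (0 : ℤ) (2 * n)).filter (fun i => t i ≠ 0) with hSdef
  have hmem : ∀ i, i ∈ S ↔ t i ≠ 0 := fun i => by
    rw [hSdef, Finset.mem_filter, Finset.mem_Icc]
    exact ⟨fun h => h.2, fun h => ⟨hin i h, h⟩⟩
  have hSne : S.Nonempty := ⟨j, (hmem j).2 hne'⟩
  rcases lt_or_gt_of_ne hj with hlt | hgt
  · -- least index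
    have hmin : ∀ k, k < S.min' hSne → t k = 0 := fun k hk => by
      by_contra h
      exact absurd (S.min'_le k ((hmem k).2 h)) (not_le.2 hk)
    have h0 : t (S.min' hSne) ≠ 0 := (hmem _).1 (S.min'_mem hSne)
    have hle : S.min' hSne ≤ j := S.min'_le j ((hmem j).2 hne')
    refine hnz _ h0 ?_ (hlow _ (by omega))
    intro k hk
    rcases lt_or_gt_of_ne hk with h | h
    · rw [hmin k h, zero_mul]
    · rw [hmin (2 * S.min' hSne - k) (by omega), mul_zero]
  · have hmax : ∀ k, S.max' hSne < k → t k = 0 := fun k hk => by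
      by_contra h
      exact absurd (S.le_max' k ((hmem k).2 h)) (not_le.2 hk)
    have h0 : t (S.max' hSne) ≠ 0 := (hmem _).1 (S.max'_mem hSne)
    have hle : j ≤ S.max' hSne := S.le_max' j ((hmem j).2 hne')
    refine hnz _ h0 ?_ (hhigh _ (by omega))
    intro k hk
    rcases lt_or_gt_of_ne hk with h | h
    · rw [hmax (2 * S.max' hSne - k) (by omega), mul_zero]
    · rw [hmax k h, zero_mul]

end Pool.Agent.Lib.MP_4ca46c_ag.Sign
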