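import Mathlib
import Pool.Agent.Lib.MP_4ca46c_ag.Sign.SpecA

/-!
# The sign conjecture for `X`
-/

namespace Pool.Agent.Lib.MP_4ca46c_ag.Sign

open Module TensorProduct LinearMap

section sgnaux

variable {K V W : Type} [Field K] [AddCommGroup V] [Module K V] [AddCommGroup W] [Module K W]
  [FiniteDimensional K V] [FiniteDimensional K W]

theorem sgn_ptrR_mul (u : Module.End K (V ⊗[K] W)) (f : Module.End K V) :
    ptrR (u * TensorProduct.map f 1) = ptrR u * f := by
  induction u using end_tensor_induction with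
  | h0 => simp
  | hadd u v hu hv => simp only [add_mul, map_add, hu, hv]
  | hmap a b => rw [ptrR_map, ← TensorProduct.map_mul, mul_one, ptrR_map, smul_mul_assoc]

end sgnaux

section sgnmain

variable {K V : Type} [Field K] [AddCommGroup V] [Module K V] {n : ℕ} {pr : ℤ → Module.End K V}
  {L : Module.End K V}

theorem sgn_mul_pr (h : LefMod n pr L) {i : ℤ} (hi : i ∈ Finset.Icc (0 : ℤ) (2 * n)) :
    sgn n pr * pr i = (if Even i then (1 : K) else -1) • pr i := by
  rw [sgn, Finset.sum_mul, Finset.sum_eq_single i]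
  · rw [smul_mul_assoc, h.pr_mul, if_pos rfl]
  · intro k _ hk
    rw [smul_mul_assoc, h.pr_mul, if_neg hk, smul_zero]
  · intro hi'
    exact absurd hi hi'

theorem sgn_pr_mul (h : LefMod n pr L) {i : ℤ} (hi : i ∈ Finset.Icc (0 : ℤ) (2 * n)) :
    pr i * sgn n pr = (if Even i then (1 : K) else -1) • pr i := by
  rw [sgn, Finset.mul_sum, Finset.sum_eq_single i]
  · rw [mul_smul_comm, h.pr_mul, if_pos rfl]
  · intro k _ hk
    rw [mul_smul_comm, h.pr_mul, if_neg (Ne.symm hk), smul_zero]
  · intro hi'
    exact absurd hi hi'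

theorem sgn_deg (h : LefMod n pr L) {i : ℤ} (hi : i ∈ Finset.Icc (0 : ℤ) (2 * n)) :
    prT n pr i * TensorProduct.map (pr i) (pr 0) = TensorProduct.map (pr i) (pr 0) := by
  rw [prT, Finset.sum_mul, Finset.sum_eq_single i]
  · rw [← TensorProduct.map_mul, sub_self, h.pr_mul, if_pos rfl, h.pr_mul, if_pos rfl]
  · intro k _ hk
    rw [← TensorProduct.map_mul, h.pr_mul, if_neg hk, TensorProduct.map_zero_left]
  · intro hi'
    exact absurd hi hi'

theorem sgn_trace [CharZero K] [FiniteDimensional K V] (h : LefMod n pr L) (h0 : pr 0 ≠ 0) :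
    ∃ m : ℕ, m ≠ 0 ∧ LinearMap.trace K V (pr 0) = m := by
  have hid : IsIdempotentElem (pr 0) := by
    change pr 0 * pr 0 = pr 0
    rw [h.pr_mul, if_pos rfl]
  have hproj := LinearMap.IsIdempotentElem.isProj_range (pr 0) hid
  refine ⟨finrank K (LinearMap.range (pr 0)), ?_, hproj.trace⟩
  intro hf
  apply h0
  rw [Submodule.finrank_eq_zero, LinearMap.range_eq_bot] at hf
  exact hf

end sgnmain

/-- StSgn -/
theorem tSgn (h1 : StInj) : StSgn := by
  intro K V _ _ _ _ _ n pr L A B w h hw heven hodd
  have hlef := h.lef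
  have h00 : (0 : ℤ) ∈ Finset.Icc (0 : ℤ) (2 * n) := Finset.mem_Icc.2 ⟨le_rfl, by omega⟩
  -- `H` is in `B 1`
  have hH : LL L ∈ B 1 := by
    have e1 := h.tensor 1 0 L h.L_mem 1 h.ratA.one
    have e2 := h.tensor 0 1 1 h.ratA.one L h.L_mem
    rw [add_zero] at e1
    rw [zero_add] at e2
    exact (B 1).add_mem e1 e2
  have hwH : w * LL L ∈ B 0 := by
    have := h.ratB.mul _ _ _ hw _ hH
    rwa [neg_add_cancel] at this
  have hu : w * LL L * TensorProduct.map 1 (pr 0) ∈ B 0 := by
    have e1 := h.tensor 0 0 1 h.ratA.one (pr 0) h.pr_zero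
    have := h.ratB.mul _ _ _ hwH _ e1
    rwa [add_zero, add_zero] at this
  have he : ptrR (w * LL L * TensorProduct.map 1 (pr 0)) ∈ A 0 := by
    have e1 := h.ptr 0 _ hu
    rwa [mul_assoc (w * LL L), ← TensorProduct.map_mul, one_mul, sgn_pr_mul hlef h00,
      if_pos Even.zero, one_smul] at e1
  -- the action on the graded pieces
  have key : ∀ i ∈ Finset.Icc (0 : ℤ) (2 * n), i < 2 * n →
      w * LL L * TensorProduct.map (pr i) (pr 0) =
        (if Even i then (1 : K) else 0) • TensorProduct.map (pr i) (pr 0) := by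
    intro i hi hin
    have hcomm : w * LL L * prT n pr i = prT n pr i * (w * LL L) := by
      have := h.ratB.comm 0 _ hwH i
      rwa [mul_zero, add_zero] at this
    refine LinearMap.ext fun v => ?_
    rw [Module.End.mul_apply, LinearMap.smul_apply]
    generalize hz' : (TensorProduct.map (pr i) (pr 0)) v = z
    have hz : prT n pr i z = z := by
      rw [← hz', ← Module.End.mul_apply, sgn_deg hlef hi]
    have hd : prT n pr i ((w * LL L) z) = (w * LL L) z := by
      rw [← Module.End.mul_apply, ← hcomm, Module.End.mul_apply, hz]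
    rcases Int.even_or_odd i with hev | hod
    · rw [if_pos hev, one_smul, ← sub_eq_zero]
      refine h1 K V n pr L hlef i hin _ ?_ ?_
      · rw [map_sub, hd, hz]
      · have e1 := congrArg (fun f : Module.End K (V ⊗[K] V) => f z) (heven i hev)
        simp only [Module.End.mul_apply, hz] at e1
        rw [map_sub, Module.End.mul_apply, e1, sub_self]
    · rw [if_neg (Int.not_even_iff_odd.2 hod), zero_smul]
      refine h1 K V n pr L hlef i hin _ hd ?_
      have e1 := congrArg (fun f : Module.End K (V ⊗[K] V) => f z) (hodd i hod)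
      simp only [Module.End.mul_apply, hz, LinearMap.zero_apply] at e1
      rw [Module.End.mul_apply, e1]
  obtain ⟨m, hm, htr⟩ := sgn_trace hlef h.pr_zero_ne
  have hmK : (m : K) ≠ 0 := Nat.cast_ne_zero.2 hm
  have key2 : ∀ i ∈ Finset.Icc (0 : ℤ) (2 * n), i < 2 * n →
      ptrR (w * LL L * TensorProduct.map 1 (pr 0)) * pr i =
        (if Even i then (m : K) else 0) • pr i := by
    intro i hi hin
    rw [← sgn_ptrR_mul, mul_assoc (w * LL L), ← TensorProduct.map_mul, one_mul, mul_one,
      key i hi hin, map_smul, ptrR_map, htr, smul_smul]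
    split_ifs <;> simp
  -- the even projector
  have htop := h.pr_top
  have hplus : ((((1 : ℚ) / m : ℚ) : K) • (ptrR (w * LL L * TensorProduct.map 1 (pr 0)) *
      (1 - pr (2 * n))) + pr (2 * n)) ∈ A 0 := by
    refine (A 0).add_mem (h.ratA.smul 0 _ _ ?_) htop
    have := h.ratA.mul _ _ _ he _ ((A 0).sub_mem h.ratA.one htop)
    rwa [add_zero] at this
  have hfin : sgn n pr = ((((1 : ℚ) / m : ℚ) : K) •
      (ptrR (w * LL L * TensorProduct.map 1 (pr 0)) * (1 - pr (2 * n))) + pr (2 * n)) +
      ((((1 : ℚ) / m : ℚ) : K) •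
      (ptrR (w * LL L * TensorProduct.map 1 (pr 0)) * (1 - pr (2 * n))) + pr (2 * n)) - 1 := by
    have hdec : ∀ f g : Module.End K V, (∀ i ∈ Finset.Icc (0 : ℤ) (2 * n), f * pr i = g * pr i) →
        f = g := by
      intro f g hfg
      rw [← mul_one f, ← mul_one g, ← hlef.sum, Finset.mul_sum, Finset.mul_sum]
      exact Finset.sum_congr rfl hfg
    apply hdec
    intro i hi
    rw [sgn_mul_pr hlef hi]
    have hi' := Finset.mem_Icc.1 hi
    rcases hi'.2.lt_or_eq with hin | hin
    · have e1 : (1 - pr (2 * n)) * pr i = pr i := by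
        rw [sub_mul, one_mul, hlef.pr_mul, if_neg (by omega), sub_zero]
      have e2 : pr (2 * n) * pr i = 0 := by
        rw [hlef.pr_mul, if_neg (by omega)]
      rw [sub_mul, add_mul, add_mul, smul_mul_assoc, mul_assoc, e1, e2, add_zero, key2 i hi hin,
        one_mul, smul_smul]
      rcases Int.even_or_odd i with hev | hod
      · rw [if_pos hev, if_pos hev]
        have e3 : (((1 : ℚ) / m : ℚ) : K) * m = 1 := by
          push_cast
          field_simp
        rw [e3, one_smul, add_sub_cancel_right]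
      · rw [if_neg (Int.not_even_iff_odd.2 hod), if_neg (Int.not_even_iff_odd.2 hod), mul_zero,
          zero_smul, add_zero, zero_sub, neg_smul, one_smul]
    · have e1 : (1 - pr (2 * n)) * pr i = 0 := by
        rw [hin, sub_mul, one_mul, hlef.pr_mul, if_pos rfl, sub_self]
      have e2 : pr (2 * n) * pr i = pr i := by
        rw [hin, hlef.pr_mul, if_pos rfl]
      rw [sub_mul, add_mul, add_mul, smul_mul_assoc, mul_assoc, e1, e2, mul_zero, smul_zero,
        zero_add, one_mul, add_sub_cancel_right, if_pos (by rw [hin]; exact even_two_mul _),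
        one_smul]
  rw [hfin]
  exact (A 0).sub_mem ((A 0).add_mem hplus hplus) h.ratA.one

end Pool.Agent.Lib.MP_4ca46c_ag.Sign
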