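import Pool.Agent.Lib.MP_4ca46c_ag.Sign.SpecA

/-! # BC: conjecture B implies conjecture C -/

namespace Pool.Agent.Lib.MP_4ca46c_ag.Sign

open Module TensorProduct LinearMap

section General

variable {K V : Type} [Field K] [AddCommGroup V] [Module K V]

theorem bc_pow_mem {pr : ℤ → Module.End K V} {A : ℤ → AddSubgroup (Module.End K V)}
    (hA : RatAlg pr A) {Lam : Module.End K V} (h : Lam ∈ A (-1)) (k : ℕ) :
    Lam ^ k ∈ A (-(k : ℤ)) := by
  induction k with
  | zero => simpa using hA.one
  | succ k ih =>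
    have h1 := hA.mul _ _ _ ih _ h
    rw [← pow_succ] at h1
    have e : -(k : ℤ) + -1 = -((k + 1 : ℕ) : ℤ) := by push_cast; ring
    rwa [e] at h1

theorem bc_step (h1 : StPrim) {n : ℕ} {pr : ℤ → Module.End K V} {L Lam : Module.End K V}
    (hL : LefMod n pr L) (hLam : IsLam n pr L Lam) (i : ℕ) :
    i ≤ n → ∀ x, pr i x = x → ∀ m : ℕ, 1 ≤ m → m ≤ n - i →
      Lam ((L ^ m) x) = (L ^ (m - 1)) x := by
  induction i using Nat.strong_induction_on with
  | _ i ih =>
    intro hi x hx m hm1 hm2
    obtain ⟨p, y, hxy, hp, hy, hprim⟩ := h1 K V n pr L hL i (by exact_mod_cast hi)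
      (by positivity) x hx
    have e1 : ((n : ℤ) - i + 1).toNat = n - i + 1 := by omega
    rw [e1] at hprim
    have h2 := hLam i hi p hp hprim m hm2
    rw [if_neg (by omega)] at h2
    have e2 : (L ^ m) (L y) = (L ^ (m + 1)) y := by
      rw [pow_succ, Module.End.mul_apply]
    have e3 : (L ^ (m - 1)) (L y) = (L ^ m) y := by
      obtain ⟨m, rfl⟩ : ∃ m', m = m' + 1 := ⟨m - 1, by omega⟩
      rw [Nat.add_sub_cancel, pow_succ, Module.End.mul_apply]
    have h3 : Lam ((L ^ (m + 1)) y) = (L ^ m) y := by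
      by_cases hi2 : i < 2
      · have h0 : y = 0 := by
          rw [← hy, hL.out _ (Or.inl (by omega))]
          rfl
        rw [h0, map_zero, map_zero, map_zero]
      · have h4 := ih (i - 2) (by omega) (by omega) y (by
          have e : ((i - 2 : ℕ) : ℤ) = (i : ℤ) - 2 := by omega
          rw [e]
          exact hy) (m + 1) (by omega) (by omega)
        rw [h4, Nat.add_sub_cancel]
    rw [hxy, map_add, map_add, map_add, h2, e2, h3, e3]

theorem bc_inv (h1 : StPrim) {n : ℕ} {pr : ℤ → Module.End K V} {L Lam : Module.End K V}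
    (hL : LefMod n pr L) (hLam : IsLam n pr L Lam) (i : ℕ) (hi : i ≤ n) (x : V)
    (hx : pr i x = x) (k : ℕ) : k ≤ n - i →
      (Lam ^ k) ((L ^ (n - i)) x) = (L ^ (n - i - k)) x := by
  induction k with
  | zero => intro _; rfl
  | succ k ih =>
    intro hk
    rw [pow_succ', Module.End.mul_apply, ih (by omega),
      bc_step h1 hL hLam i hi x hx (n - i - k) (by omega) (by omega)]
    congr 2

end General

theorem tBC (h1 : StPrim) (h2 : StInd) : StBC := by
  intro K V _ _ _ _ _ n pr L Lam A hL hA hLA hLamA hLam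
  refine h2 K V n pr L A hL hA hLA fun i hi => ⟨Lam ^ (n - i), bc_pow_mem hA hLamA _, ?_⟩
  ext x
  have hx : pr i (pr i x) = pr i x := by
    rw [← Module.End.mul_apply, hL.pr_mul, if_pos rfl]
  rw [Module.End.mul_apply, Module.End.mul_apply,
    bc_inv h1 hL hLam i hi.le (pr i x) hx (n - i) le_rfl, Nat.sub_self, pow_zero,
    Module.End.one_apply]

end Pool.Agent.Lib.MP_4ca46c_ag.Sign
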