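import Pool.Agent.Lib.MP_4ca46c_ag.Sign.SpecA

/-!
# The operator `L ⊗ 1 + 1 ⊗ L` is injective below the middle
-/

namespace Pool.Agent.Lib.MP_4ca46c_ag.Sign

open Module TensorProduct LinearMap

section

variable {K V : Type} [Field K] [AddCommGroup V] [Module K V] {n : ℕ}
  {pr : ℤ → Module.End K V} {L : Module.End K V}

/-- hard Lefschetz: a left inverse of `L ^ m` on `V^b` -/
theorem inj_left (h : LefMod n pr L) (b : ℤ) (m : ℕ) (hbm : b + m ≤ n) :
    ∃ g : Module.End K V, g * L ^ m * pr b = pr b := by
  by_cases hb : b < 0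
  · refine ⟨0, ?_⟩
    rw [h.out b (Or.inl hb), mul_zero]
  · push Not at hb
    obtain ⟨j, hj⟩ : ∃ j : ℕ, (j : ℤ) = (n : ℤ) - b := ⟨((n : ℤ) - b).toNat, by omega⟩
    obtain ⟨k, hk⟩ : ∃ k : ℕ, j = k + m := ⟨j - m, by omega⟩
    set f : LinearMap.range (pr b) →ₗ[K] V := (L ^ m) ∘ₗ (LinearMap.range (pr b)).subtype with hf
    have hfi : LinearMap.ker f = ⊥ := by
      rw [LinearMap.ker_eq_bot']
      rintro ⟨v, hv⟩ hfv
      obtain ⟨w, rfl⟩ := hv
      have h1 : (L ^ m) (pr b w) = 0 := hfv
      have h2 : pr b (pr b w) = pr b w := by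
        have := congrArg (fun f : Module.End K V => f w) (h.pr_mul b b)
        simpa using this
      have h3 : pr b w = 0 := by
        refine h.inj j (by omega) _ ?_ ?_
        · have e : (n : ℤ) - j = b := by omega
          rw [e]
          exact h2
        · rw [hk, pow_add, Module.End.mul_apply, h1, map_zero]
      exact Subtype.ext h3
    obtain ⟨g', hg'⟩ := f.exists_leftInverse_of_injective hfi
    refine ⟨(LinearMap.range (pr b)).subtype ∘ₗ g', ?_⟩
    apply LinearMap.ext
    intro x
    have h1 := congrArg (fun φ => φ (⟨pr b x, LinearMap.mem_range_self _ x⟩ :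
      LinearMap.range (pr b))) hg'
    simp only [LinearMap.comp_apply, LinearMap.id_apply, hf, Submodule.subtype_apply] at h1
    rw [Module.End.mul_apply, Module.End.mul_apply, LinearMap.comp_apply, h1]
    rfl

theorem inj_step (h : LefMod n pr L) {c : ℤ} {z : V ⊗[K] V} (hz : LL L z = 0) (i : ℤ) :
    TensorProduct.map L 1 (TensorProduct.map (pr i) (pr (c - i)) z) =
      -TensorProduct.map 1 L (TensorProduct.map (pr (i + 2)) (pr (c - (i + 2))) z) := by
  have h1 : TensorProduct.map (pr (i + 2)) (pr (c - i)) * LL L =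
      TensorProduct.map L 1 * TensorProduct.map (pr i) (pr (c - i)) +
      TensorProduct.map 1 L * TensorProduct.map (pr (i + 2)) (pr (c - (i + 2))) := by
    rw [LL, mul_add, ← TensorProduct.map_mul, ← TensorProduct.map_mul, ← TensorProduct.map_mul,
      ← TensorProduct.map_mul, mul_one, mul_one, one_mul, one_mul, h.comm, h.comm]
    have e : c - (i + 2) + 2 = c - i := by ring
    rw [e]
  have h2 := congrArg (fun f : Module.End K (V ⊗[K] V) => f z) h1
  simp only [Module.End.mul_apply, LinearMap.add_apply, hz, map_zero] at h2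
  exact eq_neg_of_add_eq_zero_left h2.symm

theorem inj_pow (h : LefMod n pr L) {c : ℤ} {z : V ⊗[K] V} (hz : LL L z = 0) (a : ℕ) (i : ℤ) :
    TensorProduct.map (L ^ a) 1 (TensorProduct.map (pr i) (pr (c - i)) z) =
      (-1 : K) ^ a • TensorProduct.map 1 (L ^ a)
        (TensorProduct.map (pr (i + 2 * a)) (pr (c - (i + 2 * a))) z) := by
  induction a with
  | zero => simp
  | succ a ih =>
    have e1 : TensorProduct.map (L ^ (a + 1)) (1 : Module.End K V) =
        TensorProduct.map L 1 * TensorProduct.map (L ^ a) 1 := by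
      rw [← TensorProduct.map_mul, one_mul, pow_succ']
    have e2 : TensorProduct.map L (1 : Module.End K V) * TensorProduct.map 1 (L ^ a) =
        TensorProduct.map 1 (L ^ a) * TensorProduct.map L 1 := by
      rw [← TensorProduct.map_mul, ← TensorProduct.map_mul, one_mul, mul_one, one_mul, mul_one]
    have e3 : TensorProduct.map (1 : Module.End K V) (L ^ (a + 1)) =
        TensorProduct.map 1 (L ^ a) * TensorProduct.map 1 L := by
      rw [← TensorProduct.map_mul, one_mul, pow_succ]
    have e4 : i + 2 * ((a + 1 : ℕ) : ℤ) = i + 2 * (a : ℤ) + 2 := by push_cast; ring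
    rw [e1, Module.End.mul_apply, ih, map_smul, ← Module.End.mul_apply, e2, Module.End.mul_apply,
      inj_step h hz, map_neg, e3, e4, Module.End.mul_apply, pow_succ]
    rw [mul_neg_one, neg_smul, smul_neg]

end

theorem tInj : StInj := by
  intro K V _ _ _ _ n pr L h c hc z hzc hz
  set Z : ℤ → V ⊗[K] V := fun i => TensorProduct.map (pr i) (pr (c - i)) z with hZ
  have hneg : ∀ i, i < 0 → Z i = 0 := by
    intro i hi
    simp only [hZ]
    rw [h.out i (Or.inl hi), TensorProduct.map_zero_left, LinearMap.zero_apply]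
  have hpow : ∀ (a : ℕ) (i : ℤ), TensorProduct.map (L ^ a) (1 : Module.End K V) (Z i) =
      (-1 : K) ^ a • TensorProduct.map (1 : Module.End K V) (L ^ a) (Z (i + 2 * a)) := fun a i => inj_pow h hz a i
  have hr : ∀ (i : ℤ) (m : ℕ), c - i + m ≤ n →
      TensorProduct.map (1 : Module.End K V) (L ^ m) (Z i) = 0 →
      Z i = 0 := by
    intro i m him h1
    obtain ⟨g, hg⟩ := inj_left h (c - i) m him
    have h2 : TensorProduct.map (1 : Module.End K V) g * TensorProduct.map 1 (L ^ m) *
        TensorProduct.map (pr i) (pr (c - i)) = TensorProduct.map (pr i) (pr (c - i)) := by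
      rw [← TensorProduct.map_mul, ← TensorProduct.map_mul, one_mul, one_mul, hg]
    have h3 := congrArg (fun f : Module.End K (V ⊗[K] V) => f z) h2
    simp only [Module.End.mul_apply] at h3
    have h4 : TensorProduct.map (1 : Module.End K V) g
      (TensorProduct.map 1 (L ^ m) (Z i)) = Z i := h3
    rw [h1, map_zero] at h4
    exact h4.symm
  have hl : ∀ (i : ℤ) (m : ℕ), i + m ≤ n →
      TensorProduct.map (L ^ m) (1 : Module.End K V) (Z i) = 0 →
      Z i = 0 := by
    intro i m him h1
    obtain ⟨g, hg⟩ := inj_left h i m him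
    have h2 : TensorProduct.map g (1 : Module.End K V) * TensorProduct.map (L ^ m) 1 *
        TensorProduct.map (pr i) (pr (c - i)) = TensorProduct.map (pr i) (pr (c - i)) := by
      rw [← TensorProduct.map_mul, ← TensorProduct.map_mul, one_mul, one_mul, hg]
    have h3 := congrArg (fun f : Module.End K (V ⊗[K] V) => f z) h2
    simp only [Module.End.mul_apply] at h3
    have h4 : TensorProduct.map g (1 : Module.End K V)
      (TensorProduct.map (L ^ m) 1 (Z i)) = Z i := h3
    rw [h1, map_zero] at h4
    exact h4.symm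
  have hstep : ∀ i, Z (i - 2) = 0 → Z i = 0 := by
    intro i hi
    have h1 : ∀ a : ℕ,
        TensorProduct.map (1 : Module.End K V) (L ^ (a + 1)) (Z (i + 2 * a)) = 0 := by
      intro a
      have h2 := hpow (a + 1) (i - 2)
      rw [hi, map_zero] at h2
      have e : i - 2 + 2 * ((a + 1 : ℕ) : ℤ) = i + 2 * (a : ℤ) := by push_cast; ring
      rw [e] at h2
      exact (smul_eq_zero.1 h2.symm).resolve_left (pow_ne_zero _ (by norm_num))
    by_cases hci : c - i - n + 1 ≤ 0
    · have h2 := h1 0
      simp only [Nat.cast_zero, mul_zero, add_zero] at h2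
      exact hr i (0 + 1) (by push_cast; omega) h2
    · push Not at hci
      obtain ⟨a, ha⟩ : ∃ a : ℕ, (a : ℤ) = c - i - n + 1 := ⟨(c - i - n + 1).toNat, by omega⟩
      have h2 := hr (i + 2 * a) (a + 1) (by push_cast; omega) (h1 a)
      have h3 := hpow a i
      rw [h2, map_zero, smul_zero] at h3
      exact hl i a (by omega) h3
  have hall : ∀ k : ℕ, ∀ i : ℤ, i < k → Z i = 0 := by
    intro k
    induction k with
    | zero => exact fun i hi => hneg i (by exact_mod_cast hi)
    | succ k ih =>
      intro i hi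
      exact hstep i (ih (i - 2) (by push_cast at hi; omega))
  have hfin : z = ∑ i ∈ Finset.Icc (0 : ℤ) (2 * n), Z i := by
    conv_lhs => rw [← hzc]
    rw [prT, LinearMap.sum_apply]
  rw [hfin]
  refine Finset.sum_eq_zero fun i _ => ?_
  exact hall (i.toNat + 1) i (by omega)

end Pool.Agent.Lib.MP_4ca46c_ag.Sign
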