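import Mathlib
import Pool.Agent.Lib.MP_4ca46c_ag.Sign.SpecA

/-!
# The operator `Λ`
-/

namespace Pool.Agent.Lib.MP_4ca46c_ag.Sign

open Module TensorProduct LinearMap

section lam

variable {K V : Type} [Field K] [AddCommGroup V] [Module K V] {n : ℕ} {pr : ℤ → Module.End K V}
  {L : Module.End K V} {A : ℤ → AddSubgroup (Module.End K V)}

theorem lam_pow_comm (h : LefMod n pr L) (j : ℕ) (k : ℤ) :
    L ^ j * pr k = pr (k + 2 * j) * L ^ j := by
  induction j with
  | zero => simp
  | succ j ih =>
    rw [pow_succ', mul_assoc, ih, ← mul_assoc, h.comm, mul_assoc]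
    congr 2
    push_cast
    ring

theorem lam_pow_mem (hA : RatAlg pr A) (hL : L ∈ A 1) (j : ℕ) : L ^ j ∈ A j := by
  induction j with
  | zero =>
    rw [pow_zero]
    exact hA.one
  | succ j ih =>
    rw [pow_succ]
    have := hA.mul _ _ _ ih _ hL
    push_cast
    exact this

/-- `L^j x` has degree `a + 2 j` -/
theorem lam_deg (h : LefMod n pr L) (j : ℕ) (a : ℤ) (x : V) (hx : pr a x = x) :
    pr (a + 2 * j) ((L ^ j) x) = (L ^ j) x := by
  have := congrArg (fun f : Module.End K V => f x) (lam_pow_comm h j a)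
  simp only [Module.End.mul_apply, hx] at this
  exact this.symm

/-- other projectors kill `L^j x` -/
theorem lam_kill (h : LefMod n pr L) (a k : ℤ) (x : V) (hx : pr a x = x) (hk : k ≠ a) :
    pr k x = 0 := by
  rw [← hx, ← Module.End.mul_apply, h.pr_mul, if_neg hk, LinearMap.zero_apply]

end lam

/-- StLam -/
theorem tLam : StLam := by
  intro K V _ _ _ _ _ n pr L A h hA hL hpr hθ
  choose! θ hθA hθL using hθ
  -- the modified inverses
  have hθ1 : ∀ k < n, pr (k : ℤ) * θ k ∈ A (-((n - k : ℕ) : ℤ)) := by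
    intro k hk
    have := hA.mul _ _ _ (hpr k) _ (hθA k hk)
    rwa [zero_add] at this
  have hinv : ∀ k < n, ∀ y : V, pr (k : ℤ) y = y → (pr (k : ℤ) * θ k) ((L ^ (n - k)) y) = y := by
    intro k hk y hy
    have h1 := congrArg (fun f : Module.End K V => f y) (hθL k hk)
    simp only [Module.End.mul_apply, hy] at h1
    rw [Module.End.mul_apply, h1, hy]
  refine ⟨∑ k ∈ Finset.range (n - 1), pr (k : ℤ) * θ k * L ^ (n - k - 1) * pr ((k : ℤ) + 2) +
    ∑ i ∈ Finset.range n, L ^ (n - i - 1) * (pr (i : ℤ) * θ i) * pr (2 * (n : ℤ) - i), ?_, ?_⟩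
  · refine (A (-1)).add_mem ((A (-1)).sum_mem fun k hk => ?_) ((A (-1)).sum_mem fun i hi => ?_)
    · rw [Finset.mem_range] at hk
      have h1 := hA.mul _ _ _ (hA.mul _ _ _ (hθ1 k (by omega)) _ (lam_pow_mem hA hL (n - k - 1))) _
        (hpr ((k : ℤ) + 2))
      have h2 : -((n - k : ℕ) : ℤ) + ((n - k - 1 : ℕ) : ℤ) + 0 = -1 := by omega
      rwa [h2] at h1
    · rw [Finset.mem_range] at hi
      have h1 := hA.mul _ _ _ (hA.mul _ _ _ (lam_pow_mem hA hL (n - i - 1)) _ (hθ1 i hi)) _
        (hpr (2 * (n : ℤ) - i))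
      have h2 : ((n - i - 1 : ℕ) : ℤ) + -((n - i : ℕ) : ℤ) + 0 = -1 := by omega
      rwa [h2] at h1
  · intro a ha x hx hprim j hj
    have hdeg := lam_deg h j a x hx
    rw [LinearMap.add_apply, LinearMap.sum_apply, LinearMap.sum_apply]
    by_cases hle : a + 2 * j ≤ n
    · have hsec : ∑ i ∈ Finset.range n, (L ^ (n - i - 1) * (pr (i : ℤ) * θ i) *
          pr (2 * (n : ℤ) - i)) ((L ^ j) x) = 0 := by
        refine Finset.sum_eq_zero fun i hi => ?_
        rw [Finset.mem_range] at hi
        rw [Module.End.mul_apply, lam_kill h _ _ _ hdeg (by omega), map_zero]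
      rw [hsec, add_zero]
      rcases Nat.eq_zero_or_pos j with hj0 | hj0
      · subst hj0
        rw [if_pos rfl]
        refine Finset.sum_eq_zero fun k hk => ?_
        rw [Finset.mem_range] at hk
        by_cases hka : (k : ℤ) + 2 = a
        · have h1 : pr ((k : ℤ) + 2) ((L ^ 0) x) = x := by
            rw [hka, pow_zero, Module.End.one_apply, hx]
          rw [Module.End.mul_apply, h1, Module.End.mul_apply]
          have h2 : n - k - 1 = n - a + 1 := by omega
          rw [h2, hprim, map_zero]
        · rw [Module.End.mul_apply, lam_kill h _ _ _ hdeg (by push_cast; omega), map_zero]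
      · rw [if_neg (by omega), Finset.sum_eq_single (a + 2 * j - 2)]
        · have h1 : ((a + 2 * j - 2 : ℕ) : ℤ) + 2 = (a : ℤ) + 2 * j := by omega
          rw [Module.End.mul_apply, h1, hdeg, Module.End.mul_apply, ← Module.End.mul_apply
            (L ^ (n - (a + 2 * j - 2) - 1)), ← pow_add]
          have h2 : n - (a + 2 * j - 2) - 1 + j = n - (a + 2 * j - 2) + (j - 1) := by omega
          rw [h2, pow_add, Module.End.mul_apply]
          refine hinv _ (by omega) _ ?_
          have h3 := lam_deg h (j - 1) a x hx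
          have h4 : (a : ℤ) + 2 * ((j - 1 : ℕ) : ℤ) = ((a + 2 * j - 2 : ℕ) : ℤ) := by omega
          rwa [h4] at h3
        · intro k hk hka
          rw [Finset.mem_range] at hk
          rw [Module.End.mul_apply, lam_kill h _ _ _ hdeg (by omega), map_zero]
        · intro hk
          rw [Finset.mem_range] at hk
          omega
    · have hfst : ∑ k ∈ Finset.range (n - 1), (pr (k : ℤ) * θ k * L ^ (n - k - 1) *
          pr ((k : ℤ) + 2)) ((L ^ j) x) = 0 := by
        refine Finset.sum_eq_zero fun k hk => ?_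
        rw [Finset.mem_range] at hk
        rw [Module.End.mul_apply, lam_kill h _ _ _ hdeg (by omega), map_zero]
      rw [hfst, zero_add, if_neg (by omega), Finset.sum_eq_single (2 * n - a - 2 * j)]
      · have h1 : 2 * (n : ℤ) - ((2 * n - a - 2 * j : ℕ) : ℤ) = (a : ℤ) + 2 * j := by omega
        rw [Module.End.mul_apply, h1, hdeg, Module.End.mul_apply]
        have h2 : j = (n - (2 * n - a - 2 * j)) + (n - a - j) := by omega
        have h3 : (L ^ j) x = (L ^ (n - (2 * n - a - 2 * j))) ((L ^ (n - a - j)) x) := by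
          rw [← Module.End.mul_apply, ← pow_add, ← h2]
        rw [h3, hinv (2 * n - a - 2 * j) (by omega), ← Module.End.mul_apply, ← pow_add]
        · congr 2
          omega
        · have h5 := lam_deg h (n - a - j) a x hx
          have h6 : (a : ℤ) + 2 * ((n - a - j : ℕ) : ℤ) = ((2 * n - a - 2 * j : ℕ) : ℤ) := by omega
          rwa [h6] at h5
      · intro i hi hia
        rw [Finset.mem_range] at hi
        rw [Module.End.mul_apply, lam_kill h _ _ _ hdeg (by omega), map_zero]
      · intro hi
        rw [Finset.mem_range] at hi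
        omega

end Pool.Agent.Lib.MP_4ca46c_ag.Sign
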