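import Pool.Agent.Lib.MP_4ca46c_ag.Sign.SpecA

/-!
# Primitive decomposition, one step
-/

namespace Pool.Agent.Lib.MP_4ca46c_ag.Sign

open Module TensorProduct LinearMap

theorem prim_comm_pow {K V : Type} [Field K] [AddCommGroup V] [Module K V] {n : ℕ}
    {pr : ℤ → Module.End K V} {L : Module.End K V} (h : LefMod n pr L) (j : ℕ) (k : ℤ) :
    L ^ j * pr k = pr (k + 2 * j) * L ^ j := by
  induction j with
  | zero => simp
  | succ j ih =>
    rw [pow_succ', mul_assoc, ih, ← mul_assoc, h.comm, mul_assoc]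
    have e : k + 2 * ((j + 1 : ℕ) : ℤ) = k + 2 * (j : ℤ) + 2 := by push_cast; ring
    rw [e]

/-- the degree of `L ^ j x` -/
theorem prim_deg {K V : Type} [Field K] [AddCommGroup V] [Module K V] {n : ℕ}
    {pr : ℤ → Module.End K V} {L : Module.End K V} (h : LefMod n pr L) (j : ℕ) {k l : ℤ} {x : V}
    (hx : pr k x = x) (hl : k + 2 * j = l) : pr l ((L ^ j) x) = (L ^ j) x := by
  have h1 := congrArg (fun f : Module.End K V => f x) (prim_comm_pow h j k)
  simp only [Module.End.mul_apply, hx] at h1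
  rw [← hl]
  exact h1.symm

theorem prim_zero {K V : Type} [Field K] [AddCommGroup V] [Module K V] {n : ℕ}
    {pr : ℤ → Module.End K V} {L : Module.End K V} (h : LefMod n pr L) {k : ℤ} {x : V}
    (hx : pr k x = x) (hk : k < 0 ∨ 2 * (n : ℤ) < k) : x = 0 := by
  rw [← hx, h.out k hk, LinearMap.zero_apply]

theorem tPrim : StPrim := by
  intro K V _ _ _ n pr L h i hin hi0 x hx
  obtain ⟨m, hm⟩ : ∃ m : ℕ, (m : ℤ) = (n : ℤ) - i + 1 := ⟨((n : ℤ) - i + 1).toNat, by omega⟩
  have hmt : ((n : ℤ) - i + 1).toNat = m := by omega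
  rw [hmt]
  by_cases h2 : i < 2
  · refine ⟨x, 0, by simp, hx, by simp, ?_⟩
    exact prim_zero h (prim_deg h m hx (l := i + 2 * m) rfl) (Or.inr (by omega))
  · have h3 : pr ((n : ℤ) + ((m + 1 : ℕ) : ℤ)) ((L ^ m) x) = (L ^ m) x :=
      prim_deg h m hx (by push_cast; omega)
    obtain ⟨y, hy, hyx⟩ := h.surj (m + 1) (by omega) _ h3
    have e : (n : ℤ) - ((m + 1 : ℕ) : ℤ) = i - 2 := by push_cast; omega
    rw [e] at hy
    have hLy : pr i (L y) = L y := by
      have := prim_deg h 1 hy (l := i) (by push_cast; ring)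
      rwa [pow_one] at this
    refine ⟨x - L y, y, by abel, by rw [map_sub, hx, hLy], hy, ?_⟩
    rw [map_sub, ← hyx, pow_succ, Module.End.mul_apply, sub_self]

end Pool.Agent.Lib.MP_4ca46c_ag.Sign
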