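import Pool.Agent.Lib.MP_4ca46c_ag.Sign.Prim

/-!
# The operator `L ⊗ 1 + 1 ⊗ L` is surjective above the middle
-/

namespace Pool.Agent.Lib.MP_4ca46c_ag.Sign

open Module TensorProduct LinearMap

section

variable {K V : Type} [Field K] [AddCommGroup V] [Module K V] [FiniteDimensional K V] {n : ℕ}
  {pr : ℤ → Module.End K V} {L : Module.End K V}

/-- the images of the elements of degree `c - 2` -/
noncomputable def surjS (n : ℕ) (pr : ℤ → Module.End K V) (L : Module.End K V) (c : ℤ) :
    Submodule K (V ⊗[K] V) :=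
  (LinearMap.ker (prT n pr (c - 2) - 1)).map (LL L)

theorem surj_deg (h : LefMod n pr L) {a b c : ℤ} {x y : V} (hx : pr a x = x) (hy : pr b y = y)
    (hc : a + b = c) : prT n pr c (x ⊗ₜ[K] y) = x ⊗ₜ[K] y := by
  by_cases ha : a < 0 ∨ 2 * (n : ℤ) < a
  · have : x = 0 := prim_zero h hx ha
    rw [this, TensorProduct.zero_tmul, map_zero]
  · rw [prT, LinearMap.sum_apply, Finset.sum_eq_single a]
    · rw [TensorProduct.map_tmul, hx]
      have e : c - a = b := by omega
      rw [e, hy]
    · intro i _ hi
      rw [TensorProduct.map_tmul]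
      have h1 : pr i x = 0 := by
        rw [← hx, ← Module.End.mul_apply, h.pr_mul, if_neg hi, LinearMap.zero_apply]
      rw [h1, TensorProduct.zero_tmul]
    · intro hn
      exfalso
      apply hn
      rw [Finset.mem_Icc]
      push Not at ha
      exact ha

/-- the basic congruence -/
theorem surj_rel (h : LefMod n pr L) {a b c : ℤ} {x y : V} (hx : pr a x = x) (hy : pr b y = y)
    (hc : a + b + 2 = c) : L x ⊗ₜ[K] y + x ⊗ₜ[K] L y ∈ surjS n pr L c := by
  refine ⟨x ⊗ₜ[K] y, ?_, ?_⟩
  · change (prT n pr (c - 2) - 1) (x ⊗ₜ[K] y) = 0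
    rw [LinearMap.sub_apply, surj_deg h hx hy (by omega), Module.End.one_apply, sub_self]
  · rw [LL, LinearMap.add_apply, TensorProduct.map_tmul, TensorProduct.map_tmul,
      Module.End.one_apply, Module.End.one_apply]

theorem surj_move (h : LefMod n pr L) (s : ℕ) {a b c : ℤ} {x y : V} (hx : pr a x = x)
    (hy : pr b y = y) (hc : a + b + 2 * s = c) :
    (L ^ s) x ⊗ₜ[K] y ∈ surjS n pr L c ↔ x ⊗ₜ[K] (L ^ s) y ∈ surjS n pr L c := by
  induction s generalizing b y with
  | zero => simp
  | succ s ih =>
    have hLs : pr (a + 2 * s) ((L ^ s) x) = (L ^ s) x := prim_deg h s hx rfl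
    have h1 := surj_rel h hLs hy (c := c) (by push_cast at hc; omega)
    have hLy : pr (b + 2) (L y) = L y := by
      have := prim_deg h 1 hy (l := b + 2) (by push_cast; ring)
      rwa [pow_one] at this
    have h2 := ih (b := b + 2) (y := L y) hLy (by push_cast at hc; omega)
    rw [← Module.End.mul_apply, ← pow_succ'] at h1
    rw [← Module.End.mul_apply, ← pow_succ] at h2
    rw [← h2]
    constructor
    · intro h3
      have := Submodule.sub_mem _ h1 h3
      rwa [add_sub_cancel_left] at this
    · intro h3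
      have := Submodule.sub_mem _ h1 h3
      rwa [add_sub_cancel_right] at this

theorem surj_prim (h : LefMod n pr L) {a b c : ℤ} {x y : V} (hx : pr a x = x) (hy : pr b y = y)
    (hc : a + b = c) (hcn : 2 * n < c) (ha : a ≤ n)
    (hp : (L ^ ((n : ℤ) - a + 1).toNat) x = 0) : x ⊗ₜ[K] y ∈ surjS n pr L c := by
  obtain ⟨m, hm⟩ : ∃ m : ℕ, (m : ℤ) = b - n := ⟨(b - n).toNat, by omega⟩
  by_cases hmn : n < m
  · have : y = 0 := prim_zero h hy (Or.inr (by omega))
    rw [this, TensorProduct.tmul_zero]
    exact Submodule.zero_mem _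
  · push Not at hmn
    have e : b = (n : ℤ) + m := by omega
    rw [e] at hy
    obtain ⟨y', hy', rfl⟩ := h.surj m hmn y hy
    rw [← surj_move h m hx hy' (by omega)]
    obtain ⟨k, hk⟩ : ∃ k : ℕ, m = k + ((n : ℤ) - a + 1).toNat :=
      ⟨m - ((n : ℤ) - a + 1).toNat, by omega⟩
    rw [hk, pow_add, Module.End.mul_apply, hp, map_zero, TensorProduct.zero_tmul]
    exact Submodule.zero_mem _

theorem surj_low (h1 : StPrim) (h : LefMod n pr L) (c : ℤ) (hcn : 2 * n < c) (k : ℕ) :
    ∀ (a b : ℤ) (x y : V), a < k → pr a x = x → pr b y = y → a + b = c → a ≤ n →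
      x ⊗ₜ[K] y ∈ surjS n pr L c := by
  induction k with
  | zero =>
    intro a b x y hak hx hy hc ha
    have : x = 0 := prim_zero h hx (Or.inl (by exact_mod_cast hak))
    rw [this, TensorProduct.zero_tmul]
    exact Submodule.zero_mem _
  | succ k ih =>
    intro a b x y hak hx hy hc ha
    by_cases ha0 : a < 0
    · have : x = 0 := prim_zero h hx (Or.inl ha0)
      rw [this, TensorProduct.zero_tmul]
      exact Submodule.zero_mem _
    · push Not at ha0
      obtain ⟨p, x', hxp, hp, hx', hLp⟩ := h1 K V n pr L h a ha ha0 x hx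
      rw [hxp, TensorProduct.add_tmul]
      refine Submodule.add_mem _ (surj_prim h hp hy hc hcn ha hLp) ?_
      have h2 := surj_move h 1 hx' hy (c := c) (by push_cast; omega)
      rw [pow_one] at h2
      rw [h2]
      have hLy : pr (b + 2) (L y) = L y := by
        have := prim_deg h 1 hy (l := b + 2) (by push_cast; ring)
        rwa [pow_one] at this
      exact ih (a - 2) (b + 2) x' (L y) (by push_cast at hak; omega) hx' hLy (by omega) (by omega)

theorem surj_all (h1 : StPrim) (h : LefMod n pr L) (c : ℤ) (hcn : 2 * n < c) (a b : ℤ) (x y : V)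
    (hx : pr a x = x) (hy : pr b y = y) (hc : a + b = c) : x ⊗ₜ[K] y ∈ surjS n pr L c := by
  by_cases ha : a ≤ n
  · exact surj_low h1 h c hcn (a.toNat + 1) a b x y (by omega) hx hy hc ha
  · push Not at ha
    by_cases ha2 : 2 * (n : ℤ) < a
    · have : x = 0 := prim_zero h hx (Or.inr ha2)
      rw [this, TensorProduct.zero_tmul]
      exact Submodule.zero_mem _
    · obtain ⟨m, hm⟩ : ∃ m : ℕ, (m : ℤ) = a - n := ⟨(a - n).toNat, by omega⟩
      have e : a = (n : ℤ) + m := by omega
      rw [e] at hx
      obtain ⟨x', hx', rfl⟩ := h.surj m (by omega) x hx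
      rw [surj_move h m hx' hy (by omega)]
      have hLy : pr (b + 2 * m) ((L ^ m) y) = (L ^ m) y := prim_deg h m hy rfl
      exact surj_low h1 h c hcn (((n : ℤ) - m).toNat + 1) _ _ _ _ (by omega) hx' hLy (by omega)
        (by omega)

end

theorem tSurj (h1 : StPrim) : StSurj := by
  intro K V _ _ _ _ n pr L h c hc z hz
  have hidem : ∀ i (x : V), pr i (pr i x) = pr i x := by
    intro i x
    have := congrArg (fun f : Module.End K V => f x) (h.pr_mul i i)
    simpa using this
  have hmem : ∀ (i : ℤ) (t : V ⊗[K] V), TensorProduct.map (pr i) (pr (c - i)) t ∈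
      surjS n pr L c := by
    intro i t
    induction t using TensorProduct.induction_on with
    | zero =>
      rw [map_zero]
      exact Submodule.zero_mem _
    | tmul x y =>
      rw [TensorProduct.map_tmul]
      exact surj_all h1 h c hc i (c - i) _ _ (hidem i x) (hidem (c - i) y) (by ring)
    | add u v hu hv =>
      rw [map_add]
      exact Submodule.add_mem _ hu hv
  have hzS : z ∈ surjS n pr L c := by
    rw [← hz, prT, LinearMap.sum_apply]
    exact Submodule.sum_mem _ fun i _ => hmem i z
  obtain ⟨y, hy, hyz⟩ := hzS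
  refine ⟨y, ?_, hyz⟩
  have h2 : (prT n pr (c - 2) - 1) y = 0 := hy
  rw [LinearMap.sub_apply, Module.End.one_apply, sub_eq_zero] at h2
  exact h2

end Pool.Agent.Lib.MP_4ca46c_ag.Sign
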