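import Mathlib
import Pool.Agent.Lib.MP_4ca46c_ag.Sign.Compact

/-!
# The standard conjectures, and generic sections
-/

namespace Pool.Agent.Lib.MP_4ca46c_ag.Sign

open CategoryTheory Limits AlgebraicGeometry TensorProduct

variable {k₀ : Type} [Field k₀] {K : Type} [Field K]

namespace CohData

variable (D : CohData k₀ K)

/-- The iterated Lefschetz operator `u ↦ h^j ∪ u`. -/
def lef {X : Sch k₀} (h : D.CH X) (j : ℕ) (u : D.H X) : D.H X := D.cls h ^ j * u

/-- Hard Lefschetz for the divisor class `h` on `X`, of dimension `n`: the map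
`h^j : H^(n-j)(X) ⟶ H^(n+j)(X)` is injective and surjective. -/
def HardLefschetz {X : Sch k₀} (n : ℕ) (h : D.CH X) : Prop := ∀ j ≤ n,
  (∀ u, D.Deg (n - j) u → D.lef h j u = 0 → u = 0) ∧
    ∀ v, D.Deg (n + j) v → ∃ u, D.Deg (n - j) u ∧ D.lef h j u = v

/-- Cycles of codimension `p : ℤ` (only `0` if `p < 0`). -/
def CodimZ {X : Sch k₀} (p : ℤ) (a : D.CH X) : Prop :=
  (0 ≤ p ∧ D.Codim p.toNat a) ∨ (p < 0 ∧ a = 0)

end CohData

/-- A smooth proper connected variety `X` of dimension `n` over an algebraically closed field `k`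
containing `k₀`, with a divisor class `h` for which hard Lefschetz holds (for instance a smooth
projective variety with an ample class). -/
structure Polarized (D : CohData k₀ K) where
  k : Type
  [field : Field k]
  [algebra : Algebra k₀ k]
  [closed : IsAlgClosed k]
  X : Sch k₀
  str : X ⟶ pt k₀ k
  n : ℕ
  isVar : IsVar str n
  h : D.CH X
  codim_h : D.Codim 1 h
  lefschetz : D.HardLefschetz n h

attribute [instance] Polarized.field Polarized.algebra Polarized.closed

namespace Polarized

variable {D : CohData k₀ K} (V : Polarized D)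

/-- The product `X × X`. -/
noncomputable abbrev sq : Sch k₀ := pullback V.str V.str

/-- The first projection. -/
noncomputable def p₁ : V.sq ⟶ V.X := pullback.fst V.str V.str

/-- The second projection. -/
noncomputable def p₂ : V.sq ⟶ V.X := pullback.snd V.str V.str

/-- The structure morphism of `X × X`. -/
noncomputable def sqStr : V.sq ⟶ pt k₀ V.k := V.p₁ ≫ V.str

/-- The diagonal. -/
noncomputable def diag : V.X ⟶ V.sq := pullback.lift (𝟙 V.X) (𝟙 V.X) rfl

/-- The class `x ⊗ y` on `X × X`. -/
noncomputable def ext (x y : D.H V.X) : D.H V.sq := D.cup (D.pbH V.p₁ x) (D.pbH V.p₂ y)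

/-- The Künneth summand `H^i(X) ⊗ H^j(X)` of `H^(i+j)(X × X)`. -/
noncomputable def box (i j : ℕ) : Submodule K (D.H V.sq) :=
  Submodule.span K {z | ∃ x y, D.Deg i x ∧ D.Deg j y ∧ z = V.ext x y}

/-- The class of the diagonal. -/
noncomputable def diagCls : D.H V.sq := D.cls (D.pf V.diag (D.fund V.X))

/-- The cycles `a_0`, ..., `a_(2n)` represent the Künneth components `π_i` of the class of the
diagonal, in `H^i(X) ⊗ H^(2n-i)(X)`. -/
def IsKunneth (a : ℕ → D.CH V.sq) : Prop :=
  (∀ i ≤ 2 * V.n, D.Codim V.n (a i) ∧ D.cls (a i) ∈ V.box i (2 * V.n - i)) ∧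
    ∑ i ∈ Finset.range (2 * V.n + 1), D.cls (a i) = V.diagCls

/-- The standard conjecture of Künneth type: the Künneth components `π_i` of the class of the
diagonal are classes of cycles with rational coefficients. -/
def KunnethConj : Prop := ∃ a : ℕ → D.CH V.sq, V.IsKunneth a

/-- The sum of the Künneth summands of degree `2n` with `i` even. -/
noncomputable def evenBox : Submodule K (D.H V.sq) :=
  ⨆ (i : ℕ) (_ : i ≤ 2 * V.n ∧ Even i), V.box i (2 * V.n - i)

/-- The sum of the Künneth summands of degree `2n` with `i` odd. -/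
noncomputable def oddBox : Submodule K (D.H V.sq) :=
  ⨆ (i : ℕ) (_ : i ≤ 2 * V.n ∧ Odd i), V.box i (2 * V.n - i)

/-- The sign conjecture: the sum of the Künneth components `π_i` of the class of the diagonal
with `i` even is the class of a cycle `a` with rational coefficients. -/
def SignConj : Prop :=
  ∃ a, D.Codim V.n a ∧ D.cls a ∈ V.evenBox ∧ V.diagCls - D.cls a ∈ V.oddBox

/-- The number `tr (cl a ∪ p₂^* v ∪ p₁^* w)`, that is, the trace of `(p₁_* (cl a ∪ p₂^* v)) ∪ w`. -/
noncomputable def pair (a : D.CH V.sq) (v w : D.H V.X) : K :=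
  D.trace (D.cup (D.cup (D.cls a) (D.pbH V.p₂ v)) (D.pbH V.p₁ w))

/-- The operator `φ` on `H(X)` is given by a correspondence of degree `r`, that is, there is a
cycle `a` of codimension `n + r` on `X × X` with `φ v = p₁_* (cl a ∪ p₂^* v)`. The last equation
is expressed by Poincaré duality. -/
def Algebraic (r : ℤ) (φ : D.H V.X →ₗ[K] D.H V.X) : Prop :=
  ∃ a, D.CodimZ (V.n + r) a ∧ ∀ v w, D.trace (D.cup (φ v) w) = V.pair a v w

/-- `Λ` is the adjoint Lefschetz operator: `Λ (h^j x) = h^(j-1) x` for primitive `x`. -/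
def IsLambda (Λ : D.H V.X →ₗ[K] D.H V.X) : Prop :=
  ∀ i ≤ V.n, ∀ x, D.Deg i x → D.lef V.h (V.n - i + 1) x = 0 → ∀ j ≤ V.n - i,
    Λ (D.lef V.h j x) = if j = 0 then 0 else D.lef V.h (j - 1) x

/-- The standard conjecture of Lefschetz type: the operator `Λ` is algebraic. -/
def LefschetzConj : Prop := ∃ Λ, V.IsLambda Λ ∧ V.Algebraic (-1) Λ

/-- The class `h ⊗ 1 + 1 ⊗ h` on `X × X`. -/
noncomputable def sum : D.H V.sq := D.pbH V.p₁ (D.cls V.h) + D.pbH V.p₂ (D.cls V.h)

end Polarized

section Family

variable {k : Type} [Field k] [Algebra k₀ k] {Z : Sch k₀}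

/-- A family `I ⟶ B` of schemes over `Z`: a scheme `I` with morphisms to `Z` and to the base `B`
of the family, over `Spec k`. -/
structure Family (z : Z ⟶ pt k₀ k) where
  B : Sch k₀
  b : B ⟶ pt k₀ k
  I : Sch k₀
  toZ : I ⟶ Z
  toB : I ⟶ B
  comm : toZ ≫ z = toB ≫ b

namespace Family

variable {z : Z ⟶ pt k₀ k} (Φ : Family z)

/-- The members of the family are subschemes of `Z`, that is, `I ⟶ Z × B` is a monomorphism. -/
def IsSub : Prop := Mono (pullback.lift Φ.toZ Φ.toB Φ.comm)

theorem comm₂ : (pullback.fst Φ.toB Φ.toB ≫ Φ.toZ) ≫ z =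
    (pullback.snd Φ.toB Φ.toB ≫ Φ.toZ) ≫ z := by
  rw [Category.assoc, Category.assoc, Φ.comm, ← Category.assoc, ← Category.assoc,
    pullback.condition]

/-- The morphism `I ×_B I ⟶ Z × Z`: pairs of points on a member of the family. -/
noncomputable def pairs : pullback Φ.toB Φ.toB ⟶ pullback z z :=
  pullback.lift (pullback.fst Φ.toB Φ.toB ≫ Φ.toZ) (pullback.snd Φ.toB Φ.toB ≫ Φ.toZ) Φ.comm₂

/-- The family is complete for pairs of points: two different points of `Z` impose independent
conditions, that is, over the complement `U` of the diagonal of `Z` the pairs of points on members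
of the family form an affine bundle. -/
def Complete : Prop := ∃ (U : Sch k₀) (incl : U ⟶ pullback z z),
  IsComplement (pullback.diagonal z) incl ∧ IsAffineBundle (pullback.snd Φ.pairs incl).left

/-- `η : Spec F ⟶ B` is the generic point of the base. -/
structure IsGeneric {F : Type} [Field F] [Algebra k₀ F] [Algebra k F] [IsScalarTower k₀ k F]
    (η : pt k₀ F ⟶ Φ.B) : Prop where
  comp : η ≫ Φ.b = ptMap k₀ (IsScalarTower.toAlgHom k₀ k F)
  flat : Flat η.left
  mono : Mono η.left
  quasiCompact : QuasiCompact η.left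

end Family

end Family

namespace Polarized

variable {D : CohData k₀ K} (V W : Polarized D)

/-- The class of `Y` in `X × X` is a positive multiple of `h ⊗ 1 + 1 ⊗ h`, for `r : Y ⟶ X × X`. -/
def HasClass (r : W.X ⟶ V.sq) : Prop := ∃ m : ℕ, 0 < m ∧
  ∀ z, D.trace (D.pbH r z) = m * D.trace (D.cup V.sum z)

/-- `Y` has a nonzero cohomology class of odd degree orthogonal to the image of `H(X × X)`. -/
def HasVanishing (r : W.X ⟶ V.sq) : Prop := ∃ (i : ℕ) (y : D.H W.X), Odd i ∧ D.Deg i y ∧
  y ≠ 0 ∧ ∀ z, D.trace (D.cup y (D.pbH r z)) = 0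

end Polarized

/-- `Y` (the variety underlying `W`) is a generic member of a family of closed subschemes of
`Z = X × X` (where `X` underlies `V`) which is complete for pairs of points, for instance a
generic hyperplane section of `Z`.

The family is `I ⊆ Z × B` over a base `B`, with generic point `η : Spec F ⟶ B`; the variety `Y` is
the base change of the generic fibre `Y₀ = I × Spec F` to the algebraic closure of `F`. -/
structure Section {D : CohData k₀ K} (V W : Polarized D) where
  /-- the function field of the base -/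
  F : Type
  [field : Field F]
  [algebra₀ : Algebra k₀ F]
  [algebra : Algebra V.k F]
  [tower : IsScalarTower k₀ V.k F]
  [algebraW : Algebra F W.k]
  [towerW : IsScalarTower k₀ F W.k]
  [closure : IsAlgClosure F W.k]
  /-- the family -/
  Φ : Family V.sqStr
  isSub : Φ.IsSub
  complete : Φ.Complete
  /-- the generic point of the base -/
  η : pt k₀ F ⟶ Φ.B
  isGeneric : Φ.IsGeneric η
  /-- the generic fibre -/
  Y₀ : Sch k₀
  y₀ : Y₀ ⟶ pt k₀ F
  toI : Y₀ ⟶ Φ.I
  fibre : IsPullback toI y₀ Φ.toB η
  smooth : SmoothOfRelativeDimension W.n y₀.left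
  proper : IsProper y₀.left
  /-- `Y` is the geometric generic fibre -/
  toY₀ : W.X ⟶ Y₀
  isBaseChange : IsPullback toY₀ W.str y₀ (ptMap k₀ (IsScalarTower.toAlgHom k₀ F W.k))
  dim : W.n + 1 = 2 * V.n
  hasClass : V.HasClass W (toY₀ ≫ toI ≫ Φ.toZ)
  hasVanishing : V.HasVanishing W (toY₀ ≫ toI ≫ Φ.toZ)

end Pool.Agent.Lib.MP_4ca46c_ag.Sign
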