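import Pool.Agent.Lib.MP_4ca46c_ag.Sign.V1
import Pool.Agent.Lib.MP_4ca46c_ag.Sign.CompactConj

/-!
# From the compact form of the axioms to `WeilTheory`
-/

namespace Pool.Agent.Lib.MP_4ca46c_ag.Sign

open CategoryTheory Limits AlgebraicGeometry TensorProduct

variable {k₀ : Type} [Field k₀] {K : Type} [Field K]

/-- The theory of Chow groups. -/
noncomputable def CohData.chow (D : CohData k₀ K) (h : D.IsTheory) : ChowTheory k₀ where
  CH := D.CH
  ring := D.ring
  algebra := D.algebra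
  codim := D.codim
  one_mem := h.chow.codimMul.1
  mul_mem X p q a ha b hb := h.chow.codimMul.2 X p q a b ha hb
  pull := D.pull
  pull_mem f hX hY p a ha := h.chow.codimPull _ _ f hX hY p a ha
  pull_id hX a := h.chow.pullFunctor.1 _ hX a
  pull_comp f g hX hY hZ a := h.chow.pullFunctor.2 _ _ _ f g hX hY hZ a
  push := D.push
  push_mem x y f h1 h2 h3 h4 m n h5 h6 p q h7 a ha :=
    h.chow.codimPush _ _ _ x y f h1 h2 h3 h4 m n h5 h6 p q h7 a ha
  push_baseChange f f' g' g h1 h2 h3 h4 h5 h6 h7 a :=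
    h.chow.flatBaseChange _ _ _ _ f f' g' g h1 h2 h3 h4 h5 h6 h7 a
  pull_surjective_of_mono f h1 h2 h3 h4 h5 p a ha :=
    h.chow.restriction _ _ f h1 h2 h3 h4 h5 p a ha
  pull_surjective_of_affineBundle f h1 h2 h3 p a ha := h.chow.homotopy _ _ f h1 h2 h3 p a ha
  localization t x i j h1 h2 h3 h4 m c h5 h6 p a h7 h8 :=
    h.chow.localization _ _ _ _ t x i j h1 h2 h3 h4 m c h5 h6 p a h7 h8
  codim_zero X h1 h2 a ha := h.chow.codimZero X h1 h2 a ha
  norm x x' g h1 h2 p a ha := h.chow.norm _ _ _ _ x x' g h1 h2 p a ha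

/-- The Weil cohomology theory. -/
noncomputable def CohData.weil (D : CohData k₀ K) (h : D.IsTheory) : WeilTheory k₀ K where
  toChowTheory := D.chow h
  H := D.H
  ringH := D.ringH
  algebraH := D.algebraH
  deg := D.deg
  finite X hX := (h.weil.graded X hX).1
  internal X hX := (h.weil.graded X hX).2
  oneH_mem X hX := (h.weil.degMul X hX).1
  mulH_mem X hX i j u hu v hv := (h.weil.degMul X hX).2 i j u v hu hv
  comm X hX i j u hu v hv := h.weil.gradedComm X hX i j u v hu hv
  pullH := D.pullH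
  pullH_mem f hX hY i u hu := h.weil.degPull _ _ f hX hY i u hu
  pullH_id hX u := h.weil.pullHFunctor.1 _ hX u
  pullH_comp f g hX hY hZ u := h.weil.pullHFunctor.2 _ _ _ f g hX hY hZ u
  tr := D.tr
  tr_eq_zero x n hx i hi u hu := h.weil.traceDeg _ _ x n hx i hi u hu
  tr_iso f h1 h2 h3 u := h.weil.traceIso _ _ f h1 h2 h3 u
  poincare X hX u hu := h.weil.poincare X hX u hu
  kunneth x y p q m n hx hy hP := by
    obtain ⟨e, he⟩ := h.weil.kunnethFormula _ _ _ _ x y p q m n hx hy hP
    have key : TensorProduct.lift ((LinearMap.mul K (D.H _)).compl₁₂ (D.pullH p).toLinearMap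
        (D.pullH q).toLinearMap) = e.toLinearMap := TensorProduct.ext' fun u v => (he u v).symm
    rw [key]
    exact e.bijective
  tr_kunneth x y p q m n hx hy hP u v := h.weil.traceKunneth _ _ _ _ x y p q m n hx hy hP u v
  tr_pt := h.weil.tracePt _
  deg_zero X hX u hu := h.weil.degZero X hX u hu
  cl := D.cl
  cl_mem X hX p a ha := h.weil.degCl X hX p a ha
  cl_pull f hX hY a := h.weil.clPull _ _ f hX hY a
  cl_push x y f h1 m n h2 h3 a v := h.weil.clPush _ _ _ x y f h1 m n h2 h3 a v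
  tr_cl X hX a := h.weil.traceCl X hX a

namespace Polarized

variable {D : CohData k₀ K} (h : D.IsTheory) (V W : Polarized D)

/-- The polarised variety. -/
noncomputable def pvar : PVar (D.weil h) where
  k := V.k
  X := V.X
  str := V.str
  n := V.n
  isVar := V.isVar
  h := V.h
  h_mem := V.codim_h
  lefschetz_injective j hj u hu := (V.lefschetz j hj).1 u hu
  lefschetz_surjective j hj v hv := (V.lefschetz j hj).2 v hv

theorem kunnethConj_iff : V.KunnethConj ↔ (V.pvar h).KunnethConj := by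
  have hb : ∀ i j, V.box i j = (V.pvar h).box i j := fun i j => by
    rw [box, PVar.box]
    congr 1
    ext z
    constructor
    · rintro ⟨x, y, hx, hy, rfl⟩
      exact ⟨x, hx, y, hy, rfl⟩
    · rintro ⟨x, hx, y, hy, rfl⟩
      exact ⟨x, y, hx, hy, rfl⟩
  constructor
  · rintro ⟨a, h1, h2⟩
    refine ⟨a, fun i hi => ⟨(h1 i hi).1, ?_⟩, h2⟩
    have h3 := (h1 i hi).2
    rw [hb] at h3
    exact h3
  · rintro ⟨a, h1, h2⟩
    refine ⟨a, fun i hi => ⟨(h1 i hi).1, ?_⟩, h2⟩
    rw [hb]
    exact (h1 i hi).2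

theorem signConj_iff : V.SignConj ↔ (V.pvar h).SignConj := by
  have hb : ∀ i j, V.box i j = (V.pvar h).box i j := fun i j => by
    rw [box, PVar.box]
    congr 1
    ext z
    constructor
    · rintro ⟨x, y, hx, hy, rfl⟩
      exact ⟨x, hx, y, hy, rfl⟩
    · rintro ⟨x, hx, y, hy, rfl⟩
      exact ⟨x, y, hx, hy, rfl⟩
  rw [SignConj, PVar.SignConj, evenBox, oddBox]
  simp only [hb]
  exact ⟨fun ⟨a, h1, h2⟩ => ⟨a, h1, h2⟩, fun ⟨a, h1, h2⟩ => ⟨a, h1, h2⟩⟩

theorem lefschetzConj_iff : V.LefschetzConj ↔ (V.pvar h).LefschetzConj := by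
  have hz : ∀ (X : Sch k₀) (p : ℤ) (a : D.CH X), D.CodimZ p a ↔ a ∈ (D.chow h).codimZ X p := by
    intro X p a
    rw [CohData.CodimZ, ChowTheory.codimZ]
    by_cases hp : 0 ≤ p
    · rw [if_pos hp]
      exact ⟨fun h => h.elim (fun h => h.2) fun h => absurd h.1 (by omega),
        fun h => Or.inl ⟨hp, h⟩⟩
    · rw [if_neg hp]
      exact ⟨fun h => h.elim (fun h => absurd h.1 hp) fun h => h.2,
        fun h => Or.inr ⟨by omega, h⟩⟩
  constructor
  · rintro ⟨Λ, h1, a, ha, h2⟩
    refine ⟨Λ, fun i hi x hx hx' j hj => h1 i hi x hx hx' j hj, a, (hz _ _ _).1 ha, h2⟩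
  · rintro ⟨Λ, h1, a, ha, h2⟩
    refine ⟨Λ, fun i hi x hx hx' j hj => h1 i hi x hx hx' j hj, a, (hz _ _ _).2 ha, h2⟩

end Polarized

/-- The generic section. -/
noncomputable def Section.generic {D : CohData k₀ K} (h : D.IsTheory) {V W : Polarized D}
    (G : Section V W) : GenericSection (V.pvar h) (W.pvar h) :=
  letI := G.field
  letI := G.algebra₀
  letI := G.algebra
  letI := G.tower
  letI := G.algebraW
  letI := G.towerW
  letI := G.closure
  { F := G.F
    algebra := G.algebra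
    tower := G.tower
    algebraW := G.algebraW
    towerW := G.towerW
    closure := G.closure
    B := G.Φ.B
    b := G.Φ.b
    generic := G.η
    generic_over := G.isGeneric.comp
    generic_flat := G.isGeneric.flat
    generic_mono := G.isGeneric.mono
    generic_quasiCompact := G.isGeneric.quasiCompact
    I := G.Φ.I
    toZ := G.Φ.toZ
    toB := G.Φ.toB
    comm := G.Φ.comm
    mono := G.isSub
    U := G.complete.choose
    incl := G.complete.choose_spec.choose
    complement := G.complete.choose_spec.choose_spec.1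
    bundle := G.complete.choose_spec.choose_spec.2
    Y₀ := G.Y₀
    y₀ := G.y₀
    toI := G.toI
    fibre := G.fibre
    smooth := G.smooth
    proper := G.proper
    toY₀ := G.toY₀
    isBaseChange := G.isBaseChange
    dim := G.dim
    m := G.hasClass.choose
    m_pos := G.hasClass.choose_spec.1
    cls := G.hasClass.choose_spec.2
    i := G.hasVanishing.choose
    odd := G.hasVanishing.choose_spec.choose_spec.1
    y := G.hasVanishing.choose_spec.choose
    y_mem := G.hasVanishing.choose_spec.choose_spec.2.1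
    y_ne := G.hasVanishing.choose_spec.choose_spec.2.2.1
    vanishing := G.hasVanishing.choose_spec.choose_spec.2.2.2 }

theorem bridge (k₀ K : Type) [Field k₀] [IsAlgClosed k₀] [Field K] [CharZero K]
    (D : CohData k₀ K) (h : D.IsTheory) :
    (∀ V W : Polarized D, Section V W → W.SignConj → V.KunnethConj ∧ V.LefschetzConj) ∧
    ∀ 𝒱 : Set (Polarized D), (∀ V ∈ 𝒱, 0 < V.n → ∃ W ∈ 𝒱, Nonempty (Section V W)) →
      [∀ V ∈ 𝒱, V.SignConj, ∀ V ∈ 𝒱, V.KunnethConj, ∀ V ∈ 𝒱, V.LefschetzConj].TFAE := by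
  obtain ⟨h1, -⟩ := V1.result k₀ K (D.weil h)
  have hE := tEasy' k₀ K (D.weil h)
  have hL : ∀ V W : Polarized D, Section V W → W.SignConj →
      V.KunnethConj ∧ V.LefschetzConj := fun V W G hW => by
    rw [V.kunnethConj_iff h, V.lefschetzConj_iff h]
    exact h1 _ _ (G.generic h) ((W.signConj_iff h).1 hW)
  refine ⟨hL, fun 𝒱 h𝒱 => ?_⟩
  tfae_have 1 → 3 := by
    intro h2 V hV
    rcases Nat.eq_zero_or_pos V.n with h0 | h0
    · exact (V.lefschetzConj_iff h).2 ((hE (V.pvar h)).2.2 h0).2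
    · obtain ⟨W, hW, ⟨G⟩⟩ := h𝒱 V hV h0
      exact (hL V W G (h2 W hW)).2
  tfae_have 3 → 2 := fun h2 V hV => (V.kunnethConj_iff h).2
    ((hE (V.pvar h)).1 ((V.lefschetzConj_iff h).1 (h2 V hV)))
  tfae_have 2 → 1 := fun h2 V hV => (V.signConj_iff h).2
    ((hE (V.pvar h)).2.1 ((V.kunnethConj_iff h).1 (h2 V hV)))
  tfae_finish

end Pool.Agent.Lib.MP_4ca46c_ag.Sign
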