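import Pool.Agent.Lib.MP_4ca46c_ag.Sign.SpecC

/-!
# Lefschetz implies Künneth implies sign
-/

namespace Pool.Agent.Lib.MP_4ca46c_ag.Sign

open CategoryTheory Limits AlgebraicGeometry TensorProduct MonoidalCategory
  CartesianMonoidalCategory

variable (k₀ K : Type) [Field k₀] [Field K] [CharZero K]

theorem tEasy (h1 : StBC) (h2 : StOpV k₀ K) (h3 : StTrans k₀ K) : StEasy k₀ K := by
  intro T V
  have hO := h2 T V
  obtain ⟨-, hK, hS, -, hL⟩ := h3 T V
  refine ⟨fun h => ?_, fun h => ?_, fun hn => ?_⟩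
  · obtain ⟨Lam, hLam, hIs⟩ := hL.1 h
    exact hK.2 (h1 K V.HX V.n V.proj V.lef Lam V.opA hO.lef hO.ratA hO.L_mem hLam hIs)
  · have hp := hK.1 h
    refine hS.2 ?_
    rw [sgn]
    refine AddSubgroup.sum_mem _ fun i _ => ?_
    split_ifs
    · rw [one_smul]
      exact hp i
    · rw [show (-1 : K) • V.proj i = -V.proj i from neg_one_smul K (V.proj i)]
      exact AddSubgroup.neg_mem _ (hp i)
  · have h0 : ∀ i, i ≠ 0 → V.proj i = 0 := fun i hi => hO.lef.out i (by
      rw [hn]
      push_cast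
      omega)
    have h00 : V.proj 0 = 1 := by
      have h := hO.lef.sum
      rw [Finset.sum_eq_single (0 : ℤ) (fun i _ hi => h0 i hi) (fun h' => absurd
        (Finset.mem_Icc.2 ⟨le_rfl, by positivity⟩) h')] at h
      exact h
    refine ⟨hK.2 fun i => ?_, hL.2 ⟨0, AddSubgroup.zero_mem _, ?_⟩⟩
    · by_cases hi : i = 0
      · rw [hi, h00]
        exact hO.ratA.one
      · rw [h0 i hi]
        exact AddSubgroup.zero_mem _
    · intro i hi x _ _ j hj
      have hj0 : j = 0 := by omega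
      rw [if_pos hj0, LinearMap.zero_apply]

end Pool.Agent.Lib.MP_4ca46c_ag.Sign
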