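import Mathlib
import Pool.Agent.Lib.MP_4ca46c_ag.Sign.Prim
import Pool.Agent.Lib.MP_4ca46c_ag.Sign.Inj
import Pool.Agent.Lib.MP_4ca46c_ag.Sign.Surj
import Pool.Agent.Lib.MP_4ca46c_ag.Sign.AB
import Pool.Agent.Lib.MP_4ca46c_ag.Sign.Q
import Pool.Agent.Lib.MP_4ca46c_ag.Sign.K1
import Pool.Agent.Lib.MP_4ca46c_ag.Sign.K2
import Pool.Agent.Lib.MP_4ca46c_ag.Sign.E
import Pool.Agent.Lib.MP_4ca46c_ag.Sign.I
import Pool.Agent.Lib.MP_4ca46c_ag.Sign.Sgn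
import Pool.Agent.Lib.MP_4ca46c_ag.Sign.Span
import Pool.Agent.Lib.MP_4ca46c_ag.Sign.Ind
import Pool.Agent.Lib.MP_4ca46c_ag.Sign.Rat
import Pool.Agent.Lib.MP_4ca46c_ag.Sign.Lam
import Pool.Agent.Lib.MP_4ca46c_ag.Sign.BC

/-!
# The main theorem on operators
-/

namespace Pool.Agent.Lib.MP_4ca46c_ag.Sign

open Module TensorProduct LinearMap

theorem tMain : StMain := by
  intro K V _ _ _ _ _ n pr L A B w hO hw heven hodd
  have hsg : sgn n pr ∈ A 0 := tSgn tInj K V n pr L A B w hO hw heven hodd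
  obtain ⟨G, Z, hGpr, hGR, hZR, hS⟩ := tSpan K V n pr L A B hO hsg
  have hwZ : QInv Z L w := by
    refine ⟨?_, fun c hc => ?_⟩
    · rw [hZR]
      exact Submodule.subset_span hw
    · rw [hS.prZ, hGpr]
      exact heven c hc
  have hL : L ∈ G.R 1 := hS.L_mem
  have hlef : LefMod n G.pr L := hS.lef
  have hQ := tQ tInj (tSurj tPrim) tAB K V G Z n L w hS hwZ
  obtain ⟨x, hx1, hx2, hx3⟩ := tK1 K V G n L hlef hL hQ
  have hK : ∀ i, G.pr i ∈ G.R 0 := tK2 K V G n L hlef x hx1 hx2 hx3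
  have hE := tE tInj tAB K V G Z n L w hS hwZ hK
  have hI := tI K V G n L hlef hL hK hE
  rw [hGpr] at hlef
  have hR : ∀ i : ℕ, i < n → ∃ θ ∈ A (-((n - i : ℕ) : ℤ)), θ * L ^ (n - i) * pr i = pr i := by
    refine tRat K V n pr L A hlef hO.ratA hO.L_mem hO.trace fun i hi => ?_
    obtain ⟨g, hg, hg2⟩ := hI i hi
    rw [hGpr] at hg2
    rw [hGR] at hg
    exact ⟨g, hg, hg2⟩
  have hC : ∀ i, pr i ∈ A 0 := tInd K V n pr L A hlef hO.ratA hO.L_mem hR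
  exact ⟨hC, tLam K V n pr L A hlef hO.ratA hO.L_mem hC hR⟩

end Pool.Agent.Lib.MP_4ca46c_ag.Sign
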