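import Pool.Agent.Lib.MP_4ca46c_ag.Sign.SpecC

/-!
# Sign/Point: rational points over an algebraically closed field
-/

namespace Pool.Agent.Lib.MP_4ca46c_ag.Sign

open CategoryTheory Limits AlgebraicGeometry TensorProduct

variable (k₀ : Type) [Field k₀]

/-- A scheme which is locally of finite type over a field and nonempty has a closed point. -/
lemma point_closed {X : Scheme.{0}} {k : Type} [Field k] (f : X ⟶ Spec (.of k))
    [LocallyOfFiniteType f] (hX : Nonempty X) : ∃ y : X, IsClosed ({y} : Set X) := by
  have hJ : JacobsonSpace X := LocallyOfFiniteType.jacobsonSpace f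
  have h1 : (closure (closedPoints X)).Nonempty := by
    rw [closure_closedPoints]
    exact Set.univ_nonempty
  rw [closure_nonempty_iff] at h1
  obtain ⟨y, hy⟩ := h1
  exact ⟨y, hy⟩

/-- **A variety over an algebraically closed field has a rational point.** -/
theorem tPoint : StPoint k₀ := by
  intro k _ _ _ X x n hx hX
  have hp : IsProper x.left := hx.proper
  let f : X.left ⟶ Spec (CommRingCat.of k) := x.left
  have hf : LocallyOfFiniteType f := by
    have h1 : LocallyOfFiniteType x.left := inferInstance
    exact h1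
  obtain ⟨y, hy⟩ := point_closed f hX
  let p₀ : Spec (CommRingCat.of k) ⟶ X.left := pointOfClosedPoint f y hy
  have hp₀ : p₀ ≫ f = 𝟙 _ := pointOfClosedPoint_comp f y hy
  have hw : x.left ≫ (pt k₀ k).hom = X.hom := Over.w x
  refine ⟨Over.homMk p₀ ?_, ?_⟩
  · rw [← hw]
    change p₀ ≫ f ≫ (pt k₀ k).hom = (pt k₀ k).hom
    rw [← Category.assoc, hp₀]
    exact Category.id_comp _
  · apply Over.OverMorphism.ext
    exact hp₀

end Pool.Agent.Lib.MP_4ca46c_ag.Sign
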