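import Pool.Agent.Lib.MP_4ca46c_ag.Sign.Local

/-!
# The sign conjecture, the Künneth conjecture and the Lefschetz conjecture are equivalent

Let `T` be a Weil cohomology theory with Chow groups (`ChowTheory`, `WeilTheory`) for varieties
over algebraically closed fields of a given characteristic. If `Y` is a generic section
(`GenericSection`) of `X × X` and the even Künneth projector of `Y` is algebraic, then all Künneth
projectors of `X` are algebraic and the Lefschetz operator `Λ` of `X` is algebraic. Hence the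
conjectures `C⁺`, `C` and `B` are equivalent for every class of varieties which contains
a generic section of `X × X` for each `X` of positive dimension in the class.
-/

namespace Pool.Agent.Lib.MP_4ca46c_ag.Sign.V1

open Pool.Agent.Lib.MP_4ca46c_ag.Sign

theorem result (k₀ K : Type) [Field k₀] [IsAlgClosed k₀] [Field K] [CharZero K]
    (T : WeilTheory k₀ K) :
    (∀ V W : PVar T, GenericSection V W → W.SignConj → V.KunnethConj ∧ V.LefschetzConj) ∧
    ∀ 𝒱 : Set (PVar T),
      (∀ V ∈ 𝒱, 0 < V.n → ∃ W ∈ 𝒱, Nonempty (GenericSection V W)) →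
      [∀ V ∈ 𝒱, V.SignConj, ∀ V ∈ 𝒱, V.KunnethConj, ∀ V ∈ 𝒱, V.LefschetzConj].TFAE := by
  have hE := tEasy' k₀ K T
  refine ⟨fun V W G hW => tLocal k₀ K T V W G hW, fun 𝒱 h𝒱 => ?_⟩
  tfae_have 1 → 3 := by
    intro h V hV
    rcases Nat.eq_zero_or_pos V.n with h0 | h0
    · exact ((hE V).2.2 h0).2
    · obtain ⟨W, hW, ⟨G⟩⟩ := h𝒱 V hV h0
      exact (tLocal k₀ K T V W G (h W hW)).2
  tfae_have 3 → 2 := fun h V hV => (hE V).1 (h V hV)
  tfae_have 2 → 1 := fun h V hV => (hE V).2.1 (h V hV)
  tfae_finish

end Pool.Agent.Lib.MP_4ca46c_ag.Sign.V1
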